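import Mathlib

/-!
# MP_305fdd_al, Bianchi groups: general definitions

`GR α = F ⋊ ℤ` for an automorphism `α` of a free group `F = FreeGroup ι`; positive words, their paths in a set with an action of `F`, and the
conditions `Pos β w` on a positive automorphism `β` (`β x_i` is the positive word `w i`).
-/

set_option autoImplicit false

namespace Pool.Agent.F8.BG

/-! ### The groups `GR α` -/

section GR

variable {ι : Type} (α : MulAut (FreeGroup ι))

/-- `F ⋊ ℤ`, the generator of `ℤ` acts by `α` -/
abbrev GR {ι : Type} (α : MulAut (FreeGroup ι)) : Type :=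
  FreeGroup ι ⋊[zpowersHom (MulAut (FreeGroup ι)) α] Multiplicative ℤ

/-- the generator of `ℤ` -/
def tR : GR α := SemidirectProduct.inr (Multiplicative.ofAdd 1)

/-- the inclusion of `F` -/
def iR : FreeGroup ι →* GR α := SemidirectProduct.inl

/-- the projection to `ℤ` -/
def nR : GR α →* Multiplicative ℤ := SemidirectProduct.rightHom

theorem tR_conj (w : FreeGroup ι) : tR α * iR α w * (tR α)⁻¹ = iR α (α w) := by
  unfold tR iR
  rw [← map_inv, ← SemidirectProduct.inl_aut]
  congr 1

theorem tR_mul (w : FreeGroup ι) : tR α * iR α w = iR α (α w) * tR α := by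
  rw [← tR_conj]; group

theorem tR_zpow_conj (n : ℤ) (w : FreeGroup ι) :
    tR α ^ n * iR α w * (tR α ^ n)⁻¹ = iR α ((α ^ n) w) := by
  unfold tR iR
  rw [← map_zpow, ← map_inv, ← SemidirectProduct.inl_aut, ← ofAdd_zsmul]
  congr 2
  simp

theorem tR_pow_conj (n : ℕ) (w : FreeGroup ι) :
    tR α ^ n * iR α w * (tR α ^ n)⁻¹ = iR α ((α ^ n) w) := by
  have h := tR_zpow_conj α n w
  simpa only [zpow_natCast] using h

theorem nR_tR : nR α (tR α) = Multiplicative.ofAdd 1 := rfl
theorem nR_iR (w : FreeGroup ι) : nR α (iR α w) = 1 := rfl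

theorem nR_surjective : Function.Surjective (nR α) :=
  fun z => ⟨SemidirectProduct.inr z, rfl⟩

theorem iR_injective : Function.Injective (iR α) := SemidirectProduct.inl_injective

/-- every element of `GR α` is `w t ^ n` -/
theorem GR_cases (g : GR α) : ∃ (w : FreeGroup ι) (n : ℤ), g = iR α w * tR α ^ n := by
  refine ⟨g.left, Multiplicative.toAdd g.right, ?_⟩
  unfold tR iR
  rw [← map_zpow, ← ofAdd_zsmul]
  simp

theorem nR_eq (w : FreeGroup ι) (n : ℤ) :
    nR α (iR α w * tR α ^ n) = Multiplicative.ofAdd n := by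
  rw [map_mul, nR_iR, one_mul, map_zpow, nR_tR, ← ofAdd_zsmul]
  simp

theorem GR_ker (g : GR α) (h : nR α g = 1) : ∃ w : FreeGroup ι, g = iR α w := by
  obtain ⟨w, n⟩ := g
  have hn : n = 1 := h
  subst hn
  exact ⟨w, rfl⟩

variable {α} {Q : Type} [Group Q] (x : ι → Q) (s : Q)

theorem lift_aut (h : ∀ i, s * x i * s⁻¹ = FreeGroup.lift x (α (FreeGroup.of i)))
    (w : FreeGroup ι) : FreeGroup.lift x (α w) = s * FreeGroup.lift x w * s⁻¹ := by
  have h1 : (FreeGroup.lift x).comp α.toMonoidHom =
      (MulAut.conj s).toMonoidHom.comp (FreeGroup.lift x) := by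
    apply FreeGroup.ext_hom
    intro i
    show FreeGroup.lift x (α (FreeGroup.of i)) = s * FreeGroup.lift x (FreeGroup.of i) * s⁻¹
    rw [← h, FreeGroup.lift_apply_of]
  exact DFunLike.congr_fun h1 w

theorem lift_autZ (h : ∀ i, s * x i * s⁻¹ = FreeGroup.lift x (α (FreeGroup.of i)))
    (g : Multiplicative ℤ) :
    (FreeGroup.lift x).comp (zpowersHom (MulAut (FreeGroup ι)) α g).toMonoidHom =
      (MulAut.conj (zpowersHom Q s g)).toMonoidHom.comp (FreeGroup.lift x) := by
  have hi : ∀ w : FreeGroup ι, FreeGroup.lift x (α⁻¹ w) = s⁻¹ * FreeGroup.lift x w * s := by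
    intro w
    have := lift_aut x s h (α⁻¹ w)
    rw [MulAut.apply_inv_self] at this
    rw [this]; group
  have h2 : ∀ (n : ℤ) (w : FreeGroup ι), FreeGroup.lift x ((α ^ n) w) =
      s ^ n * FreeGroup.lift x w * (s ^ n)⁻¹ := by
    intro n
    induction n using Int.induction_on with
    | zero => intro w; simp
    | succ i ih =>
      intro w
      rw [zpow_add_one, MulAut.mul_apply, ih, lift_aut x s h, zpow_add_one]; group
    | pred i ih =>
      intro w
      rw [zpow_sub_one, MulAut.mul_apply, ih, hi, zpow_sub_one]; group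
  ext w
  exact h2 (Multiplicative.toAdd g) _

/-- the universal property of `GR α` -/
def liR (h : ∀ i, s * x i * s⁻¹ = FreeGroup.lift x (α (FreeGroup.of i))) : GR α →* Q :=
  SemidirectProduct.lift (FreeGroup.lift x) (zpowersHom Q s) (lift_autZ x s h)

variable {x s} (h : ∀ i, s * x i * s⁻¹ = FreeGroup.lift x (α (FreeGroup.of i)))

theorem liR_iR (w : FreeGroup ι) : liR x s h (iR α w) = FreeGroup.lift x w :=
  SemidirectProduct.lift_inl _ _ _ w

theorem liR_of (i : ι) : liR x s h (iR α (FreeGroup.of i)) = x i := by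
  rw [liR_iR, FreeGroup.lift_apply_of]

theorem liR_tR : liR x s h (tR α) = s := by
  unfold tR liR
  rw [SemidirectProduct.lift_inr, zpowersHom_apply]; simp

/-- homomorphisms on `GR α` are determined by their values on the generators -/
theorem homR_ext {f g : GR α →* Q} (hi : ∀ i, f (iR α (FreeGroup.of i)) = g (iR α (FreeGroup.of i)))
    (ht : f (tR α) = g (tR α)) : f = g := by
  apply SemidirectProduct.hom_ext
  · exact FreeGroup.ext_hom _ _ hi
  · ext
    exact ht

end GR

/-! ### Positive words -/

section Pos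

variable {ι : Type}

/-- the element of a positive word -/
def pw (l : List ι) : FreeGroup ι := (l.map FreeGroup.of).prod

@[simp] theorem pw_nil : pw ([] : List ι) = 1 := rfl
@[simp] theorem pw_cons (i : ι) (l : List ι) : pw (i :: l) = FreeGroup.of i * pw l := by
  simp [pw]
@[simp] theorem pw_append (l l' : List ι) : pw (l ++ l') = pw l * pw l' := by
  simp [pw]

/-- The edges of the path of the positive word `l` which starts in `v`; the edge `(v, i)` goes from `v` to `x_i⁻¹ v`. -/
def pe {V : Type} [MulAction (FreeGroup ι) V] : V → List ι → List (V × ι)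
  | _, [] => []
  | v, i :: l => (v, i) :: pe ((FreeGroup.of i)⁻¹ • v) l

@[simp] theorem pe_nil {V : Type} [MulAction (FreeGroup ι) V] (v : V) :
    pe v ([] : List ι) = [] := rfl
@[simp] theorem pe_cons {V : Type} [MulAction (FreeGroup ι) V] (v : V) (i : ι) (l : List ι) :
    pe v (i :: l) = (v, i) :: pe ((FreeGroup.of i)⁻¹ • v) l := rfl

theorem pe_append {V : Type} [MulAction (FreeGroup ι) V] (v : V) (l l' : List ι) :
    pe v (l ++ l') = pe v l ++ pe ((pw l)⁻¹ • v) l' := by
  induction l generalizing v with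
  | nil => simp
  | cons i l ih =>
    rw [List.cons_append, pe_cons, pe_cons, ih, pw_cons, mul_inv_rev, mul_smul, List.cons_append]

/-- The turns of the paths of the words `w i`, `w w i`, ..: `Turn w b a` says that `b`, `a` are consecutive letters of such a word. -/
inductive Turn (w : ι → List ι) : ι → ι → Prop
  | base (i b a : ι) (h : [b, a] <:+: w i) : Turn w b a
  | step (b a b' a' : ι) (h : Turn w b a) (hb : b' ∈ (w b).getLast?) (ha : a' ∈ (w a).head?) :
      Turn w b' a'

/-- A positive automorphism, irreducible, with connected graph of the turns. -/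
structure Pos (β : MulAut (FreeGroup ι)) (w : ι → List ι) : Prop where
  /-- `β x_i` is the word `w i` -/
  eq : ∀ i, β (FreeGroup.of i) = pw (w i)
  /-- irreducibility -/
  irr : ∀ i j, Relation.ReflTransGen (fun i j => j ∈ w i) i j
  /-- the graph of the turns is connected -/
  con : ∀ x y : ι ⊕ ι, Relation.EqvGen
    (fun x y => ∃ b a, x = Sum.inl b ∧ y = Sum.inr a ∧ Turn w b a) x y

/-- the vertices of the path of the word `L` which ends in `v` (`u = l v`, `l` a suffix of `L`) -/
def sv {V : Type} [MulAction (FreeGroup ι) V] (L : List (ι × Bool)) (v : V) : Set V :=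
  {u | ∃ l, l <:+ L ∧ u = FreeGroup.mk l • v}

/-- A finite core: a finite set which contains the vertices of all closed cyclically reduced paths. -/
def Core (ι V : Type) [MulAction (FreeGroup ι) V] (C : Set V) : Prop :=
  C.Finite ∧ ∀ L : List (ι × Bool), L ≠ [] → FreeGroup.IsCyclicallyReduced L →
    ∀ v : V, FreeGroup.mk L • v = v → sv L v ⊆ C

/-- `p` is not periodic -/
def NPer (α : MulAut (FreeGroup ι)) (p : FreeGroup ι) : Prop :=
  ∀ (j : ℕ) (g : FreeGroup ι), 1 ≤ j → (α ^ j) p ≠ g * p * g⁻¹

end Pos

end Pool.Agent.F8.BG
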