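import Pool.Agent.Lib.MP_305fdd_al.F8.PIC.Stm
import Pool.Agent.Lib.MP_305fdd_al.F8.BG.Defs

/-!
# MP_305fdd_al, Bianchi groups: quadratic rings, reductions, and the data of a subgroup `G₀ → F ⋊ ℤ`

`Qf a b R = R[w]`, `w² = a + b w`. `ℚ(√-2)`: `(a, b) = (-2, 0)`; `ℚ(√-11)`: `(a, b) = (-3, 1)`.
-/

set_option autoImplicit false

namespace Pool.Agent.F8.BG

open Pool.Agent.MP_305fdd_al Pool.Agent.Lib.MP_305fdd_al Pool.Agent.F8
open scoped QuadraticAlgebra

/-- `R[w]`, `w² = a + b w` (elements `⟨x, y⟩ = x + y w`) -/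
abbrev Qf (a b : ℤ) (R : Type) [CommRing R] : Type := QuadraticAlgebra R (a : R) (b : R)

section Q

variable {a b : ℤ}

/-- the generator `w` -/
def wq (a b : ℤ) (R : Type) [CommRing R] : Qf a b R := ⟨0, 1⟩

theorem wq_sq (a b : ℤ) (R : Type) [CommRing R] :
    wq a b R * wq a b R = (a : Qf a b R) + (b : Qf a b R) * wq a b R := by
  ext <;> simp [wq]

/-- base change -/
def Qfm (a b : ℤ) {R S : Type} [CommRing R] [CommRing S] (f : R →+* S) : Qf a b R →+* Qf a b S where
  toFun z := ⟨f z.re, f z.im⟩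
  map_one' := by ext <;> simp
  map_zero' := by ext <;> simp
  map_add' x y := by ext <;> simp
  map_mul' x y := by ext <;> simp

theorem Qfm_apply {R S : Type} [CommRing R] [CommRing S] (f : R →+* S) (z : Qf a b R) :
    Qfm a b f z = ⟨f z.re, f z.im⟩ := rfl

/-- evaluation at a root -/
def evq (a b : ℤ) {R S : Type} [CommRing R] [CommRing S] (f : R →+* S) (t : S)
    (ht : t * t = (a : S) + (b : S) * t) : Qf a b R →+* S where
  toFun z := f z.re + f z.im * t
  map_one' := by simp
  map_zero' := by simp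
  map_add' x y := by simp; ring
  map_mul' x y := by
    simp only [QuadraticAlgebra.re_mul, QuadraticAlgebra.im_mul, map_add, map_mul, map_intCast]
    linear_combination (-f x.im * f y.im) * ht

theorem evq_apply {R S : Type} [CommRing R] [CommRing S] (f : R →+* S) (t : S)
    (ht : t * t = (a : S) + (b : S) * t) (z : Qf a b R) :
    evq a b f t ht z = f z.re + f z.im * t := rfl

/-- the conjugation `w ↦ b - w` -/
def cjq (a b : ℤ) (R : Type) [CommRing R] : Qf a b R →+* Qf a b R where
  toFun z := ⟨z.re + b * z.im, -z.im⟩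
  map_one' := by ext <;> simp
  map_zero' := by ext <;> simp
  map_add' x y := by
    apply QuadraticAlgebra.ext
    · simp only [QuadraticAlgebra.re_add, QuadraticAlgebra.im_add]; ring
    · simp only [QuadraticAlgebra.im_add]; ring
  map_mul' x y := by
    apply QuadraticAlgebra.ext
    · simp only [QuadraticAlgebra.re_mul, QuadraticAlgebra.im_mul]; ring
    · simp only [QuadraticAlgebra.im_mul]; ring

theorem cjq_apply {R : Type} [CommRing R] (z : Qf a b R) :
    cjq a b R z = ⟨z.re + b * z.im, -z.im⟩ := rfl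

theorem cjq_cjq {R : Type} [CommRing R] (z : Qf a b R) : cjq a b R (cjq a b R z) = z := by
  rw [cjq_apply, cjq_apply]
  apply QuadraticAlgebra.ext
  · show z.re + b * z.im + b * -z.im = z.re
    ring
  · exact neg_neg _

/-- `SL₂(ℤ[w])` -/
abbrev GQ (a b : ℤ) : Type := SL2 (Qf a b ℤ)

/-- reduction modulo `m` -/
def rdq (a b : ℤ) (m : ℕ) : GQ a b →* SL2 (Qf a b (ZMod m)) :=
  SLm (Qfm a b (Int.castRingHom (ZMod m)))

/-- what we know about the representation `ρ : Λ → SL₂(ℤ[w])` -/
structure RhoQ {Λ : Type} [Group Λ] {a b : ℤ} (Φ : NatBij (GQ a b) Λ) (ρ : Λ →* GQ a b) : Prop where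
  /-- the congruence kernels correspond to each other -/
  ker : ∀ (m : ℕ) [NeZero m] (l : Λ), rdq a b m (ρ l) = 1 ↔ Φ.toFun _ (rdq a b m) l = 1
  /-- the image is dense for the congruence topology -/
  img : ∀ (m : ℕ) [NeZero m] (g : GQ a b), ∃ l, rdq a b m (ρ l) = rdq a b m g

/-- The properties of a homomorphism `G₀ → F ⋊ ℤ`, `G₀` a congruence subgroup of level `M`. The elements `c` and `g t` commute and are
parabolic, with the fixed point infinity. -/
structure EtaQ {a b : ℤ} {ι : Type} (α : MulAut (FreeGroup ι)) (M : ℕ) (c g : FreeGroup ι)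
    (G₀ : Subgroup (GQ a b)) (η : G₀ →* GR α) : Prop where
  /-- the kernel is `±1` -/
  ker : ∀ x, η x = 1 ↔ x.val = 1 ∨ x.val = -1
  /-- the image has finite index -/
  fin : η.range.FiniteIndex
  /-- the level -/
  lev : ∀ x : GQ a b, rdq a b M x = 1 → x ∈ G₀
  /-- the level is not zero -/
  ne : M ≠ 0
  /-- the peripheral subgroup -/
  par : ∀ x : G₀, η x ∈ Subgroup.closure {iR α c, iR α g * tR α} → x.val.val 1 0 = 0

/-- the image in `GR α` of the elements of `ρ(Λ)` in `G₀` -/
def HQ {a b : ℤ} {ι : Type} {α : MulAut (FreeGroup ι)} {G₀ : Subgroup (GQ a b)} {Λ : Type}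
    [Group Λ] (ρ : Λ →* GQ a b) (η : G₀ →* GR α) : Subgroup (GR α) :=
  (ρ.range.comap G₀.subtype).map η

/-- `c` is an element of a basis -/
def Prim {ι : Type} (c : FreeGroup ι) : Prop :=
  ∃ (θ : MulAut (FreeGroup ι)) (i : ι), θ (FreeGroup.of i) = c

end Q

end Pool.Agent.F8.BG
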