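import Pool.Agent.Lib.MP_305fdd_al.F8.BG.Tab
import Pool.Agent.Lib.MP_305fdd_al.F8.AB.DefsN2

/-!
# MP_305fdd_al, Bianchi groups: computing with matrices

`M4 R` is the type of quadruples `(a, b, c, d)`, a model of the matrices `[[a, b], [c, d]]` for computations by `decide`.
-/

set_option autoImplicit false

namespace Pool.Agent.F8.BG

open Pool.Agent.F8
open Pool.Agent.F8.G (SL_ext SL_mul SL_det SL_neg)
open Pool.Agent.F8.AB (mx)

/-- quadruples -/
abbrev M4 (R : Type) : Type := R × R × R × R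

namespace M4

variable {R : Type} [CommRing R]

/-- the product -/
def mul (x y : M4 R) : M4 R :=
  (x.1 * y.1 + x.2.1 * y.2.2.1, x.1 * y.2.1 + x.2.1 * y.2.2.2,
    x.2.2.1 * y.1 + x.2.2.2 * y.2.2.1, x.2.2.1 * y.2.1 + x.2.2.2 * y.2.2.2)

/-- the unit -/
def one : M4 R := (1, 0, 0, 1)

/-- the inverse of a matrix of determinant one -/
def inv (x : M4 R) : M4 R := (x.2.2.2, -x.2.1, -x.2.2.1, x.1)

/-- the negative -/
def neg (x : M4 R) : M4 R := (-x.1, -x.2.1, -x.2.2.1, -x.2.2.2)

/-- the quadruple of a matrix -/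
def of (g : SL2 R) : M4 R := (g.val 0 0, g.val 0 1, g.val 1 0, g.val 1 1)

theorem of_inj {g h : SL2 R} (e : of g = of h) : g = h := by
  unfold of at e
  simp only [Prod.mk.injEq] at e
  exact SL_ext e.1 e.2.1 e.2.2.1 e.2.2.2

theorem of_mul (g h : SL2 R) : of (g * h) = mul (of g) (of h) := by
  unfold of mul
  simp only [SL_mul]

theorem of_one : of (1 : SL2 R) = one := by
  unfold of one
  simp

theorem of_neg (g : SL2 R) : of (-g) = neg (of g) := by
  unfold of neg
  simp only [SL_neg]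

theorem of_inv (g : SL2 R) : of g⁻¹ = inv (of g) := by
  unfold of inv
  simp only [Matrix.SpecialLinearGroup.coe_inv, Matrix.adjugate_fin_two, Matrix.of_apply,
    Matrix.cons_val', Matrix.cons_val_zero, Matrix.cons_val_one, Matrix.cons_val_fin_one]

/-- the matrix of a quadruple -/
def mat (x : M4 R) (h : x.1 * x.2.2.2 - x.2.1 * x.2.2.1 = 1) : SL2 R :=
  mx x.1 x.2.1 x.2.2.1 x.2.2.2 h

theorem of_mat (x : M4 R) (h : x.1 * x.2.2.2 - x.2.1 * x.2.2.1 = 1) : of (mat x h) = x := rfl

/-- natural powers -/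
def npow (x : M4 R) : ℕ → M4 R
  | 0 => one
  | n + 1 => mul x (npow x n)

/-- powers -/
def zpow (x : M4 R) (n : ℤ) : M4 R :=
  match n with
  | Int.ofNat k => npow x k
  | Int.negSucc k => npow (inv x) (k + 1)

theorem of_pow (g : SL2 R) (n : ℕ) : of (g ^ n) = npow (of g) n := by
  induction n with
  | zero => rw [pow_zero, of_one]; rfl
  | succ n ih => rw [pow_succ', of_mul, ih]; rfl

theorem of_zpow (g : SL2 R) (n : ℤ) : of (g ^ n) = zpow (of g) n := by
  cases n with
  | ofNat k => rw [Int.ofNat_eq_natCast, zpow_natCast, of_pow]; rfl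
  | negSucc k => rw [zpow_negSucc, ← inv_pow, of_pow, of_inv]; rfl

/-- the value of a word -/
def wd {ι : Type} (X : ι → M4 R) (T : M4 R) (w : Wd ι) : M4 R :=
  mul (w.1.foldr (fun p m => mul (if p.2 then X p.1 else inv (X p.1)) m) one) (zpow T w.2)

theorem of_wd {ι : Type} {α : MulAut (FreeGroup ι)} (x : ι → SL2 R) (s : SL2 R)
    (h : ∀ i, s * x i * s⁻¹ = FreeGroup.lift x (α (FreeGroup.of i))) (w : Wd ι) :
    of (liR x s h (Wd.ev α w)) = wd (fun i => of (x i)) (of s) w := by
  unfold Wd.ev wd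
  rw [map_mul, map_zpow, liR_tR, liR_iR, of_mul, of_zpow]
  congr 1
  obtain ⟨L, n⟩ := w
  show of (FreeGroup.lift x (FreeGroup.mk L)) = _
  rw [FreeGroup.lift_mk]
  induction L with
  | nil => exact of_one
  | cons p L ih =>
    rw [List.map_cons, List.prod_cons, of_mul, ih, List.foldr_cons]
    congr 1
    obtain ⟨i, b⟩ := p
    cases b
    · exact of_inv _
    · rfl

end M4

end Pool.Agent.F8.BG
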