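import Pool.Agent.Lib.MP_305fdd_al.F8.BG.Defs

/-!
# MP_305fdd_al, Bianchi groups: INF, a criterion for a subgroup of `F ⋊ ℤ` to be of finite index

THEOREM (`S_inf`). Let `α` be an automorphism of the free group `F` of finite rank such that a power `α ^ N` is positive (`Pos`), `H` a subgroup of
`GR α = F ⋊ ℤ` such that `H ∩ F` is finitely generated, not contained in `F`, and `H ∩ F` contains an element which is not periodic (`NPer`).
Then the index of `H` is finite.

The proof. `V = GR α ⧸ H` with the action of `F` and `ψ = t ^ N`. A path in `V` which is positive and closed exists (`S_pos`); the edges of its images under the powers of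
`β` form a finite set `S` of edges (`S_i4`), because they lie in a finite core (`S_core`). `S` is mapped to itself (forward closed); counting the edges
of every letter gives that it is also backward closed (`S_i1`); looking at the turns we get that with an edge all the edges at its ends are in `S` (`S_i2`), so an orbit of `F` on `V` is finite, and `V` is
finite (`S_i3`).
-/

set_option autoImplicit false

namespace Pool.Agent.F8.BG

/-- [BG i1] backward closed.

Proof. For a letter `i` let `n i` be the number of the `v` with `(v, i) ∈ S`. If `w i = l ++ j :: l'` then `v ↦ u = (pw l)⁻¹ • ψ v` is injective and maps the `v` with `(v, i) ∈ S` to `u` with `(u, j) ∈ S`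
(`(u, j)` is in `pe (ψ v) (w i)`: `pe_append`, `pe_cons`). So `n i ≤ n j` for `j ∈ w i`, so all `n i` are equal by irreducibility, and the injection is a bijection. Let `e' ∈ pe (ψ v) (w i)`, `e' ∈ S`. Then
`w i = l ++ j :: l'`, `e' = ((pw l)⁻¹ • ψ v, j)` (induction on the word), and by the surjectivity `(pw l)⁻¹ • ψ v = (pw l)⁻¹ • ψ v'` with `(v', i) ∈ S`; so `v = v'`. -/
def S_i1 : Prop := ∀ (ι : Type) [Finite ι] (w : ι → List ι),
  (∀ i j, Relation.ReflTransGen (fun i j => j ∈ w i) i j) →
  ∀ (V : Type) [MulAction (FreeGroup ι) V] (ψ : Equiv.Perm V) (S : Set (V × ι)), S.Finite →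
  (∀ e ∈ S, ∀ e' ∈ pe (ψ e.1) (w e.2), e' ∈ S) →
  ∀ (v : V) (i : ι), ∀ e' ∈ pe (ψ v) (w i), e' ∈ S → (v, i) ∈ S

/-- [BG i2] the set of the edges is a union of orbits.

Proof. Claim: for `Turn w b a` and all `u : V`: `(x_b • u, b) ∈ S ↔ (u, a) ∈ S` (`x_b = FreeGroup.of b`; `(x_b • u, b)` is the edge with the letter `b` which ends in `u`). Base: `w i = l ++ b :: a :: l'`; let
`ψ v = pw l • x_b • u`. Both edges are in `pe (ψ v) (w i)`, so both statements are equivalent to `(v, i) ∈ S`. Step: let `u = ψ u'`, `w b = l ++ [b']`, `w a = a' :: l'`. The path of `w b` from `ψ (x_b • u')` ends in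
`(pw (w b))⁻¹ • ψ (x_b • u') = (β x_b)⁻¹ • β x_b • ψ u' = u`, so its last edge is `(x_b' • u, b')`, and it is in `S` iff `(x_b • u', b) ∈ S`; the first edge of the path of `w a` from `ψ u'` is `(u, a')`, in `S` iff
`(u', a) ∈ S`. For fixed `u` let `P (inl b)` be `(x_b • u, b) ∈ S`, `P (inr a)` be `(u, a) ∈ S`; by the claim and `Pos.con` all these are equivalent. So if `(v, i) ∈ S` then for all `j`: `(v, j) ∈ S` (both at
`u = v`), `(x_j • v, j) ∈ S`, and (`u = x_i⁻¹ • v`: `(x_i • u, i) ∈ S`) `(x_i⁻¹ • v, j) ∈ S`. So the set of the `g` such that for all `v`: (`(v, j) ∈ S` for all `j`) iff (`(g • v, j) ∈ S` for all `j`) is a subgroup which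
contains all `x_i`. -/
def S_i2 : Prop := ∀ (ι : Type) (β : MulAut (FreeGroup ι)) (w : ι → List ι), Pos β w →
  ∀ (V : Type) [MulAction (FreeGroup ι) V] (ψ : Equiv.Perm V),
  (∀ (g : FreeGroup ι) (v : V), ψ (g • v) = β g • ψ v) → ∀ S : Set (V × ι),
  (∀ (v : V) (i : ι), ∀ e' ∈ pe (ψ v) (w i), e' ∈ S ↔ (v, i) ∈ S) →
  ∀ (v : V) (i : ι), (v, i) ∈ S → ∀ (g : FreeGroup ι) (j : ι), (g • v, j) ∈ S

/-- [BG i3] a finite orbit of `F` implies that the index is finite.

Proof. `F` is normal in `GR α`, so `x • (F • v) = F • (x • v)`: all orbits of `F` on `V = GR α ⧸ H` are images of one, so they are finite. Let `x ∈ H`, `x = iR w * tR ^ k`, `k ≠ 0`, `o = H` the base point. Every element of `V` is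
`iR u * tR ^ n • o`, `n = k q + r`, `0 ≤ r < |k|`, and `tR ^ n = iR u' * tR ^ r * x ^ q` (same image under `nR`, `GR_ker`), so it is in the orbit of `tR ^ r • o`. So `V` is a finite union of finite orbits, `V` is finite
(`Subgroup.finiteIndex_of_finite_quotient`). -/
def S_i3 : Prop := ∀ (ι : Type) (α : MulAut (FreeGroup ι)) (H : Subgroup (GR α)),
  (∃ x ∈ H, nR α x ≠ 1) → ∀ v : GR α ⧸ H,
  (Set.range fun g : FreeGroup ι => iR α g • v).Finite → H.FiniteIndex

/-- [BG sv] the vertices of the path of a reduced word.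

Proof. It is enough to consider one step: `L = L₁ ++ (x, b) :: (x, !b) :: L₂`, `L' = L₁ ++ L₂`. A suffix of `L'` is a suffix of `L₂` (then of `L`) or `l ++ L₂` with `l` a suffix of `L₁`; in this case
`l ++ (x, b) :: (x, !b) :: L₂` is a suffix of `L` with the same element of `F`. -/
def S_sv : Prop := ∀ (ι V : Type) [MulAction (FreeGroup ι) V] (L L' : List (ι × Bool)),
  FreeGroup.Red L L' → ∀ v : V, sv L' v ⊆ sv L v

/-- [BG st] the paths of the elements of a finitely generated stabiliser. (Uses `S_sv`.)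

Proof. Let `T` be a finite set of generators of the stabiliser, closed under inverses, `C` the union of the `sv (s.toWord) v`, `s ∈ T`, and `{v}`; `sv L v` is finite (`L` has finitely many suffixes). Induction
(`Subgroup.closure_induction_left` or similar): for `s ∈ T` and `g` in the stabiliser `s.toWord ++ g.toWord` reduces to `(s * g).toWord` (`FreeGroup.toWord_mul`, `FreeGroup.reduce.red`), and `sv (L ++ L') v ⊆ sv L' v ∪ sv L (mk L' • v)`. -/
def S_st : Prop := ∀ (ι V : Type) [DecidableEq ι] [MulAction (FreeGroup ι) V] (v : V),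
  (MulAction.stabilizer (FreeGroup ι) v).FG →
  ∃ C : Set V, C.Finite ∧ ∀ g : FreeGroup ι, g • v = v → sv g.toWord v ⊆ C

/-- [BG cyc] closed cyclically reduced paths. (Uses `S_sv`.)

Proof. `g • v₀ = v`, `mk L • v = v`. For `n : ℕ` let `p_n = g⁻¹ * mk L ^ n * g`; it fixes `v₀`. Let `n = 2 |g| + 2` or so (`|g| = g.toWord.length`). The word `L^n = (List.replicate n L).flatten` is reduced (`IsCyclicallyReduced.flatten_replicate`), and
`L^n.toWord = g p_n g⁻¹` ... For the count: the reduced word of `g⁻¹ * mk (L^n) * g` is `A ++ M ++ B` where `L^n = A' ++ M ++ B'` with `A'`, `B'` of length at most `|g|` (the cancelled parts; general fact: for reduced words `X`, `Y` the reduced word of `X ++ Y`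
is `X' ++ Y'` with `X = X' ++ Z`, `Y = invRev Z ++ Y'`), so `M` contains `L ++ L` at a position which is a multiple of `|L|` if `n` is large; and `mk (M₂ ++ B) • v₀ = mk (M₂ ++ B') • v` for `M₂` a suffix of `M` (`mk (B) • v₀ = mk B' • g v₀`). So
`M = M₁ ++ L ++ M₂` with `M₂ ++ B' = L^k`, which fixes `v`; a suffix `l` of `L` gives the suffix `l ++ M₂ ++ B` of the reduced word, with the vertex `mk l • mk (L^k) • v = mk l • v`. -/
def S_cyc : Prop := ∀ (ι V : Type) [DecidableEq ι] [MulAction (FreeGroup ι) V] (v₀ : V) (C : Set V),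
  (∀ g : FreeGroup ι, g • v₀ = v₀ → sv g.toWord v₀ ⊆ C) →
  ∀ L : List (ι × Bool), L ≠ [] → FreeGroup.IsCyclicallyReduced L →
  ∀ (g : FreeGroup ι) (v : V), g • v₀ = v → FreeGroup.mk L • v = v → sv L v ⊆ C

/-- [BG core] a finite core. (Uses `S_st`, `S_cyc`.)

Proof. Let `R` be a finite set which meets all orbits; `C` is the union of the sets of `S_st` for `v₀ ∈ R`. -/
def S_core : Prop := ∀ (ι V : Type) [MulAction (FreeGroup ι) V],
  (∀ v : V, (MulAction.stabilizer (FreeGroup ι) v).FG) →
  (∃ R : Set V, R.Finite ∧ ∀ v : V, ∃ v₀ ∈ R, ∃ g : FreeGroup ι, g • v₀ = v) →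
  ∃ C : Set V, Core ι V C

/-- the number of sign changes -/
def sc : List Bool → ℕ
  | a :: b :: l => (if a = b then 0 else 1) + sc (b :: l)
  | _ => 0

/-- [BG sc1] sign changes and reduction.

Proof. One step: `L = L₁ ++ (x, b) :: (x, !b) :: L₂`. `sc (l ++ l') = sc l + sc l' + (1 if the last element of l and the first element of l' differ)` for `l, l' ≠ []`. -/
def S_sc1 : Prop := ∀ (ι : Type) (L L' : List (ι × Bool)), FreeGroup.Red L L' →
  sc (L'.map Prod.snd) ≤ sc (L.map Prod.snd)

/-- [BG sc2] long words have long monochrome subwords.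

Proof. Induction on `s`: `l = replicate k b ++ l'` with `l' = []` or `l' = (!b) :: l''` (then `sc l = sc l' + 1`); if `k ≤ m` then `l'` has length greater than `s * m`... -/
def S_sc2 : Prop := ∀ (s m : ℕ) (l : List Bool), sc l ≤ s → (s + 1) * m < l.length →
  ∃ b : Bool, List.replicate (m + 1) b <:+: l

/-- [BG sc3] a positive automorphism does not increase the number of sign changes. (Uses `S_sc1`.)

Proof. Let `L = p.toWord`, `L' = L.flatMap (fun (i, b) => if b then (w i).map (·, true) else ((w i).map (·, false)).reverse)`. `mk L' = β p` (both sides are multiplicative in `L`; `β x_i = pw (w i)`), so `L'` reduces to `(β p).toWord`. `sc` of `L'` is at most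
`sc` of `L`: every block is monochrome of the sign `b` (it may be empty). -/
def S_sc3 : Prop := ∀ (ι : Type) [DecidableEq ι] (β : MulAut (FreeGroup ι)) (w : ι → List ι),
  (∀ i, β (FreeGroup.of i) = pw (w i)) → ∀ p : FreeGroup ι,
  sc ((β p).toWord.map Prod.snd) ≤ sc (p.toWord.map Prod.snd)

/-- [BG pos] existence of a positive closed path. (Uses `S_sc2`, `S_sc3`.)

Proof. `p_n = (β ^ n) p` fixes `ψ^n v`. `s = sc (p.toWord.map Prod.snd)`, `m = |C|`. `c_n = reduceCyclically (p_n.toWord)`, `d_n = mk (conjugator (p_n.toWord))`: `p_n = d_n * mk c_n * d_n⁻¹` (`FreeGroup.reduceCyclically.conj_conjugator_reduceCyclically`), `c_n` is cyclically reduced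
(`reduceCyclically.isCyclicallyReduced`), not empty (`p ≠ 1`: otherwise `β p = p`), an infix of `p_n.toWord`, so its number of sign changes is at most `s` (`sc` of an infix is smaller; `S_sc3`, induction on `n`). (1) If all `c_n` have length at most
`(s + 1) * m` then `c_n = c_k` for some `n < k` (`ι` is finite), so `(β ^ k) p` is a conjugate of `(β ^ n) p`, and `(β ^ (k - n)) p` is a conjugate of `p` (`β ^ n` is an automorphism), contradiction. (2) If `c = c_n` is longer then by `S_sc2`
`c = l₁ ++ M ++ l₂` with `M` monochrome of length `m + 1`. The vertices `mk (l ++ l₂) • v'`, `l` a suffix of `M` (`v' = d_n⁻¹ • ψ^n v`) are in `C`; there are `m + 2` suffixes, so two of them, `l'` and `l'' = q' ++ l'` (`q' ≠ []`) have the same vertex `u`: `mk q' • u = u`.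
`mk q'` is `pw q` or `(pw q)⁻¹`. -/
def S_pos : Prop := ∀ (ι : Type) [Finite ι] (β : MulAut (FreeGroup ι)) (w : ι → List ι),
  (∀ i, β (FreeGroup.of i) = pw (w i)) → ∀ (V : Type) [MulAction (FreeGroup ι) V] (C : Set V),
  Core ι V C → ∀ ψ : Equiv.Perm V, (∀ (g : FreeGroup ι) (v : V), ψ (g • v) = β g • ψ v) →
  ∀ (v : V) (p : FreeGroup ι), p • v = v → NPer β p →
  ∃ (u : V) (q : List ι), q ≠ [] ∧ pw q • u = u

/-- [BG i4] the edges of the images of a positive closed path.

Proof. `q_0 = q`, `q_(n+1) = q_n.flatMap w`: `pw (q_(n+1)) = β (pw q_n)`, `q_n ≠ []` (`w i ≠ []` because `β x_i ≠ 1`). `S` is the set of the elements of the lists `pe (ψ^n u) q_n`, `n : ℕ`. Finite: the first component of an element of `pe (ψ^n u) q_n` is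
`(pw l)⁻¹ • ψ^n u` with `q_n = l ++ l'`, `l' ≠ []`, and this is `pw l' • ψ^n u` because `pw q_n` fixes `ψ^n u`; so it is in `sv (q_n.map (·, true)) (ψ^n u) ⊆ C` (`q_n.map (·, true)` is cyclically reduced). Forward closed:
`pe (ψ v) (l.flatMap w) = (pe v l).flatMap (fun e => pe (ψ e.1) (w e.2))` (induction on `l`; `pe_append`). -/
def S_i4 : Prop := ∀ (ι : Type) [Finite ι] (β : MulAut (FreeGroup ι)) (w : ι → List ι),
  (∀ i, β (FreeGroup.of i) = pw (w i)) → ∀ (V : Type) [MulAction (FreeGroup ι) V] (C : Set V),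
  Core ι V C → ∀ ψ : Equiv.Perm V, (∀ (g : FreeGroup ι) (v : V), ψ (g • v) = β g • ψ v) →
  ∀ (u : V) (q : List ι), q ≠ [] → pw q • u = u →
  ∃ S : Set (V × ι), S.Finite ∧ S.Nonempty ∧ ∀ e ∈ S, ∀ e' ∈ pe (ψ e.1) (w e.2), e' ∈ S

/-- [BG inf] MAIN RESULT of the block INF. (Uses `S_i1`, `S_i2`, `S_i3`, `S_core`, `S_pos`, `S_i4`.)

Proof. `V = GR α ⧸ H`, `g • v = iR α g • v` (`MulAction.compHom`), `β = α ^ N`, `ψ v = tR ^ N • v` (`tR_pow_conj`). The stabiliser of `x H` in `F` is the set of the `g` with `x⁻¹ iR(g) x ∈ H`, the image of `H.comap (iR α)` under an automorphism of `F` (conjugation with `x`), so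
it is finitely generated. Finitely many orbits: see `S_i3`. `S_core`. `S_pos` for `v = H` and the non-periodic element (`NPer (α ^ N)` follows from `NPer α`). `S_i4`, `S_i1`, `S_i2` (the set `S` is forward closed by `S_i4`, backward closed by `S_i1`): for `(v, i) ∈ S` all `(g • v, i)` are in the
finite set `S`, so the orbit of `v` is finite. `S_i3`. -/
def S_inf : Prop := ∀ (ι : Type) [Finite ι] (α : MulAut (FreeGroup ι)) (N : ℕ) (w : ι → List ι),
  1 ≤ N → Pos (α ^ N) w → ∀ H : Subgroup (GR α), (H.comap (iR α)).FG → (∃ x ∈ H, nR α x ≠ 1) →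
  (∃ p, iR α p ∈ H ∧ NPer α p) → H.FiniteIndex

end Pool.Agent.F8.BG
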