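import Pool.Agent.Lib.MP_305fdd_al.F8.BG.DefsQ
import Pool.Agent.Lib.MP_305fdd_al.F8.BG.StmI

/-!
# MP_305fdd_al, Bianchi groups: finite generation, finite index, surjectivity

GENERAL THEOREMS for `α` an automorphism of a free group of finite rank, `GQ a b = SL₂(ℤ[w])` (`w² = a + b w`, imaginary quadratic), and a
homomorphism `η : G₀ → GR α` (`EtaQ`). `S_fi`: the index of `ρ(Λ)` is finite; `S_con`: then `ρ` is surjective. The pieces are generalisations of the pieces of the same name in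
`F8/PIC/Stm.lean`, `F8/PIC7/StmG.lean`.
-/

set_option autoImplicit false

namespace Pool.Agent.F8.BG

open Pool.Agent.MP_305fdd_al Pool.Agent.Lib.MP_305fdd_al Pool.Agent.F8
open scoped QuadraticAlgebra

noncomputable section

/-! ## AFG: finite generation of the intersection with `F` -/

/-- [BG frm] a finiteness criterion for modules.

As `PIC/P_frm.lean` (docstring of `PIC.S_frm`), with a prime `q` and `c ≠ 0` instead of `3` and `-1`: `I = (q, τ - c)`. -/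
def S_frm : Prop := ∀ (q : ℕ) [Fact q.Prime] (c : ZMod q), c ≠ 0 →
  ∀ (B : Type) (τ : (B →₀ ℤ) ≃+ (B →₀ ℤ)) (S : Finset (B →₀ ℤ)),
  (∀ K : AddSubgroup (B →₀ ℤ), (∀ x ∈ S, x ∈ K) → (∀ x ∈ K, τ x ∈ K ∧ τ.symm x ∈ K) → K = ⊤) →
  (∀ f : (B →₀ ℤ) →+ ZMod q, (∀ x, f (τ x) = c * f x) → f = 0) → Finite B

/-- [BG frg] a finiteness criterion for free groups. (Uses `S_frm`.)

As `PIC/P_frg.lean`. -/
def S_frg : Prop := ∀ (q : ℕ) [Fact q.Prime] (c : ZMod q), c ≠ 0 →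
  ∀ (P : Type) [Group P], IsFreeGroup P → ∀ (τ : P ≃* P) (S : Finset P),
  (∀ K : Subgroup P, (∀ x ∈ S, x ∈ K) → (∀ x ∈ K, τ x ∈ K ∧ τ.symm x ∈ K) → K = ⊤) →
  (∀ f : P →* Multiplicative (ZMod q),
    (∀ x, Multiplicative.toAdd (f (τ x)) = c * Multiplicative.toAdd (f x)) → f = 1) → Group.FG P

/-- [BG afg] the intersection with `F` is finitely generated. (Uses `S_frg`.)

As `PIC/P_afg.lean`, `PIC7/P_afg.lean`: `P = H.comap (iR α)`, a free group; `nR` maps `H` onto the multiples of some `k ≥ 1` (`H` is not contained in `F`), `h ∈ H` with `n = k`, `τ x = h x h⁻¹`, `c = u ^ k`. If `f : P →* Multiplicative (ZMod q)` satisfies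
`f (τ x) = c f x`, then `f' (x h ^ m) = f x` (`x ∈ P`, `m ∈ ℤ`) satisfies the equation in the hypothesis. -/
def S_afg : Prop := ∀ (ι : Type) [Finite ι] (α : MulAut (FreeGroup ι)) (H : Subgroup (GR α)),
  H.FG → (∃ x ∈ H, nR α x ≠ 1) → ∀ (q : ℕ) [Fact q.Prime] (u : (ZMod q)ˣ),
  (∀ f : H → ZMod q, (∀ x y : H, f (x * y) = f x +
    (u ^ Multiplicative.toAdd (nR α (x : GR α)) : (ZMod q)ˣ).val * f y) →
    ∀ x : H, nR α (x : GR α) = 1 → f x = 0) → (H.comap (iR α)).FG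

/-! ## An element which is not periodic -/

/-- [BG bd] discreteness.

Proof. `a = e + b' ..`: let `D = b² + 4 a < 0`, `w₀ = (b + √D) / 2 ∈ ℂ` (`w₀² = a + b w₀`), `φ = evq a b (Int.castRingHom ℂ) w₀`. `|Im φ(x + y w)| = |y| √(-D) / 2` and `|Re φ(x + y w)| = |x + y b / 2|`; so there are finitely many `z` with `|φ z| ≤ B`. -/
def S_bd : Prop := ∀ a b : ℤ, b ^ 2 + 4 * a < 0 → ∃ (w₀ : ℂ) (h : w₀ * w₀ = (a : ℂ) + (b : ℂ) * w₀),
  Function.Injective (evq a b (Int.castRingHom ℂ) w₀ h) ∧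
  ∀ B : ℝ, {z : Qf a b ℤ | ‖evq a b (Int.castRingHom ℂ) w₀ h z‖ ≤ B}.Finite

/-- [BG par] commuting elements. (Uses `S_bd`.)

Proof. Let `φ` be as in `S_bd`, `x`, `y` the images of `X`, `Y` in `SL₂(ℂ)`. `tr x ≠ ±2`, so `x` has two different eigenvalues `l`, `l⁻¹`. `E = (x - l⁻¹) / (l - l⁻¹)`, `E' = 1 - E = (l - x) / (l - l⁻¹)` (matrices): `E E' = 0`, `E² = E`, `E'² = E'`,
`x = l E + l⁻¹ E'`, `E`, `E'` of rank one, `y E = E y = m E`, `y E' = m' E'` (`M A M = tr (A M) M` for a matrix `M` of rank one with `M² = M`), `m m' = det y = 1`. So `x^i y^j = l^i m^j E + l^-i m^-j E'`, with entries of absolute value at most `C (|l^i m^j| + |l^i m^j|⁻¹)`.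
If `|l| = 1`: the `X^i`, `i : ℕ`, have bounded entries, so `X^i = X^i'` for some `i ≠ i'` (`S_bd`), `n = 0`. If `|l| ≠ 1`: for every `j : ℕ` there is `i : ℤ` such that `|l^i m^j|` is between `1` and `max(|l|, |l|⁻¹)` (`exists_mem_Ico_zpow`), so the
matrices `X^i Y^j` lie in a finite set, two of them (with `j ≠ j'`) are equal. -/
def S_par : Prop := ∀ a b : ℤ, b ^ 2 + 4 * a < 0 → ∀ X Y : GQ a b, X * Y = Y * X →
  tr X ≠ 2 → tr X ≠ -2 → ∃ m n : ℤ, (m ≠ 0 ∨ n ≠ 0) ∧ X ^ m * Y ^ n = 1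

/-- [BG npr] an element of `H ∩ F` which is not periodic. (Uses `S_par`.)

Proof. By `RhoQ.img` (modulo `m M`) there are `X, Y ∈ ρ(Λ)` with `rdq (m M) X = rdq (m M) x₀`, `rdq (m M) Y = rdq (m M) y₀`; they are in `G₀` (`EtaQ.lev`: `X x₀⁻¹ ∈ G₀`). `Z = X Y X⁻¹ Y⁻¹ ∈ G₀` has trace `≠ ± 2` (modulo `m`), `η Z ∈ HQ ρ η` and `nR (η Z) = 1`, `η Z = iR p` (`GR_ker`).
Suppose `(α ^ j) p = g p g⁻¹`, `j ≥ 1`. Then `T = iR g⁻¹ * tR ^ j` commutes with `iR p` (`tR_pow_conj`). `T ^ k = η Y'` for some `k ≥ 1` (`EtaQ.fin`; `Subgroup.exists_pow_mem_of_index_ne_zero` or so). The commutator of `Y'` and `Z` is in the kernel of `η`, so it is `± 1`, and `Y' ^ 2` commutes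
with `Z`. `S_par` for `Z`, `Y' ^ 2`: `Z ^ m' * Y' ^ (2 n') = 1`. Apply `nR ∘ η`: `2 n' k j = 0`, so `n' = 0`, `m' ≠ 0`, `p ^ m' = 1`, `p = 1` (free groups are torsion free), `Z = ± 1` (`EtaQ.ker`), contradiction to the trace. -/
def S_npr : Prop := ∀ (a b : ℤ), b ^ 2 + 4 * a < 0 → ∀ (ι : Type) (α : MulAut (FreeGroup ι)) (M : ℕ)
  (c g : FreeGroup ι) (G₀ : Subgroup (GQ a b)) (η : G₀ →* GR α), EtaQ α M c g G₀ η →
  ∀ (Λ : Type) [Group Λ] (Φ : NatBij (GQ a b) Λ) (ρ : Λ →* GQ a b), RhoQ Φ ρ →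
  ∀ (m : ℕ) [NeZero m] (x₀ y₀ : G₀), tr (rdq a b m (x₀ * y₀ * x₀⁻¹ * y₀⁻¹ : G₀).val) ≠ 2 →
  tr (rdq a b m (x₀ * y₀ * x₀⁻¹ * y₀⁻¹ : G₀).val) ≠ -2 → ∃ p, iR α p ∈ HQ ρ η ∧ NPer α p

/-- [BG hq] first properties of `HQ ρ η`.

Proof. As `PIC7/P_h6.lean`. `G₀` has finite index (it contains the kernel of `rdq M`), `Λ` is finitely generated, so `ρ.range.comap G₀.subtype` is finitely generated (its image in `GQ` is `ρ.range ⊓ G₀`, of finite index in `ρ.range`), and `HQ ρ η` is finitely generated. Second: by `RhoQ.img` (modulo `m M`) there is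
`l` with `rdq (m M) (ρ l) = rdq (m M) x₀`, then `ρ l ∈ G₀` and `rdq m (ρ l) = rdq m x₀`. -/
def S_hq : Prop := ∀ (a b : ℤ) (ι : Type) (α : MulAut (FreeGroup ι)) (M : ℕ)
  (c g : FreeGroup ι) (G₀ : Subgroup (GQ a b)) (η : G₀ →* GR α), EtaQ α M c g G₀ η →
  ∀ (Λ : Type) [Group Λ] [Group.FG Λ] (Φ : NatBij (GQ a b) Λ) (ρ : Λ →* GQ a b), RhoQ Φ ρ →
  (HQ ρ η).FG ∧ ∀ (m : ℕ) [NeZero m] (x₀ : G₀),
    ∃ x : G₀, x.val ∈ ρ.range ∧ rdq a b m x.val = rdq a b m x₀.val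

/-- [BG fi] MAIN RESULT, finite index. (Uses `S_hq`, `S_afg`, `S_npr`, `S_inf`.)

Proof. `H = HQ ρ η`: finitely generated, not contained in `F` (`S_hq`, hypothesis `hn`). `S_afg`, `S_npr`, `S_inf`: `H` has finite index. Its preimage in `G₀` is `(ρ(Λ) ∩ G₀) {± 1}`, so `ρ(Λ) ∩ G₀` has finite index in `G₀`, and in `GQ`. -/
def S_fi : Prop := ∀ (a b : ℤ), b ^ 2 + 4 * a < 0 → ∀ (ι : Type) [Finite ι]
  (α : MulAut (FreeGroup ι)) (N : ℕ) (w : ι → List ι), 1 ≤ N → Pos (α ^ N) w →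
  ∀ (M : ℕ) (c g : FreeGroup ι) (G₀ : Subgroup (GQ a b)) (η : G₀ →* GR α), EtaQ α M c g G₀ η →
  (∃ (m : ℕ) (_ : NeZero m) (x₀ : G₀), ∀ x : G₀, rdq a b m x.val = rdq a b m x₀.val →
    nR α (η x) ≠ 1) →
  (∃ (m : ℕ) (_ : NeZero m) (x₀ y₀ : G₀), tr (rdq a b m (x₀ * y₀ * x₀⁻¹ * y₀⁻¹ : G₀).val) ≠ 2 ∧
    tr (rdq a b m (x₀ * y₀ * x₀⁻¹ * y₀⁻¹ : G₀).val) ≠ -2) →
  ∀ (Λ : Type) [Group Λ] [Group.FG Λ] (Φ : NatBij (GQ a b) Λ) (ρ : Λ →* GQ a b), RhoQ Φ ρ →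
  (∃ (q : ℕ) (_ : Fact q.Prime) (u : (ZMod q)ˣ), ∀ f : HQ ρ η → ZMod q,
    (∀ x y : HQ ρ η, f (x * y) = f x +
      (u ^ Multiplicative.toAdd (nR α (x : GR α)) : (ZMod q)ˣ).val * f y) →
    ∀ x : HQ ρ η, nR α (x : GR α) = 1 → f x = 0) →
  ρ.range.FiniteIndex

/-! ## The transfer of cocycles -/

/-- [BG mq] no cocycle on `H`, from the absence of cocycles on `G₀`.

Proof. As `PIC7/P_m5.lean`. `h : L₀ → HQ ρ η`, `l ↦ η (ρ l)`; `κ : L₀ →* Q2 (ZMod q)`, `l ↦ (u ^ n (h l), 1, ![f (h l), 0])`; `κ' = Ψ.invFun κ`. `Q2.mH ∘ κ' = 1` and `Q2.tH ∘ κ' = χ` by naturality. So `κ' y = 1` for all `y` with `(κ' y).t = 1`, and the same holds for `κ` (`NatBij.range_eq`). Let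
`x ∈ HQ ρ η` with `nR x = 1`; `x = η y`, `y = ρ l ∈ G₀`, so `l ∈ L₀`, `h l = x`, `(κ l).t = 1`, so `κ l = 1` and `f x = 0`. -/
def S_mq : Prop := ∀ (a b : ℤ) (ι : Type) (α : MulAut (FreeGroup ι)) (G₀ : Subgroup (GQ a b))
  (η : G₀ →* GR α) (Λ : Type) [Group Λ] (ρ : Λ →* GQ a b) (L₀ : Subgroup Λ)
  (hL : ∀ l, l ∈ L₀ ↔ ρ l ∈ G₀) (Ψ : NatBij G₀ L₀) (q : ℕ) [Fact q.Prime] (u : (ZMod q)ˣ)
  (χ : G₀ →* (ZMod q)ˣ),
  (∀ l : L₀, Ψ.toFun _ χ l = u ^ Multiplicative.toAdd (nR α (η ⟨ρ l, (hL l).1 l.2⟩))) →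
  (∀ κ : G₀ →* Q2 (ZMod q), Q2.mH.comp κ = 1 → Q2.tH.comp κ = χ → ∀ x, (κ x).t = 1 → κ x = 1) →
  ∀ f : HQ ρ η → ZMod q, (∀ x y : HQ ρ η, f (x * y) = f x +
      (u ^ Multiplicative.toAdd (nR α (x : GR α)) : (ZMod q)ˣ).val * f y) →
    ∀ x : HQ ρ η, nR α (x : GR α) = 1 → f x = 0

/-! ## HL: too many homomorphisms -/

/-- [BG ha] a cocycle, linear algebra.

Proof. For an automorphism `θ` and `i₀` with `θ x_(i₀) = c` let `z_i = θ x_i`, a basis of `F`; `s = iR g * tR`, `α' v = g * α v * g⁻¹` (so `s * iR v * s⁻¹ = iR (α' v)`, `α' c = c`). For `y ∈ ι → W` let `ζ_y : F → W` be the cocycle (`ζ (v v') = ζ v + σ v (ζ v')`) with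
`ζ_y (z_i) = y_i`, linear in `y`. For `(y, d) ∈ (ι → W) × W` put `E (y, d) i = d + σ s (y_i) - σ (α' z_i) d - ζ_y (α' z_i)`, a linear map `(ι → W) × W → (ι → W)`. `E` is not onto: `E (y, d) i₀ = d - σ c d + σ s y_(i₀) - y_(i₀)`, so `lam (E (y, d) i₀) = 0`, and `lam ≠ 0`.
So the kernel has dimension at least `dim W + 1`; the coboundaries `f ↦ (f - σ z_i f, f - σ s f)` have dimension at most `dim W`. So there is `(y, d)` in the kernel which is not of this form; it defines a cocycle on `GR α` (`liR` for the automorphism, with values in the group of the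
affine transformations `Perm W × (Module.End k W)ˣ` or so; see `PIC/P_ha.lean`), which is not a coboundary. -/
def S_ha : Prop := ∀ (ι : Type) [Finite ι] (α : MulAut (FreeGroup ι)) (c g : FreeGroup ι),
  Prim c → g * α c * g⁻¹ = c → ∀ (k W : Type) [Field k] [AddCommGroup W]
  [Module k W] [FiniteDimensional k W] (σ : GR α →* Module.End k W) (lam : W →ₗ[k] k), lam ≠ 0 →
  (∀ x, lam (σ (iR α c) x) = lam x) → (∀ x, lam (σ (iR α g * tR α) x) = lam x) →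
  ∃ z : GR α → W, (∀ g h, z (g * h) = z g + σ g (z h)) ∧ ¬ ∃ f : W, ∀ g, z g = f - σ g f

/-- [BG hl1] a cocycle for permutations. (Uses `S_ha`.)

Proof. As `PIC/P_hl1.lean`. `k = ZMod p`, `W` = the space of the functions `X → k` with sums zero over the fibres of `π`, `(g f) x = f (g⁻¹ x)`, `P₀ = closure {iR c, iR g * tR}`, `O₁ = P₀ x₁`, `lam f = ∑_(x ∈ O₁) f x`, invariant under `P₀`. `x₂ ∉ O₁`: if `q x₁ = x₂`, `q ∈ P₀`, then `q` fixes `π x₁`, so it fixes `x₁`. So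
`lam ≠ 0`: `lam (δ_(x₁) - δ_(x₂)) = 1`. -/
def S_hl1 : Prop := ∀ (ι : Type) [Finite ι] (α : MulAut (FreeGroup ι)) (c g : FreeGroup ι),
  Prim c → g * α c * g⁻¹ = c → ∀ (X Y : Type) [Fintype X] [Fintype Y]
  [DecidableEq Y] [MulAction (GR α) X] [MulAction (GR α) Y] (π : X → Y),
  (∀ (g : GR α) (x : X), π (g • x) = g • π x) → ∀ (p : ℕ) [Fact p.Prime],
  ∀ x₁ x₂ : X, x₁ ≠ x₂ → π x₁ = π x₂ →
  (∀ q ∈ Subgroup.closure {iR α c, iR α g * tR α},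
    q • π x₁ = π x₁ → ∀ x, π x = π x₁ → q • x = x) →
  ∃ z : GR α → X → ZMod p, (∀ g h x, z (g * h) x = z g x + z h (g⁻¹ • x)) ∧
    (∀ g y, ∑ x ∈ Finset.univ.filter (fun x => π x = y), z g x = 0) ∧
    ¬ ∃ f : X → ZMod p, (∀ y, ∑ x ∈ Finset.univ.filter (fun x => π x = y), f x = 0) ∧
      ∀ g x, z g x = f x - f (g⁻¹ • x)

/-- [BG con] MAIN RESULT, surjectivity. (Uses `S_hl1`, `PIC.S_hl2`.)

As `PIC7/P_con.lean`: `M' = M * d!` (times `3`), `N = ker (rdq M') ≤ G₀`; the image of `η` has finite index; the units of `ℤ[w]` are `± 1` (`hu`; `1 ≠ -1` modulo `M'`). Transitivity of `GR α` on `X = GR α ⧸ H''`; `x₁ = H''`, `x₂ = η(n₀) H''`. -/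
def S_con : Prop := ∀ (a b : ℤ), (∀ u : (Qf a b ℤ)ˣ, u = 1 ∨ u = -1) → ∀ (ι : Type) [Finite ι]
  (α : MulAut (FreeGroup ι)) (M : ℕ) (c g : FreeGroup ι) (G₀ : Subgroup (GQ a b))
  (η : G₀ →* GR α), EtaQ α M c g G₀ η → Prim c → g * α c * g⁻¹ = c →
  ∀ (Λ : Type) [Group Λ] [Group.FG Λ] (Φ : NatBij (GQ a b) Λ) (ρ : Λ →* GQ a b), RhoQ Φ ρ →
  ρ.range.FiniteIndex → Function.Surjective ρ

/-! ## Conjugation -/

/-- [BG X3] two representations over a local ring with the same character are conjugate if one of them has `mU 1` and `mB` in the image.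

As `PIC7/P_X3.lean` (residue field with two elements); here `R` is any local ring. Proof. Let `r l₁ = mU 1`, `r l₂ = mB`, `N = r' l₁ - 1`: `N² = 0` (trace `2`). `N` is not zero modulo the maximal ideal: otherwise `tr (r' l₁ r' l₂) = tr (r' l₂)` modulo the maximal ideal, but
`tr (mU 1 * mB) = 1`, `tr mB = 0`. So there is a basis vector `v` with `N v` not zero modulo the maximal ideal, and then `(N v, v)` is a basis (in the residue field `N v` is in the kernel of `N` and `v` is not; the determinant is a unit). In this basis `r' l₁ = mU 1`, `r' l₂ = [[x, y], [1, -x]]`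
(`tr (mU 1 * r' l₂) = 1`), and after conjugation with `[[1, x], [0, 1]]^(± 1)` `r' l₂ = mB`. For all `l` the traces of `r' l`, `r' (l l₁)`, `r' (l l₂)`, `r' (l l₁ l₂)` are those of `r`, and `1, mU 1, mB, mU 1 * mB` span the matrices over `R`, so `r' l = r l`. -/
def S_X3 : Prop := ∀ (R : Type) [CommRing R] [IsLocalRing R] (Λ : Type) [Group Λ]
  (r r' : Λ →* SL2 R), (∀ l, tr (r' l) = tr (r l)) → (∃ l, r l = mU 1) → (∃ l, r l = mB _) →
  ∃ C D : Matrix (Fin 2) (Fin 2) R, C * D = 1 ∧ D * C = 1 ∧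
    ∀ l, (r l).val = C * (r' l).val * D

end

end Pool.Agent.F8.BG
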