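import Pool.Agent.Lib.MP_305fdd_al.F8.BG.StmC

/-!
# MP_305fdd_al, Bianchi groups, piece mq: the transfer of cocycles
-/

set_option autoImplicit false

namespace Pool.Agent.F8.BG

open Pool.Agent.MP_305fdd_al Pool.Agent.Lib.MP_305fdd_al Pool.Agent.F8

theorem p_mq : S_mq := by
  intro a b ι α G₀ η Λ _ ρ L₀ hL Ψ q _ u χ hχ hno f hf x hx
  obtain ⟨sn, hsn⟩ : ∃ sn : GR α → (ZMod q)ˣ,
      ∀ x, sn x = u ^ Multiplicative.toAdd (nR α x) := ⟨_, fun _ => rfl⟩
  have hsm : ∀ x y : GR α, sn (x * y) = sn x * sn y := by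
    intro x y
    rw [hsn, hsn, hsn, map_mul, toAdd_mul, zpow_add]
  have hs1 : sn 1 = 1 := by
    have h3 := hsm 1 1
    rw [mul_one] at h3
    exact left_eq_mul.1 h3
  have hf' : ∀ x y : HQ ρ η, f (x * y) = f x + (sn (x : GR α)).val * f y := by
    intro x y
    rw [hsn]
    exact hf x y
  -- the homomorphisms
  let φ : L₀ →* G₀ := (ρ.comp L₀.subtype).codRestrict G₀ fun l => (hL l).1 l.2
  have hφ : ∀ l : L₀, φ l = ⟨ρ l, (hL l).1 l.2⟩ := fun l => rfl
  let h : L₀ →* HQ ρ η := (η.comp φ).codRestrict (HQ ρ η) fun l => ⟨φ l, ⟨l, rfl⟩, rfl⟩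
  have hh : ∀ l : L₀, (h l : GR α) = η (φ l) := fun l => rfl
  have hf1 : f 1 = 0 := by
    have h1 := hf' 1 1
    have h2 : sn ((1 : HQ ρ η) : GR α) = 1 := hs1
    rw [h2, mul_one, Units.val_one, one_mul] at h1
    exact left_eq_add.1 h1
  let κ : L₀ →* Q2 (ZMod q) :=
    { toFun := fun l => ⟨sn (h l), 1, ![f (h l), 0]⟩
      map_one' := by
        apply Q2.ext
        · show sn ((h 1 : HQ ρ η) : GR α) = 1
          rw [map_one]
          exact hs1
        · rfl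
        · show ![f (h 1), 0] = 0
          rw [map_one, hf1]
          ext i
          fin_cases i <;> rfl
      map_mul' := by
        intro a b
        apply Q2.ext
        · show sn ((h (a * b) : HQ ρ η) : GR α) = sn (h a) * sn (h b)
          rw [map_mul, Subgroup.coe_mul, hsm]
        · exact (one_mul _).symm
        · rw [Q2.mul_v]
          show ![f (h (a * b)), 0] = ![f (h a), 0] +
            (sn (h a)).val • (1 : SL2 (ZMod q)).val.mulVec ![f (h b), 0]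
          rw [map_mul, hf']
          ext i
          fin_cases i
          · simp
          · simp }
  let κ' : G₀ →* Q2 (ZMod q) := Ψ.invFun _ κ
  have hκ' : Ψ.toFun _ κ' = κ := Ψ.right_inv _ κ
  -- the matrix part
  have hm : Q2.mH.comp κ' = 1 := by
    apply Ψ.injective
    rw [Ψ.nat, hκ', Ψ.one]
    rfl
  -- the scalar part
  have ht : Q2.tH.comp κ' = χ := by
    apply Ψ.injective
    rw [Ψ.nat, hκ']
    refine DFunLike.ext _ _ fun l => ?_
    show sn (η (φ l)) = Ψ.toFun _ χ l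
    rw [hχ, hsn, hφ]
  have hfin := hno κ' hm ht
  -- the conclusion
  obtain ⟨x, y, ⟨l, hl⟩, rfl⟩ := x
  have hl' : ρ l = (y : GQ a b) := hl
  have hlm : l ∈ L₀ := (hL l).2 (by rw [hl']; exact y.2)
  have hφl : φ ⟨l, hlm⟩ = y := Subtype.ext hl'
  have hmem : κ ⟨l, hlm⟩ ∈ κ'.range := by
    rw [← Ψ.range_eq κ', hκ']
    exact ⟨_, rfl⟩
  obtain ⟨z, hz⟩ := hmem
  have h1 : (κ ⟨l, hlm⟩).t = 1 := by
    show sn (η (φ ⟨l, hlm⟩)) = 1
    rw [hφl, hsn, show nR α (η y) = 1 from hx, toAdd_one, zpow_zero]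
  have h2 : κ ⟨l, hlm⟩ = 1 := by
    rw [← hz]
    apply hfin
    rw [hz]
    exact h1
  have h3 : f (h ⟨l, hlm⟩) = 0 := congrFun (congrArg Q2.v h2) 0
  have h4 : h ⟨l, hlm⟩ = ⟨η y, ⟨y, ⟨l, hl⟩, rfl⟩⟩ := Subtype.ext (by rw [hh, hφl])
  rw [h4] at h3
  exact h3

end Pool.Agent.F8.BG
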