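import Pool.Agent.Lib.MP_305fdd_al.F8.PIC7.Defs
import Pool.Agent.Lib.MP_305fdd_al.F8.BG.DefsQ

/-!
# MP_305fdd_al, Bianchi groups: definitions for the blocks U and T

`GQ a b = SL₂(ℤ[w])`, `w² = a + b w`, where `w ↦ u` is a homomorphism to `ZMod 3` (so `3` splits if `2 u ≠ b`).
`r3 u hu` is the reduction `w ↦ u`, `P3 u hu = Γ₁` of the corresponding prime ideal. The two roots `u` and `b - u` give the two subgroups of
Property P (`PIC7.Pt2`, `PIC7.GdP`).
-/

set_option autoImplicit false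

namespace Pool.Agent.F8.BG

open Pool.Agent.MP_305fdd_al Pool.Agent.Lib.MP_305fdd_al Pool.Agent.F8 Pool.Agent.F8.HN
open scoped QuadraticAlgebra

section

variable {a b : ℤ}

/-- the other root -/
theorem rt_cj {R : Type} [CommRing R] {t : R} (ht : t * t = (a : R) + (b : R) * t) :
    ((b : R) - t) * ((b : R) - t) = (a : R) + (b : R) * ((b : R) - t) := by
  linear_combination ht

/-- the norm of `re + im w` -/
def nq {R : Type} [CommRing R] (z : Qf a b R) : R := z.re ^ 2 + b * z.re * z.im - a * z.im ^ 2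

theorem mul_cjq {R : Type} [CommRing R] (z : Qf a b R) : z * cjq a b R z = ⟨nq z, 0⟩ := by
  rw [cjq_apply]
  apply QuadraticAlgebra.ext
  · rw [QuadraticAlgebra.re_mul]
    show z.re * (z.re + b * z.im) + a * z.im * -z.im = nq z
    unfold nq
    ring
  · rw [QuadraticAlgebra.im_mul]
    show z.re * -z.im + z.im * (z.re + b * z.im) + b * z.im * -z.im = 0
    ring

theorem nq_mul {R : Type} [CommRing R] (x y : Qf a b R) : nq (x * y) = nq x * nq y := by
  unfold nq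
  rw [QuadraticAlgebra.re_mul, QuadraticAlgebra.im_mul]
  ring

theorem nq_cjq {R : Type} [CommRing R] (z : Qf a b R) : nq (cjq a b R z) = nq z := by
  unfold nq
  rw [cjq_apply]
  ring

theorem nq_nonneg (hn : b ^ 2 + 4 * a < 0) (z : Qf a b ℤ) : 0 ≤ nq z := by
  have h : 4 * nq z = (2 * z.re + b * z.im) ^ 2 + (-(b ^ 2 + 4 * a)) * z.im ^ 2 := by
    unfold nq
    simp only [Int.cast_id]
    ring
  have h1 : 0 ≤ (-(b ^ 2 + 4 * a)) * z.im ^ 2 := mul_nonneg (by linarith) (sq_nonneg _)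
  nlinarith [sq_nonneg (2 * z.re + b * z.im)]

theorem nq_eq_zero (hn : b ^ 2 + 4 * a < 0) {z : Qf a b ℤ} (h0 : nq z = 0) : z = 0 := by
  have h : 4 * nq z = (2 * z.re + b * z.im) ^ 2 + (-(b ^ 2 + 4 * a)) * z.im ^ 2 := by
    unfold nq
    simp only [Int.cast_id]
    ring
  have h1 : 0 ≤ (-(b ^ 2 + 4 * a)) * z.im ^ 2 := mul_nonneg (by linarith) (sq_nonneg _)
  have h2 : (-(b ^ 2 + 4 * a)) * z.im ^ 2 = 0 := by
    nlinarith [sq_nonneg (2 * z.re + b * z.im)]
  have h3 : z.im = 0 := by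
    rcases mul_eq_zero.1 h2 with h4 | h4
    · omega
    · exact pow_eq_zero_iff two_ne_zero |>.1 h4
  have h5 : z.re = 0 := by
    rw [h0, h3] at h
    have h6 : z.re ^ 2 = 0 := by nlinarith
    exact pow_eq_zero_iff two_ne_zero |>.1 h6
  exact QuadraticAlgebra.ext h5 h3

theorem Qf_domain (hn : b ^ 2 + 4 * a < 0) : IsDomain (Qf a b ℤ) := by
  have : Nontrivial (Qf a b ℤ) := ⟨0, 1, fun h => by
    have := congrArg QuadraticAlgebra.re h
    simp at this⟩
  have : NoZeroDivisors (Qf a b ℤ) := ⟨fun {x y} h => by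
    have h1 := congrArg nq h
    rw [nq_mul] at h1
    have h2 : nq (0 : Qf a b ℤ) = 0 := by
      unfold nq
      simp
    rw [h2] at h1
    rcases mul_eq_zero.1 h1 with h3 | h3
    · exact Or.inl (nq_eq_zero hn h3)
    · exact Or.inr (nq_eq_zero hn h3)⟩
  exact NoZeroDivisors.to_isDomain _

instance : CharZero (Qf a b ℤ) where
  cast_injective m n h := by
    have := congrArg QuadraticAlgebra.re h
    simpa using this

/-- `w ↦ f b + (1 - 2 f) w`, `f² = f`: the identity for `f = 0`, the conjugation for `f = 1` -/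
def sgq {R : Type} [CommRing R] (f : R) (hf : f * f = f) : Qf a b R →+* Qf a b R where
  toFun z := ⟨z.re + b * f * z.im, (1 - 2 * f) * z.im⟩
  map_one' := by
    apply QuadraticAlgebra.ext
    · simp
    · simp
  map_zero' := by
    apply QuadraticAlgebra.ext
    · simp
    · simp
  map_add' x y := by
    apply QuadraticAlgebra.ext
    · simp only [QuadraticAlgebra.im_add, QuadraticAlgebra.re_add]; ring
    · simp only [QuadraticAlgebra.im_add]; ring
  map_mul' x y := by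
    apply QuadraticAlgebra.ext
    · simp only [QuadraticAlgebra.re_mul, QuadraticAlgebra.im_mul]
      linear_combination (-(b ^ 2 + 4 * a) * x.im * y.im : R) * hf
    · simp only [QuadraticAlgebra.im_mul]
      ring

theorem sgq_apply {R : Type} [CommRing R] (f : R) (hf : f * f = f) (z : Qf a b R) :
    sgq f hf z = ⟨z.re + b * f * z.im, (1 - 2 * f) * z.im⟩ := rfl

theorem sgq_sgq {R : Type} [CommRing R] (f : R) (hf : f * f = f) (z : Qf a b R) :
    sgq f hf (sgq f hf z) = z := by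
  rw [sgq_apply, sgq_apply]
  apply QuadraticAlgebra.ext
  · show z.re + b * f * z.im + b * f * ((1 - 2 * f) * z.im) = z.re
    linear_combination (-2 * b * z.im) * hf
  · show (1 - 2 * f) * ((1 - 2 * f) * z.im) = z.im
    linear_combination (4 * z.im) * hf

/-- the Galois conjugation of `GQ a b` -/
def cGq (a b : ℤ) : GQ a b →* GQ a b := SLm (cjq a b ℤ)

theorem cGq_cGq (g : GQ a b) : cGq a b (cGq a b g) = g := by
  apply G.SL_ext <;> exact cjq_cjq _

/-- the reduction `w ↦ u` modulo `3` -/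
def r3 (u : ZMod 3) (hu : u * u = (a : ZMod 3) + (b : ZMod 3) * u) : GQ a b →* SL2 (ZMod 3) :=
  SLm (evq a b (Int.castRingHom (ZMod 3)) u hu)

theorem r3_cG (u : ZMod 3) (hu : u * u = (a : ZMod 3) + (b : ZMod 3) * u) (g : GQ a b) :
    r3 u hu (cGq a b g) = r3 ((b : ZMod 3) - u) (rt_cj hu) g := by
  have h : ∀ z : Qf a b ℤ, evq a b (Int.castRingHom (ZMod 3)) u hu (cjq a b ℤ z) =
      evq a b (Int.castRingHom (ZMod 3)) ((b : ZMod 3) - u) (rt_cj hu) z := by
    intro z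
    rw [cjq_apply, evq_apply, evq_apply]
    simp only [map_add, map_mul, map_neg]
    have h1 : (Int.castRingHom (ZMod 3)) ((b : ℤ) : ℤ) = (b : ZMod 3) := rfl
    have h2 : (Int.castRingHom (ZMod 3)) (((b : ℤ) : ℤ) : ℤ) = (b : ZMod 3) := rfl
    simp only [Int.cast_id, h1]
    ring
  apply G.SL_ext <;> exact h _

/-- `Γ₁` of the prime ideal `(3, w - u)` -/
def P3 (u : ZMod 3) (hu : u * u = (a : ZMod 3) + (b : ZMod 3) * u) : Subgroup (GQ a b) :=
  (PIC.UP (ZMod 3)).comap (r3 u hu)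

theorem mem_P3_cG (u : ZMod 3) (hu : u * u = (a : ZMod 3) + (b : ZMod 3) * u) (g : GQ a b) :
    g ∈ P3 ((b : ZMod 3) - u) (rt_cj hu) ↔ cGq a b g ∈ P3 u hu := by
  show r3 _ _ g ∈ PIC.UP (ZMod 3) ↔ r3 u hu (cGq a b g) ∈ PIC.UP (ZMod 3)
  rw [r3_cG]

/-- the subgroup of `Λ` corresponding to `P3 u hu` -/
def L3 {Λ : Type} [Group Λ] (Φ : NatBij (GQ a b) Λ) (u : ZMod 3)
    (hu : u * u = (a : ZMod 3) + (b : ZMod 3) * u) : Subgroup Λ :=
  (PIC.UP (ZMod 3)).comap (Φ.toFun _ (r3 u hu))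

/-- there are at least `N` characters with property P on `GQ a b` -/
def GdG (u : ZMod 3) (hu : u * u = (a : ZMod 3) + (b : ZMod 3) * u) (K : Type) [CommRing K]
    (N : ℕ) : Prop :=
  PIC7.GdP (P3 u hu) (P3 ((b : ZMod 3) - u) (rt_cj hu)) K N

/-- there are at least `N` characters with property P on `Λ` -/
def GdL {Λ : Type} [Group Λ] (Φ : NatBij (GQ a b) Λ) (u : ZMod 3)
    (hu : u * u = (a : ZMod 3) + (b : ZMod 3) * u) (K : Type) [CommRing K] (N : ℕ) : Prop :=
  PIC7.GdP (L3 Φ u hu) (L3 Φ ((b : ZMod 3) - u) (rt_cj hu)) K N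

/-- property P for a representation of `Λ` -/
def PtL {Λ : Type} [Group Λ] (Φ : NatBij (GQ a b) Λ) (u : ZMod 3)
    (hu : u * u = (a : ZMod 3) + (b : ZMod 3) * u) {K : Type} [CommRing K] (r : Λ →* SL2 K) :
    Prop :=
  PIC7.Pt2 (L3 Φ u hu) (L3 Φ ((b : ZMod 3) - u) (rt_cj hu)) r

/-- a non-trivial cocycle on `P` -/
def CocQ (P : Subgroup (GQ a b)) : Prop :=
  ∃ Θ : P →* Q2 (Qf a b ℤ), Q2.mH.comp Θ = P.subtype ∧ Q2.tH.comp Θ = 1 ∧
    ∃ g h : P, 0 < nq (Q2.W (Θ g) (Θ h) 0) ∧ nq (Q2.W (Θ g) (Θ h) 0) < 1024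

/-- The hypotheses of the transfer (block T). -/
structure UQ (a b : ℤ) (u : ZMod 3) (hu : u * u = (a : ZMod 3) + (b : ZMod 3) * u) : Prop where
  /-- imaginary quadratic -/
  neg : b ^ 2 + 4 * a < 0
  /-- the discriminant is fundamental, as far as needed -/
  fund : ∀ S P m n : ℤ, n ≠ 0 → n ^ 2 * (S ^ 2 - 4 * P) = (b ^ 2 + 4 * a) * m ^ 2 → n ∣ m
  /-- generators -/
  gen : ∀ H : Subgroup (GQ a b), mU 1 ∈ H → mU (wq a b ℤ) ∈ H → mB _ ∈ H → ∀ g, g ∈ H
  /-- at most two characters (MAIN RESULT of block U) -/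
  g3 : ∀ (k : Type) [Field k], (2 : k) ≠ 0 → ¬ GdG u hu k 3
  /-- the cocycle -/
  coc : CocQ (P3 u hu)
  /-- Legendre's theorem -/
  leg : ∀ x y : Qf a b ℤ, x ≠ 0 → y ≠ 0 → EG.LA x y → EG.Sol x y
  /-- principal ideals -/
  pid : IsPrincipalIdealRing (Qf a b ℤ)

/-- the data of the `p`-adic representation -/
structure DatQ {Λ : Type} [Group Λ] (Φ : NatBij (GQ a b) Λ) (u : ZMod 3)
    (hu : u * u = (a : ZMod 3) + (b : ZMod 3) * u) (p : ℕ) [Fact p.Prime]
    (r : Λ →* SL2 (Qf a b ℤ_[p])) : Prop where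
  /-- the reductions -/
  red : ∀ k : ℕ, (SLm (Qfm a b (PadicInt.toZModPow k))).comp r = Φ.toFun _ (rdq a b (p ^ k))
  /-- property P under all homomorphisms to fields -/
  good : ∀ (K : Type) [Field K] [CharZero K] (j : Qf a b ℤ_[p] →+* K), PtL Φ u hu ((SLm j).comp r)
  /-- the character is not rational -/
  ne : ∃ g, (tr (r g)).im ≠ 0

/-- the output of the transfer -/
structure OutQ {Λ : Type} [Group Λ] (Φ : NatBij (GQ a b) Λ) (p₀ : ℕ) (T : Λ → Qf a b ℤ)
    (s : Λ →* SL2 (AlgebraicClosure ℚ)) (w : AlgebraicClosure ℚ)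
    (hw : w * w = (a : AlgebraicClosure ℚ) + (b : AlgebraicClosure ℚ) * w) : Prop where
  /-- `T` is the character of `s` -/
  char : ∀ g, tr (s g) = evq a b (Int.castRingHom (AlgebraicClosure ℚ)) w hw (T g)
  /-- `s` is irreducible -/
  irr : Irr s
  /-- the reductions of `T` -/
  red : ∀ (p : ℕ) [Fact p.Prime], ∃ c : Bool, (p = p₀ → c = false) ∧ ∀ (k : ℕ) (g : Λ),
    Qfm a b (Int.castRingHom (ZMod (p ^ k))) (if c then cjq a b ℤ (T g) else T g) =
      tr (Φ.toFun _ (rdq a b (p ^ k)) g)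

end

end Pool.Agent.F8.BG
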