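import Pool.Agent.Lib.MP_305fdd_al.F8.BG.MainD
import Pool.Agent.Lib.MP_305fdd_al.F8.PO.Final

/-!
# MP_305fdd_al, the Bianchi groups of `ℚ(√-1)`, `ℚ(√-2)`, `ℚ(√-7)`, `ℚ(√-11)`: the final statements
-/

set_option autoImplicit false

namespace Pool.Agent.F8.BG

open Pool.Agent.MP_305fdd_al Pool.Agent.Lib.MP_305fdd_al Pool.Agent.F2X Pool.Agent.F8
open scoped QuadraticAlgebra

noncomputable section

/-- the model of the ring of integers -/
theorem model {a b : ℤ} (hn : b ^ 2 + 4 * a < 0)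
    (hf : ∀ S P m n : ℤ, n ≠ 0 → n ^ 2 * (S ^ 2 - 4 * P) = (b ^ 2 + 4 * a) * m ^ 2 → n ∣ m)
    (K : Type) [Field K] [NumberField K] (w : K) (hw : w * w = (a : K) + (b : K) * w)
    (hK : Module.finrank ℚ K = 2) : Nonempty (Qf a b ℤ ≃+* NumberField.RingOfIntegers K) :=
  m_ok a b hn hf K w hw hK

theorem over_q {a b : ℤ} (hn : b ^ 2 + 4 * a < 0) (K : Type) [Field K] [NumberField K]
    (r : Qf a b ℤ ≃+* NumberField.RingOfIntegers K) (hM : ProfinitelyRigid (MQ a b))
    (ho : O_over a b) (G : Type) [Group G] (N : Subgroup G) (hN : N.Normal)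
    (hi : N.FiniteIndex) (he : Nonempty (N ≃* Matrix.ProjectiveSpecialLinearGroup (Fin 2)
      (NumberField.RingOfIntegers K)))
    (hf : ∀ F : Subgroup G, F.Normal → Finite F → F = ⊥) : ProfinitelyRigid G := by
  obtain ⟨e⟩ := he
  have := Qf_domain hn
  obtain ⟨e'⟩ := PIC7.p_pso (Qf a b ℤ) _ r
  exact ho hM G N hN hi ⟨e.trans e'.symm⟩ hf

theorem fin_units {a b : ℤ} (h : ∀ u : (Qf a b ℤ)ˣ, u = 1 ∨ u = -1) : Finite (Qf a b ℤ)ˣ :=
  Set.finite_univ_iff.1 (Set.Finite.subset (Set.toFinite {1, -1}) (by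
    intro u _
    rcases h u with rfl | rfl <;> simp))

theorem units11 (u : (Qf (-3) 1 ℤ)ˣ) : u = 1 ∨ u = -1 := by
  have h1 : D11.nm (u : D11.O11) * D11.nm ((u⁻¹ : D11.O11ˣ) : D11.O11) = 1 := by
    rw [← D11.nm_mul, Units.mul_inv, D11.nm_one]
  have h2 : D11.nm (u : D11.O11) = 1 := by
    rcases Int.isUnit_iff.1 (IsUnit.of_mul_eq_one _ h1) with h | h
    · exact h
    · have := D11.nm_nonneg (u : D11.O11)
      omega
  rcases D11.unit_cases h2 with h | h
  · left
    exact Units.ext h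
  · right
    exact Units.ext h

theorem rt_eleven {K : Type} [Field K] [CharZero K] {w : K} (hw : w ^ 2 = -11) :
    ((1 + w) / 2) * ((1 + w) / 2) = ((-3 : ℤ) : K) + ((1 : ℤ) : K) * ((1 + w) / 2) := by
  push_cast
  linear_combination (1 / 4 : K) * hw

theorem rt_two {K : Type} [Field K] {w : K} (hw : w ^ 2 = -2) :
    w * w = ((-2 : ℤ) : K) + ((0 : ℤ) : K) * w := by
  push_cast
  linear_combination hw

/-- the groups which contain `PSL₂` of the ring of integers as a normal subgroup of finite index -/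
theorem over_all (K : Type) [Field K] [NumberField K] (w : K)
    (hw : w ^ 2 = -1 ∨ w ^ 2 = -2 ∨ w ^ 2 = -7 ∨ w ^ 2 = -11) (hK : Module.finrank ℚ K = 2)
    (G : Type) [Group G] (N : Subgroup G) (hN : N.Normal) (hi : N.FiniteIndex)
    (he : Nonempty (N ≃* Matrix.ProjectiveSpecialLinearGroup (Fin 2)
      (NumberField.RingOfIntegers K)))
    (hf : ∀ F : Subgroup G, F.Normal → Finite F → F = ⊥) : ProfinitelyRigid G := by
  have h1 := PIC.m_psl PIC.SL_rigid
  have h7 := PIC7.PSL_rigid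
  rcases hw with hw | hw | hw | hw
  · exact PO.over_of h1 h7 K w (Or.inl hw) hK G N hN hi he hf
  · obtain ⟨r⟩ := model uq2.neg uq2.fund K w (rt_two hw) hK
    exact over_q uq2.neg K r PSL_rigid2 over2 G N hN hi he hf
  · exact PO.over_of h1 h7 K w (Or.inr hw) hK G N hN hi he hf
  · obtain ⟨r⟩ := model uq11.neg uq11.fund K _ (rt_eleven hw) hK
    exact over_q uq11.neg K r PSL_rigid11 over11 G N hN hi he hf

/-- `PSL₂` of the ring of integers -/
theorem psl_all (K : Type) [Field K] [NumberField K] (w : K)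
    (hw : w ^ 2 = -1 ∨ w ^ 2 = -2 ∨ w ^ 2 = -7 ∨ w ^ 2 = -11) (hK : Module.finrank ℚ K = 2) :
    ProfinitelyRigid (Matrix.ProjectiveSpecialLinearGroup (Fin 2)
      (NumberField.RingOfIntegers K)) :=
  over_all K w hw hK _ ⊤ inferInstance inferInstance ⟨Subgroup.topEquiv⟩
    (PO.psl_nofin (NumberField.RingOfIntegers K))

/-- `PGL₂` of the ring of integers -/
theorem pgl_all (K : Type) [Field K] [NumberField K] (w : K)
    (hw : w ^ 2 = -1 ∨ w ^ 2 = -2 ∨ w ^ 2 = -7 ∨ w ^ 2 = -11) (hK : Module.finrank ℚ K = 2) :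
    ProfinitelyRigid (GL (Fin 2) (NumberField.RingOfIntegers K) ⧸
      Subgroup.center (GL (Fin 2) (NumberField.RingOfIntegers K))) := by
  have : Finite (NumberField.RingOfIntegers K)ˣ := by
    rcases hw with hw | hw | hw | hw
    · obtain ⟨r⟩ := PIC7.p_ok1 K w hw hK
      have := PO.fin_u1
      exact Finite.of_equiv _ (Units.mapEquiv r.toMulEquiv).toEquiv
    · obtain ⟨r⟩ := model uq2.neg uq2.fund K w (rt_two hw) hK
      have := fin_units D2.units2
      exact Finite.of_equiv _ (Units.mapEquiv r.toMulEquiv).toEquiv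
    · obtain ⟨r⟩ := PIC7.p_ok7 K w hw hK
      have := PO.fin_u7
      exact Finite.of_equiv _ (Units.mapEquiv r.toMulEquiv).toEquiv
    · obtain ⟨r⟩ := model uq11.neg uq11.fund K _ (rt_eleven hw) hK
      have := fin_units units11
      exact Finite.of_equiv _ (Units.mapEquiv r.toMulEquiv).toEquiv
  obtain ⟨N, hN, hi, he⟩ := PO.pgl_sub (NumberField.RingOfIntegers K)
  exact over_all K w hw hK _ N hN hi he PO.nofin_PGL

end

end Pool.Agent.F8.BG
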