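import Pool.Agent.Lib.MP_305fdd_al.F8.BG.StmC

/-!
# MP_305fdd_al, Bianchi groups, piece `ha`: a cocycle by counting dimensions (Fox calculus)
-/

set_option autoImplicit false

namespace Pool.Agent.F8.BG

section

variable {k W G0 : Type} [Field k] [AddCommGroup W] [Module k W] [Group G0]

private theorem ha_inv_apply (σ : G0 →* Module.End k W) (g : G0) (x : W) : σ g⁻¹ (σ g x) = x := by
  rw [← Module.End.mul_apply, ← map_mul, inv_mul_cancel, map_one, Module.End.one_apply]

private theorem ha_apply_inv (σ : G0 →* Module.End k W) (g : G0) (x : W) :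
    σ g (σ g⁻¹ x) = x := by
  rw [← Module.End.mul_apply, ← map_mul, mul_inv_cancel, map_one, Module.End.one_apply]

private theorem ha_mul (σ : G0 →* Module.End k W) (g h : G0) (x : W) :
    σ (g * h) x = σ g (σ h x) := by
  rw [map_mul, Module.End.mul_apply]

/-- the action on `Multiplicative W` -/
def ha_phi (σ : G0 →* Module.End k W) : G0 →* MulAut (Multiplicative W) where
  toFun g :=
    { toFun := fun x => Multiplicative.ofAdd (σ g (Multiplicative.toAdd x))
      invFun := fun x => Multiplicative.ofAdd (σ g⁻¹ (Multiplicative.toAdd x))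
      left_inv := fun x => by
        show Multiplicative.ofAdd (σ g⁻¹ (σ g (Multiplicative.toAdd x))) = x
        rw [ha_inv_apply, ofAdd_toAdd]
      right_inv := fun x => by
        show Multiplicative.ofAdd (σ g (σ g⁻¹ (Multiplicative.toAdd x))) = x
        rw [ha_apply_inv, ofAdd_toAdd]
      map_mul' := fun x y => by
        rw [toAdd_mul, map_add, ofAdd_add] }
  map_one' := by
    ext x
    show Multiplicative.ofAdd (σ 1 (Multiplicative.toAdd x)) = x
    rw [map_one, Module.End.one_apply, ofAdd_toAdd]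
  map_mul' g h := by
    ext x
    show Multiplicative.ofAdd (σ (g * h) (Multiplicative.toAdd x)) = Multiplicative.ofAdd
      (σ g (Multiplicative.toAdd (Multiplicative.ofAdd (σ h (Multiplicative.toAdd x)))))
    rw [toAdd_ofAdd, ha_mul]

theorem ha_phi_apply (σ : G0 →* Module.End k W) (g : G0) (x : Multiplicative W) :
    ha_phi σ g x = Multiplicative.ofAdd (σ g (Multiplicative.toAdd x)) := rfl

/-- the group of the affine maps -/
abbrev ha_Q (σ : G0 →* Module.End k W) : Type := Multiplicative W ⋊[ha_phi σ] G0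

variable {ι : Type}

/-- the cocycles on `F` -/
def ha_C (σ : G0 →* Module.End k W) (i : FreeGroup ι →* G0) : Submodule k (FreeGroup ι → W) where
  carrier := {z | ∀ g h, z (g * h) = z g + σ (i g) (z h)}
  add_mem' := by
    intro y z hy hz g h
    rw [Pi.add_apply, Pi.add_apply, Pi.add_apply, hy, hz, map_add]; abel
  zero_mem' := by
    intro g h
    simp
  smul_mem' := by
    intro c z hz g h
    rw [Pi.smul_apply, Pi.smul_apply, Pi.smul_apply, hz, smul_add, map_smul]

theorem ha_one (σ : G0 →* Module.End k W) (i : FreeGroup ι →* G0) (z : FreeGroup ι → W)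
    (hz : z ∈ ha_C σ i) : z 1 = 0 := by
  have h := hz 1 1
  rw [mul_one, map_one, map_one, Module.End.one_apply] at h
  exact left_eq_add.mp h

/-- the homomorphism to the affine group -/
def ha_th (σ : G0 →* Module.End k W) (i : FreeGroup ι →* G0) (z : FreeGroup ι → W)
    (hz : z ∈ ha_C σ i) : FreeGroup ι →* ha_Q σ where
  toFun g := ⟨Multiplicative.ofAdd (z g), i g⟩
  map_one' := by
    rw [ha_one σ i z hz, map_one, ofAdd_zero]
    rfl
  map_mul' g h := by
    apply SemidirectProduct.ext
    · rw [SemidirectProduct.mul_left, ha_phi_apply, hz g h, ofAdd_add, toAdd_ofAdd]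
    · rw [SemidirectProduct.mul_right, map_mul]

theorem ha_uniq (σ : G0 →* Module.End k W) (i : FreeGroup ι →* G0) (y z : FreeGroup ι → W)
    (hy : y ∈ ha_C σ i) (hz : z ∈ ha_C σ i) (h0 : ∀ j, y (FreeGroup.of j) = z (FreeGroup.of j)) :
    y = z := by
  have h : ha_th σ i y hy = ha_th σ i z hz := by
    apply FreeGroup.ext_hom
    intro j
    show (⟨Multiplicative.ofAdd (y (FreeGroup.of j)), i (FreeGroup.of j)⟩ : ha_Q σ) =
      ⟨Multiplicative.ofAdd (z (FreeGroup.of j)), i (FreeGroup.of j)⟩
    rw [h0]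
  funext g
  have h1 := congrArg SemidirectProduct.left (DFunLike.congr_fun h g)
  exact Multiplicative.ofAdd.injective h1

theorem ha_exists (σ : G0 →* Module.End k W) (i : FreeGroup ι →* G0) (a : ι → W) :
    ∃ z ∈ ha_C σ i, ∀ j, z (FreeGroup.of j) = a j := by
  let θ : FreeGroup ι →* ha_Q σ :=
    FreeGroup.lift fun j => ⟨Multiplicative.ofAdd (a j), i (FreeGroup.of j)⟩
  have hθ : ∀ j, θ (FreeGroup.of j) = ⟨Multiplicative.ofAdd (a j), i (FreeGroup.of j)⟩ :=
    fun j => FreeGroup.lift_apply_of
  have hr : SemidirectProduct.rightHom.comp θ = i := by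
    apply FreeGroup.ext_hom
    intro j
    show SemidirectProduct.rightHom (θ (FreeGroup.of j)) = i (FreeGroup.of j)
    rw [hθ]; rfl
  have hr' : ∀ g, (θ g).right = i g := fun g => DFunLike.congr_fun hr g
  refine ⟨fun g => Multiplicative.toAdd (θ g).left, ?_, ?_⟩
  · intro g h
    show Multiplicative.toAdd (θ (g * h)).left = Multiplicative.toAdd (θ g).left +
      σ (i g) (Multiplicative.toAdd (θ h).left)
    rw [map_mul, SemidirectProduct.mul_left, ha_phi_apply, hr', toAdd_mul, toAdd_ofAdd]
  · intro j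
    show Multiplicative.toAdd (θ (FreeGroup.of j)).left = a j
    rw [hθ, toAdd_ofAdd]

/-- a cocycle with a given value at an element of a basis -/
theorem ha_exists' (σ : G0 →* Module.End k W) (i : FreeGroup ι →* G0) (c : FreeGroup ι)
    (hc : Prim c) (w : W) : ∃ z ∈ ha_C σ i, z c = w := by
  obtain ⟨θ, i₀, h0⟩ := hc
  obtain ⟨y, hy, h1⟩ := ha_exists σ (i.comp θ.toMonoidHom) (fun _ => w)
  refine ⟨fun g => y (θ.symm g), ?_, ?_⟩
  · intro g h
    show y (θ.symm (g * h)) = y (θ.symm g) + σ (i g) (y (θ.symm h))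
    rw [map_mul, hy]
    show y (θ.symm g) + σ (i (θ (θ.symm g))) (y (θ.symm h)) = _
    rw [MulEquiv.apply_symm_apply]
  · show y (θ.symm c) = w
    rw [← h0, MulEquiv.symm_apply_apply, h1]

/-- the values at the generators -/
def ha_ev (σ : G0 →* Module.End k W) (i : FreeGroup ι →* G0) : ha_C σ i →ₗ[k] (ι → W) where
  toFun z := fun j => z.val (FreeGroup.of j)
  map_add' _ _ := rfl
  map_smul' _ _ := rfl

/-- cocycles are determined by their values at the generators -/
noncomputable def ha_eqv (σ : G0 →* Module.End k W) (i : FreeGroup ι →* G0) :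
    ha_C σ i ≃ₗ[k] (ι → W) :=
  LinearEquiv.ofBijective (ha_ev σ i) (by
    constructor
    · intro y z h
      exact Subtype.ext (ha_uniq σ i y.val z.val y.property z.property fun j => congrFun h j)
    · intro a
      obtain ⟨z, hz, h1⟩ := ha_exists σ i a
      exact ⟨⟨z, hz⟩, funext h1⟩)

end

section

variable {k W ι : Type} [Field k] [AddCommGroup W] [Module k W] {G0 : Type} [Group G0]
  (σ : G0 →* Module.End k W) (i : FreeGroup ι →* G0) (β : MulAut (FreeGroup ι)) (s : G0)

/-- the map `E` -/
def ha_E (hs : ∀ v, s * i v * s⁻¹ = i (β v)) :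
    (ha_C σ i × W) →ₗ[k] ha_C σ (i.comp β.toMonoidHom) where
  toFun p := ⟨fun g => p.2 + σ s (p.1.val g) - σ (i (β g)) p.2 - p.1.val (β g), by
    intro g h
    have hz := p.1.property
    show p.2 + σ s (p.1.val (g * h)) - σ (i (β (g * h))) p.2 - p.1.val (β (g * h)) =
      p.2 + σ s (p.1.val g) - σ (i (β g)) p.2 - p.1.val (β g) +
      σ (i (β g)) (p.2 + σ s (p.1.val h) - σ (i (β h)) p.2 - p.1.val (β h))
    have ht : σ s (σ (i g) (p.1.val h)) = σ (i (β g)) (σ s (p.1.val h)) := by
      rw [← ha_mul, ← ha_mul, ← hs]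
      congr 2
      group
    rw [hz g h, map_mul, hz (β g) (β h), map_mul, ha_mul, map_add, ht, map_sub, map_sub, map_add]
    abel⟩
  map_add' p q := by
    apply Subtype.ext
    funext g
    show (p.2 + q.2) + σ s (p.1.val g + q.1.val g) - σ (i (β g)) (p.2 + q.2) -
      (p.1.val (β g) + q.1.val (β g)) =
      (p.2 + σ s (p.1.val g) - σ (i (β g)) p.2 - p.1.val (β g)) +
      (q.2 + σ s (q.1.val g) - σ (i (β g)) q.2 - q.1.val (β g))
    rw [map_add, map_add]
    abel
  map_smul' c p := by
    apply Subtype.ext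
    funext g
    show c • p.2 + σ s (c • p.1.val g) - σ (i (β g)) (c • p.2) - c • p.1.val (β g) =
      c • (p.2 + σ s (p.1.val g) - σ (i (β g)) p.2 - p.1.val (β g))
    rw [map_smul, map_smul, smul_sub, smul_sub, smul_add]

theorem ha_E_apply (hs : ∀ v, s * i v * s⁻¹ = i (β v)) (p : ha_C σ i × W) (g : FreeGroup ι) :
    (ha_E σ i β s hs p).val g =
      p.2 + σ s (p.1.val g) - σ (i (β g)) p.2 - p.1.val (β g) := rfl

/-- the coboundaries -/
def ha_B : W →ₗ[k] (ha_C σ i × W) where
  toFun f := (⟨fun g => f - σ (i g) f, by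
    intro g h
    show f - σ (i (g * h)) f = f - σ (i g) f + σ (i g) (f - σ (i h) f)
    rw [map_mul, ha_mul, map_sub]
    abel⟩, f - σ s f)
  map_add' f f' := by
    apply Prod.ext
    · apply Subtype.ext
      funext g
      show (f + f') - σ (i g) (f + f') = (f - σ (i g) f) + (f' - σ (i g) f')
      rw [map_add]; abel
    · show (f + f') - σ s (f + f') = (f - σ s f) + (f' - σ s f')
      rw [map_add]; abel
  map_smul' c f := by
    apply Prod.ext
    · apply Subtype.ext
      funext g
      show c • f - σ (i g) (c • f) = c • (f - σ (i g) f)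
      rw [map_smul, smul_sub]
    · show c • f - σ s (c • f) = c • (f - σ s f)
      rw [map_smul, smul_sub]

theorem ha_not_surj (hs : ∀ v, s * i v * s⁻¹ = i (β v)) (c : FreeGroup ι) (hc0 : Prim c)
    (hβ : β c = c) (lam : W →ₗ[k] k) (hlam : lam ≠ 0) (hc : ∀ x, lam (σ (i c) x) = lam x)
    (ht : ∀ x, lam (σ s x) = lam x) : LinearMap.range (ha_E σ i β s hs) ≠ ⊤ := by
  intro hE
  obtain ⟨w, hw⟩ : ∃ w, lam w ≠ 0 := by
    by_contra hh
    push Not at hh
    exact hlam (LinearMap.ext hh)
  obtain ⟨D, hD, hDc⟩ := ha_exists' σ (i.comp β.toMonoidHom) c hc0 w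
  obtain ⟨p, hp⟩ := LinearMap.range_eq_top.mp hE ⟨D, hD⟩
  have h1 : D c = (ha_E σ i β s hs p).val c := by rw [hp]
  apply hw
  rw [← hDc, h1, ha_E_apply, hβ, map_sub, map_sub, map_add, ht, hc]
  ring

end

theorem p_ha : S_ha := by
  intro ι _ α c g hcp hα k W _ _ _ _ σ lam hlam hc ht
  haveI : Fintype ι := Fintype.ofFinite ι
  let β : MulAut (FreeGroup ι) := MulAut.conj g * α
  have hβ : ∀ v, β v = g * α v * g⁻¹ := fun v => rfl
  have hs : ∀ v, (iR α g * tR α) * iR α v * (iR α g * tR α)⁻¹ = iR α (β v) := by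
    intro v
    rw [hβ, map_mul, map_mul, map_inv, ← tR_conj]
    group
  have hE := ha_not_surj σ (iR α) β (iR α g * tR α) hs c hcp (by rw [hβ, hα]) lam hlam hc ht
  have e1 := ha_eqv σ (iR α)
  have e2 := ha_eqv σ ((iR α).comp β.toMonoidHom)
  have : FiniteDimensional k (ha_C σ (iR α)) := e1.symm.finiteDimensional
  have : FiniteDimensional k (ha_C σ ((iR α).comp β.toMonoidHom)) := e2.symm.finiteDimensional
  have d0 : Module.finrank k (ι → W) = Fintype.card ι * Module.finrank k W := by
    rw [Module.finrank_pi_fintype, Finset.sum_const, Finset.card_univ, smul_eq_mul]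
  have d1 : Module.finrank k (ha_C σ (iR α) × W) =
      Fintype.card ι * Module.finrank k W + Module.finrank k W := by
    rw [Module.finrank_prod, e1.finrank_eq, d0]
  have d2 : Module.finrank k (ha_C σ ((iR α).comp β.toMonoidHom)) =
      Fintype.card ι * Module.finrank k W := by
    rw [e2.finrank_eq, d0]
  have d3 := LinearMap.finrank_range_add_finrank_ker (ha_E σ (iR α) β (iR α g * tR α) hs)
  have d4 : Module.finrank k (LinearMap.range (ha_E σ (iR α) β (iR α g * tR α) hs)) <
      Fintype.card ι * Module.finrank k W := by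
    rw [← d2]
    exact Submodule.finrank_lt hE
  have d5 : Module.finrank k (LinearMap.range (ha_B σ (iR α) (iR α g * tR α))) ≤
      Module.finrank k W := LinearMap.finrank_range_le _
  have d6 : ¬ LinearMap.ker (ha_E σ (iR α) β (iR α g * tR α) hs) ≤
      LinearMap.range (ha_B σ (iR α) (iR α g * tR α)) := by
    intro h
    have := Submodule.finrank_mono h
    omega
  obtain ⟨⟨z, d⟩, hz, hnz⟩ := SetLike.not_le_iff_exists.mp d6
  have hz' : ∀ w, z.val (β w) + σ (iR α (β w)) d = d + σ (iR α g * tR α) (z.val w) := by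
    intro w
    have h1 : (ha_E σ (iR α) β (iR α g * tR α) hs (z, d)).val w = 0 := by
      rw [LinearMap.mem_ker.mp hz]; rfl
    rw [ha_E_apply] at h1
    have h2 : d + σ (iR α g * tR α) (z.val w) - σ (iR α (β w)) d - z.val (β w) = 0 := h1
    rw [sub_sub, sub_eq_zero, add_comm (σ (iR α (β w)) d)] at h2
    exact h2.symm
  let th := ha_th σ (iR α) z.val z.property
  have hth : ∀ w, th w = ⟨Multiplicative.ofAdd (z.val w), iR α w⟩ := fun w => rfl
  let S : ha_Q σ := ⟨Multiplicative.ofAdd d, iR α g * tR α⟩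
  have hS : ∀ w, S * th w * S⁻¹ = th (β w) := by
    intro w
    rw [mul_inv_eq_iff_eq_mul]
    apply SemidirectProduct.ext
    · show Multiplicative.ofAdd d * Multiplicative.ofAdd (σ (iR α g * tR α) (z.val w)) =
        Multiplicative.ofAdd (z.val (β w)) * Multiplicative.ofAdd (σ (iR α (β w)) d)
      rw [← ofAdd_add, ← ofAdd_add, hz']
    · show (iR α g * tR α) * iR α w = iR α (β w) * (iR α g * tR α)
      rw [← hs]; group
  have hlift : FreeGroup.lift (fun j => th (FreeGroup.of j)) = th := by
    apply FreeGroup.ext_hom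
    intro j
    rw [FreeGroup.lift_apply_of]
  have hrel : ∀ j, ((th g)⁻¹ * S) * th (FreeGroup.of j) * ((th g)⁻¹ * S)⁻¹ =
      FreeGroup.lift (fun j => th (FreeGroup.of j)) (α (FreeGroup.of j)) := by
    intro j
    rw [hlift]
    have h1 := hS (FreeGroup.of j)
    rw [hβ, map_mul, map_mul, map_inv] at h1
    calc ((th g)⁻¹ * S) * th (FreeGroup.of j) * ((th g)⁻¹ * S)⁻¹
        = (th g)⁻¹ * (S * th (FreeGroup.of j) * S⁻¹) * th g := by group
      _ = th (α (FreeGroup.of j)) := by rw [h1]; group
  let Θ : GR α →* ha_Q σ := liR (fun j => th (FreeGroup.of j)) ((th g)⁻¹ * S) hrel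
  have hΘi : ∀ w, Θ (iR α w) = th w := by
    intro w
    show liR (fun j => th (FreeGroup.of j)) ((th g)⁻¹ * S) hrel (iR α w) = th w
    rw [liR_iR, hlift]
  have hΘt : Θ (tR α) = (th g)⁻¹ * S := liR_tR hrel
  have hΘs : Θ (iR α g * tR α) = S := by
    rw [map_mul, hΘi, hΘt, mul_inv_cancel_left]
  have hr : SemidirectProduct.rightHom.comp Θ = MonoidHom.id (GR α) := by
    apply homR_ext
    · intro j
      show SemidirectProduct.rightHom (Θ (iR α (FreeGroup.of j))) = iR α (FreeGroup.of j)
      rw [hΘi]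
      rfl
    · show SemidirectProduct.rightHom (Θ (tR α)) = tR α
      rw [hΘt, map_mul, map_inv]
      show (iR α g)⁻¹ * (iR α g * tR α) = tR α
      rw [inv_mul_cancel_left]
  have hr' : ∀ g, (Θ g).right = g := fun g => DFunLike.congr_fun hr g
  refine ⟨fun g => Multiplicative.toAdd (Θ g).left, ?_, ?_⟩
  · intro g h
    show Multiplicative.toAdd (Θ (g * h)).left = Multiplicative.toAdd (Θ g).left +
      σ g (Multiplicative.toAdd (Θ h).left)
    rw [map_mul, SemidirectProduct.mul_left, ha_phi_apply, hr', toAdd_mul, toAdd_ofAdd]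
  · rintro ⟨f, hf⟩
    apply hnz
    refine ⟨f, ?_⟩
    apply Prod.ext
    · apply Subtype.ext
      funext w
      show f - σ (iR α w) f = z.val w
      have := hf (iR α w)
      rw [← this]
      show Multiplicative.toAdd (Θ (iR α w)).left = z.val w
      rw [hΘi]
      rfl
    · show f - σ (iR α g * tR α) f = d
      have := hf (iR α g * tR α)
      rw [← this]
      show Multiplicative.toAdd (Θ (iR α g * tR α)).left = d
      rw [hΘs]
      rfl

end Pool.Agent.F8.BG
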