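import Mathlib

/-!
# MP_305fdd_al, Bianchi groups: the discriminants `-8` and `-11` are fundamental
-/

set_option autoImplicit false

namespace Pool.Agent.F8.BG

/-- reduction to coprime numbers -/
theorem fund_red {D : ℤ} (h : ∀ n m S P : ℤ, IsCoprime n m → n ^ 2 * (S ^ 2 - 4 * P) = D * m ^ 2 →
    n ∣ 1) (S P m n : ℤ) (hn : n ≠ 0) (e : n ^ 2 * (S ^ 2 - 4 * P) = D * m ^ 2) : n ∣ m := by
  obtain ⟨g, m', n', hg, hc, hm, hn'⟩ : ∃ g m' n' : ℤ, 0 < g ∧ IsCoprime n' m' ∧ m = g * m' ∧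
      n = g * n' := by
    have hg : 0 < (Int.gcd n m : ℤ) := by
      have := Int.gcd_pos_of_ne_zero_left m hn
      exact_mod_cast this
    refine ⟨Int.gcd n m, m / Int.gcd n m, n / Int.gcd n m, hg, ?_, ?_, ?_⟩
    · exact Int.isCoprime_iff_gcd_eq_one.2 (Int.gcd_div_gcd_div_gcd (by
        have := Int.gcd_pos_of_ne_zero_left m hn
        exact this))
    · exact (Int.mul_ediv_cancel' (Int.gcd_dvd_right n m)).symm
    · exact (Int.mul_ediv_cancel' (Int.gcd_dvd_left n m)).symm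
  subst hm
  subst hn'
  have e2 : n' ^ 2 * (S ^ 2 - 4 * P) = D * m' ^ 2 := by
    have h1 : g ^ 2 * (n' ^ 2 * (S ^ 2 - 4 * P)) = g ^ 2 * (D * m' ^ 2) := by
      linear_combination e
    exact mul_left_cancel₀ (pow_ne_zero 2 hg.ne') h1
  exact mul_dvd_mul_left g ((h n' m' S P hc e2).trans (one_dvd m'))

/-- the square of `n` divides `D` -/
theorem fund_dvd {D n m X : ℤ} (hc : IsCoprime n m) (e : n ^ 2 * X = D * m ^ 2) : n ^ 2 ∣ D := by
  have h1 : n ^ 2 ∣ D * m ^ 2 := ⟨X, e.symm⟩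
  exact (hc.pow (m := 2) (n := 2)).dvd_of_dvd_mul_right h1

theorem fund2 : ∀ S P m n : ℤ, n ≠ 0 → n ^ 2 * (S ^ 2 - 4 * P) = (0 ^ 2 + 4 * (-2)) * m ^ 2 →
    n ∣ m := by
  have key : ∀ n m S P : ℤ, IsCoprime n m → n ^ 2 * (S ^ 2 - 4 * P) = (-8) * m ^ 2 → n ∣ 1 := by
    intro n m S P hc e
    have h1 : n ^ 2 ∣ 8 := by
      have := fund_dvd hc e
      rwa [dvd_neg] at this
    have h2 : n ^ 2 ≤ 8 := Int.le_of_dvd (by norm_num) h1
    have h3 : n ≤ 2 := by nlinarith
    have h4 : -2 ≤ n := by nlinarith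
    have ev : n = 2 ∨ n = -2 → False := by
      intro h
      have h5 : n ^ 2 = 4 := by rcases h with rfl | rfl <;> norm_num
      rw [h5] at e
      have h6 : S ^ 2 - 4 * P = -2 * m ^ 2 := by linarith
      have hS : Even S := by
        have : Even (S ^ 2) := ⟨2 * P - m ^ 2, by linarith⟩
        exact (Int.even_pow' two_ne_zero).1 this
      obtain ⟨s, rfl⟩ := hS
      have hm : Even m := by
        have : Even (m ^ 2) := ⟨P - s ^ 2, by linarith⟩
        exact (Int.even_pow' two_ne_zero).1 this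
      obtain ⟨u, v, huv⟩ := hc
      obtain ⟨k, rfl⟩ := hm
      rcases h with rfl | rfl
      · have h7 : (2 : ℤ) ∣ 1 := ⟨u + v * k, by linear_combination -huv⟩
        norm_num at h7
      · have h7 : (2 : ℤ) ∣ 1 := ⟨-u + v * k, by linear_combination -huv⟩
        norm_num at h7
    interval_cases n
    · exact absurd (Or.inr rfl) ev
    · exact ⟨-1, by norm_num⟩
    · norm_num at h1
    · exact dvd_refl 1
    · exact absurd (Or.inl rfl) ev
  intro S P m n hn e
  exact fund_red key S P m n hn (by linarith)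

theorem fund11 : ∀ S P m n : ℤ, n ≠ 0 → n ^ 2 * (S ^ 2 - 4 * P) = (1 ^ 2 + 4 * (-3)) * m ^ 2 →
    n ∣ m := by
  have key : ∀ n m S P : ℤ, IsCoprime n m → n ^ 2 * (S ^ 2 - 4 * P) = (-11) * m ^ 2 → n ∣ 1 := by
    intro n m S P hc e
    have h1 : n ^ 2 ∣ 11 := by
      have := fund_dvd hc e
      rwa [dvd_neg] at this
    have h2 : n ^ 2 ≤ 11 := Int.le_of_dvd (by norm_num) h1
    have h3 : n ≤ 3 := by nlinarith
    have h4 : -3 ≤ n := by nlinarith
    interval_cases n
    · norm_num at h1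
    · norm_num at h1
    · exact ⟨-1, by norm_num⟩
    · norm_num at h1
    · exact dvd_refl 1
    · norm_num at h1
    · norm_num at h1
  intro S P m n hn e
  exact fund_red key S P m n hn (by linarith)

end Pool.Agent.F8.BG
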