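import Pool.Agent.Lib.MP_305fdd_al.F8.BG.DefsU
import Pool.Agent.Lib.MP_305fdd_al.F8.PO.Stm
import Pool.Agent.Lib.MP_305fdd_al.F8.BG.D2.Pres
import Pool.Agent.Lib.MP_305fdd_al.F8.BG.D11.Rel

/-!
# MP_305fdd_al, the groups which contain `PSL₂(O)` as a normal subgroup, `O` the integers of `ℚ(√-2)`, `ℚ(√-11)` (statements)

The analogue of the project PO (`F8/PO/Stm.lean`). `MQ a b = SL₂(ℤ[w]) / ± 1`. The automorphisms of `MQ (-2) 0` and `MQ (-3) 1` are the products of inner automorphisms and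
`stq a b d e`: `d = true`: conjugation with `diag(-1, 1)`; `e = true`: Galois conjugation. The numbers `PO.Fx` separate the four classes.
-/

set_option autoImplicit false

namespace Pool.Agent.F8.BG

open Pool.Agent.MP_305fdd_al Pool.Agent.Lib.MP_305fdd_al Pool.Agent.F2X Pool.Agent.F8
open scoped QuadraticAlgebra

noncomputable section

/-- conjugation with `diag(-1, 1)` -/
def deR (R : Type) [CommRing R] : SL2 R →* SL2 R where
  toFun g := AB.mx (g.val 0 0) (-g.val 0 1) (-g.val 1 0) (g.val 1 1) (by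
    linear_combination G.SL_det g)
  map_one' := by
    rw [AB.mx_one]
    apply AB.mx_congr
    · rfl
    · exact neg_zero
    · exact neg_zero
    · rfl
  map_mul' g g' := by
    rw [AB.mx_mul]
    apply AB.mx_congr
    · rw [G.SL_mul]; ring
    · rw [G.SL_mul]; ring
    · rw [G.SL_mul]; ring
    · rw [G.SL_mul]; ring

/-- `1` or the conjugation with `diag(-1, 1)` -/
def dd (R : Type) [CommRing R] (d : Bool) : SL2 R →* SL2 R :=
  if d then deR R else MonoidHom.id _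

/-- the four automorphisms -/
def stq (a b : ℤ) (d e : Bool) : GQ a b →* GQ a b :=
  (dd (Qf a b ℤ) d).comp (if e then cGq a b else MonoidHom.id _)

/-- `PSL₂(ℤ[w])` -/
abbrev MQ (a b : ℤ) : Type := GQ a b ⧸ AB.pm (Qf a b ℤ)

/-- the projection -/
abbrev pq (a b : ℤ) : GQ a b →* MQ a b := AB.pj (Qf a b ℤ)

/-- the automorphism `h` is in the class of `stq a b d e` -/
def IsQ (a b : ℤ) (h : MulAut (MQ a b)) (d e : Bool) : Prop :=
  ∃ m : GQ a b, ∀ x, h (pq a b x) = pq a b (m * stq a b d e x * m⁻¹)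

/-- [BG aut0] the automorphisms of `PSL₂(ℤ[w])`, first part. (Uses `PO.S_par`, `PO.S_nrm`, `S_bd` (`BG/StmC.lean`), as hypotheses.)

As `PO/P_aut7.lean` (508 lines; `PO.S_aut7`) without the last step. Proof. Let `T, U, B ∈ GQ a b` be lifts of the images of `mU 1`, `mU w`, `mB`. `h` is injective, so `B ≠ ± 1`, `B² = ± 1`, so `B² = -1`, `tr B = 0`. `T U = ± U T`; the sign `-` would give `tr T = 0`, `T² = -1`, contradiction (`mU 1` has infinite
order). So `T U = U T`, and `T ^ m U ^ n = 1` implies `m = n = 0` (injectivity). `PO.S_par` with the embedding of `S_bd`: `tr T = ± 2`; replace `T` by `-T`: `tr T = 2`. `PO.S_nrm`: after a conjugation (change `m`) `T = mU x`, `x ≠ 0`; `U` commutes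
with `T`: `U = ± mU y'`. `(T B)³ = ± 1`, `T B ≠ ± 1`, so `tr (T B) = ± 1`: `x b₀ = ± 1`, `b₀ = B 1 0`, so `x, b₀ ∈ {1, -1}`, and after a conjugation with `mU z`, `z = -(B 0 0) / b₀`, `B = ± mB`. If `x = -1`: write everything as `deR` of the same with `x = 1`
(`deR (mU z) = mU (-z)`, `deR mB = -mB`). -/
def O_aut0 (a b : ℤ) : Prop := b ^ 2 + 4 * a < 0 → IsPrincipalIdealRing (Qf a b ℤ) →
  (∀ u : (Qf a b ℤ)ˣ, u = 1 ∨ u = -1) → ∀ h : MulAut (MQ a b),
  ∃ (d : Bool) (m : GQ a b) (y : Qf a b ℤ),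
    h (pq a b (mU 1)) = pq a b (m * dd _ d (mU 1) * m⁻¹) ∧
    h (pq a b (mU (wq a b ℤ))) = pq a b (m * dd _ d (mU y) * m⁻¹) ∧
    h (pq a b (mB _)) = pq a b (m * dd _ d (mB _) * m⁻¹)

/-- [BG aut2] the automorphisms of `PSL₂(ℤ[√-2])`. (Uses `O_aut0`, `L_pid` (first part), the units.)

Proof. Let `d, m, y` be as in `O_aut0`. `X = mB * (mU w)⁻¹ * mB * mU w` satisfies `X² = -1`, `X ≠ ± 1` (`decide`). `Z = mB * (mU y)⁻¹ * mB * mU y`; `h (pq X) = pq (m * dd d Z * m⁻¹)`, so `Z² = ± 1` and `Z ≠ ± 1` (`dd d` is injective: its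
square is the identity), so `tr Z = 0` (as `aut7_sq` in `PO/P_aut7.lean`): `-2 - y² = 0`, `(y - w) (y + w) = 0`, so `y = w` (`e = false`) or `y = -w` (`e = true`). `D2.SL_sub` for the set of the `x` with `h (pq x) = pq (m * stq d e x * m⁻¹)`. -/
def O_aut2 : Prop := ∀ h : MulAut (MQ (-2) 0), ∃ d e : Bool, IsQ (-2) 0 h d e

/-- [BG aut11] the automorphisms of `PSL₂` of the integers of `ℚ(√-11)`. (Uses `O_aut0`, `L_pid` (second part), the units.)

Proof. As `O_aut2`. `X = mB * mU 1 * (mU w)⁻¹ * mB * mU w` satisfies `X³ = -1`, `X ≠ ± 1` (`decide`), `Z = mB * mU 1 * (mU y)⁻¹ * mB * mU y`; `Z³ = ± 1`, `Z ≠ ± 1`, so `tr Z = ± 1` (as `aut7_cube`): `-2 + y - y² = ± 1`. If it is `-1`: `y (1 - y) = 1`, so `y` is a unit,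
`y = ± 1`, contradiction. If it is `1`: `y² - y + 3 = 0`, `(y - w) (y - 1 + w) = 0`, so `y = w` or `y = 1 - w`. `D11.sub'`. -/
def O_aut11 : Prop := ∀ h : MulAut (MQ (-3) 1), ∃ d e : Bool, IsQ (-3) 1 h d e

/-- the numbers -/
def O_fx (a b : ℤ) : Prop := ∀ (h : MulAut (MQ a b)) (d e : Bool), IsQ a b h d e →
  PO.Fx (MQ a b) (Multiplicative (ZMod 3)) h = (if d then (if e then 3 else 1) else
    (if e then 3 else 9)) ∧
  PO.Fx (MQ a b) (Multiplicative (ZMod 5)) h = (if d = e then 5 else 1)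

/-- [BG fx2] the numbers for `ℚ(√-2)`. (Uses nothing; `D2.pres`.)

Proof. As `PO/P_fx7.lean`. The homomorphisms `θ : MQ → P`, `P` commutative, correspond to the triples `(al, up, be)` with `D2.Rel`: `be² = 1`, `al³ be³ = 1`, `be⁴ = 1`. `P = ℤ/3`: `be = 1`, `al`, `up` arbitrary, `9`
homomorphisms; `P = ℤ/5`: `be = 1`, `al = 1`, `up` arbitrary: `5`. The values of `θ ∘ stq d e` at `mU 1, mU w, mB`: `(al, up, be)`; `(false, true)`: `(al, up⁻¹, be)`; `(true, false)`: `(al⁻¹, up⁻¹, be)`; `(true, true)`: `(al⁻¹, up, be)`. Conjugate = equal. -/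
def O_fx2 : Prop := O_fx (-2) 0

/-- [BG fx11] the numbers for `ℚ(√-11)`. (Uses nothing; `D11.pres'`.)

Proof. As `PO/P_fx7.lean`. The homomorphisms `θ : MQ → P`, `P` commutative, correspond to the triples `(al, up, be)` with `D11.Rel`: `be² = 1`, `al³ be³ = 1`, `(be² al)³ = 1`. `P = ℤ/3`: `be = 1`, `al`, `up` arbitrary, `9`
homomorphisms; `P = ℤ/5`: `be = 1`, `al = 1`, `up` arbitrary: `5`. The values of `θ ∘ stq d e` at `mU 1, mU w, mB`: `(al, up, be)`; `(false, true)`: `(al, al up⁻¹, be)`; `(true, false)`: `(al⁻¹, up⁻¹, be)`; `(true, true)`: `(al⁻¹, al⁻¹ up, be)`. Conjugate = equal. -/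
def O_fx11 : Prop := O_fx (-3) 1

/-- the final statement -/
def O_over (a b : ℤ) : Prop := ProfinitelyRigid (MQ a b) → ∀ (G : Type) [Group G] (N : Subgroup G),
  N.Normal → N.FiniteIndex → Nonempty (N ≃* MQ a b) →
  (∀ K : Subgroup G, K.Normal → Finite K → K = ⊥) → ProfinitelyRigid G

end

end Pool.Agent.F8.BG
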