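import Pool.Agent.Lib.MP_305fdd_al.F8.BG.StmT
import Pool.Agent.Lib.MP_305fdd_al.F8.BG.StmO
import Pool.Agent.Lib.MP_305fdd_al.F8.BG.D2.Sur
import Pool.Agent.Lib.MP_305fdd_al.F8.BG.D11.StmE
import Pool.Agent.Lib.MP_305fdd_al.F8.PIC7.P_pso
import Pool.Agent.Lib.MP_305fdd_al.F8.PO.MainOf
import Pool.Agent.Lib.MP_305fdd_al.F8.Models

/-!
# MP_305fdd_al, the Bianchi groups of `ℚ(√-2)` and `ℚ(√-11)`: assembly of the pieces
-/

set_option autoImplicit false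

namespace Pool.Agent.F8.BG

open Pool.Agent.MP_305fdd_al Pool.Agent.Lib.MP_305fdd_al Pool.Agent.F2X Pool.Agent.F8
open scoped QuadraticAlgebra

noncomputable section

theorem fg_of_gen {a b : ℤ}
    (h : ∀ H : Subgroup (GQ a b), mU 1 ∈ H → mU (wq a b ℤ) ∈ H → mB _ ∈ H → ∀ g, g ∈ H) :
    Group.FG (GQ a b) := by
  rw [Group.fg_iff]
  refine ⟨{mU 1, mU (wq a b ℤ), mB _}, ?_, Set.toFinite _⟩
  rw [eq_top_iff]
  intro g _
  refine h _ ?_ ?_ ?_ g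
  · exact Subgroup.subset_closure (by simp)
  · exact Subgroup.subset_closure (by simp)
  · exact Subgroup.subset_closure (by simp)

/-- A group in the genus of `SL₂(ℤ[w])` is isomorphic to it. -/
def S_isoQ (a b : ℤ) : Prop := ∀ (Λ : Type) [Group Λ] [Group.FG Λ] (_ : NatBij (GQ a b) Λ),
  ∃ ρ : Λ →* GQ a b, Function.Surjective ρ

/-- `SL₂(ℤ[w])` is profinitely rigid -/
theorem rigid_SL {a b : ℤ} (hfg : Group.FG (GQ a b)) (h : S_isoQ a b) :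
    ProfinitelyRigid (GQ a b) := by
  intro Λ _ hΛ
  obtain ⟨h1, h2, h3⟩ := hΛ
  have := h1
  have := h2
  obtain ⟨Φ⟩ := exists_natBij h3.symm
  obtain ⟨ρ, hρ⟩ := h Λ Φ
  exact ⟨MulEquiv.ofBijective ρ ⟨injective_of_surj h3 ρ hρ, hρ⟩⟩

theorem tr_nat {G Λ : Type} [Group G] [Group Λ] (Φ : NatBij G Λ) {R S : Type} [CommRing R]
    [CommRing S] [Finite R] [Finite S] (f : R →+* S) (θ : G →* SL2 R) (l : Λ) :
    tr (Φ.toFun _ ((SLm f).comp θ) l) = f (tr (Φ.toFun _ θ l)) := by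
  rw [Φ.nat]
  exact tr_SLm f _

theorem rt9 : (5 : ZMod 9) * 5 = ((-2 : ℤ) : ZMod 9) + ((0 : ℤ) : ZMod 9) * 5 := by decide

theorem rt2 : (0 : ZMod 2) * 0 = ((-2 : ℤ) : ZMod 2) + ((0 : ℤ) : ZMod 2) * 0 := by decide

/-- the isomorphism for `ℚ(√-2)` -/
theorem iso2 {u : ZMod 3} {hu : u * u = ((-2 : ℤ) : ZMod 3) + ((0 : ℤ) : ZMod 3) * u}
    (hT : T_main (-2) 0 u hu) (hU : UQ (-2) 0 u hu) (hs : D2.S_sur) : S_isoQ (-2) 0 := by
  intro Λ _ _ Φ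
  have : Fact (Nat.Prime 3) := ⟨by norm_num⟩
  have : Fact (Nat.Prime 2) := ⟨by norm_num⟩
  obtain ⟨ρ, hρ, h3, hp⟩ := hT hU 3 Λ Φ
  refine ⟨ρ, hs Λ Φ ρ hρ (fun l => ?_) (fun l => ?_)⟩
  · have e : (SLm (evq (-2) 0 (RingHom.id (ZMod 9)) 5 rt9)).comp (rdq (-2) 0 9) =
        D2.r9 := by
      apply MonoidHom.ext
      intro g
      apply G.SL_ext <;> rfl
    have h := h3 2 l
    rw [← e, tr_nat Φ]
    show tr (SLm _ (rdq (-2) 0 9 (ρ l))) = _
    rw [tr_SLm]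
    exact congrArg _ h
  · have e : (SLm (evq (-2) 0 (RingHom.id (ZMod 2)) 0 rt2)).comp (rdq (-2) 0 2) =
        D2.r2 := by
      apply MonoidHom.ext
      intro g
      apply G.SL_ext <;> rfl
    rw [← e, tr_nat Φ]
    show tr (SLm _ (rdq (-2) 0 2 (ρ l))) = _
    rw [tr_SLm]
    rcases hp 2 with h | h
    · exact congrArg _ (h 1 l)
    · have h1 := h 1 l
      have h2 : ∀ z : Qf (-2) 0 (ZMod 2), evq (-2) 0 (RingHom.id (ZMod 2)) 0 rt2
          (cjq (-2) 0 (ZMod 2) z) = evq (-2) 0 (RingHom.id (ZMod 2)) 0 rt2 z := by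
        intro z
        rw [cjq_apply, evq_apply, evq_apply]
        simp
      rw [← h2]
      exact congrArg _ h1

/-- the isomorphism for `ℚ(√-11)` -/
theorem iso11 {u : ZMod 3} {hu : u * u = ((-3 : ℤ) : ZMod 3) + ((1 : ℤ) : ZMod 3) * u}
    (hT : T_main (-3) 1 u hu) (hU : UQ (-3) 1 u hu) (hs : D11.S_sur) : S_isoQ (-3) 1 := by
  intro Λ _ _ Φ
  have : Fact (Nat.Prime 2) := ⟨by norm_num⟩
  obtain ⟨ρ, hρ, h2, -⟩ := hT hU 2 Λ Φ
  exact ⟨ρ, hs Λ Φ ρ hρ (fun l => h2 1 l)⟩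

/-- The groups which contain `PSL₂(ℤ[w])` as a normal subgroup of finite index. -/
theorem over_of {a b : ℤ} (hn : b ^ 2 + 4 * a < 0) (hfg : Group.FG (GQ a b))
    (ha : ∀ h : MulAut (MQ a b), ∃ d e : Bool, IsQ a b h d e) (hf : O_fx a b) : O_over a b := by
  intro hM G _ N hN hi he hK
  have : Group.FG (MQ a b) := Group.fg_of_surjective (f := pq a b) (QuotientGroup.mk'_surjective _)
  have := Qf_domain hn
  have h2 : (2 : Qf a b ℤ) ≠ 0 := two_ne_zero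
  refine PO.p_ov (MQ a b) hM (PO.cen_pm h2) ?_ G N hN hi he hK
  intro h h' hF
  obtain ⟨d, e, hde⟩ := ha h
  obtain ⟨d', e', hde'⟩ := ha h'
  have h3 := hF (Multiplicative (ZMod 3))
  have h5 := hF (Multiplicative (ZMod 5))
  rw [(hf h d e hde).1, (hf h' d' e' hde').1] at h3
  rw [(hf h d e hde).2, (hf h' d' e' hde').2] at h5
  have h6 : ∀ d e d' e' : Bool, (if d then (if e then 3 else 1) else (if e then 3 else 9) : ℕ) =
      (if d' then (if e' then 3 else 1) else (if e' then 3 else 9)) →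
      (if d = e then 5 else 1 : ℕ) = (if d' = e' then 5 else 1) → d = d' ∧ e = e' := by decide
  obtain ⟨rfl, rfl⟩ := h6 _ _ _ _ h3 h5
  exact PO.same_class (stq a b d e) h h' hde hde'

end

end Pool.Agent.F8.BG
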