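import Pool.Agent.Lib.MP_305fdd_al.F8.BG.P_ok

/-!
# MP_305fdd_al, Bianchi groups: the ring of integers
-/

set_option autoImplicit false

namespace Pool.Agent.F8.BG

theorem m_ok (a b : ℤ) : T_ok a b := p_ok a b

end Pool.Agent.F8.BG
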