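import Pool.Agent.Lib.MP_305fdd_al.F8.BG.StmT
import Pool.Agent.Lib.MP_305fdd_al.F8.EG.Main

/-!
# MP_305fdd_al, Bianchi groups, piece E: from characters to matrices
-/

set_option autoImplicit false

namespace Pool.Agent.F8.BG

open Pool.Agent.MP_305fdd_al Pool.Agent.Lib.MP_305fdd_al Pool.Agent.F2X Pool.Agent.F8
  Pool.Agent.F8.HN Pool.Agent.F8.AB
open scoped QuadraticAlgebra

/-- evaluation at a root of `w² = a + b w` is injective -/
theorem E_inj {a b : ℤ} (hn : b ^ 2 + 4 * a < 0) {K : Type} [Field K] [CharZero K] (w : K)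
    (hw : w * w = (a : K) + (b : K) * w) :
    Function.Injective (evq a b (Int.castRingHom K) w hw) := by
  rw [injective_iff_map_eq_zero]
  intro z hz
  rw [evq_apply, eq_intCast, eq_intCast] at hz
  apply nq_eq_zero hn
  have h1 : ((nq z : ℤ) : K) = 0 := by
    unfold nq
    simp only [Int.cast_id]
    push_cast
    linear_combination ((z.re : K) + b * z.im - z.im * w) * hz + (z.im : K) * z.im * hw
  exact_mod_cast h1

theorem E_dvd {a b : ℤ} (hn : b ^ 2 + 4 * a < 0) (x : Qf a b ℤ) (hx : x ≠ 0) :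
    ∃ n : ℕ, 0 < n ∧ x ∣ (n : Qf a b ℤ) := by
  have h0 : 0 < nq x := lt_of_le_of_ne (nq_nonneg hn x) fun h => hx (nq_eq_zero hn h.symm)
  refine ⟨(nq x).toNat, by omega, cjq a b ℤ x, ?_⟩
  rw [mul_cjq]
  have h1 : (((nq x).toNat : ℤ)) = nq x := Int.toNat_of_nonneg h0.le
  apply QuadraticAlgebra.ext
  · rw [QuadraticAlgebra.re_natCast]
    exact h1
  · rw [QuadraticAlgebra.im_natCast]

theorem E_surj (a b : ℤ) (m : ℕ) : Function.Surjective (Qfm a b (Int.castRingHom (ZMod m))) := by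
  intro z
  obtain ⟨x, hx⟩ := ZMod.intCast_surjective z.re
  obtain ⟨y, hy⟩ := ZMod.intCast_surjective z.im
  refine ⟨⟨x, y⟩, ?_⟩
  rw [Qfm_apply]
  apply QuadraticAlgebra.ext
  · exact hx
  · exact hy

theorem E_ker (a b : ℤ) (m : ℕ) (z : Qf a b ℤ) (h : Qfm a b (Int.castRingHom (ZMod m)) z = 0) :
    (m : Qf a b ℤ) ∣ z := by
  rw [Qfm_apply] at h
  have h1 : (z.re : ZMod m) = 0 := congrArg QuadraticAlgebra.re h
  have h2 : (z.im : ZMod m) = 0 := congrArg QuadraticAlgebra.im h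
  rw [ZMod.intCast_zmod_eq_zero_iff_dvd] at h1 h2
  obtain ⟨x, hx⟩ := h1
  obtain ⟨y, hy⟩ := h2
  refine ⟨⟨x, y⟩, ?_⟩
  apply QuadraticAlgebra.ext
  · rw [QuadraticAlgebra.re_mul, hx]; simp
  · rw [QuadraticAlgebra.im_mul, hy]; simp

theorem p_E (a b : ℤ) (u : ZMod 3) (hu : u * u = (a : ZMod 3) + (b : ZMod 3) * u)
    (hsig : T_sig a b) : T_E a b u hu := by
  intro H Λ _ Φ p₀ T s w hw hO
  have hdom : IsDomain (Qf a b ℤ) := Qf_domain H.neg
  have hpid : IsPrincipalIdealRing (Qf a b ℤ) := H.pid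
  exact EG.E_gen H.leg (E_dvd H.neg) (evq a b (Int.castRingHom (AlgebraicClosure ℚ)) w hw)
    (E_inj H.neg w hw) s T hO.char hO.irr (by
      intro m hm
      have : NeZero m := ⟨hm.ne'⟩
      obtain ⟨f, hf, h⟩ := hsig Λ Φ p₀ T s w hw hO m
      refine ⟨Qf a b (ZMod m), inferInstance, Qfm a b (Int.castRingHom (ZMod m)), E_surj a b m,
        E_ker a b m, (SLm (sgq f hf)).comp (Φ.toFun _ (rdq a b m)), fun l => ?_⟩
      rw [h l]
      exact tr_map _ _)

end Pool.Agent.F8.BG
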