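import Pool.Agent.Lib.MP_305fdd_al.F8.BG.StmL

/-!
# MP_305fdd_al, [BG L_gen]: Legendre's theorem by descent, the variant with both squarefree coefficients
-/

set_option autoImplicit false

namespace Pool.Agent.F8.BG

open Pool.Agent.MP_305fdd_al Pool.Agent.Lib.MP_305fdd_al Pool.Agent.F2X Pool.Agent.F8

theorem p_Lgen : L_gen := by
  intro A _ _ _ ν B hdesc hbase
  have redA : ∀ n : ℕ, (∀ a b : A, ν.N a + ν.N b < n → a ≠ 0 → b ≠ 0 → EG.LA a b →
      EG.Sol a b) → ∀ a b : A, ν.N a + ν.N b < n + 1 → a ≠ 0 → b ≠ 0 → ¬ EG.Sf a →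
      EG.LA a b → EG.Sol a b := by
    intro n ih a b hn ha hb hSa hL
    apply EG.sym_Sol
    apply EG.red ν b a ha hSa (EG.sym_LA a b hL)
    intro a' ha' hlt' hL'
    exact EG.sym_Sol _ _ (ih a' b (by omega) ha' hb (EG.sym_LA _ _ hL'))
  have step : ∀ n : ℕ, (∀ a b : A, ν.N a + ν.N b < n → a ≠ 0 → b ≠ 0 → EG.LA a b →
      EG.Sol a b) → ∀ a b : A, ν.N a + ν.N b < n + 1 → ν.N a ≤ ν.N b → a ≠ 0 → b ≠ 0 →
      EG.LA a b → EG.Sol a b := by
    intro n ih a b hn hab ha hb hL
    by_cases hSf : EG.Sf b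
    · by_cases hSa : EG.Sf a
      · rcases lt_or_ge (ν.N b) B with hlt | hge
        · exact hbase a b ha hb (by omega) hlt hSa hSf hL
        · obtain ⟨r0, c, hc⟩ := EG.esb a b hSf hb hL
          obtain ⟨r', hr'⟩ := EG.esb b a hSa ha (EG.sym_LA a b hL)
          rcases hdesc a b r0 r' ha hb hge hab hSa hSf ⟨c, hc⟩ hr' with hS | ⟨q, hq⟩
          · exact hS
          · have hr : (r0 - b * q) ^ 2 - a = b * (c - 2 * r0 * q + b * q ^ 2) := by
              linear_combination hc
            by_cases hb1 : c - 2 * r0 * q + b * q ^ 2 = 0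
            · rw [hb1, mul_zero, sub_eq_zero] at hr
              refine ⟨1, 0, r0 - b * q, fun h => one_ne_zero h.1, ?_⟩
              rw [hr]; ring
            · rw [hr, ν.mul, sq (ν.N b)] at hq
              have hlt' : ν.N (c - 2 * r0 * q + b * q ^ 2) < ν.N b :=
                Nat.lt_of_mul_lt_mul_left hq
              have k1 := EG.eds1 a b _ (r0 - b * q) hr (mul_ne_zero hb hb1) hL
              exact EG.eds2 a b _ (r0 - b * q) hr (mul_ne_zero hb hb1)
                (ih a _ (by omega) ha hb1 k1)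
      · exact redA n ih a b hn ha hb hSa hL
    · apply EG.red ν a b hb hSf hL
      intro b' hb' hlt' hL'
      exact ih a b' (by omega) ha hb' hL'
  have key : ∀ n : ℕ, ∀ a b : A, ν.N a + ν.N b < n → a ≠ 0 → b ≠ 0 → EG.LA a b →
      EG.Sol a b := by
    intro n
    induction n with
    | zero => intro a b h; omega
    | succ n ih =>
      intro a b hn ha hb hL
      rcases le_total (ν.N a) (ν.N b) with h | h
      · exact step n ih a b hn h ha hb hL
      · exact EG.sym_Sol b a (step n ih b a (by omega) h hb ha (EG.sym_LA a b hL))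
  intro a b ha hb hL
  exact key (ν.N a + ν.N b + 1) a b (by omega) ha hb hL

end Pool.Agent.F8.BG
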