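import Pool.Agent.Lib.MP_305fdd_al.F8.BG.StmL

/-!
# MP_305fdd_al, block L: the two rings are principal ideal rings
-/

set_option autoImplicit false

namespace Pool.Agent.F8.BG

open Pool.Agent.MP_305fdd_al Pool.Agent.Lib.MP_305fdd_al Pool.Agent.F2X Pool.Agent.F8
open scoped QuadraticAlgebra

private theorem Lpid_euc {A : Type} [CommRing A] (nm : A → ℤ) (h0 : ∀ a : A, 0 ≤ nm a)
    (hd : ∀ a c : A, c ≠ 0 → ∃ q : A, nm (a - q * c) < nm c) : IsPrincipalIdealRing A where
  principal I := by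
    classical
    by_cases hI : I = ⊥
    · exact ⟨0, by rw [hI]; simp⟩
    · obtain ⟨x, hxI, hx0⟩ := Submodule.exists_mem_ne_zero_of_ne_bot hI
      have hex : ∃ n : ℕ, ∃ x ∈ I, x ≠ 0 ∧ (nm x).toNat = n := ⟨(nm x).toNat, x, hxI, hx0, rfl⟩
      obtain ⟨b, hbI, hb0, hbn⟩ := Nat.find_spec hex
      have hmin := fun m (hm : m < Nat.find hex) => Nat.find_min hex hm
      rw [← hbn] at hmin
      refine ⟨b, le_antisymm (fun a haI => ?_) ?_⟩
      · obtain ⟨q, hq⟩ := hd a b hb0
        have hr : a - q * b ∈ I := I.sub_mem haI (I.mul_mem_left q hbI)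
        have h1 := h0 (a - q * b)
        have h2 : a - q * b = 0 := by
          by_contra h
          exact hmin (nm (a - q * b)).toNat (by omega) ⟨_, hr, h, rfl⟩
        rw [sub_eq_zero] at h2
        rw [h2]
        exact Ideal.mem_span_singleton.mpr (Dvd.intro_left q rfl)
      · rw [Submodule.span_singleton_le_iff_mem]; exact hbI

/-- [BG L_pid] -/
theorem p_Lpid : L_pid :=
  ⟨Lpid_euc D2.nm D2.nm_nonneg D2.O_div, Lpid_euc D11.nm D11.nm_nonneg D11.O_div⟩

end Pool.Agent.F8.BG
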