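import Pool.Agent.Lib.MP_305fdd_al.F8.BG.StmT
import Pool.Agent.Lib.MP_305fdd_al.F8.PIC7.P_X1

/-!
# MP_305fdd_al, Bianchi groups, piece `X1`: the congruence kernels
-/

set_option autoImplicit false

namespace Pool.Agent.F8.BG

open Pool.Agent.MP_305fdd_al Pool.Agent.Lib.MP_305fdd_al Pool.Agent.F2X Pool.Agent.F8
  Pool.Agent.F8.HN Pool.Agent.F8.AB
open scoped QuadraticAlgebra

/-- `[[1, 0], [1, 1]]` -/
def X1_lo (a b : ℤ) : GQ a b := mx 1 0 1 1 (by ring)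

theorem X1_tr_tt (a b : ℤ) : tr (mU 1 : GQ a b) = 2 := by
  rw [tr_eq]
  show (1 : Qf a b ℤ) + 1 = 2
  norm_num

theorem X1_tr_lo (a b : ℤ) : tr (X1_lo a b) = 2 := by
  rw [tr_eq]
  show (1 : Qf a b ℤ) + 1 = 2
  norm_num

theorem X1_tr_mul (a b : ℤ) : tr ((mU 1 : GQ a b) * X1_lo a b) = 3 := by
  rw [tr_eq, Matrix.SpecialLinearGroup.coe_mul, Matrix.mul_apply, Matrix.mul_apply,
    Fin.sum_univ_two, Fin.sum_univ_two]
  show ((1 : Qf a b ℤ) * 1 + 1 * 1) + (0 * 0 + 1 * 1) = 3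
  norm_num

theorem X1_tr_rd {a b : ℤ} (m : ℕ) (g : GQ a b) :
    tr (rdq a b m g) = Qfm a b (Int.castRingHom (ZMod m)) (tr g) :=
  tr_map _ _

theorem p_X1 (a b : ℤ) (hgr : PIC.S_gr) (hsig : T_sig a b) : T_X1 a b := by
  intro Λ _ Φ p₀ T s w hw hO ρ hρ
  have key : ∀ (m : ℕ) [NeZero m] (l : Λ),
      rdq a b m (ρ l) = 1 ↔ Φ.toFun _ (rdq a b m) l = 1 := by
    intro m _ l
    obtain ⟨e, he, hT⟩ := hsig Λ Φ p₀ T s w hw hO m
    have htr : ∀ l, tr (((rdq a b m).comp ρ) l) = sgq e he (tr (Φ.toFun _ (rdq a b m) l)) := by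
      intro l
      rw [← hT l, ← hρ l]
      exact X1_tr_rd m (ρ l)
    have hlift : ∀ g : GQ a b, ∃ l, Φ.toFun _ (rdq a b m) l = rdq a b m g := by
      intro g
      have : rdq a b m g ∈ (Φ.toFun _ (rdq a b m)).range := by
        rw [Φ.range_eq]; exact ⟨g, rfl⟩
      exact this
    obtain ⟨l₁, hl₁⟩ := hlift (mU 1)
    obtain ⟨l₂, hl₂⟩ := hlift (X1_lo a b)
    have t1 : tr (Φ.toFun _ (rdq a b m) l₁) = 2 := by rw [hl₁, X1_tr_rd, X1_tr_tt, map_ofNat]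
    have t2 : tr (Φ.toFun _ (rdq a b m) l₂) = 2 := by rw [hl₂, X1_tr_rd, X1_tr_lo, map_ofNat]
    have t3 : tr (Φ.toFun _ (rdq a b m) (l₁ * l₂)) = 3 := by
      rw [map_mul, hl₁, hl₂, ← map_mul, X1_tr_rd, X1_tr_mul, map_ofNat]
    constructor
    · intro h
      exact PIC7.X1_core hgr ((rdq a b m).comp ρ) (Φ.toFun _ (rdq a b m)) (sgq e he)
        (fun l => by rw [htr, sgq_sgq]) l₁ l₂ (by rw [htr, t1, map_ofNat])
        (by rw [htr, t2, map_ofNat]) (by rw [htr, t3, map_ofNat]) l h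
    · intro h
      exact PIC7.X1_core hgr (Φ.toFun _ (rdq a b m)) ((rdq a b m).comp ρ) (sgq e he) htr l₁ l₂
        t1 t2 t3 l h
  refine ⟨key, ?_⟩
  intro m _ g
  have hker : ((rdq a b m).comp ρ).ker = (Φ.toFun _ (rdq a b m)).ker := by
    ext l
    exact key m l
  have hle : ((rdq a b m).comp ρ).range ≤ (Φ.toFun _ (rdq a b m)).range := by
    rw [Φ.range_eq]
    rintro _ ⟨l, rfl⟩
    exact ⟨ρ l, rfl⟩
  have hcard : Nat.card ((rdq a b m).comp ρ).range = Nat.card (Φ.toFun _ (rdq a b m)).range := by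
    rw [← Subgroup.index_ker, ← Subgroup.index_ker, hker]
  have heq := Subgroup.eq_of_le_of_card_ge hle hcard.ge
  have hg : rdq a b m g ∈ ((rdq a b m).comp ρ).range := by
    rw [heq, Φ.range_eq]; exact ⟨g, rfl⟩
  exact hg

end Pool.Agent.F8.BG
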