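import Pool.Agent.Lib.MP_305fdd_al.F8.BG.StmU

set_option autoImplicit false

/-!
# Piece alg11: the equations
-/

namespace Pool.Agent.F8.BG

theorem p_alg11 : U_alg11 := by
  intro K _ h2 s p c f c' f' hs e1 e2 e3 hc' hf' e4 e5
  subst hc' hf'
  have h4 : (4 : K) ≠ 0 := by
    have : (4 : K) = 2 * 2 := by norm_num
    rw [this]; exact mul_ne_zero h2 h2
  have h8 : (8 : K) ≠ 0 := by
    have : (8 : K) = 4 * 2 := by norm_num
    rw [this]; exact mul_ne_zero h4 h2
  have h16 : (16 : K) ≠ 0 := by
    have : (16 : K) = 4 * 4 := by norm_num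
    rw [this]; exact mul_ne_zero h4 h4
  have hz : s ^ 2 ≠ 0 := pow_ne_zero 2 hs
  generalize s ^ 2 = z at *
  have e1' : z = 4 * p ^ 2 - 3 := by linear_combination -e1
  subst e1'
  have d2 : c ^ 2 = 1 + f ^ 2 * (p ^ 2 - 1) := by
    apply mul_left_cancel₀ h4
    linear_combination e2
  clear e1 e2
  have hm : (4 * p ^ 2 - 3) * (c + (p - 1) * f) ^ 2 = 2 * p - 1 := by
    linear_combination (4 * p ^ 2 - 3) * d2 + 2 * (p - 1) * e3
  have hn : (4 * p ^ 2 - 3) * (c + (p + 1) * f) ^ 2 = -(6 * p + 5) := by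
    linear_combination (4 * p ^ 2 - 3) * d2 + 2 * (p + 1) * e3
  have hS : 9 - 10 * p + (6 * p ^ 2 + p - 6) * (c + (p - 1) * f) = 0 := by
    apply mul_left_cancel₀ h4
    linear_combination e4 + e5 - 4 * (4 * p ^ 2 - 3) * d2 - 8 * p * e3
  have hD : (c + (p + 1) * f) *
      (-6 + 9 * p - 2 * p ^ 2 - (4 * p ^ 2 - 3) * (c + (p - 1) * f)) = 0 := by
    apply mul_left_cancel₀ h4
    linear_combination e4 - e5
  obtain ⟨m, hm'⟩ : ∃ m, m = c + (p - 1) * f := ⟨_, rfl⟩
  rw [← hm'] at hm hS hD
  rcases mul_eq_zero.mp hD with hN | hZ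
  · -- n = 0
    rw [hN] at hn
    have g1 : 6 * p = -5 := by linear_combination hn
    have g2 : m ^ 2 = 12 := by
      apply mul_left_cancel₀ h8
      linear_combination (-36 : K) * hm + (4 * m ^ 2 * (6 * p - 5) - 12) * g1
    have g3 : 2 * m = 13 := by
      apply mul_left_cancel₀ h8
      linear_combination (-6 : K) * hS + (-10 + m * (6 * p - 5 + 1)) * g1
    have g4 : (11 : K) ^ 2 = 0 := by
      linear_combination 4 * g2 - (2 * m + 13) * g3
    have g5 : (11 : K) = 0 := pow_eq_zero_iff two_ne_zero |>.mp g4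
    have g6 : (6 : K) ≠ 0 := by
      intro h
      have : (1 : K) = 0 := by linear_combination 2 * h - g5
      exact one_ne_zero this
    have g7 : p = 1 := by
      apply mul_left_cancel₀ g6
      linear_combination g1 - g5
    have g8 : m = 1 := by
      apply mul_left_cancel₀ h2
      linear_combination g3 + g5
    refine ⟨g7, ?_⟩
    rw [g7, g8] at hm'
    linear_combination -hm'
  · -- z m = ...
    have hA : 3 * ((p - 1) ^ 2 * ((2 * p - 1) * (2 * p + 3))) = 0 := by
      linear_combination (-(4 * p ^ 2 - 3)) * hS - (6 * p ^ 2 + p - 6) * hZ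
    have hB : (p - 1) ^ 2 * (4 * p ^ 2 - 36 * p + 33) = 0 := by
      linear_combination (4 * p ^ 2 - 3) * hm +
        (-6 + 9 * p - 2 * p ^ 2 + (4 * p ^ 2 - 3) * m) * hZ
    by_cases hp : p = 1
    · refine ⟨hp, ?_⟩
      rw [hp] at hZ hm'
      linear_combination -hm' - hZ
    · exfalso
      have hp2 : (p - 1) ^ 2 ≠ 0 := pow_ne_zero 2 (sub_ne_zero.mpr hp)
      have g2 : 4 * p ^ 2 - 36 * p + 33 = 0 := (mul_eq_zero.mp hB).resolve_left hp2
      rcases mul_eq_zero.mp hA with h3 | h3
      · have g3 : p ^ 2 = 0 := by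
          apply mul_left_cancel₀ h4
          linear_combination g2 + (12 * p - 11) * h3
        apply hz
        linear_combination 4 * g3 - h3
      · rcases mul_eq_zero.mp ((mul_eq_zero.mp h3).resolve_left hp2) with h5 | h5
        · apply h16
          linear_combination g2 - (2 * p + 1 - 18) * h5
        · have h96 : (32 : K) * 3 = 0 := by
            linear_combination g2 - (2 * p - 3 - 18) * h5
          have h32 : (32 : K) ≠ 0 := by
            have : (32 : K) = 16 * 2 := by norm_num
            rw [this]; exact mul_ne_zero h16 h2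
          have h3' : (3 : K) = 0 := (mul_eq_zero.mp h96).resolve_left h32
          apply hz
          linear_combination (2 * p - 3) * h5 + 2 * h3'

end Pool.Agent.F8.BG
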