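import Pool.Agent.Lib.MP_305fdd_al.F8.BG.StmU

set_option autoImplicit false

/-!
# Piece alg2: the equations
-/

namespace Pool.Agent.F8.BG

theorem p_alg2 : U_alg2 := by
  intro K _ h2 s p c f hs e1 e2 e3 e4 e5
  have h4 : (4 : K) ≠ 0 := by
    have : (4 : K) = 2 * 2 := by norm_num
    rw [this]; exact mul_ne_zero h2 h2
  have h8 : (8 : K) ≠ 0 := by
    have : (8 : K) = 4 * 2 := by norm_num
    rw [this]; exact mul_ne_zero h4 h2
  generalize s ^ 2 = z at *
  have hf : f ≠ 0 := by
    intro h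
    apply h2
    rw [h] at e2
    linear_combination e2
  -- the sum
  have hc : p * (1 + c) = 2 := by
    apply mul_left_cancel₀ h8
    linear_combination (-1 : K) * e4 - e5
  -- the difference
  have hd : 4 * p + z - 3 - 2 * z * c = 0 := by
    have h : 2 * f * (4 * p + z - 3 - 2 * z * c) = 0 := by
      linear_combination e4 - e5
    exact (mul_eq_zero.mp h).resolve_left (mul_ne_zero h2 hf)
  have hA : 4 * ((p - 1) ^ 2 * (3 * (p + 1))) = 0 := by
    linear_combination p * hd + 2 * z * hc + (3 * p - 4) * e1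
  have hB : 4 * ((p - 1) ^ 2 * (p ^ 2 - 6 * p - 6)) = 0 := by
    have h5 : 2 * c ^ 2 * z = z + 1 := by
      apply mul_left_cancel₀ h2
      linear_combination z * e3 - e2
    linear_combination p ^ 2 * h5 - 2 * z * (p * c + 2 - p) * hc + (2 * (2 - p) ^ 2 - p ^ 2) * e1
  by_cases hp : p = 1
  · refine ⟨hp, ?_⟩
    rw [hp] at hc
    linear_combination hc
  · exfalso
    have hp2 : (p - 1) ^ 2 ≠ 0 := pow_ne_zero 2 (sub_ne_zero.mpr hp)
    have g1 : 3 * (p + 1) = 0 :=
      (mul_eq_zero.mp ((mul_eq_zero.mp hA).resolve_left h4)).resolve_left hp2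
    have g2 : p ^ 2 - 6 * p - 6 = 0 :=
      (mul_eq_zero.mp ((mul_eq_zero.mp hB).resolve_left h4)).resolve_left hp2
    have g3 : p ^ 2 = 0 := by linear_combination g2 + 2 * g1
    have g4 : p = 0 := pow_eq_zero_iff two_ne_zero |>.mp g3
    apply h2
    rw [g4] at hc
    linear_combination -hc

end Pool.Agent.F8.BG
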