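import Pool.Agent.Lib.MP_305fdd_al.F8.BG.StmO

/-!
# MP_305fdd_al, project BG: piece aut11, the automorphisms of `PSL₂` of the integers of `ℚ(√-11)`
-/

set_option autoImplicit false

namespace Pool.Agent.F8.BG

open Pool.Agent.MP_305fdd_al Pool.Agent.Lib.MP_305fdd_al Pool.Agent.F2X Pool.Agent.F8
open scoped QuadraticAlgebra

noncomputable section

section mat

variable {R : Type} [CommRing R] [IsDomain R]

private theorem aut11_scalar (x : SL2 R) (b0 : x.val 0 1 = 0) (c0 : x.val 1 0 = 0)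
    (ad : x.val 0 0 = x.val 1 1) : x = 1 ∨ x = -1 := by
  have hdet := G.SL_det x
  rw [b0, c0, ← ad] at hdet
  have h1 : (x.val 0 0 - 1) * (x.val 0 0 + 1) = 0 := by linear_combination hdet
  rcases mul_eq_zero.1 h1 with h | h
  · left
    have h' : x.val 0 0 = 1 := by linear_combination h
    apply G.SL_ext
    · exact h'
    · exact b0
    · exact c0
    · rw [← ad]; exact h'
  · right
    have h' : x.val 0 0 = -1 := by linear_combination h
    apply G.SL_ext
    · exact h'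
    · rw [b0]; exact neg_zero.symm
    · rw [c0]; exact neg_zero.symm
    · rw [← ad]; exact h'

/-- an element whose cube is `± 1` is `± 1` or has trace `± 1` -/
private theorem aut11_cube (x : SL2 R) (hx : x * x * x = 1 ∨ x * x * x = -1) :
    (x = 1 ∨ x = -1) ∨ tr x * tr x = 1 := by
  by_cases ht : tr x * tr x = 1
  · exact Or.inr ht
  left
  rw [tr_eq] at ht
  have ht' : (x.val 0 0 + x.val 1 1) * (x.val 0 0 + x.val 1 1) - 1 ≠ 0 := sub_ne_zero.2 ht
  have key : ∃ s : R, (x * x * x).val 0 1 = 0 ∧ (x * x * x).val 1 0 = 0 ∧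
      (x * x * x).val 0 0 = s ∧ (x * x * x).val 1 1 = s := by
    rcases hx with h | h
    · rw [h]; exact ⟨1, rfl, rfl, rfl, rfl⟩
    · rw [h]; exact ⟨-1, neg_zero, neg_zero, rfl, rfl⟩
  obtain ⟨s, k01, k10, k00, k11⟩ := key
  simp only [G.SL_mul] at k01 k10 k00 k11
  have hdet := G.SL_det x
  have b0 : x.val 0 1 = 0 := by
    have : x.val 0 1 * ((x.val 0 0 + x.val 1 1) * (x.val 0 0 + x.val 1 1) - 1) = 0 := by
      linear_combination k01 + x.val 0 1 * hdet
    exact (mul_eq_zero.1 this).resolve_right ht'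
  have c0 : x.val 1 0 = 0 := by
    have : x.val 1 0 * ((x.val 0 0 + x.val 1 1) * (x.val 0 0 + x.val 1 1) - 1) = 0 := by
      linear_combination k10 + x.val 1 0 * hdet
    exact (mul_eq_zero.1 this).resolve_right ht'
  have ad : x.val 0 0 = x.val 1 1 := by
    have : (x.val 0 0 - x.val 1 1) *
        ((x.val 0 0 + x.val 1 1) * (x.val 0 0 + x.val 1 1) - 1) = 0 := by
      linear_combination k00 - k11 + (x.val 0 0 - x.val 1 1) * hdet
    exact sub_eq_zero.1 ((mul_eq_zero.1 this).resolve_right ht')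
  exact aut11_scalar x b0 c0 ad

omit [IsDomain R] in
private theorem aut11_tr (d : Bool) (g : SL2 R) : tr (dd R d g) = tr g := by
  rw [tr_eq, tr_eq]
  cases d
  · rfl
  · rfl

omit [IsDomain R] in
private theorem aut11_inv (y : R) : (mU y)⁻¹ = mU (-y) := by
  rw [inv_eq_iff_mul_eq_one, ← G.mU_add, add_neg_cancel, G.mU_zero]

omit [IsDomain R] in
private theorem aut11_cj (m x : SL2 R) (h : m * x * m⁻¹ = 1 ∨ m * x * m⁻¹ = -1) :
    x = 1 ∨ x = -1 := by
  have e : x = m⁻¹ * (m * x * m⁻¹) * m := by group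
  rcases h with h | h
  · left
    rw [e, h, mul_one, inv_mul_cancel]
  · right
    rw [e, h, mul_neg, mul_one, neg_mul, inv_mul_cancel]

omit [IsDomain R] in
private theorem aut11_pm {g : SL2 R} (h : g = 1 ∨ g = -1) : AB.pj R g = 1 := by
  rcases h with rfl | rfl
  · exact map_one _
  · rw [AB.pj_neg, map_one]

end mat

private theorem aut11_nu {u v : Qf (-3) 1 ℤ} (h : u * v = 1) : u = 1 ∨ u = -1 := by
  apply D11.unit_cases
  have h1 : D11.nm u * D11.nm v = 1 := by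
    rw [← D11.nm_mul, h, D11.nm_one]
  exact Int.eq_one_of_mul_eq_one_right (D11.nm_nonneg u) h1

private theorem aut11_unit (u : (Qf (-3) 1 ℤ)ˣ) : u = 1 ∨ u = -1 := by
  rcases aut11_nu (Units.mul_inv u) with h | h
  · left; exact Units.ext h
  · right; exact Units.ext h

/-- the values of `stq` -/
private theorem aut11_T (d e : Bool) : stq (-3) 1 d e (mU 1) = dd _ d (mU 1) := by
  cases e
  · rfl
  · apply congrArg (dd _ d)
    apply G.SL_ext <;> rfl

private theorem aut11_B (d e : Bool) : stq (-3) 1 d e (mB _) = dd _ d (mB _) := by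
  cases e
  · rfl
  · apply congrArg (dd _ d)
    apply G.SL_ext <;> rfl

private theorem aut11_U0 (d : Bool) :
    stq (-3) 1 d false (mU (wq (-3) 1 ℤ)) = dd _ d (mU (wq (-3) 1 ℤ)) := rfl

private theorem aut11_U1 (d : Bool) :
    stq (-3) 1 d true (mU (wq (-3) 1 ℤ)) = dd _ d (mU (1 - wq (-3) 1 ℤ)) := by
  apply congrArg (dd _ d)
  apply G.SL_ext <;> rfl

/-- the last step -/
private theorem aut11_end (h : MulAut (MQ (-3) 1)) (d e : Bool) (m : GQ (-3) 1)
    (hT : h (pq (-3) 1 (mU 1)) = pq (-3) 1 (m * stq (-3) 1 d e (mU 1) * m⁻¹))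
    (hU : h (pq (-3) 1 (mU (wq (-3) 1 ℤ))) =
      pq (-3) 1 (m * stq (-3) 1 d e (mU (wq (-3) 1 ℤ)) * m⁻¹))
    (hB : h (pq (-3) 1 (mB _)) = pq (-3) 1 (m * stq (-3) 1 d e (mB _) * m⁻¹)) :
    IsQ (-3) 1 h d e := by
  refine ⟨m, fun x => ?_⟩
  have e1 : ∀ s : GQ (-3) 1, ((MulAut.conj (pq (-3) 1 m)).toMonoidHom.comp (pq (-3) 1)) s =
      pq (-3) 1 (m * s * m⁻¹) := by
    intro s
    rw [map_mul, map_mul, map_inv]
    rfl
  have e2 := D11.sub' (MonoidHom.eqLocus (h.toMonoidHom.comp (pq (-3) 1))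
    (((MulAut.conj (pq (-3) 1 m)).toMonoidHom.comp (pq (-3) 1)).comp (stq (-3) 1 d e)))
    (hT.trans (e1 _).symm) (hU.trans (e1 _).symm) (hB.trans (e1 _).symm) x
  exact (show h (pq (-3) 1 x) = _ from e2).trans (e1 _)

theorem p_aut11 (h0 : O_aut0 (-3) 1) (hpid : IsPrincipalIdealRing (Qf (-3) 1 ℤ)) : O_aut11 := by
  intro h
  have : IsDomain (Qf (-3) 1 ℤ) := Qf_domain (by norm_num)
  obtain ⟨d, m, y, hT, hU, hB⟩ := h0 (by norm_num) hpid aut11_unit h
  -- the homomorphism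
  obtain ⟨X, hX⟩ : ∃ X : GQ (-3) 1, X = mB _ * mU 1 * (mU (wq (-3) 1 ℤ))⁻¹ * mB _ *
    mU (wq (-3) 1 ℤ) := ⟨_, rfl⟩
  obtain ⟨Z, hZ⟩ : ∃ Z : GQ (-3) 1, Z = mB _ * mU 1 * (mU y)⁻¹ * mB _ * mU y := ⟨_, rfl⟩
  have hmul : ∀ g G g' G' : GQ (-3) 1, h (pq (-3) 1 g) = pq (-3) 1 (m * dd _ d G * m⁻¹) →
      h (pq (-3) 1 g') = pq (-3) 1 (m * dd _ d G' * m⁻¹) →
      h (pq (-3) 1 (g * g')) = pq (-3) 1 (m * dd _ d (G * G') * m⁻¹) := by
    intro g G g' G' h1 h2
    rw [map_mul (pq (-3) 1) g g', map_mul h, h1, h2, ← map_mul, map_mul (dd _ d)]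
    congr 1
    group
  have hinv : ∀ g G : GQ (-3) 1, h (pq (-3) 1 g) = pq (-3) 1 (m * dd _ d G * m⁻¹) →
      h (pq (-3) 1 g⁻¹) = pq (-3) 1 (m * dd _ d G⁻¹ * m⁻¹) := by
    intro g G h1
    rw [map_inv (pq (-3) 1) g, map_inv h, h1, ← map_inv, map_inv (dd _ d)]
    congr 1
    group
  have hXZ : h (pq (-3) 1 X) = pq (-3) 1 (m * dd _ d Z * m⁻¹) := by
    rw [hX, hZ]
    exact hmul _ _ _ _ (hmul _ _ _ _ (hmul _ _ _ _ (hmul _ _ _ _ hB hT) (hinv _ _ hU)) hB) hU
  have hX3 : X * X * X = -1 := by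
    rw [hX, aut11_inv]
    apply G.SL_ext <;> simp only [G.SL_mul] <;> decide
  have hX1 : ¬ (X = 1 ∨ X = -1) := by
    rw [hX, aut11_inv]
    rintro (h | h)
    · have h1 := congrArg (fun g : GQ (-3) 1 => g.val 1 0) h
      simp only [G.SL_mul] at h1
      revert h1
      decide
    · have h1 := congrArg (fun g : GQ (-3) 1 => g.val 1 0) h
      simp only [G.SL_mul] at h1
      revert h1
      decide
  have hZ3 : dd _ d Z * dd _ d Z * dd _ d Z = 1 ∨ dd _ d Z * dd _ d Z * dd _ d Z = -1 := by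
    rw [← map_mul, ← map_mul]
    apply aut11_cj m
    apply AB.pj_eq_one
    have h1 := hmul _ _ _ _ (hmul _ _ _ _ hXZ hXZ) hXZ
    rw [hX3] at h1
    have h2 : pq (-3) 1 (-1) = 1 := aut11_pm (Or.inr rfl)
    rw [h2, map_one] at h1
    exact h1.symm
  have hZ1 : ¬ (dd _ d Z = 1 ∨ dd _ d Z = -1) := by
    intro h1
    apply hX1
    apply AB.pj_eq_one
    have h2 : pq (-3) 1 (m * dd _ d Z * m⁻¹) = 1 := by
      apply aut11_pm
      rcases h1 with h1 | h1
      · left; rw [h1, mul_one, mul_inv_cancel]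
      · right; rw [h1, mul_neg, mul_one, neg_mul, mul_inv_cancel]
    rw [h2] at hXZ
    exact (map_eq_one_iff h h.injective).1 hXZ
  have htr := (aut11_cube _ hZ3).resolve_left hZ1
  rw [aut11_tr, hZ, aut11_inv, tr_eq] at htr
  simp only [G.SL_mul, G.mU00, G.mU01, G.mU10, G.mU11, G.mB00, G.mB01, G.mB10, G.mB11] at htr
  have hw : wq (-3) 1 ℤ * wq (-3) 1 ℤ = -3 + wq (-3) 1 ℤ := by
    rw [wq_sq]
    push_cast
    ring
  have h5 : (y * (1 - y) - 1) * ((y - wq (-3) 1 ℤ) * (y - 1 + wq (-3) 1 ℤ)) = 0 := by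
    linear_combination -htr - (y * (1 - y) - 1) * hw
  rcases mul_eq_zero.1 h5 with h6 | h6
  · exfalso
    have h7 : y * (1 - y) = 1 := by linear_combination h6
    rcases aut11_nu h7 with h8 | h8
    · rw [h8] at h7
      revert h7
      decide
    · rw [h8] at h7
      revert h7
      decide
  · rcases mul_eq_zero.1 h6 with h7 | h7
    · have h8 : y = wq (-3) 1 ℤ := by linear_combination h7
      rw [h8] at hU
      refine ⟨d, false, aut11_end h d false m ?_ ?_ ?_⟩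
      · rw [aut11_T]; exact hT
      · rw [aut11_U0]; exact hU
      · rw [aut11_B]; exact hB
    · have h8 : y = 1 - wq (-3) 1 ℤ := by linear_combination h7
      rw [h8] at hU
      refine ⟨d, true, aut11_end h d true m ?_ ?_ ?_⟩
      · rw [aut11_T]; exact hT
      · rw [aut11_U1]; exact hU
      · rw [aut11_B]; exact hB

end

end Pool.Agent.F8.BG
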