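import Pool.Agent.Lib.MP_305fdd_al.F8.BG.StmO

/-!
# MP_305fdd_al, project BG: piece aut2, the automorphisms of `PSL₂(ℤ[√-2])`
-/

set_option autoImplicit false

namespace Pool.Agent.F8.BG

open Pool.Agent.MP_305fdd_al Pool.Agent.Lib.MP_305fdd_al Pool.Agent.F2X Pool.Agent.F8
  Pool.Agent.F8.HN Pool.Agent.F8.AB
open Pool.Agent.F8.BG.D2 (O2)
open scoped QuadraticAlgebra

noncomputable section

section mat

variable {R : Type} [CommRing R] [IsDomain R]

private theorem aut2_scalar (x : SL2 R) (b0 : x.val 0 1 = 0) (c0 : x.val 1 0 = 0)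
    (ad : x.val 0 0 = x.val 1 1) : x = 1 ∨ x = -1 := by
  have hdet := G.SL_det x
  rw [b0, c0, ← ad] at hdet
  have h1 : (x.val 0 0 - 1) * (x.val 0 0 + 1) = 0 := by linear_combination hdet
  rcases mul_eq_zero.1 h1 with h | h
  · left
    have h' : x.val 0 0 = 1 := by linear_combination h
    apply G.SL_ext
    · exact h'
    · exact b0
    · exact c0
    · rw [← ad]; exact h'
  · right
    have h' : x.val 0 0 = -1 := by linear_combination h
    apply G.SL_ext
    · exact h'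
    · rw [b0]; exact neg_zero.symm
    · rw [c0]; exact neg_zero.symm
    · rw [← ad]; exact h'

/-- an element whose square is `± 1` is `± 1` or has trace zero -/
private theorem aut2_sq (x : SL2 R) (hx : x * x = 1 ∨ x * x = -1) :
    (x = 1 ∨ x = -1) ∨ tr x = 0 := by
  by_cases ht : tr x = 0
  · exact Or.inr ht
  left
  rw [tr_eq] at ht
  have key : ∃ s : R, (x * x).val 0 1 = 0 ∧ (x * x).val 1 0 = 0 ∧ (x * x).val 0 0 = s ∧
      (x * x).val 1 1 = s := by
    rcases hx with h | h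
    · rw [h]; exact ⟨1, rfl, rfl, rfl, rfl⟩
    · rw [h]; exact ⟨-1, neg_zero, neg_zero, rfl, rfl⟩
  obtain ⟨s, k01, k10, k00, k11⟩ := key
  rw [G.SL_mul] at k01 k10 k00 k11
  have b0 : x.val 0 1 = 0 := by
    have : x.val 0 1 * (x.val 0 0 + x.val 1 1) = 0 := by linear_combination k01
    exact (mul_eq_zero.1 this).resolve_right ht
  have c0 : x.val 1 0 = 0 := by
    have : x.val 1 0 * (x.val 0 0 + x.val 1 1) = 0 := by linear_combination k10
    exact (mul_eq_zero.1 this).resolve_right ht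
  have ad : x.val 0 0 = x.val 1 1 := by
    have : (x.val 0 0 - x.val 1 1) * (x.val 0 0 + x.val 1 1) = 0 := by
      linear_combination k00 - k11
    exact sub_eq_zero.1 ((mul_eq_zero.1 this).resolve_right ht)
  exact aut2_scalar x b0 c0 ad

omit [IsDomain R] in
private theorem aut2_inv (y : R) : (mU y)⁻¹ = mU (-y) := by
  rw [inv_eq_iff_mul_eq_one, ← G.mU_add, add_neg_cancel, G.mU_zero]

omit [IsDomain R] in
private theorem aut2_deR (x : SL2 R) : deR R (deR R x) = x := by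
  apply G.SL_ext
  · rfl
  · exact neg_neg _
  · exact neg_neg _
  · rfl

omit [IsDomain R] in
private theorem aut2_dd (d : Bool) (x : SL2 R) : dd R d (dd R d x) = x := by
  cases d
  · rfl
  · exact aut2_deR x

omit [IsDomain R] in
private theorem aut2_dn (d : Bool) (x : SL2 R) : dd R d (-x) = -dd R d x := by
  cases d
  · rfl
  · apply G.SL_ext <;> rfl

end mat

private theorem aut2_pm {a b : ℤ} {g : GQ a b} (h : g = 1 ∨ g = -1) : pq a b g = 1 := by
  rcases h with rfl | rfl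
  · exact map_one _
  · rw [pj_neg, map_one]

theorem p_aut2 (h0 : O_aut0 (-2) 0) (hpid : IsPrincipalIdealRing (Qf (-2) 0 ℤ)) : O_aut2 := by
  intro h
  have hdom : IsDomain (Qf (-2) 0 ℤ) := Qf_domain (by norm_num)
  have hun : ∀ u : (Qf (-2) 0 ℤ)ˣ, u = 1 ∨ u = -1 := by
    intro u
    have h1 : D2.nm (u : O2) * D2.nm ((u⁻¹ : (Qf (-2) 0 ℤ)ˣ) : O2) = 1 := by
      rw [← D2.nm_mul, Units.mul_inv, D2.nm_one]
    have h2 : D2.nm (u : O2) = 1 := Int.eq_one_of_mul_eq_one_right (D2.nm_nonneg _) h1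
    rcases D2.unit_cases h2 with h3 | h3
    · left
      exact Units.ext h3
    · right
      exact Units.ext h3
  obtain ⟨d, m, y, hT, hU, hB⟩ := h0 (by norm_num) hpid hun h
  obtain ⟨X, hX⟩ : ∃ X : GQ (-2) 0, X = mB _ * mU (-(wq (-2) 0 ℤ)) * mB _ * mU (wq (-2) 0 ℤ) :=
    ⟨_, rfl⟩
  obtain ⟨Z, hZ⟩ : ∃ Z : GQ (-2) 0, Z = mB _ * mU (-y) * mB _ * mU y := ⟨_, rfl⟩
  have hXX : X * X = -1 := by
    rw [hX]
    apply G.SL_ext <;> simp only [G.SL_mul] <;> decide
  have hX1 : ¬ (X = 1 ∨ X = -1) := by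
    rw [hX]
    rintro (h | h)
    · have h1 := congrArg (fun g : GQ (-2) 0 => g.val 1 0) h
      simp only [G.SL_mul] at h1
      revert h1
      decide
    · have h1 := congrArg (fun g : GQ (-2) 0 => g.val 1 0) h
      simp only [G.SL_mul] at h1
      revert h1
      decide
  have hXZ : h (pq (-2) 0 X) = pq (-2) 0 (m * dd _ d Z * m⁻¹) := by
    have e : m * dd _ d Z * m⁻¹ = (m * dd _ d (mB _) * m⁻¹) * (m * dd _ d (mU y) * m⁻¹)⁻¹ *
        (m * dd _ d (mB _) * m⁻¹) * (m * dd _ d (mU y) * m⁻¹) := by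
      rw [hZ, ← aut2_inv]
      simp only [map_mul, map_inv]
      group
    rw [e, hX, ← aut2_inv]
    simp only [map_mul, map_inv] at hT hU hB ⊢
    rw [hB, hU]
  have hneg : h (pq (-2) 0 (-1)) = 1 := by
    rw [pj_neg, map_one, map_one]
  have hZ2 : Z * Z = 1 ∨ Z * Z = -1 := by
    have h1 : pq (-2) 0 (m * dd _ d (Z * Z) * m⁻¹) = 1 := by
      have e : m * dd _ d (Z * Z) * m⁻¹ = (m * dd _ d Z * m⁻¹) * (m * dd _ d Z * m⁻¹) := by
        rw [map_mul]
        group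
      rw [e, map_mul, ← hXZ, ← map_mul, ← map_mul, hXX, hneg]
    have h2 : m * dd _ d (Z * Z) * m⁻¹ = 1 ∨ m * dd _ d (Z * Z) * m⁻¹ = -1 := pj_eq_one h1
    have h3 : dd _ d (Z * Z) = 1 ∨ dd _ d (Z * Z) = -1 := by
      rcases h2 with h | h
      · left
        have e : dd _ d (Z * Z) = m⁻¹ * (m * dd _ d (Z * Z) * m⁻¹) * m := by group
        rw [e, h]
        group
      · right
        have e : dd _ d (Z * Z) = m⁻¹ * (m * dd _ d (Z * Z) * m⁻¹) * m := by group
        rw [e, h, mul_neg, mul_one, neg_mul, inv_mul_cancel]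
    rcases h3 with h | h
    · left
      rw [← aut2_dd d (Z * Z), h, map_one]
    · right
      rw [← aut2_dd d (Z * Z), h, aut2_dn, map_one]
  have hZ1 : ¬ (Z = 1 ∨ Z = -1) := by
    intro hz
    apply hX1
    have h1 : h (pq (-2) 0 X) = 1 := by
      rw [hXZ]
      rcases hz with hz | hz
      · rw [hz, map_one, mul_one, mul_inv_cancel, map_one]
      · rw [hz, aut2_dn, map_one, mul_neg, mul_one, neg_mul, mul_inv_cancel, pj_neg, map_one]
    exact pj_eq_one ((map_eq_one_iff h h.injective).1 h1)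
  have htr : tr Z = 0 := (aut2_sq Z hZ2).resolve_left hZ1
  have h5 : (y - wq (-2) 0 ℤ) * (y + wq (-2) 0 ℤ) = 0 := by
    rw [hZ, tr_eq] at htr
    simp only [G.SL_mul, G.mU00, G.mU01, G.mU10, G.mU11, G.mB00, G.mB01, G.mB10, G.mB11] at htr
    have h6 := wq_sq (-2) 0 ℤ
    push_cast at h6
    linear_combination -htr - h6
  obtain ⟨e, he1, heU, heB⟩ : ∃ e : Bool,
      dd (Qf (-2) 0 ℤ) d (mU 1) = stq (-2) 0 d e (mU 1) ∧
      dd (Qf (-2) 0 ℤ) d (mU y) = stq (-2) 0 d e (mU (wq (-2) 0 ℤ)) ∧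
      dd (Qf (-2) 0 ℤ) d (mB _) = stq (-2) 0 d e (mB _) := by
    rcases mul_eq_zero.1 h5 with h | h
    · refine ⟨false, rfl, ?_, rfl⟩
      have hy : y = wq (-2) 0 ℤ := by linear_combination h
      rw [hy]
      rfl
    · refine ⟨true, ?_, ?_, ?_⟩
      · show dd (Qf (-2) 0 ℤ) d (mU 1) = dd (Qf (-2) 0 ℤ) d (cGq (-2) 0 (mU 1))
        congr 1
        apply G.SL_ext <;> rfl
      · show dd (Qf (-2) 0 ℤ) d (mU y) = dd (Qf (-2) 0 ℤ) d (cGq (-2) 0 (mU (wq (-2) 0 ℤ)))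
        have hy : y = -wq (-2) 0 ℤ := by linear_combination h
        rw [hy]
        congr 1
        apply G.SL_ext <;> rfl
      · show dd (Qf (-2) 0 ℤ) d (mB _) = dd (Qf (-2) 0 ℤ) d (cGq (-2) 0 (mB _))
        congr 1
        apply G.SL_ext <;> rfl
  refine ⟨d, e, m, fun x => ?_⟩
  have key := D2.SL_sub (MonoidHom.eqLocus (h.toMonoidHom.comp (pq (-2) 0))
    ((pq (-2) 0).comp (((MulAut.conj m).toMonoidHom).comp (stq (-2) 0 d e)))) ?_ ?_ ?_ x
  · exact key
  · show h (pq (-2) 0 (mU 1)) = pq (-2) 0 (m * stq (-2) 0 d e (mU 1) * m⁻¹)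
    rw [hT, he1]
  · show h (pq (-2) 0 (mU (wq (-2) 0 ℤ))) = pq (-2) 0 (m * stq (-2) 0 d e (mU (wq (-2) 0 ℤ)) * m⁻¹)
    rw [hU, heU]
  · show h (pq (-2) 0 (mB _)) = pq (-2) 0 (m * stq (-2) 0 d e (mB _) * m⁻¹)
    rw [hB, heB]

end

end Pool.Agent.F8.BG
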