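import Pool.Agent.Lib.MP_305fdd_al.F8.BG.StmU

/-!
# MP_305fdd_al, the Bianchi group of `ℚ(√-11)`: piece cg11, the conjugate representation
-/

set_option autoImplicit false

namespace Pool.Agent.F8.BG

open Pool.Agent.MP_305fdd_al Pool.Agent.Lib.MP_305fdd_al Pool.Agent.F2X Pool.Agent.F8
  Pool.Agent.F8.HN
open scoped QuadraticAlgebra

theorem cg11_B : cGq (-3) 1 (mB _) = mB _ := by
  apply G.SL_ext <;> decide

theorem cg11_T : cGq (-3) 1 (mU 1) = mU 1 := by
  apply G.SL_ext <;> decide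

theorem cg11_U : cGq (-3) 1 (mU (wq (-3) 1 ℤ))⁻¹ = (mU 1)⁻¹ * ((mU (wq (-3) 1 ℤ))⁻¹)⁻¹ := by
  apply G.SL_ext <;> decide

/-- [BG cg11] the conjugate representation -/
theorem p_cg11 : U_cg11 := by
  intro K _ h2 ρ s p c f h
  have hN : ((s + 1) / 2) * ((s - 1) / 2) = p ^ 2 - 1 := by
    have e1 := h.e1
    field_simp
    linear_combination (-1 : K) * e1
  have i1 : (ρ (mU 1)⁻¹).val = !![p, -((s + 1) / 2); -((s - 1) / 2), p] := by
    rw [map_inv, Matrix.SpecialLinearGroup.coe_inv]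
    have := h.T
    rw [this]
    exact Matrix.adjugate_fin_two_of _ _ _ _
  have i2 : (ρ ((mU (wq (-3) 1 ℤ))⁻¹)⁻¹).val =
      !![c, -(f * ((s + 1) / 2)); -(f * ((s - 1) / 2)), c] := by
    rw [map_inv, Matrix.SpecialLinearGroup.coe_inv]
    have := h.U
    rw [this]
    exact Matrix.adjugate_fin_two_of _ _ _ _
  refine ⟨h.hs, h.e1, ?_, ?_, ?_, ?_⟩
  · linear_combination h.e2 + ((c + p * f) ^ 2 - f ^ 2) * h.e1
  · show (ρ (cGq (-3) 1 (mB _))).val = _
    rw [cg11_B]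
    exact h.B
  · show (ρ (cGq (-3) 1 (mU 1))).val = _
    rw [cg11_T]
    exact h.T
  · show (ρ (cGq (-3) 1 (mU (wq (-3) 1 ℤ))⁻¹)).val = _
    rw [cg11_U, map_mul, Matrix.SpecialLinearGroup.coe_mul, i1, i2, Matrix.mul_fin_two]
    congr 1
    · have h3 : p * c + -((s + 1) / 2) * -(f * ((s - 1) / 2)) = p * c + f * (p ^ 2 - 1) := by
        linear_combination f * hN
      have h4 : p * -(f * ((s + 1) / 2)) + -((s + 1) / 2) * c = -(c + p * f) * ((s + 1) / 2) := by
        ring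
      have h5 : -((s - 1) / 2) * c + p * -(f * ((s - 1) / 2)) = -(c + p * f) * ((s - 1) / 2) := by
        ring
      have h6 : -((s - 1) / 2) * -(f * ((s + 1) / 2)) + p * c = p * c + f * (p ^ 2 - 1) := by
        linear_combination f * hN
      rw [h3, h4, h5, h6]

end Pool.Agent.F8.BG
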