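import Pool.Agent.Lib.MP_305fdd_al.F8.BG.StmU

/-!
# MP_305fdd_al, the Bianchi group of `ℚ(√-2)`: piece cg2, the conjugate representation
-/

set_option autoImplicit false

namespace Pool.Agent.F8.BG

open Pool.Agent.MP_305fdd_al Pool.Agent.Lib.MP_305fdd_al Pool.Agent.F2X Pool.Agent.F8
  Pool.Agent.F8.HN
open scoped QuadraticAlgebra

private theorem cg2_B : cGq (-2) 0 (mB _) = mB _ := by
  apply G.SL_ext <;> decide

private theorem cg2_T : cGq (-2) 0 (mU 1) = mU 1 := by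
  apply G.SL_ext <;> decide

private theorem cg2_U : cGq (-2) 0 (mU (wq (-2) 0 ℤ))⁻¹ = mU (wq (-2) 0 ℤ) := by
  rw [map_inv]
  apply inv_eq_of_mul_eq_one_left
  apply G.SL_ext <;> decide

private theorem cg2_inv {K : Type} [CommRing K] (g : SL2 K) (a b c d : K)
    (h : (g⁻¹).val = !![a, b; c, d]) : g.val = !![d, -b; -c, a] := by
  have h1 : g.val = (g⁻¹)⁻¹.val := by rw [inv_inv]
  rw [h1, Matrix.SpecialLinearGroup.coe_inv, h, Matrix.adjugate_fin_two_of]

/-- [BG U_cg2] -/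
theorem p_cg2 : U_cg2 := by
  intro K _ h2 ρ s p c f h
  have hU : (ρ (mU (wq (-2) 0 ℤ))).val =
      !![c, -(f * ((s + 1) / 2)); -(f * ((s - 1) / 2)), c] := by
    apply cg2_inv
    rw [← map_inv]
    exact h.U
  refine ⟨h.hs, h.e1, ?_, ?_, ?_, ?_⟩
  · rw [h.e2]; ring
  · rw [MonoidHom.comp_apply, cg2_B]; exact h.B
  · rw [MonoidHom.comp_apply, cg2_T]; exact h.T
  · rw [MonoidHom.comp_apply, cg2_U, hU, neg_mul, neg_mul]

end Pool.Agent.F8.BG
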