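import Pool.Agent.Lib.MP_305fdd_al.F8.BG.StmU

/-!
# MP_305fdd_al, Bianchi groups: piece `cgP`, property P for the conjugate subgroup
-/

set_option autoImplicit false

namespace Pool.Agent.F8.BG

open Pool.Agent.MP_305fdd_al Pool.Agent.Lib.MP_305fdd_al Pool.Agent.F2X Pool.Agent.F8
  Pool.Agent.F8.HN
open scoped QuadraticAlgebra

variable {a b : ℤ}

/-- the conjugation -/
def cgP_e (u : ZMod 3) (hu : u * u = (a : ZMod 3) + (b : ZMod 3) * u) :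
    P3 u hu →* P3 ((b : ZMod 3) - u) (rt_cj hu) :=
  ((cGq a b).comp (P3 u hu).subtype).codRestrict _
    (fun g => (mem_P3_cG u hu (cGq a b g.val)).2 (by rw [cGq_cGq]; exact g.2))

/-- the inverse -/
def cgP_i (u : ZMod 3) (hu : u * u = (a : ZMod 3) + (b : ZMod 3) * u)
    (g : P3 ((b : ZMod 3) - u) (rt_cj hu)) : P3 u hu :=
  ⟨cGq a b g.val, (mem_P3_cG u hu g.val).1 g.2⟩

theorem cgP_ei (u : ZMod 3) (hu : u * u = (a : ZMod 3) + (b : ZMod 3) * u)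
    (g : P3 ((b : ZMod 3) - u) (rt_cj hu)) : cgP_e u hu (cgP_i u hu g) = g :=
  Subtype.ext (cGq_cGq g.val)

/-- [BG U_cgP] -/
theorem p_cgP (a b : ℤ) (u : ZMod 3) (hu : u * u = (a : ZMod 3) + (b : ZMod 3) * u) :
    U_cgP a b u hu := by
  rintro K _ ρ ⟨⟨g, h, hgh⟩, Θ, hm, ht, k, l, hkl⟩
  have hcomp : (ρ.comp (cGq a b)).comp (P3 u hu).subtype =
      (ρ.comp (P3 ((b : ZMod 3) - u) (rt_cj hu)).subtype).comp (cgP_e u hu) := rfl
  refine ⟨⟨cgP_i u hu g, cgP_i u hu h, ?_⟩, ?_⟩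
  · rw [hcomp]
    show tr ((ρ.comp (P3 ((b : ZMod 3) - u) (rt_cj hu)).subtype) (cgP_e u hu
      (cgP_i u hu g * cgP_i u hu h * (cgP_i u hu g)⁻¹ * (cgP_i u hu h)⁻¹))) ≠ 2
    have e : cgP_e u hu (cgP_i u hu g * cgP_i u hu h * (cgP_i u hu g)⁻¹ * (cgP_i u hu h)⁻¹) =
        g * h * g⁻¹ * h⁻¹ := by
      rw [map_mul, map_mul, map_mul, map_inv, map_inv, cgP_ei, cgP_ei]
    rw [e]
    exact hgh
  · rw [hcomp]
    refine ⟨Θ.comp (cgP_e u hu), ?_, ?_, cgP_i u hu k, cgP_i u hu l, ?_⟩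
    · rw [← hm]; rfl
    · rw [← MonoidHom.comp_assoc, ht]; rfl
    · show Q2.W (Θ (cgP_e u hu (cgP_i u hu k))) (Θ (cgP_e u hu (cgP_i u hu l))) ≠ 0
      rw [cgP_ei, cgP_ei]
      exact hkl

end Pool.Agent.F8.BG
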