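import Pool.Agent.Lib.MP_305fdd_al.F8.BG.StmU
import Pool.Agent.Lib.MP_305fdd_al.F8.PIC.P_coc
import Pool.Agent.Lib.MP_305fdd_al.F8.P.wc

/-!
# MP_305fdd_al, Bianchi groups: piece `coc11`, the representations with a cocycle
-/

set_option autoImplicit false

namespace Pool.Agent.F8.BG

open Pool.Agent.MP_305fdd_al Pool.Agent.Lib.MP_305fdd_al Pool.Agent.F2X Pool.Agent.F8
  Pool.Agent.F8.HN
open scoped QuadraticAlgebra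

theorem coc11_yy : y11 = (mB _)⁻¹ * v11 * mB _ := by decide

theorem coc11_comm : (mU 1 : GQ (-3) 1) * v11⁻¹ = v11⁻¹ * mU 1 := by decide

/-- the element `z` -/
def coc11_zz : GQ (-3) 1 := (mB _)⁻¹ * (mU 1 * mU 1 * mU 1) * mB _

theorem coc11_zz_eq : coc11_zz = (mU 1)⁻¹ * y11⁻¹ * mU 1 * y11 * v11⁻¹ * y11 * mU 1 * y11⁻¹ *
    (mU 1)⁻¹ * y11 := by decide

theorem coc11_zy : coc11_zz * y11 = y11 * coc11_zz := by decide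

theorem coc11_mt : (mU 1 : GQ (-3) 1) ∈ P3 0 hu11 := by
  show r3 0 hu11 _ ∈ PIC.UP (ZMod 3)
  refine ⟨?_, ?_, ?_⟩ <;> decide

theorem coc11_mv : v11 ∈ P3 0 hu11 := by
  show r3 0 hu11 _ ∈ PIC.UP (ZMod 3)
  refine ⟨?_, ?_, ?_⟩ <;> decide

theorem coc11_mv' : v11⁻¹ ∈ P3 0 hu11 := Subgroup.inv_mem _ coc11_mv

theorem coc11_my : y11 ∈ P3 0 hu11 := by
  show r3 0 hu11 _ ∈ PIC.UP (ZMod 3)
  refine ⟨?_, ?_, ?_⟩ <;> decide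

/-- the translation part of `z` -/
theorem coc11_z {K : Type} [CommRing K] (a c y : Q2 K) (ha : a.t = 1) (hc : c.t = 1)
    (hy : y.t = 1) (hav : a.v = 0) (hcv : c.v = 0) (Z : SL2 K)
    (hZ : Z = a.m⁻¹ * y.m⁻¹ * a.m * y.m * c.m * y.m * a.m * y.m⁻¹ * a.m⁻¹ * y.m) :
    (a⁻¹ * y⁻¹ * a * y * c * y * a * y⁻¹ * a⁻¹ * y).v =
      (-(a.m⁻¹ * y.m⁻¹).val + (a.m⁻¹ * y.m⁻¹ * a.m).val +
        (a.m⁻¹ * y.m⁻¹ * a.m * y.m * c.m).val - (Z * y.m⁻¹ * a.m).val +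
        (Z * y.m⁻¹).val).mulVec y.v := by
  have ta : (a⁻¹).t = 1 := by rw [Q2.inv_t, ha, inv_one]
  have ty : (y⁻¹).t = 1 := by rw [Q2.inv_t, hy, inv_one]
  have va : (a⁻¹).v = 0 := by
    rw [PIC.coc_inv_v a ha, hav, Matrix.mulVec_zero, neg_zero]
  have vy : (y⁻¹).v = -((y.m⁻¹).val.mulVec y.v) := PIC.coc_inv_v y hy
  have t2 : (a⁻¹ * y⁻¹).t = 1 := by rw [Q2.mul_t, ta, ty, one_mul]
  have t3 : (a⁻¹ * y⁻¹ * a).t = 1 := by rw [Q2.mul_t, t2, ha, one_mul]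
  have t4 : (a⁻¹ * y⁻¹ * a * y).t = 1 := by rw [Q2.mul_t, t3, hy, one_mul]
  have t5 : (a⁻¹ * y⁻¹ * a * y * c).t = 1 := by rw [Q2.mul_t, t4, hc, one_mul]
  have t6 : (a⁻¹ * y⁻¹ * a * y * c * y).t = 1 := by rw [Q2.mul_t, t5, hy, one_mul]
  have t7 : (a⁻¹ * y⁻¹ * a * y * c * y * a).t = 1 := by rw [Q2.mul_t, t6, ha, one_mul]
  have t8 : (a⁻¹ * y⁻¹ * a * y * c * y * a * y⁻¹).t = 1 := by rw [Q2.mul_t, t7, ty, one_mul]
  have t9 : (a⁻¹ * y⁻¹ * a * y * c * y * a * y⁻¹ * a⁻¹).t = 1 := by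
    rw [Q2.mul_t, t8, ta, one_mul]
  have z1 : Z * y.m⁻¹ = a.m⁻¹ * y.m⁻¹ * a.m * y.m * c.m * y.m * a.m * y.m⁻¹ * a.m⁻¹ := by
    rw [hZ, mul_inv_cancel_right]
  have z2 : Z * y.m⁻¹ * a.m = a.m⁻¹ * y.m⁻¹ * a.m * y.m * c.m * y.m * a.m * y.m⁻¹ := by
    rw [z1, inv_mul_cancel_right]
  rw [PIC.coc_mul_v _ y t9, PIC.coc_mul_v _ a⁻¹ t8, va, Matrix.mulVec_zero, add_zero,
    PIC.coc_mul_v _ y⁻¹ t7, PIC.coc_mul_v _ a t6, hav, Matrix.mulVec_zero, add_zero,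
    PIC.coc_mul_v _ y t5, PIC.coc_mul_v _ c t4, hcv, Matrix.mulVec_zero, add_zero,
    PIC.coc_mul_v _ y t3, PIC.coc_mul_v _ a t2, hav, Matrix.mulVec_zero, add_zero,
    PIC.coc_mul_v _ y⁻¹ ta, va, zero_add, vy]
  simp only [Q2.mul_m, Q2.inv_m]
  rw [z2, z1, Matrix.mulVec_neg, Matrix.mulVec_neg, Matrix.mulVec_mulVec, Matrix.mulVec_mulVec,
    ← Matrix.SpecialLinearGroup.coe_mul, ← Matrix.SpecialLinearGroup.coe_mul]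
  rw [Matrix.add_mulVec, Matrix.sub_mulVec, Matrix.add_mulVec, Matrix.add_mulVec,
    Matrix.neg_mulVec]
  abel

/-- the linear equation for the translation part of `y` -/
theorem coc11_lin {K : Type} [CommRing K] (a c y z : Q2 K) (ha : a.t = 1) (hc : c.t = 1)
    (hy : y.t = 1) (hz : z.t = 1) (hav : a.v = 0) (hcv : c.v = 0)
    (hzz : z = a⁻¹ * y⁻¹ * a * y * c * y * a * y⁻¹ * a⁻¹ * y) (hrel : z * y = y * z) :
    (1 - z.m.val - (1 - y.m.val) * (-(a.m⁻¹ * y.m⁻¹).val + (a.m⁻¹ * y.m⁻¹ * a.m).val +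
      (a.m⁻¹ * y.m⁻¹ * a.m * y.m * c.m).val - (z.m * y.m⁻¹ * a.m).val +
      (z.m * y.m⁻¹).val)).mulVec y.v = 0 := by
  have h1 := coc11_z a c y ha hc hy hav hcv z.m (by rw [hzz]; rfl)
  rw [← hzz] at h1
  have hv := congrArg Q2.v hrel
  rw [PIC.coc_mul_v z y hz, PIC.coc_mul_v y z hy, h1, Matrix.mulVec_mulVec] at hv
  rw [Matrix.sub_mulVec, Matrix.sub_mulVec, sub_mul, one_mul, Matrix.sub_mulVec,
    Matrix.one_mulVec]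
  generalize (-(a.m⁻¹ * y.m⁻¹).val + (a.m⁻¹ * y.m⁻¹ * a.m).val +
      (a.m⁻¹ * y.m⁻¹ * a.m * y.m * c.m).val - (z.m * y.m⁻¹ * a.m).val +
      (z.m * y.m⁻¹).val) = E at *
  generalize (y.m.val * E).mulVec y.v = P at *
  generalize E.mulVec y.v = R at *
  generalize z.m.val.mulVec y.v = S at *
  have h5 : S = y.v + P - R := by rw [← hv]; abel
  rw [h5]; abel

theorem coc11_main {K : Type} [Field K] (h2 : (2 : K) ≠ 0) (ρ : GQ (-3) 1 →* SL2 K)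
    (s p c f : K) (hNF : NFg ρ s p c f) (Θ : P3 0 hu11 →* Q2 K)
    (hm : Q2.mH.comp Θ = ρ.comp (P3 0 hu11).subtype)
    (ht : Q2.tH.comp Θ = 1) (hnc : NC Θ) (htab : U_tab11)
    (hd : (1 - (ρ coc11_zz).val - (1 - (ρ y11).val) *
      (-((ρ (mU 1))⁻¹ * (ρ y11)⁻¹).val + ((ρ (mU 1))⁻¹ * (ρ y11)⁻¹ * ρ (mU 1)).val +
      ((ρ (mU 1))⁻¹ * (ρ y11)⁻¹ * ρ (mU 1) * ρ y11 * ρ v11⁻¹).val -
      (ρ coc11_zz * (ρ y11)⁻¹ * ρ (mU 1)).val + (ρ coc11_zz * (ρ y11)⁻¹).val)).det ≠ 0)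
    (hpq : ¬ (p = 1 ∧ c = 1)) : False := by
  have hmg : ∀ g : P3 0 hu11, (Θ g).m = ρ g.val := fun g => DFunLike.congr_fun hm g
  have htg : ∀ g : P3 0 hu11, (Θ g).t = 1 := fun g => DFunLike.congr_fun ht g
  have hcm : (ρ (mU 1)).val * (ρ v11⁻¹).val = (ρ v11⁻¹).val * (ρ (mU 1)).val := by
    rw [← Matrix.SpecialLinearGroup.coe_mul, ← Matrix.SpecialLinearGroup.coe_mul, ← map_mul,
      ← map_mul, coc11_comm]
  have hcm' : ((ρ (mU 1)).val - 1) * ((ρ v11⁻¹).val - 1) =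
      ((ρ v11⁻¹).val - 1) * ((ρ (mU 1)).val - 1) := by
    rw [mul_sub, sub_mul, sub_mul, mul_one, one_mul, mul_sub, sub_mul, sub_mul, mul_one, one_mul,
      hcm]
    simp only [mul_one]
    abel
  have hdet : ∀ M : SL2 K, (M.val - 1).det = 2 - (M.val 0 0 + M.val 1 1) := by
    intro M
    have hM := G.SL_det M
    rw [Matrix.det_fin_two]
    simp only [Matrix.sub_apply, Matrix.one_apply_eq]
    have e01 : (1 : Matrix (Fin 2) (Fin 2) K) 0 1 = 0 := rfl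
    have e10 : (1 : Matrix (Fin 2) (Fin 2) K) 1 0 = 0 := rfl
    rw [e01, e10]
    linear_combination hM
  have hdT : ((ρ (mU 1)).val - 1).det = 2 * (1 - p) := by
    rw [hdet, hNF.T]
    show 2 - (p + p) = 2 * (1 - p)
    ring
  have hdU : ((ρ v11⁻¹).val - 1).det = 2 * (1 - c) := by
    have hU : (ρ v11⁻¹).val = !![c, f * ((s + 1) / 2); f * ((s - 1) / 2), c] := hNF.U
    rw [hdet, hU]
    show 2 - (c + c) = 2 * (1 - c)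
    ring
  -- the fixed point
  have hfix : ∃ e : Fin 2 → K, (Θ ⟨mU 1, coc11_mt⟩).v + ((ρ (mU 1)).val - 1).mulVec e = 0 ∧
      (Θ ⟨v11⁻¹, coc11_mv'⟩).v + ((ρ v11⁻¹).val - 1).mulVec e = 0 := by
    have hc : (⟨mU 1, coc11_mt⟩ : P3 0 hu11) * ⟨v11⁻¹, coc11_mv'⟩ =
        ⟨v11⁻¹, coc11_mv'⟩ * ⟨mU 1, coc11_mt⟩ := Subtype.ext coc11_comm
    have hc2 := congrArg Q2.v (congrArg Θ hc)
    rw [map_mul, map_mul, PIC.coc_mul_v _ _ (htg _), PIC.coc_mul_v _ _ (htg _), hmg, hmg] at hc2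
    have hc3 : ((ρ (mU 1)).val - 1).mulVec (Θ ⟨v11⁻¹, coc11_mv'⟩).v =
        ((ρ v11⁻¹).val - 1).mulVec (Θ ⟨mU 1, coc11_mt⟩).v := by
      rw [Matrix.sub_mulVec, Matrix.sub_mulVec, Matrix.one_mulVec, Matrix.one_mulVec]
      have h5 : (ρ (mU 1)).val.mulVec (Θ ⟨v11⁻¹, coc11_mv'⟩).v = (Θ ⟨v11⁻¹, coc11_mv'⟩).v +
          (ρ v11⁻¹).val.mulVec (Θ ⟨mU 1, coc11_mt⟩).v - (Θ ⟨mU 1, coc11_mt⟩).v := by
        rw [← hc2]; abel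
      rw [h5]; abel
    by_cases hp : p = 1
    · obtain ⟨e, he1, he2⟩ := PIC.coc_fix ((ρ v11⁻¹).val - 1) ((ρ (mU 1)).val - 1)
        (Θ ⟨v11⁻¹, coc11_mv'⟩).v (Θ ⟨mU 1, coc11_mt⟩).v hcm'.symm hc3.symm (by
          rw [hdU]
          intro h
          rcases mul_eq_zero.1 h with h6 | h6
          · exact absurd h6 h2
          · exact hpq ⟨hp, by linear_combination -h6⟩)
      exact ⟨e, he2, he1⟩
    · exact PIC.coc_fix ((ρ (mU 1)).val - 1) ((ρ v11⁻¹).val - 1) (Θ ⟨mU 1, coc11_mt⟩).v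
        (Θ ⟨v11⁻¹, coc11_mv'⟩).v hcm' hc3 (by
          rw [hdT]
          intro h
          rcases mul_eq_zero.1 h with h6 | h6
          · exact absurd h6 h2
          · exact hp (by linear_combination -h6))
  obtain ⟨e, he1, he2⟩ := hfix
  -- the conjugate
  set q : Q2 K := ⟨1, 1, -e⟩ with hq
  let Θ' : P3 0 hu11 →* Q2 K := (MulAut.conj q).toMonoidHom.comp Θ
  have hΘ' : ∀ g, Θ' g = q * Θ g * q⁻¹ := fun g => rfl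
  have hv' : ∀ g, (Θ' g).v = (Θ g).v + ((ρ g.val).val - 1).mulVec e := by
    intro g
    rw [hΘ', hq, PIC.coc_conj e (Θ g) (htg g), hmg]
  have ht' : ∀ g, (Θ' g).t = 1 := by
    intro g
    rw [hΘ', Q2.mul_t, Q2.mul_t, Q2.inv_t, htg]
    show (1 : Kˣ) * 1 * 1⁻¹ = 1
    simp
  have hm' : ∀ g : P3 0 hu11, (Θ' g).m = ρ g.val := by
    intro g
    rw [hΘ', Q2.mul_m, Q2.mul_m, Q2.inv_m, hmg]
    show (1 : SL2 K) * ρ g.val * 1⁻¹ = _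
    simp
  have hvt : (Θ' ⟨mU 1, coc11_mt⟩).v = 0 := by rw [hv']; exact he1
  have hvu : (Θ' ⟨v11⁻¹, coc11_mv'⟩).v = 0 := by rw [hv']; exact he2
  have hyt : (Θ' ⟨y11, coc11_my⟩).v = 0 := by
    have hmz : coc11_zz ∈ P3 0 hu11 := by
      rw [coc11_zz_eq]
      have ht0 := coc11_mt
      have ht1 := Subgroup.inv_mem _ coc11_mt
      have hy0 := coc11_my
      have hy1 := Subgroup.inv_mem _ coc11_my
      exact Subgroup.mul_mem _ (Subgroup.mul_mem _ (Subgroup.mul_mem _ (Subgroup.mul_mem _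
        (Subgroup.mul_mem _ (Subgroup.mul_mem _ (Subgroup.mul_mem _ (Subgroup.mul_mem _
        (Subgroup.mul_mem _ ht1 hy1) ht0) hy0) coc11_mv') hy0) ht0) hy1) ht1) hy0
    have hr : (⟨coc11_zz, hmz⟩ : P3 0 hu11) = ⟨mU 1, coc11_mt⟩⁻¹ * ⟨y11, coc11_my⟩⁻¹ *
        ⟨mU 1, coc11_mt⟩ * ⟨y11, coc11_my⟩ * ⟨v11⁻¹, coc11_mv'⟩ * ⟨y11, coc11_my⟩ *
        ⟨mU 1, coc11_mt⟩ * ⟨y11, coc11_my⟩⁻¹ * ⟨mU 1, coc11_mt⟩⁻¹ * ⟨y11, coc11_my⟩ :=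
      Subtype.ext coc11_zz_eq
    have hr2 := congrArg Θ' hr
    simp only [map_mul, map_inv] at hr2
    have hs : (⟨coc11_zz, hmz⟩ : P3 0 hu11) * ⟨y11, coc11_my⟩ =
        ⟨y11, coc11_my⟩ * ⟨coc11_zz, hmz⟩ := Subtype.ext coc11_zy
    have hs2 := congrArg Θ' hs
    rw [map_mul, map_mul] at hs2
    have h5 := coc11_lin (Θ' ⟨mU 1, coc11_mt⟩) (Θ' ⟨v11⁻¹, coc11_mv'⟩) (Θ' ⟨y11, coc11_my⟩)
      (Θ' ⟨coc11_zz, hmz⟩) (ht' _) (ht' _) (ht' _) (ht' _) hvt hvu hr2 hs2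
    rw [hm', hm', hm', hm'] at h5
    exact Matrix.eq_zero_of_mulVec_eq_zero hd h5
  have hall : P3 0 hu11 ≤ ((PIC.coc_S K).comap Θ').map (P3 0 hu11).subtype := by
    apply htab.1
    · exact ⟨⟨mU 1, coc11_mt⟩, hvt, rfl⟩
    · refine ⟨⟨v11, coc11_mv⟩, ?_, rfl⟩
      have h7 : (⟨v11⁻¹, coc11_mv'⟩ : P3 0 hu11)⁻¹ = ⟨v11, coc11_mv⟩ := Subtype.ext (inv_inv v11)
      rw [← h7]
      exact Subgroup.inv_mem _ hvu
    · exact ⟨⟨y11, coc11_my⟩, hyt, rfl⟩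
  have hz : ∀ g : P3 0 hu11, (Θ' g).v = 0 := by
    intro g
    obtain ⟨x, hx, hxg⟩ := hall g.2
    have : x = g := Subtype.ext hxg
    rw [← this]
    exact hx
  obtain ⟨g, k, hgk⟩ := hnc
  apply hgk
  have h6 : Q2.W (Θ' g) (Θ' k) = Q2.W (Θ g) (Θ k) := by
    rw [hΘ', hΘ', pf_wc K q (Θ g) (Θ k), hq]
    rw [Units.val_one, one_smul, Matrix.SpecialLinearGroup.coe_one, Matrix.one_mulVec]
  rw [← h6]
  unfold Q2.W
  rw [hz g, hz k, Matrix.mulVec_zero, Matrix.mulVec_zero, smul_zero, sub_zero]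

/-- [BG U_coc11] -/
theorem p_coc11 (htab : U_tab11) (hrel : U_rel11) (hdet : U_det11) : U_coc11 := by
  intro K _ h2 ρ s p c f hNF hPt
  obtain ⟨hirr, Θ, hm, ht, hnc⟩ := hPt
  by_cases hpc : p = 1 ∧ c = 1
  · exact Or.inl hpc
  right
  by_contra hF
  have hZ1 : ρ coc11_zz = (ρ (mB _))⁻¹ * (ρ (mU 1) * ρ (mU 1) * ρ (mU 1)) * ρ (mB _) := by
    unfold coc11_zz
    rw [map_mul, map_mul, map_mul, map_mul, map_inv]
  have hY : ρ y11 = (ρ (mB _))⁻¹ * (ρ v11⁻¹)⁻¹ * ρ (mB _) := by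
    rw [← map_inv ρ v11⁻¹, inv_inv, coc11_yy, map_mul, map_mul, map_inv]
  have hZ2 : ρ coc11_zz = (ρ (mU 1))⁻¹ * (ρ y11)⁻¹ * ρ (mU 1) * ρ y11 * ρ v11⁻¹ * ρ y11 *
      ρ (mU 1) * (ρ y11)⁻¹ * (ρ (mU 1))⁻¹ * ρ y11 := by
    rw [coc11_zz_eq]
    simp only [map_mul, map_inv]
  have hZY : ρ coc11_zz * ρ y11 = ρ y11 * ρ coc11_zz := by
    rw [← map_mul, ← map_mul, coc11_zy]
  have h5 := hdet K h2 s p c f hNF.hs hNF.e1 hNF.e2 (hrel K h2 ρ s p c f hNF) (ρ (mU 1))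
    (ρ v11⁻¹) (ρ (mB _)) (ρ y11) (ρ coc11_zz) hNF.T hNF.U hNF.B hY hZ1 hZ2 hZY
  refine coc11_main h2 ρ s p c f hNF Θ hm ht hnc htab ?_ hpc
  rw [h5]
  exact hF

end Pool.Agent.F8.BG
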