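import Pool.Agent.Lib.MP_305fdd_al.F8.BG.StmU
import Pool.Agent.Lib.MP_305fdd_al.F8.PIC7.P_coc

/-!
# MP_305fdd_al, Bianchi groups: piece `coc2`, the representations of `SL₂(ℤ[√-2])` with a cocycle
-/

set_option autoImplicit false

namespace Pool.Agent.F8.BG

open Pool.Agent.MP_305fdd_al Pool.Agent.Lib.MP_305fdd_al Pool.Agent.F2X Pool.Agent.F8
  Pool.Agent.F8.HN
open scoped QuadraticAlgebra

/-- the inverse of `mU w` -/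
abbrev coc2_c : GQ (-2) 0 := (mU (wq (-2) 0 ℤ))⁻¹

theorem coc2_comm : (mU 1 : GQ (-2) 0) * coc2_c = coc2_c * mU 1 := by decide

theorem coc2_rel : y2 * (mU 1 * y2 * coc2_c * y2 * mU 1) = mU 1 * y2 * coc2_c * y2 * mU 1 * y2 := by
  decide

theorem coc2_c_eq : coc2_c = v2⁻¹ * mU 1 := by decide

theorem coc2_v_eq : v2 = coc2_c⁻¹ * mU 1 := by decide

theorem coc2_y_eq : y2 = (mB _)⁻¹ * (coc2_c⁻¹ * mU 1) * mB _ := by decide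

theorem coc2_mt : (mU 1 : GQ (-2) 0) ∈ P3 2 hu2 := by
  show r3 2 hu2 (mU 1) ∈ PIC.UP (ZMod 3)
  refine ⟨?_, ?_, ?_⟩ <;> decide

theorem coc2_mv : v2 ∈ P3 2 hu2 := by
  show r3 2 hu2 v2 ∈ PIC.UP (ZMod 3)
  refine ⟨?_, ?_, ?_⟩ <;> decide

theorem coc2_my : y2 ∈ P3 2 hu2 := by
  show r3 2 hu2 y2 ∈ PIC.UP (ZMod 3)
  refine ⟨?_, ?_, ?_⟩ <;> decide

theorem coc2_mc : coc2_c ∈ P3 2 hu2 := by
  rw [coc2_c_eq]
  exact Subgroup.mul_mem _ (Subgroup.inv_mem _ coc2_mv) coc2_mt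

theorem coc2_main {K : Type} [Field K] (h2 : (2 : K) ≠ 0) (ρ : GQ (-2) 0 →* SL2 K)
    (s p c f : K) (hNF : NFg ρ s p c f) (Θ : P3 2 hu2 →* Q2 K)
    (hm : Q2.mH.comp Θ = ρ.comp (P3 2 hu2).subtype)
    (ht : Q2.tH.comp Θ = 1) (hnc : NC Θ) (htab : U_tab2)
    (hd : (1 - (ρ (mU 1) * ρ y2 * ρ coc2_c * ρ y2 * ρ (mU 1)).val -
      (1 - (ρ y2).val) * ((ρ (mU 1)).val + (ρ (mU 1) * ρ y2 * ρ coc2_c).val)).det ≠ 0)
    (hpq : ¬ (p = 1 ∧ c = 1)) : False := by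
  have hmg : ∀ g : P3 2 hu2, (Θ g).m = ρ g.val := fun g => DFunLike.congr_fun hm g
  have htg : ∀ g : P3 2 hu2, (Θ g).t = 1 := fun g => DFunLike.congr_fun ht g
  have hcm : (ρ (mU 1)).val * (ρ coc2_c).val = (ρ coc2_c).val * (ρ (mU 1)).val := by
    rw [← Matrix.SpecialLinearGroup.coe_mul, ← Matrix.SpecialLinearGroup.coe_mul, ← map_mul,
      ← map_mul, coc2_comm]
  have hcm' : ((ρ (mU 1)).val - 1) * ((ρ coc2_c).val - 1) =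
      ((ρ coc2_c).val - 1) * ((ρ (mU 1)).val - 1) := by
    rw [mul_sub, sub_mul, sub_mul, mul_one, one_mul, mul_sub, sub_mul, sub_mul, mul_one, one_mul,
      hcm]
    simp only [mul_one]
    abel
  have hdet : ∀ M : SL2 K, (M.val - 1).det = 2 - (M.val 0 0 + M.val 1 1) := by
    intro M
    have hM := G.SL_det M
    rw [Matrix.det_fin_two]
    simp only [Matrix.sub_apply, Matrix.one_apply_eq]
    have e01 : (1 : Matrix (Fin 2) (Fin 2) K) 0 1 = 0 := rfl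
    have e10 : (1 : Matrix (Fin 2) (Fin 2) K) 1 0 = 0 := rfl
    rw [e01, e10]
    linear_combination hM
  have hdT : ((ρ (mU 1)).val - 1).det = 2 * (1 - p) := by
    rw [hdet, hNF.T]
    show 2 - (p + p) = 2 * (1 - p)
    ring
  have hdU : ((ρ coc2_c).val - 1).det = 2 * (1 - c) := by
    rw [hdet, hNF.U]
    show 2 - (c + c) = 2 * (1 - c)
    ring
  -- the fixed point
  have hfix : ∃ e : Fin 2 → K, (Θ ⟨mU 1, coc2_mt⟩).v + ((ρ (mU 1)).val - 1).mulVec e = 0 ∧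
      (Θ ⟨coc2_c, coc2_mc⟩).v + ((ρ coc2_c).val - 1).mulVec e = 0 := by
    have hc : (⟨mU 1, coc2_mt⟩ : P3 2 hu2) * ⟨coc2_c, coc2_mc⟩ =
        ⟨coc2_c, coc2_mc⟩ * ⟨mU 1, coc2_mt⟩ := Subtype.ext coc2_comm
    have hc2 := congrArg Q2.v (congrArg Θ hc)
    rw [map_mul, map_mul, PIC.coc_mul_v _ _ (htg _), PIC.coc_mul_v _ _ (htg _), hmg, hmg] at hc2
    have hc3 : ((ρ (mU 1)).val - 1).mulVec (Θ ⟨coc2_c, coc2_mc⟩).v =
        ((ρ coc2_c).val - 1).mulVec (Θ ⟨mU 1, coc2_mt⟩).v := by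
      rw [Matrix.sub_mulVec, Matrix.sub_mulVec, Matrix.one_mulVec, Matrix.one_mulVec]
      have h5 : (ρ (mU 1)).val.mulVec (Θ ⟨coc2_c, coc2_mc⟩).v = (Θ ⟨coc2_c, coc2_mc⟩).v +
          (ρ coc2_c).val.mulVec (Θ ⟨mU 1, coc2_mt⟩).v - (Θ ⟨mU 1, coc2_mt⟩).v := by
        rw [← hc2]; abel
      rw [h5]; abel
    by_cases hp : p = 1
    · obtain ⟨e, he1, he2⟩ := PIC.coc_fix ((ρ coc2_c).val - 1) ((ρ (mU 1)).val - 1)
        (Θ ⟨coc2_c, coc2_mc⟩).v (Θ ⟨mU 1, coc2_mt⟩).v hcm'.symm hc3.symm (by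
          rw [hdU]
          intro h
          rcases mul_eq_zero.1 h with h6 | h6
          · exact absurd h6 h2
          · exact hpq ⟨hp, by linear_combination -h6⟩)
      exact ⟨e, he2, he1⟩
    · exact PIC.coc_fix ((ρ (mU 1)).val - 1) ((ρ coc2_c).val - 1) (Θ ⟨mU 1, coc2_mt⟩).v
        (Θ ⟨coc2_c, coc2_mc⟩).v hcm' hc3 (by
          rw [hdT]
          intro h
          rcases mul_eq_zero.1 h with h6 | h6
          · exact absurd h6 h2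
          · exact hp (by linear_combination -h6))
  obtain ⟨e, he1, he2⟩ := hfix
  -- the conjugate
  set d : Q2 K := ⟨1, 1, -e⟩ with hdd
  let Θ' : P3 2 hu2 →* Q2 K := (MulAut.conj d).toMonoidHom.comp Θ
  have hΘ' : ∀ g, Θ' g = d * Θ g * d⁻¹ := fun g => rfl
  have hv' : ∀ g, (Θ' g).v = (Θ g).v + ((ρ g.val).val - 1).mulVec e := by
    intro g
    rw [hΘ', hdd, PIC.coc_conj e (Θ g) (htg g), hmg]
  have ht' : ∀ g, (Θ' g).t = 1 := by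
    intro g
    rw [hΘ', Q2.mul_t, Q2.mul_t, Q2.inv_t, htg]
    show (1 : Kˣ) * 1 * 1⁻¹ = 1
    simp
  have hm' : ∀ g : P3 2 hu2, (Θ' g).m = ρ g.val := by
    intro g
    rw [hΘ', Q2.mul_m, Q2.mul_m, Q2.inv_m, hmg]
    show (1 : SL2 K) * ρ g.val * 1⁻¹ = _
    simp
  have hvt : (Θ' ⟨mU 1, coc2_mt⟩).v = 0 := by rw [hv']; exact he1
  have hvc : (Θ' ⟨coc2_c, coc2_mc⟩).v = 0 := by rw [hv']; exact he2
  have hyt : (Θ' ⟨y2, coc2_my⟩).v = 0 := by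
    have hr : (⟨y2, coc2_my⟩ : P3 2 hu2) * (⟨mU 1, coc2_mt⟩ * ⟨y2, coc2_my⟩ *
        ⟨coc2_c, coc2_mc⟩ * ⟨y2, coc2_my⟩ * ⟨mU 1, coc2_mt⟩) =
        ⟨mU 1, coc2_mt⟩ * ⟨y2, coc2_my⟩ * ⟨coc2_c, coc2_mc⟩ * ⟨y2, coc2_my⟩ *
          ⟨mU 1, coc2_mt⟩ * ⟨y2, coc2_my⟩ := Subtype.ext coc2_rel
    have hr2 := congrArg Θ' hr
    simp only [map_mul] at hr2
    have h5 := PIC7.coc_lin (Θ' ⟨mU 1, coc2_mt⟩) (Θ' ⟨coc2_c, coc2_mc⟩) (Θ' ⟨y2, coc2_my⟩) (ht' _)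
      (ht' _) (ht' _) hvt hvc hr2
    rw [hm', hm', hm'] at h5
    exact Matrix.eq_zero_of_mulVec_eq_zero hd h5
  have hall : P3 2 hu2 ≤ ((PIC.coc_S K).comap Θ').map (P3 2 hu2).subtype := by
    apply htab.1
    · exact ⟨⟨mU 1, coc2_mt⟩, hvt, rfl⟩
    · refine ⟨⟨v2, coc2_mv⟩, ?_, rfl⟩
      have h7 : (⟨coc2_c, coc2_mc⟩ : P3 2 hu2)⁻¹ * ⟨mU 1, coc2_mt⟩ = ⟨v2, coc2_mv⟩ :=
        Subtype.ext coc2_v_eq.symm
      rw [← h7]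
      exact Subgroup.mul_mem _ (Subgroup.inv_mem _ hvc) hvt
    · exact ⟨⟨y2, coc2_my⟩, hyt, rfl⟩
  have hz : ∀ g : P3 2 hu2, (Θ' g).v = 0 := by
    intro g
    obtain ⟨x, hx, hxg⟩ := hall g.2
    have : x = g := Subtype.ext hxg
    rw [← this]
    exact hx
  obtain ⟨g, k, hgk⟩ := hnc
  apply hgk
  have h6 : Q2.W (Θ' g) (Θ' k) = Q2.W (Θ g) (Θ k) := by
    rw [hΘ', hΘ', pf_wc K d (Θ g) (Θ k), hdd]
    rw [Units.val_one, one_smul, Matrix.SpecialLinearGroup.coe_one, Matrix.one_mulVec]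
  rw [← h6]
  unfold Q2.W
  rw [hz g, hz k, Matrix.mulVec_zero, Matrix.mulVec_zero, smul_zero, sub_zero]

/-- [BG U_coc2] the representations with a cocycle -/
theorem p_coc2 (htab : U_tab2) (hrel : U_rel2) (hdet : U_det2) : U_coc2 := by
  intro K _ h2 ρ s p c f hNF hPt
  obtain ⟨-, Θ, hm, ht, hnc⟩ := hPt
  by_contra hcon
  rw [not_or] at hcon
  obtain ⟨hpq, hF⟩ := hcon
  obtain ⟨hr1, hr2⟩ := hrel K h2 ρ s p c f hNF
  have hY : ρ y2 = (ρ (mB _))⁻¹ * ((ρ coc2_c)⁻¹ * ρ (mU 1)) * ρ (mB _) := by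
    conv_lhs => rw [coc2_y_eq]
    rw [map_mul, map_mul, map_mul, map_inv, map_inv]
  have h5 := hdet K h2 s p c f hNF.hs hNF.e1 hr1 hr2 (ρ (mU 1)) (ρ coc2_c) (ρ (mB _)) (ρ y2)
    hNF.T hNF.U hNF.B hY
  refine coc2_main h2 ρ s p c f hNF Θ hm ht hnc htab ?_ hpq
  rw [h5]
  exact hF

end Pool.Agent.F8.BG
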