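import Pool.Agent.Lib.MP_305fdd_al.F8.BG.StmT

/-!
# MP_305fdd_al, Bianchi groups: piece [BG d4], sum and product of the two characters are integers
-/

set_option autoImplicit false

namespace Pool.Agent.F8.BG

open Pool.Agent.MP_305fdd_al Pool.Agent.Lib.MP_305fdd_al Pool.Agent.F2X Pool.Agent.F8
  Pool.Agent.F8.HN
open scoped QuadraticAlgebra

private theorem d4_iz_inj (p : ℕ) [Fact p.Prime] (x : ℤ_[p]) (h : iz p x = 0) : x = 0 := by
  have h1 : algebraMap ℚ_[p] (Fl p) (x : ℚ_[p]) = 0 := h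
  rw [map_eq_zero] at h1
  exact PadicInt.ext h1

/-- a root of `w² = a + b w` in an algebraically closed field of characteristic zero -/
private theorem d4_root (a b : ℤ) (K : Type) [Field K] [CharZero K] [IsAlgClosed K] :
    ∃ w : K, w * w = (a : K) + (b : K) * w := by
  obtain ⟨v, hv⟩ := IsAlgClosed.exists_eq_mul_self ((b : K) ^ 2 + 4 * (a : K))
  refine ⟨(v + b) / 2, ?_⟩
  have h2 : (2 : K) ≠ 0 := two_ne_zero
  field_simp
  linear_combination -hv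

/-- the two `p`-adic representations -/
private theorem d4_two {a b : ℤ} {u : ZMod 3} {hu : u * u = (a : ZMod 3) + (b : ZMod 3) * u}
    (hneg : b ^ 2 + 4 * a < 0) {Λ : Type} [Group Λ] (Φ : NatBij (GQ a b) Λ) (p : ℕ)
    [Fact p.Prime] (r : Λ →* SL2 (Qf a b ℤ_[p])) (hd : DatQ Φ u hu p r) :
    ∃ A₁ A₂ : Λ →* SL2 (Fl p), PtL Φ u hu A₁ ∧ PtL Φ u hu A₂ ∧
      (∃ g, tr (A₁ g) ≠ tr (A₂ g)) ∧
      ∀ g, tr (A₁ g) + tr (A₂ g) = iz p (2 * (tr (r g)).re + b * (tr (r g)).im) ∧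
        tr (A₁ g) * tr (A₂ g) = iz p (nq (tr (r g))) := by
  obtain ⟨w, hw⟩ := d4_root a b (Fl p)
  have hw' : ((b : Fl p) - w) * ((b : Fl p) - w) = (a : Fl p) + (b : Fl p) * ((b : Fl p) - w) :=
    rt_cj hw
  have e₁ : ∀ g, tr (((SLm (evq a b (iz p) w hw)).comp r) g)
      = iz p (tr (r g)).re + iz p (tr (r g)).im * w := by
    intro g
    rw [MonoidHom.comp_apply, tr_map, evq_apply]
  have e₂ : ∀ g, tr (((SLm (evq a b (iz p) ((b : Fl p) - w) hw')).comp r) g)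
      = iz p (tr (r g)).re + iz p (tr (r g)).im * ((b : Fl p) - w) := by
    intro g
    rw [MonoidHom.comp_apply, tr_map, evq_apply]
  refine ⟨(SLm (evq a b (iz p) w hw)).comp r, (SLm (evq a b (iz p) ((b : Fl p) - w) hw')).comp r,
    hd.good (Fl p) (evq a b (iz p) w hw), hd.good (Fl p) (evq a b (iz p) ((b : Fl p) - w) hw'),
    ?_, ?_⟩
  · obtain ⟨g, hg⟩ := hd.ne
    refine ⟨g, fun h => hg (d4_iz_inj p _ ?_)⟩
    rw [e₁, e₂] at h
    have h1 : (2 * w - (b : Fl p)) * iz p (tr (r g)).im = 0 := by linear_combination h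
    rcases mul_eq_zero.mp h1 with h2 | h2
    · exfalso
      have h7 : ((b ^ 2 + 4 * a : ℤ) : Fl p) = 0 := by
        push_cast
        linear_combination -4 * hw + (2 * w - (b : Fl p)) * h2
      have h8 := Int.cast_eq_zero.mp h7
      omega
    · exact h2
  · intro g
    rw [e₁, e₂]
    constructor
    · rw [map_add, map_mul, map_mul, map_ofNat, map_intCast]; ring
    · unfold nq
      rw [map_sub, map_add, map_mul, map_mul, map_mul, map_pow, map_pow, map_intCast,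
        map_intCast]
      linear_combination (-(iz p (tr (r g)).im) ^ 2) * hw

/-- matching of two pairs of characters -/
private theorem d4_match {L : Type} [Group L] (P Q : Subgroup L) (K : Type) [Field K]
    (hG : ¬ PIC7.GdP P Q K 3) (A₁ A₂ B₁ B₂ : L →* SL2 K) (hA1 : PIC7.Pt2 P Q A₁) (hA2 : PIC7.Pt2 P Q A₂)
    (hB1 : PIC7.Pt2 P Q B₁) (hB2 : PIC7.Pt2 P Q B₂) (hA : ∃ g, tr (A₁ g) ≠ tr (A₂ g))
    (hB : ∃ g, tr (B₁ g) ≠ tr (B₂ g)) :
    (∀ g, tr (B₁ g) = tr (A₁ g) ∧ tr (B₂ g) = tr (A₂ g)) ∨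
      (∀ g, tr (B₁ g) = tr (A₂ g) ∧ tr (B₂ g) = tr (A₁ g)) := by
  have key : ∀ B : L →* SL2 K, PIC7.Pt2 P Q B →
      (∀ g, tr (B g) = tr (A₁ g)) ∨ (∀ g, tr (B g) = tr (A₂ g)) := by
    intro B hB
    by_contra hcon
    push Not at hcon
    obtain ⟨⟨g1, h1⟩, ⟨g2, h2⟩⟩ := hcon
    obtain ⟨g0, h0⟩ := hA
    apply hG
    refine ⟨![A₁, A₂, B], ?_, ?_⟩
    · intro i
      fin_cases i
      · exact hA1
      · exact hA2
      · exact hB
    · intro i j hij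
      fin_cases i <;> fin_cases j
      · exact absurd rfl hij
      · exact ⟨g0, h0⟩
      · exact ⟨g1, fun h => h1 h.symm⟩
      · exact ⟨g0, fun h => h0 h.symm⟩
      · exact absurd rfl hij
      · exact ⟨g2, fun h => h2 h.symm⟩
      · exact ⟨g1, h1⟩
      · exact ⟨g2, h2⟩
      · exact absurd rfl hij
  obtain ⟨g, hg⟩ := hB
  rcases key B₁ hB1 with h1 | h1 <;> rcases key B₂ hB2 with h2 | h2
  · exact absurd ((h1 g).trans (h2 g).symm) hg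
  · exact Or.inl fun g => ⟨h1 g, h2 g⟩
  · exact Or.inr fun g => ⟨h1 g, h2 g⟩
  · exact absurd ((h1 g).trans (h2 g).symm) hg

/-- the embedding of the algebraic closure of `ℚ` -/
private theorem d4_emb (K : Type) [Field K] [CharZero K] [IsAlgClosed K] :
    Nonempty (AlgebraicClosure ℚ →+* K) := by
  let _ : Algebra ℚ (AlgebraicClosure ℚ) := AlgebraicClosure.instAlgebra ℚ
  have : Algebra.IsAlgebraic ℚ (AlgebraicClosure ℚ) := AlgebraicClosure.isAlgebraic ℚ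
  exact ⟨((IsAlgClosed.lift : AlgebraicClosure ℚ →ₐ[ℚ] K) : AlgebraicClosure ℚ →+* K)⟩

/-- the pair of characters over `AlgebraicClosure ℚ` is mapped to any pair over a field `K` -/
private theorem d4_pair (hpf : PIC7.S_pf) (Λ : Type) [Group Λ] (P Q : Subgroup Λ)
    (s₁ s₂ : Λ →* SL2 (AlgebraicClosure ℚ)) (h₁ : PIC7.Pt2 P Q s₁) (h₂ : PIC7.Pt2 P Q s₂)
    (hne : ∃ g, tr (s₁ g) ≠ tr (s₂ g)) (K : Type) [Field K] (hG : ¬ PIC7.GdP P Q K 3)
    (f : AlgebraicClosure ℚ →+* K) (A₁ A₂ : Λ →* SL2 K) (a₁ : PIC7.Pt2 P Q A₁)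
    (a₂ : PIC7.Pt2 P Q A₂) (ha : ∃ g, tr (A₁ g) ≠ tr (A₂ g)) (l : Λ) :
    f (tr (s₁ l) + tr (s₂ l)) = tr (A₁ l) + tr (A₂ l) ∧
      f (tr (s₁ l) * tr (s₂ l)) = tr (A₁ l) * tr (A₂ l) := by
  have b₁ := hpf.1 Λ P Q _ K f s₁ h₁
  have b₂ := hpf.1 Λ P Q _ K f s₂ h₂
  have c₁ : ∀ g, tr (((SLm f).comp s₁) g) = f (tr (s₁ g)) := fun g => tr_map f (s₁ g)
  have c₂ : ∀ g, tr (((SLm f).comp s₂) g) = f (tr (s₂ g)) := fun g => tr_map f (s₂ g)
  have hb : ∃ g, tr (((SLm f).comp s₁) g) ≠ tr (((SLm f).comp s₂) g) := by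
    obtain ⟨g, hg⟩ := hne
    refine ⟨g, ?_⟩
    rw [c₁, c₂]
    exact fun h => hg (f.injective h)
  rw [map_add, map_mul, ← c₁ l, ← c₂ l]
  rcases d4_match P Q K hG A₁ A₂ _ _ a₁ a₂ b₁ b₂ ha hb with h | h
  · rw [(h l).1, (h l).2]
    exact ⟨rfl, rfl⟩
  · rw [(h l).1, (h l).2]
    exact ⟨add_comm _ _, mul_comm _ _⟩

/-- [BG d4] sum and product of the two characters are integers. -/
theorem p_d4 (a b : ℤ) (u : ZMod 3) (hu : u * u = (a : ZMod 3) + (b : ZMod 3) * u)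
    (hpf : PIC7.S_pf) (hgal : S_gal) (hint : S_int) : T_d4 a b u hu := by
  intro hU Λ _ _ Φ hG hdat s₁ s₂ h₁ h₂ hne l
  -- rationality
  obtain ⟨q, hq⟩ := hgal (tr (s₁ l) + tr (s₂ l)) (fun g =>
    (d4_pair hpf Λ (L3 Φ u hu) (L3 Φ ((b : ZMod 3) - u) (rt_cj hu)) s₁ s₂ h₁ h₂ hne _ (hG _)
      (g : AlgebraicClosure ℚ →+* _) s₁ s₂ h₁ h₂ hne l).1)
  obtain ⟨q', hq'⟩ := hgal (tr (s₁ l) * tr (s₂ l)) (fun g =>
    (d4_pair hpf Λ (L3 Φ u hu) (L3 Φ ((b : ZMod 3) - u) (rt_cj hu)) s₁ s₂ h₁ h₂ hne _ (hG _)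
      (g : AlgebraicClosure ℚ →+* _) s₁ s₂ h₁ h₂ hne l).2)
  -- comparison with the `p`-adic characters
  have key : ∀ (p : ℕ) [Fact p.Prime] (r : Λ →* SL2 (Qf a b ℤ_[p])),
      DatQ Φ u hu p r →
        (q : ℚ_[p]) = ((2 * (tr (r l)).re + b * (tr (r l)).im : ℤ_[p]) : ℚ_[p]) ∧
        (q' : ℚ_[p]) = ((nq (tr (r l)) : ℤ_[p]) : ℚ_[p]) := by
    intro p _ r hd
    obtain ⟨A₁, A₂, a₁, a₂, ha, hA⟩ := d4_two hU.neg Φ p r hd
    obtain ⟨ι⟩ := d4_emb (Fl p)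
    obtain ⟨hs, hp⟩ :=
      d4_pair hpf Λ (L3 Φ u hu) (L3 Φ ((b : ZMod 3) - u) (rt_cj hu)) s₁ s₂ h₁ h₂ hne (Fl p)
        (hG _) ι A₁ A₂ a₁ a₂ ha l
    rw [hq, (hA l).1, eq_ratCast, map_ratCast] at hs
    rw [hq', (hA l).2, eq_ratCast, map_ratCast] at hp
    constructor
    · apply (algebraMap ℚ_[p] (Fl p)).injective
      rw [map_ratCast]
      exact hs
    · apply (algebraMap ℚ_[p] (Fl p)).injective
      rw [map_ratCast]
      exact hp
  obtain ⟨S, hS⟩ := hint q (fun p _ => by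
    obtain ⟨r, hd⟩ := hdat p
    exact ⟨_, (key p r hd).1⟩)
  obtain ⟨P, hP⟩ := hint q' (fun p _ => by
    obtain ⟨r, hd⟩ := hdat p
    exact ⟨_, (key p r hd).2⟩)
  refine ⟨S, P, ?_, ?_, ?_⟩
  · rw [hq, hS, eq_ratCast, Rat.cast_intCast]
  · rw [hq', hP, eq_ratCast, Rat.cast_intCast]
  · intro p _ r hd
    obtain ⟨k1, k2⟩ := key p r hd
    rw [hS, Rat.cast_intCast] at k1
    rw [hP, Rat.cast_intCast] at k2
    constructor
    · apply Subtype.ext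
      rw [PadicInt.coe_intCast]
      exact k1
    · apply Subtype.ext
      rw [PadicInt.coe_intCast]
      exact k2

end Pool.Agent.F8.BG
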