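import Pool.Agent.Lib.MP_305fdd_al.F8.BG.StmT

/-!
# MP_305fdd_al, Bianchi groups: proof of `T_d6`
-/

set_option autoImplicit false

namespace Pool.Agent.F8.BG

open Pool.Agent.MP_305fdd_al Pool.Agent.Lib.MP_305fdd_al Pool.Agent.F2X Pool.Agent.F8
  Pool.Agent.F8.HN
open scoped QuadraticAlgebra

private theorem d6_iz_inj (p : ℕ) [Fact p.Prime] : Function.Injective (iz p) := by
  intro x y h
  have h1 : (algebraMap ℚ_[p] (Fl p)) (PadicInt.Coe.ringHom x) =
      (algebraMap ℚ_[p] (Fl p)) (PadicInt.Coe.ringHom y) := h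
  have h2 := (algebraMap ℚ_[p] (Fl p)).injective h1
  exact Subtype.ext h2

private theorem d6_lift (K L : Type) [Field K] [Field L] [Algebra K L] [IsAlgClosed L] :
    Nonempty (AlgebraicClosure K →+* L) :=
  ⟨(IsAlgClosed.lift : AlgebraicClosure K →ₐ[K] L).toRingHom⟩

/-- among three representations two have the same character -/
private theorem d6_three {L : Type} [Group L] {P Q : Subgroup L} {K : Type} [Field K]
    (h : ¬ PIC7.GdP P Q K 3) (A B C : L →* SL2 K) (hA : PIC7.Pt2 P Q A) (hB : PIC7.Pt2 P Q B)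
    (hC : PIC7.Pt2 P Q C) (hBC : ∃ g, tr (B g) ≠ tr (C g)) :
    (∀ g, tr (A g) = tr (B g)) ∨ ∀ g, tr (A g) = tr (C g) := by
  by_contra hne
  push Not at hne
  obtain ⟨⟨g, hg⟩, g', hg'⟩ := hne
  obtain ⟨g'', hg''⟩ := hBC
  apply h
  refine ⟨![A, B, C], ?_, ?_⟩
  · intro i
    fin_cases i
    · exact hA
    · exact hB
    · exact hC
  · intro i j hij
    fin_cases i <;> fin_cases j
    · exact absurd rfl hij
    · exact ⟨g, hg⟩
    · exact ⟨g', hg'⟩
    · exact ⟨g, hg.symm⟩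
    · exact absurd rfl hij
    · exact ⟨g'', hg''⟩
    · exact ⟨g', hg'.symm⟩
    · exact ⟨g'', hg''.symm⟩
    · exact absurd rfl hij

/-- the difference of the two roots is not zero -/
private theorem d6_ne {a b : ℤ} (hn : b ^ 2 + 4 * a < 0) {K : Type} [Field K] [CharZero K] {w : K}
    (hw : w * w = (a : K) + (b : K) * w) : 2 * w - (b : K) ≠ 0 := by
  intro h2
  have h7 : ((b ^ 2 + 4 * a : ℤ) : K) = 0 := by
    push_cast
    linear_combination -4 * hw + (2 * w - (b : K)) * h2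
  have h8 : b ^ 2 + 4 * a = 0 := by exact_mod_cast h7
  omega

/-- the two evaluations are jointly injective -/
private theorem d6_zero {a b : ℤ} (hn : b ^ 2 + 4 * a < 0) {p : ℕ} [Fact p.Prime] (w : Fl p)
    (hw : w * w = (a : Fl p) + (b : Fl p) * w)
    (hw' : ((b : Fl p) - w) * ((b : Fl p) - w) =
      (a : Fl p) + (b : Fl p) * ((b : Fl p) - w))
    (x y : Qf a b ℤ_[p])
    (h1 : evq a b (iz p) w hw x = evq a b (iz p) w hw y)
    (h2 : evq a b (iz p) ((b : Fl p) - w) hw' x =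
      evq a b (iz p) ((b : Fl p) - w) hw' y) : x = y := by
  rw [evq_apply, evq_apply] at h1 h2
  have hw0 := d6_ne hn hw
  have him : iz p x.im = iz p y.im := by
    apply mul_left_cancel₀ hw0
    linear_combination h1 - h2
  apply QuadraticAlgebra.ext
  · apply d6_iz_inj p
    linear_combination h1 - w * him
  · exact d6_iz_inj p him

theorem p_d6 (a b : ℤ) (u : ZMod 3) (hu : u * u = (a : ZMod 3) + (b : ZMod 3) * u)
    (hpf : PIC7.S_pf) : T_d6 a b u hu := by
  intro hU Λ _ _ Φ hG s₁ s₂ hP1 hP2 hne w hw T hT p _ r hD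
  have hn := hU.neg
  obtain ⟨ι⟩ := d6_lift ℚ (Fl p)
  set w' : Fl p := ι w with hw'def
  have hw1 : w' * w' = (a : Fl p) + (b : Fl p) * w' := by
    have h := congrArg ι hw
    rw [map_add, map_mul, map_mul, map_intCast, map_intCast] at h
    exact h
  have hw2 := rt_cj hw1
  have hA1 : PtL Φ u hu ((SLm ι).comp s₁) := hpf.1 _ _ _ _ _ ι s₁ hP1
  have hA2 : PtL Φ u hu ((SLm ι).comp s₂) := hpf.1 _ _ _ _ _ ι s₂ hP2
  have hB1 := hD.good (Fl p) (evq a b (iz p) w' hw1)
  have hB2 := hD.good (Fl p) (evq a b (iz p) ((b : Fl p) - w') hw2)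
  have tA1 : ∀ g, tr (((SLm ι).comp s₁) g) = ι (tr (s₁ g)) := fun g => tr_map ι (s₁ g)
  have tA2 : ∀ g, tr (((SLm ι).comp s₂) g) = ι (tr (s₂ g)) := fun g => tr_map ι (s₂ g)
  have tB1 : ∀ g, tr (((SLm (evq a b (iz p) w' hw1)).comp r) g) =
      evq a b (iz p) w' hw1 (tr (r g)) :=
    fun g => tr_map _ (r g)
  have tB2 : ∀ g, tr (((SLm (evq a b (iz p) ((b : Fl p) - w') hw2)).comp r) g) =
      evq a b (iz p) ((b : Fl p) - w') hw2 (tr (r g)) := fun g => tr_map _ (r g)
  have hneA : ∃ g, tr (((SLm ι).comp s₁) g) ≠ tr (((SLm ι).comp s₂) g) := by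
    obtain ⟨g, hg⟩ := hne
    refine ⟨g, ?_⟩
    rw [tA1, tA2]
    exact fun h => hg (ι.injective h)
  have hneB : ∃ g, tr (((SLm (evq a b (iz p) w' hw1)).comp r) g) ≠
      tr (((SLm (evq a b (iz p) ((b : Fl p) - w') hw2)).comp r) g) := by
    obtain ⟨g, hg⟩ := hD.ne
    refine ⟨g, ?_⟩
    rw [tB1, tB2, evq_apply, evq_apply]
    intro h
    apply hg
    apply d6_iz_inj p
    rw [map_zero]
    have h3 : (2 * w' - (b : Fl p)) * iz p (tr (r g)).im = 0 := by
      linear_combination h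
    exact (mul_eq_zero.1 h3).resolve_left (d6_ne hn hw1)
  have key := hG (Fl p)
  have hc1 := d6_three key _ _ _ hA1 hB1 hB2 hneB
  have hc2 := d6_three key _ _ _ hA2 hB1 hB2 hneB
  -- the values
  have hv : ∀ x : Qf a b ℤ, ι (evq a b (Int.castRingHom _) w hw x) =
      evq a b (iz p) w' hw1 (Qfm a b (Int.castRingHom ℤ_[p]) x) := by
    intro x
    rw [evq_apply, evq_apply, Qfm_apply, map_add, map_mul]
    simp [hw'def]
  have hcj : ∀ x : Qf a b ℤ_[p], evq a b (iz p) ((b : Fl p) - w') hw2 x =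
      evq a b (iz p) w' hw1 (cjq a b ℤ_[p] x) := by
    intro x
    rw [evq_apply, evq_apply, cjq_apply]
    show iz p x.re + iz p x.im * ((b : Fl p) - w') =
      iz p (x.re + (b : ℤ_[p]) * x.im) + iz p (-x.im) * w'
    rw [map_add, map_neg, map_mul, map_intCast]
    ring
  have hcm : ∀ x : Qf a b ℤ, Qfm a b (Int.castRingHom ℤ_[p]) (cjq a b ℤ x) =
      cjq a b ℤ_[p] (Qfm a b (Int.castRingHom ℤ_[p]) x) := by
    intro x
    rw [cjq_apply, cjq_apply, Qfm_apply, Qfm_apply]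
    apply QuadraticAlgebra.ext
    · show Int.castRingHom ℤ_[p] (x.re + b * x.im) =
        Int.castRingHom ℤ_[p] x.re + (b : ℤ_[p]) * Int.castRingHom ℤ_[p] x.im
      rw [map_add, map_mul]
      rfl
    · show Int.castRingHom ℤ_[p] (-x.im) = -(Int.castRingHom ℤ_[p] x.im)
      rw [map_neg]
  rcases hc1 with hc1 | hc1
  · have hc2' : ∀ g, tr (((SLm ι).comp s₂) g) =
        tr (((SLm (evq a b (iz p) ((b : Fl p) - w') hw2)).comp r) g) := by
      rcases hc2 with hc2 | hc2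
      · exfalso
        obtain ⟨g, hg⟩ := hneA
        exact hg (by rw [hc1 g, hc2 g])
      · exact hc2
    left
    intro g
    apply d6_zero hn w' hw1 hw2
    · rw [← tB1, ← hc1, tA1, (hT g).1, hv]
    · rw [← tB2, ← hc2', tA2, (hT g).2, hv, hcj, hcm]
  · have hc2' : ∀ g, tr (((SLm ι).comp s₂) g) =
        tr (((SLm (evq a b (iz p) w' hw1)).comp r) g) := by
      rcases hc2 with hc2 | hc2
      · exact hc2
      · exfalso
        obtain ⟨g, hg⟩ := hneA
        exact hg (by rw [hc1 g, hc2 g])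
    right
    intro g
    apply d6_zero hn w' hw1 hw2
    · rw [← tB1, ← hc2', tA2, (hT g).2, hv]
    · rw [← tB2, ← hc1, tA1, (hT g).1, hv, hcj, ← hcm, cjq_cjq]

end Pool.Agent.F8.BG
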