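import Pool.Agent.Lib.MP_305fdd_al.F8.BG.StmU

/-!
# [BG det11] the determinant
-/

set_option autoImplicit false
set_option linter.unusedVariables false

namespace Pool.Agent.F8.BG

open Pool.Agent.MP_305fdd_al Pool.Agent.Lib.MP_305fdd_al Pool.Agent.F2X Pool.Agent.F8
  Pool.Agent.F8.HN

private theorem det11_congr {K : Type} {a b c d a' b' c' d' : K} (h1 : a = a') (h2 : b = b') (h3 : c = c')
    (h4 : d = d') : (!![a, b; c, d] : Matrix (Fin 2) (Fin 2) K) = !![a', b'; c', d'] := by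
  subst h1; subst h2; subst h3; subst h4; rfl

private theorem det11_add {K : Type} [CommRing K] (a b c d a' b' c' d' : K) :
    (!![a, b; c, d] + !![a', b'; c', d'] : Matrix (Fin 2) (Fin 2) K) =
      !![a + a', b + b'; c + c', d + d'] := by
  ext i j
  fin_cases i <;> fin_cases j <;> rfl

private theorem det11_sub {K : Type} [CommRing K] (a b c d a' b' c' d' : K) :
    (!![a, b; c, d] - !![a', b'; c', d'] : Matrix (Fin 2) (Fin 2) K) =
      !![a - a', b - b'; c - c', d - d'] := by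
  ext i j
  fin_cases i <;> fin_cases j <;> rfl

private theorem det11_inv {K : Type} [CommRing K] (M : SL2 K) (a b c d : K) (h : M.val = !![a, b; c, d]) :
    (M⁻¹).val = !![d, -b; -c, a] := by
  have h1 : (M⁻¹).val = M.val.adjugate := Matrix.SpecialLinearGroup.coe_inv M
  rw [h1, h, Matrix.adjugate_fin_two_of]

private theorem det11_m1 {K : Type} [CommRing K] (x p m f : K) (h1 : x * x = x + p * p - 1) (h2 : m * m = 1 - f ^ 2 + 2 * p * f * m)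
    (h3 : (4 * p ^ 2 - 3) * f * m + 1 + 2 * p = 0)
    (h4 : (4 * p ^ 2 - 3) * f ^ 3 + (3 + 2 * p) * f - (1 + 2 * p) * m = 0) :
    (!![p, -x; -x + 1, p] * !![-p * f + m, -x * f + f; -x * f, -p * f + m] : Matrix (Fin 2) (Fin 2) K) =
      !![x * f + p * m - f, -x * m + p * f; -x * m - p * f + m, -x * f + p * m] := by
  rw [Matrix.mul_fin_two]
  apply det11_congr
  · linear_combination (f) * h1
  · ring
  · ring
  · linear_combination (f) * h1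

private theorem det11_m2 {K : Type} [CommRing K] (x p m f : K) (h1 : x * x = x + p * p - 1) (h2 : m * m = 1 - f ^ 2 + 2 * p * f * m)
    (h3 : (4 * p ^ 2 - 3) * f * m + 1 + 2 * p = 0)
    (h4 : (4 * p ^ 2 - 3) * f ^ 3 + (3 + 2 * p) * f - (1 + 2 * p) * m = 0) :
    (!![x * f + p * m - f, -x * m + p * f; -x * m - p * f + m, -x * f + p * m] * !![p, x; x - 1, p] : Matrix (Fin 2) (Fin 2) K) =
      !![2 * x * p * f - 2 * p * f + m, 2 * p ^ 2 * f - f; -2 * p ^ 2 * f + f, -2 * x * p * f + m] := by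
  rw [Matrix.mul_fin_two]
  apply det11_congr
  · linear_combination (-m) * h1
  · linear_combination (f) * h1
  · linear_combination (-f) * h1
  · linear_combination (-m) * h1

private theorem det11_m3 {K : Type} [CommRing K] (x p m f : K) (h1 : x * x = x + p * p - 1) (h2 : m * m = 1 - f ^ 2 + 2 * p * f * m)
    (h3 : (4 * p ^ 2 - 3) * f * m + 1 + 2 * p = 0)
    (h4 : (4 * p ^ 2 - 3) * f ^ 3 + (3 + 2 * p) * f - (1 + 2 * p) * m = 0) :
    (!![2 * x * p * f - 2 * p * f + m, 2 * p ^ 2 * f - f; -2 * p ^ 2 * f + f, -2 * x * p * f + m] * !![-p * f + m, x * f - f; x * f, -p * f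
          + m] : Matrix (Fin 2) (Fin 2) K) =
      !![2 * x * p * m * f - x * f ^ 2 + 2 * p ^ 2 * f ^ 2 - p * m * f - f ^ 2 + 1, -2 * x * p * f ^ 2 + x * m * f + 2 * p ^ 2 * m * f + p *
            f ^ 2 - 2 * m * f; -2 * x * p * f ^ 2 + x * m * f - 2 * p ^ 2 * m * f + p * f ^ 2 + m * f, -2 * x * p * m * f + x * f ^ 2 + 2 *
            p ^ 2 * f ^ 2 + p * m * f - 2 * f ^ 2 + 1] := by
  rw [Matrix.mul_fin_two]
  apply det11_congr
  · linear_combination (1) * h2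
  · linear_combination (2 * p * f ^ 2) * h1
  · linear_combination (-2 * p * f ^ 2) * h1
  · linear_combination (1) * h2

private theorem det11_m4 {K : Type} [CommRing K] (x p m f : K) (h1 : x * x = x + p * p - 1) (h2 : m * m = 1 - f ^ 2 + 2 * p * f * m)
    (h3 : (4 * p ^ 2 - 3) * f * m + 1 + 2 * p = 0)
    (h4 : (4 * p ^ 2 - 3) * f ^ 3 + (3 + 2 * p) * f - (1 + 2 * p) * m = 0) :
    (!![2 * x * p * m * f - x * f ^ 2 + 2 * p ^ 2 * f ^ 2 - p * m * f - f ^ 2 + 1, -2 * x * p * f ^ 2 + x * m * f + 2 * p ^ 2 * m * f + p *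
          f ^ 2 - 2 * m * f; -2 * x * p * f ^ 2 + x * m * f - 2 * p ^ 2 * m * f + p * f ^ 2 + m * f, -2 * x * p * m * f + x * f ^ 2 + 2 * p
          ^ 2 * f ^ 2 + p * m * f - 2 * f ^ 2 + 1] * !![-p * f + m, x * f; x * f - f, -p * f + m] : Matrix (Fin 2) (Fin 2) K) =
      !![-x * f - 2 * p ^ 2 * m + 2 * p ^ 2 * f - p * m + p * f + m, 2 * x * p * m - 2 * x * p * f + x * m - x * f - 2 * p * m + p * f - m +
            f; 2 * x * p * m - 2 * x * p * f + x * m - x * f + p * f, x * f - 2 * p ^ 2 * m + 2 * p ^ 2 * f - p * m + p * f + m - f] := by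
  rw [Matrix.mul_fin_two]
  apply det11_congr
  · linear_combination (-2 * p * f ^ 3 + m * f ^ 2) * h1 + (2 * x * p * f - p * f) * h2 + (x * f) * h3 + (-p) * h4
  · linear_combination (2 * p * m * f ^ 2 - f ^ 3) * h1 + (x * f + 2 * p ^ 2 * f - 2 * f) * h2 + (p * f) * h3 + (x - 1) * h4
  · linear_combination (-2 * p * m * f ^ 2 + f ^ 3) * h1 + (x * f - 2 * p ^ 2 * f + f) * h2 + (-p * f) * h3 + (x) * h4
  · linear_combination (-2 * p * f ^ 3 + m * f ^ 2) * h1 + (-2 * x * p * f + p * f) * h2 + (-x * f + f) * h3 + (-p) * h4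

private theorem det11_m5 {K : Type} [CommRing K] (x p m f : K) (h1 : x * x = x + p * p - 1) (h2 : m * m = 1 - f ^ 2 + 2 * p * f * m)
    (h3 : (4 * p ^ 2 - 3) * f * m + 1 + 2 * p = 0)
    (h4 : (4 * p ^ 2 - 3) * f ^ 3 + (3 + 2 * p) * f - (1 + 2 * p) * m = 0) :
    (!![4 * p ^ 3 - 3 * p, -4 * x * p ^ 2 + x + 4 * p ^ 2 - 1; -4 * x * p ^ 2 + x, 4 * p ^ 3 - 3 * p] * !![-p * f + m, -x * f + f; -x * f,
          -p * f + m] : Matrix (Fin 2) (Fin 2) K) =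
      !![4 * p ^ 3 * m - 2 * p ^ 2 * f - 3 * p * m + f, -4 * x * p ^ 2 * m + 2 * x * p * f + x * m + 4 * p ^ 2 * m - 2 * p * f - m; -4 * x *
            p ^ 2 * m + 2 * x * p * f + x * m, 4 * p ^ 3 * m - 2 * p ^ 2 * f - 3 * p * m + f] := by
  rw [Matrix.mul_fin_two]
  apply det11_congr
  · linear_combination (4 * p ^ 2 * f - f) * h1
  · ring
  · ring
  · linear_combination (4 * p ^ 2 * f - f) * h1

private theorem det11_m6 {K : Type} [CommRing K] (x p m f : K) (h1 : x * x = x + p * p - 1) (h2 : m * m = 1 - f ^ 2 + 2 * p * f * m)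
    (h3 : (4 * p ^ 2 - 3) * f * m + 1 + 2 * p = 0)
    (h4 : (4 * p ^ 2 - 3) * f ^ 3 + (3 + 2 * p) * f - (1 + 2 * p) * m = 0) :
    (!![4 * p ^ 3 * m - 2 * p ^ 2 * f - 3 * p * m + f, -4 * x * p ^ 2 * m + 2 * x * p * f + x * m + 4 * p ^ 2 * m - 2 * p * f - m; -4 * x *
          p ^ 2 * m + 2 * x * p * f + x * m, 4 * p ^ 3 * m - 2 * p ^ 2 * f - 3 * p * m + f] * !![p, x; x - 1, p] : Matrix (Fin 2) (Fin 2) K)
          =
      !![4 * x * p ^ 2 * m - 2 * x * p * f - x * m - 2 * p ^ 2 * m + p * f, -2 * x * p * m + x * f + 4 * p ^ 3 * m - 2 * p ^ 2 * f - p * m;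
            -2 * x * p * m + x * f - 4 * p ^ 3 * m + 2 * p ^ 2 * f + 3 * p * m - f, -4 * x * p ^ 2 * m + 2 * x * p * f + x * m + 2 * p ^ 2 *
            m - p * f - m] := by
  rw [Matrix.mul_fin_two]
  apply det11_congr
  · linear_combination (-4 * p ^ 2 * m + 2 * p * f + m) * h1
  · ring
  · ring
  · linear_combination (-4 * p ^ 2 * m + 2 * p * f + m) * h1

private theorem det11_e1 {K : Type} [CommRing K] (x p m f : K) (h1 : x * x = x + p * p - 1) (h2 : m * m = 1 - f ^ 2 + 2 * p * f * m)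
    (h3 : (4 * p ^ 2 - 3) * f * m + 1 + 2 * p = 0)
    (h4 : (4 * p ^ 2 - 3) * f ^ 3 + (3 + 2 * p) * f - (1 + 2 * p) * m = 0) :
    (!![-x * f - p * m + f, x * m - p * f; x * m + p * f - m, x * f - p * m] + !![2 * x * p * f - 2 * p * f + m, 2 * p ^ 2 * f - f; -2 * p ^
          2 * f + f, -2 * x * p * f + m] : Matrix (Fin 2) (Fin 2) K) =
      !![2 * x * p * f - x * f - p * m - 2 * p * f + m + f, x * m + 2 * p ^ 2 * f - p * f - f; x * m - 2 * p ^ 2 * f + p * f - m + f, -2 * x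
            * p * f + x * f - p * m + m] := by
  rw [det11_add]
  apply det11_congr
  · ring
  · ring
  · ring
  · ring

private theorem det11_e2 {K : Type} [CommRing K] (x p m f : K) (h1 : x * x = x + p * p - 1) (h2 : m * m = 1 - f ^ 2 + 2 * p * f * m)
    (h3 : (4 * p ^ 2 - 3) * f * m + 1 + 2 * p = 0)
    (h4 : (4 * p ^ 2 - 3) * f ^ 3 + (3 + 2 * p) * f - (1 + 2 * p) * m = 0) :
    (!![2 * x * p * f - x * f - p * m - 2 * p * f + m + f, x * m + 2 * p ^ 2 * f - p * f - f; x * m - 2 * p ^ 2 * f + p * f - m + f, -2 * x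
          * p * f + x * f - p * m + m] + !![-x * f - 2 * p ^ 2 * m + 2 * p ^ 2 * f - p * m + p * f + m, 2 * x * p * m - 2 * x * p * f + x *
          m - x * f - 2 * p * m + p * f - m + f; 2 * x * p * m - 2 * x * p * f + x * m - x * f + p * f, x * f - 2 * p ^ 2 * m + 2 * p ^ 2 *
          f - p * m + p * f + m - f] : Matrix (Fin 2) (Fin 2) K) =
      !![2 * x * p * f - 2 * x * f - 2 * p ^ 2 * m + 2 * p ^ 2 * f - 2 * p * m - p * f + 2 * m + f, 2 * x * p * m - 2 * x * p * f + 2 * x *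
            m - x * f + 2 * p ^ 2 * f - 2 * p * m - m; 2 * x * p * m - 2 * x * p * f + 2 * x * m - x * f - 2 * p ^ 2 * f + 2 * p * f - m +
            f, -2 * x * p * f + 2 * x * f - 2 * p ^ 2 * m + 2 * p ^ 2 * f - 2 * p * m + p * f + 2 * m - f] := by
  rw [det11_add]
  apply det11_congr
  · ring
  · ring
  · ring
  · ring

private theorem det11_e3 {K : Type} [CommRing K] (x p m f : K) (h1 : x * x = x + p * p - 1) (h2 : m * m = 1 - f ^ 2 + 2 * p * f * m)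
    (h3 : (4 * p ^ 2 - 3) * f * m + 1 + 2 * p = 0)
    (h4 : (4 * p ^ 2 - 3) * f ^ 3 + (3 + 2 * p) * f - (1 + 2 * p) * m = 0) :
    (!![2 * x * p * f - 2 * x * f - 2 * p ^ 2 * m + 2 * p ^ 2 * f - 2 * p * m - p * f + 2 * m + f, 2 * x * p * m - 2 * x * p * f + 2 * x * m
          - x * f + 2 * p ^ 2 * f - 2 * p * m - m; 2 * x * p * m - 2 * x * p * f + 2 * x * m - x * f - 2 * p ^ 2 * f + 2 * p * f - m + f, -2
          * x * p * f + 2 * x * f - 2 * p ^ 2 * m + 2 * p ^ 2 * f - 2 * p * m + p * f + 2 * m - f] - !![4 * x * p ^ 2 * m - 2 * x * p * f -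
          x * m - 2 * p ^ 2 * m + p * f, -2 * x * p * m + x * f + 4 * p ^ 3 * m - 2 * p ^ 2 * f - p * m; -2 * x * p * m + x * f - 4 * p ^ 3
          * m + 2 * p ^ 2 * f + 3 * p * m - f, -4 * x * p ^ 2 * m + 2 * x * p * f + x * m + 2 * p ^ 2 * m - p * f - m] : Matrix (Fin 2) (Fin
          2) K) =
      !![-4 * x * p ^ 2 * m + 4 * x * p * f + x * m - 2 * x * f + 2 * p ^ 2 * f - 2 * p * m - 2 * p * f + 2 * m + f, 4 * x * p * m - 2 * x *
            p * f + 2 * x * m - 2 * x * f - 4 * p ^ 3 * m + 4 * p ^ 2 * f - p * m - m; 4 * x * p * m - 2 * x * p * f + 2 * x * m - 2 * x * f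
            + 4 * p ^ 3 * m - 4 * p ^ 2 * f - 3 * p * m + 2 * p * f - m + 2 * f, 4 * x * p ^ 2 * m - 4 * x * p * f - x * m + 2 * x * f - 4 *
            p ^ 2 * m + 2 * p ^ 2 * f - 2 * p * m + 2 * p * f + 3 * m - f] := by
  rw [det11_sub]
  apply det11_congr
  · ring
  · ring
  · ring
  · ring

private theorem det11_e4 {K : Type} [CommRing K] (x p m f : K) (h1 : x * x = x + p * p - 1) (h2 : m * m = 1 - f ^ 2 + 2 * p * f * m)
    (h3 : (4 * p ^ 2 - 3) * f * m + 1 + 2 * p = 0)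
    (h4 : (4 * p ^ 2 - 3) * f ^ 3 + (3 + 2 * p) * f - (1 + 2 * p) * m = 0) :
    (!![-4 * x * p ^ 2 * m + 4 * x * p * f + x * m - 2 * x * f + 2 * p ^ 2 * f - 2 * p * m - 2 * p * f + 2 * m + f, 4 * x * p * m - 2 * x *
          p * f + 2 * x * m - 2 * x * f - 4 * p ^ 3 * m + 4 * p ^ 2 * f - p * m - m; 4 * x * p * m - 2 * x * p * f + 2 * x * m - 2 * x * f +
          4 * p ^ 3 * m - 4 * p ^ 2 * f - 3 * p * m + 2 * p * f - m + 2 * f, 4 * x * p ^ 2 * m - 4 * x * p * f - x * m + 2 * x * f - 4 * p ^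
          2 * m + 2 * p ^ 2 * f - 2 * p * m + 2 * p * f + 3 * m - f] + !![4 * p ^ 3 * m - 2 * p ^ 2 * f - 3 * p * m + f, -4 * x * p ^ 2 * m
          + 2 * x * p * f + x * m + 4 * p ^ 2 * m - 2 * p * f - m; -4 * x * p ^ 2 * m + 2 * x * p * f + x * m, 4 * p ^ 3 * m - 2 * p ^ 2 * f
          - 3 * p * m + f] : Matrix (Fin 2) (Fin 2) K) =
      !![-4 * x * p ^ 2 * m + 4 * x * p * f + x * m - 2 * x * f + 4 * p ^ 3 * m - 5 * p * m - 2 * p * f + 2 * m + 2 * f, -4 * x * p ^ 2 * m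
            + 4 * x * p * m + 3 * x * m - 2 * x * f - 4 * p ^ 3 * m + 4 * p ^ 2 * m + 4 * p ^ 2 * f - p * m - 2 * p * f - 2 * m; -4 * x * p
            ^ 2 * m + 4 * x * p * m + 3 * x * m - 2 * x * f + 4 * p ^ 3 * m - 4 * p ^ 2 * f - 3 * p * m + 2 * p * f - m + 2 * f, 4 * x * p ^
            2 * m - 4 * x * p * f - x * m + 2 * x * f + 4 * p ^ 3 * m - 4 * p ^ 2 * m - 5 * p * m + 2 * p * f + 3 * m] := by
  rw [det11_add]
  apply det11_congr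
  · ring
  · ring
  · ring
  · ring

private theorem det11_x1 {K : Type} [CommRing K] (x p m f : K) (h1 : x * x = x + p * p - 1) (h2 : m * m = 1 - f ^ 2 + 2 * p * f * m)
    (h3 : (4 * p ^ 2 - 3) * f * m + 1 + 2 * p = 0)
    (h4 : (4 * p ^ 2 - 3) * f ^ 3 + (3 + 2 * p) * f - (1 + 2 * p) * m = 0) :
    (!![p * f - m + 1, -x * f + f; -x * f, p * f - m + 1] * !![-4 * x * p ^ 2 * m + 4 * x * p * f + x * m - 2 * x * f + 4 * p ^ 3 * m - 5 *
          p * m - 2 * p * f + 2 * m + 2 * f, -4 * x * p ^ 2 * m + 4 * x * p * m + 3 * x * m - 2 * x * f - 4 * p ^ 3 * m + 4 * p ^ 2 * m + 4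
          * p ^ 2 * f - p * m - 2 * p * f - 2 * m; -4 * x * p ^ 2 * m + 4 * x * p * m + 3 * x * m - 2 * x * f + 4 * p ^ 3 * m - 4 * p ^ 2 *
          f - 3 * p * m + 2 * p * f - m + 2 * f, 4 * x * p ^ 2 * m - 4 * x * p * f - x * m + 2 * x * f + 4 * p ^ 3 * m - 4 * p ^ 2 * m - 5 *
          p * m + 2 * p * f + 3 * m] : Matrix (Fin 2) (Fin 2) K) =
      !![-4 * x * p ^ 2 * m + 4 * x * p ^ 2 * f ^ 2 + 4 * x * p ^ 2 - 2 * x * p * m * f - 4 * x * p * f ^ 2 + 4 * x * p * f + 3 * x * m * f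
            + x * m - x * f ^ 2 - 2 * x * f - x + 4 * p ^ 3 * m + 4 * p ^ 3 * f ^ 2 - 4 * p ^ 3 - 2 * p ^ 2 * m * f - 4 * p ^ 2 * f ^ 2 + p
            * m * f - 5 * p * m - p * f ^ 2 - 2 * p * f + 5 * p + 2 * m + 2 * f ^ 2 + 2 * f - 2, -4 * x * p ^ 2 * m - 4 * x * p ^ 2 * f ^ 2
            + 4 * x * p ^ 2 + 2 * x * p * m * f + 4 * x * p * m - 4 * x * p - x * m * f + 3 * x * m + 3 * x * f ^ 2 - 2 * x * f - 3 * x - 4
            * p ^ 3 * m + 4 * p ^ 3 * f ^ 2 + 4 * p ^ 3 - 2 * p ^ 2 * m * f + 4 * p ^ 2 * m + 4 * p ^ 2 * f - 4 * p ^ 2 - p * m * f - p * m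
            - 3 * p * f ^ 2 - 2 * p * f + p + 2 * m * f - 2 * m + 2; -4 * x * p ^ 2 * m - 4 * x * p ^ 2 * f ^ 2 + 4 * x * p ^ 2 + 2 * x * p
            * m * f + 4 * x * p * m - 4 * x * p - x * m * f + 3 * x * m + 3 * x * f ^ 2 - 2 * x * f - 3 * x + 4 * p ^ 3 * m - 4 * p ^ 3 * f
            ^ 2 - 4 * p ^ 3 + 6 * p ^ 2 * m * f + 4 * p ^ 2 * f ^ 2 - 4 * p ^ 2 * f - p * m * f - 3 * p * m + 3 * p * f ^ 2 + 2 * p * f + 5
            * p - 4 * m * f - m - 3 * f ^ 2 + 2 * f + 2, 4 * x * p ^ 2 * m - 4 * x * p ^ 2 * f ^ 2 - 4 * x * p ^ 2 + 2 * x * p * m * f + 4 *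
            x * p * f ^ 2 - 4 * x * p * f - 3 * x * m * f - x * m + x * f ^ 2 + 2 * x * f + x + 4 * p ^ 3 * m + 4 * p ^ 3 * f ^ 2 - 4 * p ^
            3 - 2 * p ^ 2 * m * f - 4 * p ^ 2 * m + 4 * p ^ 2 - p * m * f - 5 * p * m - 5 * p * f ^ 2 + 2 * p * f + 5 * p + 3 * m * f + 3 *
            m + f ^ 2 - 3] := by
  rw [Matrix.mul_fin_two]
  apply det11_congr
  · linear_combination (4 * p ^ 2 * m * f - 4 * p * m * f - 3 * m * f + 2 * f ^ 2) * h1 + (4 * x * p ^ 2 - x - 4 * p ^ 3 + 5 * p - 2) * h2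
  · linear_combination (-4 * p ^ 2 * m * f + 4 * p * f ^ 2 + m * f - 2 * f ^ 2) * h1 + (4 * x * p ^ 2 - 4 * x * p - 3 * x + 4 * p ^ 3 - 4 *
        p ^ 2 + p + 2) * h2
  · linear_combination (4 * p ^ 2 * m * f - 4 * p * f ^ 2 - m * f + 2 * f ^ 2) * h1 + (4 * x * p ^ 2 - 4 * x * p - 3 * x - 4 * p ^ 3 + 3 * p
        + 1) * h2 + (-1) * h3
  · linear_combination (4 * p ^ 2 * m * f - 4 * p * m * f - 3 * m * f + 2 * f ^ 2) * h1 + (-4 * x * p ^ 2 + x - 4 * p ^ 3 + 4 * p ^ 2 + 5 *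
        p - 3) * h2

private theorem det11_d {K : Type} [CommRing K] (x p m f : K) (h1 : x * x = x + p * p - 1) (h2 : m * m = 1 - f ^ 2 + 2 * p * f * m)
    (h3 : (4 * p ^ 2 - 3) * f * m + 1 + 2 * p = 0)
    (h4 : (4 * p ^ 2 - 3) * f ^ 3 + (3 + 2 * p) * f - (1 + 2 * p) * m = 0) :
    (!![-4 * p ^ 3 + 3 * p + 1, 4 * x * p ^ 2 - x - 4 * p ^ 2 + 1; 4 * x * p ^ 2 - x, -4 * p ^ 3 + 3 * p + 1] - !![-4 * x * p ^ 2 * m + 4 *
          x * p ^ 2 * f ^ 2 + 4 * x * p ^ 2 - 2 * x * p * m * f - 4 * x * p * f ^ 2 + 4 * x * p * f + 3 * x * m * f + x * m - x * f ^ 2 - 2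
          * x * f - x + 4 * p ^ 3 * m + 4 * p ^ 3 * f ^ 2 - 4 * p ^ 3 - 2 * p ^ 2 * m * f - 4 * p ^ 2 * f ^ 2 + p * m * f - 5 * p * m - p *
          f ^ 2 - 2 * p * f + 5 * p + 2 * m + 2 * f ^ 2 + 2 * f - 2, -4 * x * p ^ 2 * m - 4 * x * p ^ 2 * f ^ 2 + 4 * x * p ^ 2 + 2 * x * p
          * m * f + 4 * x * p * m - 4 * x * p - x * m * f + 3 * x * m + 3 * x * f ^ 2 - 2 * x * f - 3 * x - 4 * p ^ 3 * m + 4 * p ^ 3 * f ^
          2 + 4 * p ^ 3 - 2 * p ^ 2 * m * f + 4 * p ^ 2 * m + 4 * p ^ 2 * f - 4 * p ^ 2 - p * m * f - p * m - 3 * p * f ^ 2 - 2 * p * f + p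
          + 2 * m * f - 2 * m + 2; -4 * x * p ^ 2 * m - 4 * x * p ^ 2 * f ^ 2 + 4 * x * p ^ 2 + 2 * x * p * m * f + 4 * x * p * m - 4 * x *
          p - x * m * f + 3 * x * m + 3 * x * f ^ 2 - 2 * x * f - 3 * x + 4 * p ^ 3 * m - 4 * p ^ 3 * f ^ 2 - 4 * p ^ 3 + 6 * p ^ 2 * m * f
          + 4 * p ^ 2 * f ^ 2 - 4 * p ^ 2 * f - p * m * f - 3 * p * m + 3 * p * f ^ 2 + 2 * p * f + 5 * p - 4 * m * f - m - 3 * f ^ 2 + 2 *
          f + 2, 4 * x * p ^ 2 * m - 4 * x * p ^ 2 * f ^ 2 - 4 * x * p ^ 2 + 2 * x * p * m * f + 4 * x * p * f ^ 2 - 4 * x * p * f - 3 * x *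
          m * f - x * m + x * f ^ 2 + 2 * x * f + x + 4 * p ^ 3 * m + 4 * p ^ 3 * f ^ 2 - 4 * p ^ 3 - 2 * p ^ 2 * m * f - 4 * p ^ 2 * m + 4
          * p ^ 2 - p * m * f - 5 * p * m - 5 * p * f ^ 2 + 2 * p * f + 5 * p + 3 * m * f + 3 * m + f ^ 2 - 3] : Matrix (Fin 2) (Fin 2) K) =
      !![4 * x * p ^ 2 * m - 4 * x * p ^ 2 * f ^ 2 - 4 * x * p ^ 2 + 2 * x * p * m * f + 4 * x * p * f ^ 2 - 4 * x * p * f - 3 * x * m * f -
            x * m + x * f ^ 2 + 2 * x * f + x - 4 * p ^ 3 * m - 4 * p ^ 3 * f ^ 2 + 2 * p ^ 2 * m * f + 4 * p ^ 2 * f ^ 2 - p * m * f + 5 *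
            p * m + p * f ^ 2 + 2 * p * f - 2 * p - 2 * m - 2 * f ^ 2 - 2 * f + 3, 4 * x * p ^ 2 * m + 4 * x * p ^ 2 * f ^ 2 - 2 * x * p * m
            * f - 4 * x * p * m + 4 * x * p + x * m * f - 3 * x * m - 3 * x * f ^ 2 + 2 * x * f + 2 * x + 4 * p ^ 3 * m - 4 * p ^ 3 * f ^ 2
            - 4 * p ^ 3 + 2 * p ^ 2 * m * f - 4 * p ^ 2 * m - 4 * p ^ 2 * f + p * m * f + p * m + 3 * p * f ^ 2 + 2 * p * f - p - 2 * m * f
            + 2 * m - 1; 4 * x * p ^ 2 * m + 4 * x * p ^ 2 * f ^ 2 - 2 * x * p * m * f - 4 * x * p * m + 4 * x * p + x * m * f - 3 * x * m -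
            3 * x * f ^ 2 + 2 * x * f + 2 * x - 4 * p ^ 3 * m + 4 * p ^ 3 * f ^ 2 + 4 * p ^ 3 - 6 * p ^ 2 * m * f - 4 * p ^ 2 * f ^ 2 + 4 *
            p ^ 2 * f + p * m * f + 3 * p * m - 3 * p * f ^ 2 - 2 * p * f - 5 * p + 4 * m * f + m + 3 * f ^ 2 - 2 * f - 2, -4 * x * p ^ 2 *
            m + 4 * x * p ^ 2 * f ^ 2 + 4 * x * p ^ 2 - 2 * x * p * m * f - 4 * x * p * f ^ 2 + 4 * x * p * f + 3 * x * m * f + x * m - x *
            f ^ 2 - 2 * x * f - x - 4 * p ^ 3 * m - 4 * p ^ 3 * f ^ 2 + 2 * p ^ 2 * m * f + 4 * p ^ 2 * m - 4 * p ^ 2 + p * m * f + 5 * p *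
            m + 5 * p * f ^ 2 - 2 * p * f - 2 * p - 3 * m * f - 3 * m - f ^ 2 + 4] := by
  rw [det11_sub]
  apply det11_congr
  · ring
  · ring
  · ring
  · ring

private theorem det11_fin {K : Type} [CommRing K] (x p m f : K) (h1 : x * x = x + p * p - 1) (h2 : m * m = 1 - f ^ 2 + 2 * p * f * m)
    (h3 : (4 * p ^ 2 - 3) * f * m + 1 + 2 * p = 0)
    (h4 : (4 * p ^ 2 - 3) * f ^ 3 + (3 + 2 * p) * f - (1 + 2 * p) * m = 0) :
    (!![4 * x * p ^ 2 * m - 4 * x * p ^ 2 * f ^ 2 - 4 * x * p ^ 2 + 2 * x * p * m * f + 4 * x * p * f ^ 2 - 4 * x * p * f - 3 * x * m * f -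
          x * m + x * f ^ 2 + 2 * x * f + x - 4 * p ^ 3 * m - 4 * p ^ 3 * f ^ 2 + 2 * p ^ 2 * m * f + 4 * p ^ 2 * f ^ 2 - p * m * f + 5 * p
          * m + p * f ^ 2 + 2 * p * f - 2 * p - 2 * m - 2 * f ^ 2 - 2 * f + 3, 4 * x * p ^ 2 * m + 4 * x * p ^ 2 * f ^ 2 - 2 * x * p * m * f
          - 4 * x * p * m + 4 * x * p + x * m * f - 3 * x * m - 3 * x * f ^ 2 + 2 * x * f + 2 * x + 4 * p ^ 3 * m - 4 * p ^ 3 * f ^ 2 - 4 *
          p ^ 3 + 2 * p ^ 2 * m * f - 4 * p ^ 2 * m - 4 * p ^ 2 * f + p * m * f + p * m + 3 * p * f ^ 2 + 2 * p * f - p - 2 * m * f + 2 * m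
          - 1; 4 * x * p ^ 2 * m + 4 * x * p ^ 2 * f ^ 2 - 2 * x * p * m * f - 4 * x * p * m + 4 * x * p + x * m * f - 3 * x * m - 3 * x * f
          ^ 2 + 2 * x * f + 2 * x - 4 * p ^ 3 * m + 4 * p ^ 3 * f ^ 2 + 4 * p ^ 3 - 6 * p ^ 2 * m * f - 4 * p ^ 2 * f ^ 2 + 4 * p ^ 2 * f +
          p * m * f + 3 * p * m - 3 * p * f ^ 2 - 2 * p * f - 5 * p + 4 * m * f + m + 3 * f ^ 2 - 2 * f - 2, -4 * x * p ^ 2 * m + 4 * x * p
          ^ 2 * f ^ 2 + 4 * x * p ^ 2 - 2 * x * p * m * f - 4 * x * p * f ^ 2 + 4 * x * p * f + 3 * x * m * f + x * m - x * f ^ 2 - 2 * x *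
          f - x - 4 * p ^ 3 * m - 4 * p ^ 3 * f ^ 2 + 2 * p ^ 2 * m * f + 4 * p ^ 2 * m - 4 * p ^ 2 + p * m * f + 5 * p * m + 5 * p * f ^ 2
          - 2 * p * f - 2 * p - 3 * m * f - 3 * m - f ^ 2 + 4] : Matrix (Fin 2) (Fin 2) K).det =
      24 - 24 * (m - f * p) - 16 * p - 12 * f ^ 2 + 20 * p * (m - f * p) - 8 * p * f + 8 * p ^ 2 * (m - f * p) + 4 * p ^ 2 * f + 16 * p ^ 2
            * f ^ 2 + 8 * p ^ 3 * f := by
  rw [Matrix.det_fin_two_of]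
  linear_combination ((-32 * p ^ 4 * m ^ 2 + 32 * p ^ 4 * m - 32 * p ^ 4 * f ^ 4 - 32 * p ^ 4 * f ^ 2 - 16 * p ^ 4 + 32 * p ^ 3 * m ^ 2 + 32
        * p ^ 3 * m * f ^ 3 + 48 * p ^ 3 * m * f - 32 * p ^ 3 * m + 32 * p ^ 3 * f ^ 4 - 32 * p ^ 3 * f ^ 3 - 32 * p ^ 3 * f - 8 * p ^ 2 * m
        ^ 2 * f ^ 2 + 16 * p ^ 2 * m ^ 2 - 48 * p ^ 2 * m * f ^ 3 + 48 * p ^ 2 * m * f ^ 2 - 40 * p ^ 2 * m * f + 16 * p ^ 2 * f ^ 4 + 32 *
        p ^ 2 * f ^ 3 - 16 * p ^ 2 * f ^ 2 + 16 * p ^ 2 * f - 8 * p ^ 2 + 16 * p * m ^ 2 * f ^ 2 - 24 * p * m ^ 2 + 8 * p * m * f ^ 3 - 40 *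
        p * m * f ^ 2 + 4 * p * m * f + 40 * p * m - 8 * p * f ^ 4 - 8 * p * f ^ 3 + 32 * p * f ^ 2 - 8 * p * f - 16 * p - 10 * m ^ 2 * f ^
        2 - 10 * m ^ 2 + 12 * m * f ^ 3 - 8 * m * f ^ 2 + 18 * m * f + 14 * m - 10 * f ^ 4 + 8 * f ^ 3 + 2 * f ^ 2 - 12 * f - 5)) * h1 + (x
        * (16 * p ^ 4 * f - 8 * p ^ 3 * f ^ 2 - 16 * p ^ 3 * f + 4 * p ^ 2 * f ^ 2 - 24 * p ^ 2 * f + 6 * p * f ^ 2 + 12 * p * f - 3 * f ^ 2
        + 9 * f) + (16 * p ^ 5 * f + 8 * p ^ 4 * f ^ 2 - 16 * p ^ 4 * f + 20 * p ^ 3 * f ^ 2 + 8 * p ^ 3 * f - 30 * p ^ 2 * f ^ 2 + 12 * p ^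
        2 * f - 8 * p ^ 2 - 15 * p * f ^ 2 - 15 * p * f - 8 * p + 18 * f ^ 2 + 14)) * h2 + (x * (8 * p ^ 3 * f - 8 * p ^ 2 * f + 2 * p * f ^
        2 - 6 * p * f + 4 * p - 3 * f ^ 2 + 2 * f + 2) + (8 * p ^ 4 * f - 8 * p ^ 3 * f - 4 * p ^ 3 + 2 * p ^ 2 * f ^ 2 + 6 * p ^ 2 * f - 4
        * p ^ 2 - p * f ^ 2 + 2 * p * f - 7 * p - 4 * f + 5)) * h3 + (-4 * x * p ^ 2 + 2 * x * p * f + 4 * x * p - x * f + 3 * x - 4 * p ^ 3
        - 2 * p ^ 2 * f + 4 * p ^ 2 - p * f - 5 * p + 2 * f + 2) * h4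

theorem p_det11 : U_det11 := by
  intro K _ h2K s p c f hs e1 e2 e3 T V B Y Z hT hV hB hY hZ hz hc
  obtain ⟨x, hx⟩ : ∃ x : K, x = (s + 1) / 2 := ⟨_, rfl⟩
  obtain ⟨m, hm⟩ : ∃ m : K, m = c + f * p := ⟨_, rfl⟩
  have hcm : c = m - f * p := by rw [hm]; ring
  have hsx : s = 2 * x - 1 := by rw [hx]; field_simp; ring
  have hy : (s - 1) / 2 = x - 1 := by rw [hx]; field_simp; ring
  have h4K : (4 : K) ≠ 0 := by
    have h := mul_ne_zero h2K h2K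
    have h' : (2 : K) * 2 = 4 := by norm_num
    rwa [h'] at h
  have h1 : x * x = x + p * p - 1 := by
    apply mul_left_cancel₀ h4K
    rw [hsx] at e1
    linear_combination -e1
  have h2 : m * m = 1 - f ^ 2 + 2 * p * f * m := by
    apply mul_left_cancel₀ h4K
    rw [hsx, hcm] at e2
    linear_combination e2 + 4 * f ^ 2 * h1
  have h3 : (4 * p ^ 2 - 3) * f * m + 1 + 2 * p = 0 := by
    rw [hsx, hcm] at e3
    linear_combination e3 - 4 * f * m * h1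
  have h4 : (4 * p ^ 2 - 3) * f ^ 3 + (3 + 2 * p) * f - (1 + 2 * p) * m = 0 := by
    linear_combination (2 * p * f - m) * h3 + (4 * p ^ 2 - 3) * f * h2
  rw [← hx, hy, hcm] at hV
  rw [← hx, hy] at hT
  have hT' : T.val = !![p, x; x - 1, p] := by rw [hT]
  have hV' : V.val = !![-p * f + m, x * f; x * f - f, -p * f + m] := by
    rw [hV]
    apply det11_congr <;> ring
  have hTi := det11_inv T _ _ _ _ hT'
  have hVi := det11_inv V _ _ _ _ hV'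
  have hBi := det11_inv B _ _ _ _ hB
  have hYv : Y.val = !![-p * f + m, x * f - f; x * f, -p * f + m] := by
    rw [hY, Matrix.SpecialLinearGroup.coe_mul, Matrix.SpecialLinearGroup.coe_mul, hBi, hVi, hB,
      Matrix.mul_fin_two, Matrix.mul_fin_two]
    apply det11_congr <;> ring
  have hYi := det11_inv Y _ _ _ _ hYv
  have hZv : Z.val = !![4 * p ^ 3 - 3 * p, -4 * x * p ^ 2 + x + 4 * p ^ 2 - 1; -4 * x * p ^ 2 + x, 4 * p ^ 3 - 3 * p] := by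
    rw [hZ, Matrix.SpecialLinearGroup.coe_mul, Matrix.SpecialLinearGroup.coe_mul,
      Matrix.SpecialLinearGroup.coe_mul, Matrix.SpecialLinearGroup.coe_mul, hBi, hT', hB,
      Matrix.mul_fin_two, Matrix.mul_fin_two, Matrix.mul_fin_two, Matrix.mul_fin_two]
    apply det11_congr
    · linear_combination (3 * p) * h1
    · linear_combination (-x + 1) * h1
    · linear_combination (-x) * h1
    · linear_combination (3 * p) * h1
  have hTi' : (T⁻¹).val = !![p, -x; -x + 1, p] := by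
    rw [hTi]
    apply det11_congr <;> ring
  have hYi' : (Y⁻¹).val = !![-p * f + m, -x * f + f; -x * f, -p * f + m] := by
    rw [hYi]
    apply det11_congr <;> ring
  have hM1 : (T⁻¹ * Y⁻¹).val = !![x * f + p * m - f, -x * m + p * f; -x * m - p * f + m, -x * f + p * m] := by
    rw [Matrix.SpecialLinearGroup.coe_mul, hTi', hYi']
    exact det11_m1 x p m f h1 h2 h3 h4
  have hM2 : (T⁻¹ * Y⁻¹ * T).val = !![2 * x * p * f - 2 * p * f + m, 2 * p ^ 2 * f - f; -2 * p ^ 2 * f + f, -2 * x * p * f + m] := by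
    rw [Matrix.SpecialLinearGroup.coe_mul, hM1, hT']
    exact det11_m2 x p m f h1 h2 h3 h4
  have hM3 : (T⁻¹ * Y⁻¹ * T * Y).val = !![2 * x * p * m * f - x * f ^ 2 + 2 * p ^ 2 * f ^ 2 - p * m * f - f ^ 2 + 1, -2 * x * p * f ^ 2 + x
        * m * f + 2 * p ^ 2 * m * f + p * f ^ 2 - 2 * m * f; -2 * x * p * f ^ 2 + x * m * f - 2 * p ^ 2 * m * f + p * f ^ 2 + m * f, -2 * x
        * p * m * f + x * f ^ 2 + 2 * p ^ 2 * f ^ 2 + p * m * f - 2 * f ^ 2 + 1] := by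
    rw [Matrix.SpecialLinearGroup.coe_mul, hM2, hYv]
    exact det11_m3 x p m f h1 h2 h3 h4
  have hM4 : (T⁻¹ * Y⁻¹ * T * Y * V).val = !![-x * f - 2 * p ^ 2 * m + 2 * p ^ 2 * f - p * m + p * f + m, 2 * x * p * m - 2 * x * p * f + x
        * m - x * f - 2 * p * m + p * f - m + f; 2 * x * p * m - 2 * x * p * f + x * m - x * f + p * f, x * f - 2 * p ^ 2 * m + 2 * p ^ 2 *
        f - p * m + p * f + m - f] := by
    rw [Matrix.SpecialLinearGroup.coe_mul, hM3, hV']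
    exact det11_m4 x p m f h1 h2 h3 h4
  have hM5 : (Z * Y⁻¹).val = !![4 * p ^ 3 * m - 2 * p ^ 2 * f - 3 * p * m + f, -4 * x * p ^ 2 * m + 2 * x * p * f + x * m + 4 * p ^ 2 * m -
        2 * p * f - m; -4 * x * p ^ 2 * m + 2 * x * p * f + x * m, 4 * p ^ 3 * m - 2 * p ^ 2 * f - 3 * p * m + f] := by
    rw [Matrix.SpecialLinearGroup.coe_mul, hZv, hYi']
    exact det11_m5 x p m f h1 h2 h3 h4
  have hM6 : (Z * Y⁻¹ * T).val = !![4 * x * p ^ 2 * m - 2 * x * p * f - x * m - 2 * p ^ 2 * m + p * f, -2 * x * p * m + x * f + 4 * p ^ 3 *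
        m - 2 * p ^ 2 * f - p * m; -2 * x * p * m + x * f - 4 * p ^ 3 * m + 2 * p ^ 2 * f + 3 * p * m - f, -4 * x * p ^ 2 * m + 2 * x * p *
        f + x * m + 2 * p ^ 2 * m - p * f - m] := by
    rw [Matrix.SpecialLinearGroup.coe_mul, hM5, hT']
    exact det11_m6 x p m f h1 h2 h3 h4
  have hIY : (1 : Matrix (Fin 2) (Fin 2) K) - !![-p * f + m, x * f - f; x * f, -p * f + m] = !![p * f - m + 1, -x * f + f; -x * f, p * f - m
        + 1] := by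
    rw [Matrix.one_fin_two, det11_sub]
    apply det11_congr <;> ring
  have hIZ : (1 : Matrix (Fin 2) (Fin 2) K) - !![4 * p ^ 3 - 3 * p, -4 * x * p ^ 2 + x + 4 * p ^ 2 - 1; -4 * x * p ^ 2 + x, 4 * p ^ 3 - 3 *
        p] = !![-4 * p ^ 3 + 3 * p + 1, 4 * x * p ^ 2 - x - 4 * p ^ 2 + 1; 4 * x * p ^ 2 - x, -4 * p ^ 3 + 3 * p + 1] := by
    rw [Matrix.one_fin_two, det11_sub]
    apply det11_congr <;> ring
  have hN1 : -(!![x * f + p * m - f, -x * m + p * f; -x * m - p * f + m, -x * f + p * m] : Matrix (Fin 2) (Fin 2) K) = !![-x * f - p * m +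
        f, x * m - p * f; x * m + p * f - m, x * f - p * m] := by
    ext i j
    fin_cases i <;> fin_cases j <;> (simp <;> ring)
  rw [hM1, hM2, hM4, hM6, hM5, hYv, hZv, hIY, hIZ, hN1, det11_e1 x p m f h1 h2 h3 h4,
    det11_e2 x p m f h1 h2 h3 h4, det11_e3 x p m f h1 h2 h3 h4, det11_e4 x p m f h1 h2 h3 h4,
    det11_x1 x p m f h1 h2 h3 h4, det11_d x p m f h1 h2 h3 h4]
  have hfin := det11_fin x p m f h1 h2 h3 h4
  rw [← hcm] at hfin
  exact hfin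

end Pool.Agent.F8.BG
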