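import Pool.Agent.Lib.MP_305fdd_al.F8.BG.StmU

/-!
# [BG det2] the determinant
-/

set_option autoImplicit false
set_option linter.unusedVariables false

namespace Pool.Agent.F8.BG

open Pool.Agent.MP_305fdd_al Pool.Agent.Lib.MP_305fdd_al Pool.Agent.F2X Pool.Agent.F8
  Pool.Agent.F8.HN

theorem det2_congr {K : Type} {a b c d a' b' c' d' : K} (h1 : a = a') (h2 : b = b') (h3 : c = c')
    (h4 : d = d') : (!![a, b; c, d] : Matrix (Fin 2) (Fin 2) K) = !![a', b'; c', d'] := by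
  subst h1; subst h2; subst h3; subst h4; rfl

theorem det2_add2 {K : Type} [CommRing K] (a b c d a' b' c' d' : K) :
    (!![a, b; c, d] + !![a', b'; c', d'] : Matrix (Fin 2) (Fin 2) K) =
      !![a + a', b + b'; c + c', d + d'] := by
  ext i j
  fin_cases i <;> fin_cases j <;> rfl

theorem det2_sub2 {K : Type} [CommRing K] (a b c d a' b' c' d' : K) :
    (!![a, b; c, d] - !![a', b'; c', d'] : Matrix (Fin 2) (Fin 2) K) =
      !![a - a', b - b'; c - c', d - d'] := by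
  ext i j
  fin_cases i <;> fin_cases j <;> rfl

theorem det2_inv {K : Type} [CommRing K] (M : SL2 K) (a b c d : K) (h : M.val = !![a, b; c, d]) :
    (M⁻¹).val = !![d, -b; -c, a] := by
  have h1 : (M⁻¹).val = M.val.adjugate := Matrix.SpecialLinearGroup.coe_inv M
  rw [h1, h, Matrix.adjugate_fin_two_of]

theorem det2_four {K : Type} [Field K] (h2 : (2 : K) ≠ 0) {a b : K} (h : 4 * a = 4 * b) : a = b := by
  have h4 : (4 : K) ≠ 0 := by
    have : (4 : K) = 2 * 2 := by norm_num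
    rw [this]
    exact mul_ne_zero h2 h2
  exact mul_left_cancel₀ h4 h

theorem det2_s1 {K : Type} [CommRing K] (x p c f : K) (h1 : p * p = x ^ 2 - x + 1)
    (h2 : f * f = 2 - 4 * c ^ 2) (h3 : c ^ 2 * (4 * x ^ 2 - 4 * x + 1) = 2 * x ^ 2 - 2 * x + 1) :
    (!![c, -x * f; -x * f + f, c] * !![p, x; x - 1, p] : Matrix (Fin 2) (Fin 2) K) = !![-x ^ 2 * f + x * f +
        p * c, -x * p * f + x * c; -x * p * f + x * c + p * f - c, -x ^ 2 * f + x * f + p * c] := by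
  rw [Matrix.mul_fin_two]
  apply det2_congr
  · ring
  · ring
  · ring
  · ring

theorem det2_s2 {K : Type} [CommRing K] (x p c f : K) (h1 : p * p = x ^ 2 - x + 1)
    (h2 : f * f = 2 - 4 * c ^ 2) (h3 : c ^ 2 * (4 * x ^ 2 - 4 * x + 1) = 2 * x ^ 2 - 2 * x + 1) :
    (!![0, 1; -1, 0] * !![-x ^ 2 * f + x * f + p * c, -x * p * f + x * c; -x * p * f + x * c + p * f - c, -x
        ^ 2 * f + x * f + p * c] : Matrix (Fin 2) (Fin 2) K) = !![-x * p * f + x * c + p * f - c, -x ^ 2 * f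
        + x * f + p * c; x ^ 2 * f - x * f - p * c, x * p * f - x * c] := by
  rw [Matrix.mul_fin_two]
  apply det2_congr
  · ring
  · ring
  · ring
  · ring

theorem det2_s3 {K : Type} [CommRing K] (x p c f : K) (h1 : p * p = x ^ 2 - x + 1)
    (h2 : f * f = 2 - 4 * c ^ 2) (h3 : c ^ 2 * (4 * x ^ 2 - 4 * x + 1) = 2 * x ^ 2 - 2 * x + 1) :
    (!![-x * p * f + x * c + p * f - c, -x ^ 2 * f + x * f + p * c; x ^ 2 * f - x * f - p * c, x * p * f - x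
        * c] * !![0, -1; 1, 0] : Matrix (Fin 2) (Fin 2) K) = !![-x ^ 2 * f + x * f + p * c, x * p * f - x *
        c - p * f + c; x * p * f - x * c, -x ^ 2 * f + x * f + p * c] := by
  rw [Matrix.mul_fin_two]
  apply det2_congr
  · ring
  · ring
  · ring
  · ring

theorem det2_s4 {K : Type} [CommRing K] (x p c f : K) (h1 : p * p = x ^ 2 - x + 1)
    (h2 : f * f = 2 - 4 * c ^ 2) (h3 : c ^ 2 * (4 * x ^ 2 - 4 * x + 1) = 2 * x ^ 2 - 2 * x + 1) :
    (!![p, x; x - 1, p] * !![-x ^ 2 * f + x * f + p * c, x * p * f - x * c - p * f + c; x * p * f - x * c,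
        -x ^ 2 * f + x * f + p * c] : Matrix (Fin 2) (Fin 2) K) = !![x * p * f - x * c + c, -x ^ 2 * f + 2 *
        x * f + p * c - f; x ^ 2 * f - p * c, -x * p * f + x * c + p * f] := by
  rw [Matrix.mul_fin_two]
  apply det2_congr
  · linear_combination (c) * h1
  · linear_combination (x * f - f) * h1
  · linear_combination (x * f) * h1
  · linear_combination (c) * h1

theorem det2_s5 {K : Type} [CommRing K] (x p c f : K) (h1 : p * p = x ^ 2 - x + 1)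
    (h2 : f * f = 2 - 4 * c ^ 2) (h3 : c ^ 2 * (4 * x ^ 2 - 4 * x + 1) = 2 * x ^ 2 - 2 * x + 1) :
    (!![x * p * f - x * c + c, -x ^ 2 * f + 2 * x * f + p * c - f; x ^ 2 * f - p * c, -x * p * f + x * c + p
        * f] * !![c, x * f; x * f - f, c] : Matrix (Fin 2) (Fin 2) K) = !![2 * x * p * c * f + 2 * x * c ^ 2
        - p * c * f - c ^ 2 - x, -2 * x ^ 2 * c * f - 4 * x * p * c ^ 2 + 3 * x * c * f + 2 * p * c ^ 2 + 2
        * x * p - c * f - p; 2 * x ^ 2 * c * f - 4 * x * p * c ^ 2 - x * c * f + 2 * p * c ^ 2 + 2 * x * p -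
        p, -2 * x * p * c * f - 2 * x * c ^ 2 + p * c * f + c ^ 2 + x - 1] := by
  rw [Matrix.mul_fin_two]
  apply det2_congr
  · linear_combination (-x ^ 3 + 3 * x ^ 2 - 3 * x + 1) * h2 + (x - 2) * h3
  · linear_combination (x ^ 2 * p) * h2 + (-p) * h3
  · linear_combination (-x ^ 2 * p + 2 * x * p - p) * h2 + (p) * h3
  · linear_combination (x ^ 3) * h2 + (-x - 1) * h3

theorem det2_s6 {K : Type} [CommRing K] (x p c f : K) (h1 : p * p = x ^ 2 - x + 1)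
    (h2 : f * f = 2 - 4 * c ^ 2) (h3 : c ^ 2 * (4 * x ^ 2 - 4 * x + 1) = 2 * x ^ 2 - 2 * x + 1) :
    (!![2 * x * p * c * f + 2 * x * c ^ 2 - p * c * f - c ^ 2 - x, -2 * x ^ 2 * c * f - 4 * x * p * c ^ 2 +
        3 * x * c * f + 2 * p * c ^ 2 + 2 * x * p - c * f - p; 2 * x ^ 2 * c * f - 4 * x * p * c ^ 2 - x * c
        * f + 2 * p * c ^ 2 + 2 * x * p - p, -2 * x * p * c * f - 2 * x * c ^ 2 + p * c * f + c ^ 2 + x - 1]
        * !![-x ^ 2 * f + x * f + p * c, x * p * f - x * c - p * f + c; x * p * f - x * c, -x ^ 2 * f + x *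
        f + p * c] : Matrix (Fin 2) (Fin 2) K) = !![2 * x ^ 3 * f - 3 * x ^ 2 * f + 2 * x * p * c + 2 * x *
        f - p * c - f, -2 * x ^ 2 * p * f - 2 * x ^ 2 * c + 3 * x * p * f + 3 * x * c - p * f - 2 * c; 2 * x
        ^ 2 * p * f + 2 * x ^ 2 * c - x * p * f - x * c + c, -2 * x ^ 3 * f + 3 * x ^ 2 * f - 2 * x * p * c
        - 2 * x * f + p * c] := by
  rw [Matrix.mul_fin_two]
  apply det2_congr
  · linear_combination (-4 * x ^ 2 * c ^ 2 * f + 4 * x * c ^ 2 * f + 2 * x ^ 2 * f - c ^ 2 * f - x * f) * h1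
      + (-4 * x ^ 3 * p * c + 6 * x ^ 2 * p * c - 2 * x * p * c) * h2 + (-x ^ 2 * f + 4 * x * p * c + x * f
      - p * c - f) * h3
  · linear_combination (2 * x ^ 2 * c * f ^ 2 - 4 * x * c ^ 3 - 3 * x * c * f ^ 2 + 2 * c ^ 3 + c * f ^ 2 +
      2 * x * c - c) * h1 + (4 * x ^ 4 * c - 10 * x ^ 3 * c + 10 * x ^ 2 * c - 5 * x * c + c) * h2 + (-4 * x
      ^ 2 * c + x * p * f + 5 * x * c - p * f - 3 * c) * h3
  · linear_combination (-2 * x ^ 2 * c * f ^ 2 - 4 * x * c ^ 3 + x * c * f ^ 2 + 2 * c ^ 3 + 2 * x * c - c)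
      * h1 + (-4 * x ^ 4 * c + 6 * x ^ 3 * c - 4 * x ^ 2 * c + x * c) * h2 + (4 * x ^ 2 * c + x * p * f - 3
      * x * c + 2 * c) * h3
  · linear_combination (-4 * x ^ 2 * c ^ 2 * f + 4 * x * c ^ 2 * f + 2 * x ^ 2 * f - c ^ 2 * f - 3 * x * f +
      f) * h1 + (4 * x ^ 3 * p * c - 6 * x ^ 2 * p * c + 2 * x * p * c) * h2 + (-x ^ 2 * f - 4 * x * p * c +
      x * f + 3 * p * c - f) * h3

theorem det2_s7 {K : Type} [CommRing K] (x p c f : K) (h1 : p * p = x ^ 2 - x + 1)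
    (h2 : f * f = 2 - 4 * c ^ 2) (h3 : c ^ 2 * (4 * x ^ 2 - 4 * x + 1) = 2 * x ^ 2 - 2 * x + 1) :
    (!![2 * x ^ 3 * f - 3 * x ^ 2 * f + 2 * x * p * c + 2 * x * f - p * c - f, -2 * x ^ 2 * p * f - 2 * x ^
        2 * c + 3 * x * p * f + 3 * x * c - p * f - 2 * c; 2 * x ^ 2 * p * f + 2 * x ^ 2 * c - x * p * f - x
        * c + c, -2 * x ^ 3 * f + 3 * x ^ 2 * f - 2 * x * p * c - 2 * x * f + p * c] * !![p, x; x - 1, p] :
        Matrix (Fin 2) (Fin 2) K) = !![2 * x ^ 2 * p * f + 2 * x ^ 2 * c - 2 * x * p * f - 2 * x * c + c, 2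
        * x ^ 3 * f - 4 * x ^ 2 * f + 2 * x * p * c + 3 * x * f - 2 * p * c - f; 2 * x ^ 3 * f - 2 * x ^ 2 *
        f + 2 * x * p * c + x * f, 2 * x ^ 2 * p * f + 2 * x ^ 2 * c - 2 * x * p * f - 2 * x * c + c] := by
  rw [Matrix.mul_fin_two]
  apply det2_congr
  · linear_combination (2 * x * c - c) * h1
  · linear_combination (-2 * x ^ 2 * f + 3 * x * f - f) * h1
  · linear_combination (2 * x ^ 2 * f - x * f) * h1
  · linear_combination (-2 * x * c + c) * h1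

theorem det2_s8 {K : Type} [CommRing K] (x p c f : K) :
    (!![p, x; x - 1, p] + !![2 * x * p * c * f + 2 * x * c ^ 2 - p * c * f - c ^ 2 - x, -2 * x ^ 2 * c * f -
        4 * x * p * c ^ 2 + 3 * x * c * f + 2 * p * c ^ 2 + 2 * x * p - c * f - p; 2 * x ^ 2 * c * f - 4 * x
        * p * c ^ 2 - x * c * f + 2 * p * c ^ 2 + 2 * x * p - p, -2 * x * p * c * f - 2 * x * c ^ 2 + p * c
        * f + c ^ 2 + x - 1] : Matrix (Fin 2) (Fin 2) K) = !![2 * x * p * c * f + 2 * x * c ^ 2 - p * c * f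
        - c ^ 2 - x + p, -2 * x ^ 2 * c * f - 4 * x * p * c ^ 2 + 3 * x * c * f + 2 * p * c ^ 2 + 2 * x * p
        - c * f + x - p; 2 * x ^ 2 * c * f - 4 * x * p * c ^ 2 - x * c * f + 2 * p * c ^ 2 + 2 * x * p + x -
        p - 1, -2 * x * p * c * f - 2 * x * c ^ 2 + p * c * f + c ^ 2 + x + p - 1] := by
  rw [det2_add2]
  apply det2_congr
  · ring
  · ring
  · ring
  · ring

theorem det2_s9 {K : Type} [CommRing K] (x p c f : K) :
    (1 - !![-x ^ 2 * f + x * f + p * c, x * p * f - x * c - p * f + c; x * p * f - x * c, -x ^ 2 * f + x * f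
        + p * c] : Matrix (Fin 2) (Fin 2) K) = !![x ^ 2 * f - x * f - p * c + 1, -x * p * f + x * c + p * f
        - c; -x * p * f + x * c, x ^ 2 * f - x * f - p * c + 1] := by
  rw [Matrix.one_fin_two, det2_sub2]
  apply det2_congr
  · ring
  · ring
  · ring
  · ring

theorem det2_s10 {K : Type} [CommRing K] (x p c f : K) (h1 : p * p = x ^ 2 - x + 1)
    (h2 : f * f = 2 - 4 * c ^ 2) (h3 : c ^ 2 * (4 * x ^ 2 - 4 * x + 1) = 2 * x ^ 2 - 2 * x + 1) :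
    (!![x ^ 2 * f - x * f - p * c + 1, -x * p * f + x * c + p * f - c; -x * p * f + x * c, x ^ 2 * f - x * f
        - p * c + 1] * !![2 * x * p * c * f + 2 * x * c ^ 2 - p * c * f - c ^ 2 - x + p, -2 * x ^ 2 * c * f
        - 4 * x * p * c ^ 2 + 3 * x * c * f + 2 * p * c ^ 2 + 2 * x * p - c * f + x - p; 2 * x ^ 2 * c * f -
        4 * x * p * c ^ 2 - x * c * f + 2 * p * c ^ 2 + 2 * x * p + x - p - 1, -2 * x * p * c * f - 2 * x *
        c ^ 2 + p * c * f + c ^ 2 + x + p - 1] : Matrix (Fin 2) (Fin 2) K) = !![2 * x * p * c * f - 4 * x *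
        c ^ 2 * f + x * p * f + 2 * x * c ^ 2 - p * c * f + 2 * c ^ 2 * f - x * c + x * f - p * f - c ^ 2 -
        x + p, -2 * x ^ 2 * c * f - 4 * x * p * c ^ 2 + 8 * x * c ^ 3 + x ^ 2 * f + 3 * x * c * f + 2 * p *
        c ^ 2 - 4 * c ^ 3 + 2 * x * p - 4 * x * c - 2 * x * f - p * c - c * f + x - p + c + f; 2 * x ^ 2 * c
        * f - 4 * x * p * c ^ 2 + 8 * x * c ^ 3 - x ^ 2 * f - x * c * f + 2 * p * c ^ 2 - 4 * c ^ 3 + 2 * x
        * p - 4 * x * c + p * c + x - p + 3 * c - 1, -2 * x * p * c * f + 4 * x * c ^ 2 * f - x * p * f - 2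
        * x * c ^ 2 + p * c * f - 2 * c ^ 2 * f + x * c - x * f + c ^ 2 + x + p - c + f - 1] := by
  rw [Matrix.mul_fin_two]
  apply det2_congr
  · linear_combination (4 * x ^ 2 * c ^ 2 * f - 8 * x * c ^ 2 * f - 2 * x ^ 2 * f + 3 * c ^ 2 * f + 3 * x *
      f - c - f) * h1 + (x ^ 2 * f - x * f - p * c + f) * h3
  · linear_combination (2 * x ^ 2 * c * f ^ 2 + 4 * x * c ^ 3 - 3 * x * c * f ^ 2 - 2 * c ^ 3 + c * f ^ 2 -
      2 * x * c - x * f + c + f) * h1 + (2 * x ^ 2 * c - 3 * x * c + c) * h2 + (-x * p * f + x * c + p * f -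
      3 * c) * h3
  · linear_combination (-2 * x ^ 2 * c * f ^ 2 + 4 * x * c ^ 3 + x * c * f ^ 2 - 2 * c ^ 3 - 2 * x * c - x *
      f + c) * h1 + (-2 * x ^ 2 * c + x * c) * h2 + (-x * p * f + x * c + 2 * c) * h3
  · linear_combination (4 * x ^ 2 * c ^ 2 * f - 2 * x ^ 2 * f - c ^ 2 * f + x * f - c) * h1 + (x ^ 2 * f - x
      * f - p * c + f) * h3

theorem det2_s11 {K : Type} [CommRing K] (x p c f : K) :
    (1 - !![2 * x ^ 2 * p * f + 2 * x ^ 2 * c - 2 * x * p * f - 2 * x * c + c, 2 * x ^ 3 * f - 4 * x ^ 2 * f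
        + 2 * x * p * c + 3 * x * f - 2 * p * c - f; 2 * x ^ 3 * f - 2 * x ^ 2 * f + 2 * x * p * c + x * f,
        2 * x ^ 2 * p * f + 2 * x ^ 2 * c - 2 * x * p * f - 2 * x * c + c] - !![2 * x * p * c * f - 4 * x *
        c ^ 2 * f + x * p * f + 2 * x * c ^ 2 - p * c * f + 2 * c ^ 2 * f - x * c + x * f - p * f - c ^ 2 -
        x + p, -2 * x ^ 2 * c * f - 4 * x * p * c ^ 2 + 8 * x * c ^ 3 + x ^ 2 * f + 3 * x * c * f + 2 * p *
        c ^ 2 - 4 * c ^ 3 + 2 * x * p - 4 * x * c - 2 * x * f - p * c - c * f + x - p + c + f; 2 * x ^ 2 * c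
        * f - 4 * x * p * c ^ 2 + 8 * x * c ^ 3 - x ^ 2 * f - x * c * f + 2 * p * c ^ 2 - 4 * c ^ 3 + 2 * x
        * p - 4 * x * c + p * c + x - p + 3 * c - 1, -2 * x * p * c * f + 4 * x * c ^ 2 * f - x * p * f - 2
        * x * c ^ 2 + p * c * f - 2 * c ^ 2 * f + x * c - x * f + c ^ 2 + x + p - c + f - 1] : Matrix (Fin
        2) (Fin 2) K) = !![-2 * x ^ 2 * p * f - 2 * x * p * c * f + 4 * x * c ^ 2 * f - 2 * x ^ 2 * c + x *
        p * f - 2 * x * c ^ 2 + p * c * f - 2 * c ^ 2 * f + 3 * x * c - x * f + p * f + c ^ 2 + x - p - c +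
        1, -2 * x ^ 3 * f + 2 * x ^ 2 * c * f + 4 * x * p * c ^ 2 - 8 * x * c ^ 3 + 3 * x ^ 2 * f - 2 * x *
        p * c - 3 * x * c * f - 2 * p * c ^ 2 + 4 * c ^ 3 - 2 * x * p + 4 * x * c - x * f + 3 * p * c + c *
        f - x + p - c; -2 * x ^ 3 * f - 2 * x ^ 2 * c * f + 4 * x * p * c ^ 2 - 8 * x * c ^ 3 + 3 * x ^ 2 *
        f - 2 * x * p * c + x * c * f - 2 * p * c ^ 2 + 4 * c ^ 3 - 2 * x * p + 4 * x * c - x * f - p * c -
        x + p - 3 * c + 1, -2 * x ^ 2 * p * f + 2 * x * p * c * f - 4 * x * c ^ 2 * f - 2 * x ^ 2 * c + 3 *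
        x * p * f + 2 * x * c ^ 2 - p * c * f + 2 * c ^ 2 * f + x * c + x * f - c ^ 2 - x - p - f + 2] := by
  rw [Matrix.one_fin_two, det2_sub2, det2_sub2]
  apply det2_congr
  · ring
  · ring
  · ring
  · ring

theorem det2_s12 {K : Type} [CommRing K] (x p c f : K) (h1 : p * p = x ^ 2 - x + 1)
    (h2 : f * f = 2 - 4 * c ^ 2) (h3 : c ^ 2 * (4 * x ^ 2 - 4 * x + 1) = 2 * x ^ 2 - 2 * x + 1) :
    (!![-2 * x ^ 2 * p * f - 2 * x * p * c * f + 4 * x * c ^ 2 * f - 2 * x ^ 2 * c + x * p * f - 2 * x * c ^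
        2 + p * c * f - 2 * c ^ 2 * f + 3 * x * c - x * f + p * f + c ^ 2 + x - p - c + 1, -2 * x ^ 3 * f +
        2 * x ^ 2 * c * f + 4 * x * p * c ^ 2 - 8 * x * c ^ 3 + 3 * x ^ 2 * f - 2 * x * p * c - 3 * x * c *
        f - 2 * p * c ^ 2 + 4 * c ^ 3 - 2 * x * p + 4 * x * c - x * f + 3 * p * c + c * f - x + p - c; -2 *
        x ^ 3 * f - 2 * x ^ 2 * c * f + 4 * x * p * c ^ 2 - 8 * x * c ^ 3 + 3 * x ^ 2 * f - 2 * x * p * c +
        x * c * f - 2 * p * c ^ 2 + 4 * c ^ 3 - 2 * x * p + 4 * x * c - x * f - p * c - x + p - 3 * c + 1,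
        -2 * x ^ 2 * p * f + 2 * x * p * c * f - 4 * x * c ^ 2 * f - 2 * x ^ 2 * c + 3 * x * p * f + 2 * x *
        c ^ 2 - p * c * f + 2 * c ^ 2 * f + x * c + x * f - c ^ 2 - x - p - f + 2] : Matrix (Fin 2) (Fin 2)
        K).det =
      8 - 3 * f - 4 * p - 4 * p * c + 4 * p * f + (2 * x - 1) ^ 2 * f - 2 * (2 * x - 1) ^ 2 * f * c := by
  rw [Matrix.det_fin_two_of]
  linear_combination (4 * x ^ 4 * f ^ 2 - 16 * x ^ 2 * c ^ 4 - 4 * x ^ 2 * c ^ 2 * f ^ 2 - 8 * x ^ 3 * f ^ 2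
      + 16 * x ^ 2 * c ^ 3 - 4 * x ^ 2 * c * f ^ 2 + 16 * x * c ^ 4 + 4 * x * c ^ 2 * f ^ 2 + 12 * x ^ 2 * c
      ^ 2 + x ^ 2 * f ^ 2 - 16 * x * c ^ 3 + 4 * x * c * f ^ 2 - 4 * c ^ 4 - c ^ 2 * f ^ 2 - 8 * x ^ 2 * c +
      4 * x ^ 2 * f - 12 * x * c ^ 2 + 3 * x * f ^ 2 + 4 * c ^ 3 - c * f ^ 2 - 4 * x ^ 2 + 8 * x * c - 4 * x
      * f + 7 * c ^ 2 + 4 * x - 2 * c - f) * h1 + (16 * x ^ 2 * p * c ^ 3 - 16 * x ^ 2 * c ^ 4 - 8 * x ^ 4 *
      c + 8 * x ^ 2 * p * c ^ 2 - 16 * x * p * c ^ 3 + 16 * x * c ^ 4 + 16 * x ^ 3 * c - 4 * x ^ 2 * p * c +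
      4 * x ^ 2 * c ^ 2 - 8 * x * p * c ^ 2 + 4 * p * c ^ 3 - 4 * c ^ 4 - 14 * x ^ 2 * c + 4 * x * p * c - 4
      * x * c ^ 2 + 2 * p * c ^ 2 - 4 * x ^ 2 + 6 * x * c - p * c + c ^ 2 + 4 * x - p - c) * h2 + (4 * x ^ 2
      * p * f - 4 * x ^ 2 * c ^ 2 - 8 * x ^ 2 * c * f + 12 * x ^ 2 * c - 4 * x * p * f + 4 * x * c ^ 2 + 8 *
      x * c * f - 16 * p * c ^ 2 + 2 * x ^ 2 - 12 * x * c - 4 * p * c + p * f - c ^ 2 - 2 * c * f - 2 * x +
      2 * p + 5 * c + 6) * h3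

theorem p_det2 : U_det2 := by
  intro K _ h2 s p c f hs e1 e2 e3 T V B Y hT hV hB hY
  obtain ⟨x, hx⟩ : ∃ x : K, x = (s + 1) / 2 := ⟨_, rfl⟩
  have hx2 : 2 * x = s + 1 := by rw [hx]; exact mul_div_cancel₀ _ h2
  have hs1 : s = 2 * x - 1 := by rw [hx2]; ring
  have hy : (s - 1) / 2 = x - 1 := by
    rw [hs1, div_eq_iff h2]; ring
  have k1 : p * p = x ^ 2 - x + 1 := by
    apply det2_four h2
    rw [hs1] at e1
    linear_combination e1
  have k2 : f * f = 2 - 4 * c ^ 2 := by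
    linear_combination e3
  have k3 : c ^ 2 * (4 * x ^ 2 - 4 * x + 1) = 2 * x ^ 2 - 2 * x + 1 := by
    apply det2_four h2
    rw [hs1] at e2
    linear_combination (2 * x - 1) ^ 2 * e3 - e2
  have hT' : T.val = !![p, x; x - 1, p] := by rw [hT, ← hx, hy]
  have hV' : V.val = !![c, x * f; x * f - f, c] := by
    rw [hV, ← hx, hy]
    apply det2_congr <;> ring
  have hVi : (V⁻¹).val = !![c, -x * f; -x * f + f, c] := by
    rw [det2_inv V _ _ _ _ hV']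
    apply det2_congr <;> ring
  have hBi : (B⁻¹).val = !![0, 1; -1, 0] := by
    rw [det2_inv B _ _ _ _ hB]
    apply det2_congr
    · rfl
    · ring
    · rfl
    · rfl
  have hYv : Y.val = !![-x ^ 2 * f + x * f + p * c, x * p * f - x * c - p * f + c; x * p * f - x * c, -x ^ 2
      * f + x * f + p * c] := by
    rw [hY]
    show (B⁻¹).val * ((V⁻¹).val * T.val) * B.val = _
    rw [hBi, hB, hT', hVi, det2_s1 x p c f k1 k2 k3, det2_s2 x p c f k1 k2 k3, det2_s3 x p c f k1 k2 k3]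
  have h5 : (T * Y * V).val = !![2 * x * p * c * f + 2 * x * c ^ 2 - p * c * f - c ^ 2 - x, -2 * x ^ 2 * c *
      f - 4 * x * p * c ^ 2 + 3 * x * c * f + 2 * p * c ^ 2 + 2 * x * p - c * f - p; 2 * x ^ 2 * c * f - 4 *
      x * p * c ^ 2 - x * c * f + 2 * p * c ^ 2 + 2 * x * p - p, -2 * x * p * c * f - 2 * x * c ^ 2 + p * c
      * f + c ^ 2 + x - 1] := by
    show T.val * Y.val * V.val = _
    rw [hT', hYv, hV', det2_s4 x p c f k1 k2 k3, det2_s5 x p c f k1 k2 k3]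
  have h6 : (T * Y * V * Y * T).val = !![2 * x ^ 2 * p * f + 2 * x ^ 2 * c - 2 * x * p * f - 2 * x * c + c,
      2 * x ^ 3 * f - 4 * x ^ 2 * f + 2 * x * p * c + 3 * x * f - 2 * p * c - f; 2 * x ^ 3 * f - 2 * x ^ 2 *
      f + 2 * x * p * c + x * f, 2 * x ^ 2 * p * f + 2 * x ^ 2 * c - 2 * x * p * f - 2 * x * c + c] := by
    show (T * Y * V).val * Y.val * T.val = _
    rw [h5, hYv, hT', det2_s6 x p c f k1 k2 k3, det2_s7 x p c f k1 k2 k3]
  rw [h6, h5, hYv, hT', det2_s8 x p c f, det2_s9 x p c f, det2_s10 x p c f k1 k2 k3,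
    det2_s11 x p c f, det2_s12 x p c f k1 k2 k3, hs1]

end Pool.Agent.F8.BG
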