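import Pool.Agent.Lib.MP_305fdd_al.F8.BG.StmO

/-!
# MP_305fdd_al, project BG: the numbers for the integers of `ℚ(√-11)` (piece fx11)
-/

set_option autoImplicit false

namespace Pool.Agent.F8.BG

open Pool.Agent.MP_305fdd_al Pool.Agent.Lib.MP_305fdd_al Pool.Agent.F2X Pool.Agent.F8
  Pool.Agent.F8.HN Pool.Agent.F8.AB
open Pool.Agent.F8.BG.D11 (O11 ww)
open Pool.Agent.F8.G (SL_ext SL_mul SL_neg mU00 mU01 mU10 mU11 mB00 mB01 mB10 mB11 mU_add
  mU_zero BB)
open scoped QuadraticAlgebra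

noncomputable section

/-! ### Matrices -/

private theorem fx11_neg (x : O11) : mU (-x) = (mU x)⁻¹ := by
  apply eq_inv_of_mul_eq_one_left
  rw [← mU_add, neg_add_cancel, mU_zero]

private theorem fx11_m3 : mU (1 : O11) * mB O11 * mU 1 * mB O11 * mU 1 * mB O11 = -1 := by
  apply SL_ext <;> simp only [SL_mul, mU00, mU01, mU10, mU11, mB00, mB01, mB10, mB11] <;> decide

private theorem fx11_m4 : mB O11 * mU 1 * mU (-ww) * mB O11 * mU ww * mB O11 * mU 1 * mU (-ww) *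
    mB O11 * mU ww * mB O11 * mU 1 * mU (-ww) * mB O11 * mU ww = -1 := by
  apply SL_ext <;> simp only [SL_mul, mU00, mU01, mU10, mU11, mB00, mB01, mB10, mB11] <;> decide

private theorem fx11_c1 : cGq (-3) 1 (mU (1 : O11)) = mU 1 := by
  apply SL_ext <;> decide

private theorem fx11_c2 : cGq (-3) 1 (mU ww) = mU 1 * mU (-ww) := by
  rw [← mU_add]
  apply SL_ext <;> decide

private theorem fx11_c3 : cGq (-3) 1 (mB O11) = mB O11 := by
  apply SL_ext <;> decide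

private theorem fx11_d (x : O11) : deR O11 (mU x) = mU (-x) := by
  apply SL_ext
  · rfl
  · rfl
  · exact neg_zero
  · rfl

private theorem fx11_d3 : deR O11 (mB O11) = -mB O11 := by
  apply SL_ext <;> decide

/-! ### Homomorphisms to a commutative group -/

section
variable {P : Type} [CommGroup P]

/-- the relations -/
private def fx11_Q (t : P × P × P) : Prop :=
  t.2.2 * t.2.2 = 1 ∧ t.1 * t.2.2 * t.1 * t.2.2 * t.1 * t.2.2 = 1 ∧
    t.2.2 * t.1 * t.2.1⁻¹ * t.2.2 * t.2.1 * t.2.2 * t.1 * t.2.1⁻¹ * t.2.2 * t.2.1 *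
      t.2.2 * t.1 * t.2.1⁻¹ * t.2.2 * t.2.1 = 1

/-- the value at `mU 1` after `stq d e` -/
private def fx11_g (d : Bool) (t : P × P × P) : P := if d then t.1⁻¹ else t.1

/-- the value at `mU w` after `stq d e` -/
private def fx11_k (d e : Bool) (t : P × P × P) : P :=
  if d then (if e then t.1⁻¹ * t.2.1 else t.2.1⁻¹) else (if e then t.1 * t.2.1⁻¹ else t.2.1)

/-- the condition -/
private def fx11_R (d e : Bool) (t : P × P × P) : Prop :=
  fx11_Q t ∧ fx11_g d t = t.1 ∧ fx11_k d e t = t.2.1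

/-- the values of a homomorphism -/
private def fx11_v (θ : MQ (-3) 1 →* P) : P × P × P :=
  (θ (pj O11 (mU 1)), θ (pj O11 (mU ww)), θ (pj O11 (mB O11)))

private theorem fx11_vQ (θ : MQ (-3) 1 →* P) : fx11_Q (fx11_v θ) := by
  refine ⟨?_, ?_, ?_⟩
  · show θ (pj O11 (mB O11)) * θ (pj O11 (mB O11)) = 1
    rw [← map_mul, ← map_mul, BB, pj_neg, map_one, map_one]
  · show θ (pj O11 (mU 1)) * θ (pj O11 (mB O11)) * θ (pj O11 (mU 1)) * θ (pj O11 (mB O11)) *
      θ (pj O11 (mU 1)) * θ (pj O11 (mB O11)) = 1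
    simp only [← map_mul]
    rw [fx11_m3, pj_neg, map_one, map_one]
  · show θ (pj O11 (mB O11)) * θ (pj O11 (mU 1)) * (θ (pj O11 (mU ww)))⁻¹ *
      θ (pj O11 (mB O11)) * θ (pj O11 (mU ww)) * θ (pj O11 (mB O11)) * θ (pj O11 (mU 1)) *
      (θ (pj O11 (mU ww)))⁻¹ * θ (pj O11 (mB O11)) * θ (pj O11 (mU ww)) *
      θ (pj O11 (mB O11)) * θ (pj O11 (mU 1)) * (θ (pj O11 (mU ww)))⁻¹ *
      θ (pj O11 (mB O11)) * θ (pj O11 (mU ww)) = 1
    simp only [← map_inv, ← fx11_neg, ← map_mul]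
    rw [fx11_m4, pj_neg, map_one, map_one]

private theorem fx11_ext (f g : SL2 O11 →* P) (h1 : f (mU 1) = g (mU 1))
    (h2 : f (mU ww) = g (mU ww)) (h3 : f (mB O11) = g (mB O11)) (x : SL2 O11) :
    f x = g x :=
  D11.sub' (f.eqLocus g) h1 h2 h3 x

private theorem fx11_inj (θ θ' : MQ (-3) 1 →* P) (h : fx11_v θ = fx11_v θ') : θ = θ' := by
  have h1 : ∀ x, θ.comp (pj O11) x = θ'.comp (pj O11) x :=
    fx11_ext _ _ (congrArg Prod.fst h) (congrArg (fun t => t.2.1) h) (congrArg (fun t => t.2.2) h)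
  apply MonoidHom.ext
  intro y
  obtain ⟨x, rfl⟩ := QuotientGroup.mk'_surjective (pm O11) y
  exact h1 x

private theorem fx11_sur (t : P × P × P) (h : fx11_Q t) : ∃ θ : MQ (-3) 1 →* P, fx11_v θ = t := by
  obtain ⟨al, up, be⟩ := t
  obtain ⟨h2, h3, h4⟩ := h
  obtain ⟨f, e1, e2, hb⟩ := D11.pres' P al up be ⟨mul_comm _ _, h2, h3, h4⟩
  have hn : f (-1) = 1 := by
    rw [← BB, map_mul, hb]
    exact h2
  have hk : ∀ x ∈ pm O11, f x = 1 := by
    rintro x (rfl | rfl)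
    · exact map_one f
    · exact hn
  refine ⟨QuotientGroup.lift (pm O11) f hk, ?_⟩
  exact Prod.ext e1 (Prod.ext e2 hb)

/-- the values after `stq d e` -/
private theorem fx11_st (θ : MQ (-3) 1 →* P) (d e : Bool) :
    θ (pj O11 (stq (-3) 1 d e (mU 1))) = fx11_g d (fx11_v θ) ∧
    θ (pj O11 (stq (-3) 1 d e (mU ww))) = fx11_k d e (fx11_v θ) ∧
    θ (pj O11 (stq (-3) 1 d e (mB O11))) = θ (pj O11 (mB O11)) := by
  cases d <;> cases e
  · exact ⟨rfl, rfl, rfl⟩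
  · refine ⟨?_, ?_, ?_⟩
    · show θ (pj O11 (cGq (-3) 1 (mU 1))) = θ (pj O11 (mU 1))
      rw [fx11_c1]
    · show θ (pj O11 (cGq (-3) 1 (mU ww))) =
        (θ (pj O11 (mU 1))) * (θ (pj O11 (mU ww)))⁻¹
      rw [fx11_c2, fx11_neg, map_mul, map_mul, map_inv, map_inv]
    · show θ (pj O11 (cGq (-3) 1 (mB O11))) = θ (pj O11 (mB O11))
      rw [fx11_c3]
  · refine ⟨?_, ?_, ?_⟩
    · show θ (pj O11 (deR O11 (mU 1))) = (θ (pj O11 (mU 1)))⁻¹
      rw [fx11_d, fx11_neg, map_inv, map_inv]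
    · show θ (pj O11 (deR O11 (mU ww))) = (θ (pj O11 (mU ww)))⁻¹
      rw [fx11_d, fx11_neg, map_inv, map_inv]
    · show θ (pj O11 (deR O11 (mB O11))) = θ (pj O11 (mB O11))
      rw [fx11_d3, pj_neg]
  · refine ⟨?_, ?_, ?_⟩
    · show θ (pj O11 (deR O11 (cGq (-3) 1 (mU 1)))) = (θ (pj O11 (mU 1)))⁻¹
      rw [fx11_c1, fx11_d, fx11_neg, map_inv, map_inv]
    · show θ (pj O11 (deR O11 (cGq (-3) 1 (mU ww)))) =
        (θ (pj O11 (mU 1)))⁻¹ * θ (pj O11 (mU ww))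
      rw [fx11_c2, map_mul, fx11_d, fx11_d, neg_neg, fx11_neg, map_mul, map_mul, map_inv, map_inv]
    · show θ (pj O11 (deR O11 (cGq (-3) 1 (mB O11)))) = θ (pj O11 (mB O11))
      rw [fx11_c3, fx11_d3, pj_neg]

private theorem fx11_iff (h : MulAut (MQ (-3) 1)) (d e : Bool) (hI : IsQ (-3) 1 h d e)
    (θ : MQ (-3) 1 →* P) :
    (∃ z : P, ∀ x, θ (h x) = z * θ x * z⁻¹) ↔
      fx11_g d (fx11_v θ) = (fx11_v θ).1 ∧ fx11_k d e (fx11_v θ) = (fx11_v θ).2.1 := by
  obtain ⟨m, hm⟩ := hI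
  obtain ⟨s1, s2, s3⟩ := fx11_st θ d e
  have hc : ∀ x, θ (h (pj O11 x)) = θ (pj O11 (stq (-3) 1 d e x)) := by
    intro x
    have := hm x
    change h (pj O11 x) = pj O11 (m * stq (-3) 1 d e x * m⁻¹) at this
    rw [this, map_mul, map_mul, map_mul, map_mul, map_inv, map_inv, mul_comm (θ (pj O11 m)),
      mul_inv_cancel_right]
  have hz : ∀ z a : P, z * a * z⁻¹ = a := fun z a => by rw [mul_comm z a, mul_inv_cancel_right]
  constructor
  · rintro ⟨z, hz'⟩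
    have h1 := hz' (pj O11 (mU 1))
    have h2 := hz' (pj O11 (mU ww))
    rw [hc, hz, s1] at h1
    rw [hc, hz, s2] at h2
    exact ⟨h1, h2⟩
  · rintro ⟨h1, h2⟩
    refine ⟨1, fun y => ?_⟩
    obtain ⟨x, rfl⟩ := QuotientGroup.mk'_surjective (pm O11) y
    have h3 : θ (h (pj O11 x)) = θ (pj O11 x) := by
      rw [hc]
      exact fx11_ext ((θ.comp (pj O11)).comp (stq (-3) 1 d e)) (θ.comp (pj O11)) (s1.trans h1)
        (s2.trans h2) s3 x
    rw [hz]
    exact h3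

private theorem fx11_card (h : MulAut (MQ (-3) 1)) (d e : Bool) (hI : IsQ (-3) 1 h d e) :
    PO.Fx (MQ (-3) 1) P h = Nat.card {t : P × P × P // fx11_R d e t} := by
  unfold PO.Fx
  let F : {θ : MQ (-3) 1 →* P // ∃ z : P, ∀ x, θ (h x) = z * θ x * z⁻¹} →
      {t : P × P × P // fx11_R d e t} :=
    fun θ => ⟨fx11_v θ.1, fx11_vQ θ.1, (fx11_iff h d e hI θ.1).1 θ.2⟩
  apply Nat.card_eq_of_bijective F
  constructor
  · intro θ θ' hθ
    exact Subtype.ext (fx11_inj _ _ (congrArg Subtype.val hθ))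
  · rintro ⟨t, ht, ht'⟩
    obtain ⟨θ, hθ⟩ := fx11_sur t ht
    subst hθ
    exact ⟨⟨θ, (fx11_iff h d e hI θ).2 ht'⟩, rfl⟩

end

private instance {P : Type} [CommGroup P] [DecidableEq P] (t : P × P × P) :
    Decidable (fx11_Q t) := by
  unfold fx11_Q
  infer_instance

private instance {P : Type} [CommGroup P] [DecidableEq P] (d e : Bool) (t : P × P × P) :
    Decidable (fx11_R d e t) := by
  unfold fx11_R
  infer_instance

/-- the piece fx11 -/
theorem p_fx11 : O_fx11 := by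
  intro h d e hI
  constructor
  · rw [fx11_card h d e hI, Nat.card_eq_fintype_card]
    clear hI
    revert d e
    decide +kernel
  · rw [fx11_card h d e hI, Nat.card_eq_fintype_card]
    clear hI
    revert d e
    decide +kernel

end

end Pool.Agent.F8.BG
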