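import Pool.Agent.Lib.MP_305fdd_al.F8.BG.StmO

/-!
# MP_305fdd_al, Bianchi groups: the numbers for `ℚ(√-2)` (piece fx2)
-/

set_option autoImplicit false

namespace Pool.Agent.F8.BG

open Pool.Agent.MP_305fdd_al Pool.Agent.Lib.MP_305fdd_al Pool.Agent.F2X Pool.Agent.F8
  Pool.Agent.F8.HN Pool.Agent.F8.AB
open Pool.Agent.F8.BG.D2 (O2)
open Pool.Agent.F8.PO (Fx)
open Pool.Agent.F8.G (SL_ext SL_mul SL_neg mU00 mU01 mU10 mU11 mB00 mB01 mB10 mB11 mU_add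
  mU_zero BB)
open scoped QuadraticAlgebra

noncomputable section

/-! ### Matrices -/

private theorem fx2_neg (x : O2) : mU (-x) = (mU x)⁻¹ := by
  apply eq_inv_of_mul_eq_one_left
  rw [← mU_add, neg_add_cancel, mU_zero]

private theorem fx2_m3 : mU (1 : O2) * mB O2 * mU 1 * mB O2 * mU 1 * mB O2 = -1 := by
  apply SL_ext <;> simp only [SL_mul, mU00, mU01, mU10, mU11, mB00, mB01, mB10, mB11] <;> decide

private theorem fx2_m4 : mB O2 * mU (-wq (-2) 0 ℤ) * mB O2 * mU (wq (-2) 0 ℤ) * mB O2 *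
    mU (-wq (-2) 0 ℤ) * mB O2 * mU (wq (-2) 0 ℤ) = -1 := by
  apply SL_ext <;> simp only [SL_mul, mU00, mU01, mU10, mU11, mB00, mB01, mB10, mB11] <;> decide

private theorem fx2_c1 : cGq (-2) 0 (mU (1 : O2)) = mU 1 := by
  apply SL_ext <;> decide

private theorem fx2_c2 : cGq (-2) 0 (mU (wq (-2) 0 ℤ)) = mU (-wq (-2) 0 ℤ) := by
  apply SL_ext <;> decide

private theorem fx2_c3 : cGq (-2) 0 (mB O2) = mB O2 := by
  apply SL_ext <;> decide

private theorem fx2_d (x : O2) : deR O2 (mU x) = mU (-x) := by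
  apply SL_ext
  · rfl
  · rfl
  · exact neg_zero
  · rfl

private theorem fx2_d3 : deR O2 (mB O2) = -mB O2 := by
  apply SL_ext <;> decide

/-! ### Homomorphisms to a commutative group -/

section
variable {P : Type} [CommGroup P]

/-- the relations -/
private def fx2_Q (t : P × P × P) : Prop :=
  t.2.2 * t.2.2 = 1 ∧ t.1 * t.2.2 * t.1 * t.2.2 * t.1 * t.2.2 = 1 ∧
    t.2.2 * t.2.1⁻¹ * t.2.2 * t.2.1 * t.2.2 * t.2.1⁻¹ * t.2.2 * t.2.1 = 1

/-- the value at `mU 1` after `stq d e` -/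
private def fx2_g (d : Bool) (t : P × P × P) : P := if d then t.1⁻¹ else t.1

/-- the value at `mU w` after `stq d e` -/
private def fx2_k (d e : Bool) (t : P × P × P) : P :=
  if d then (if e then t.2.1 else t.2.1⁻¹) else (if e then t.2.1⁻¹ else t.2.1)

/-- the condition -/
private def fx2_R (d e : Bool) (t : P × P × P) : Prop :=
  fx2_Q t ∧ fx2_g d t = t.1 ∧ fx2_k d e t = t.2.1

/-- the values of a homomorphism -/
private def fx2_v (θ : MQ (-2) 0 →* P) : P × P × P :=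
  (θ (pj O2 (mU 1)), θ (pj O2 (mU (wq (-2) 0 ℤ))), θ (pj O2 (mB O2)))

private theorem fx2_vQ (θ : MQ (-2) 0 →* P) : fx2_Q (fx2_v θ) := by
  refine ⟨?_, ?_, ?_⟩
  · show θ (pj O2 (mB O2)) * θ (pj O2 (mB O2)) = 1
    rw [← map_mul, ← map_mul, BB, pj_neg, map_one, map_one]
  · show θ (pj O2 (mU 1)) * θ (pj O2 (mB O2)) * θ (pj O2 (mU 1)) * θ (pj O2 (mB O2)) *
      θ (pj O2 (mU 1)) * θ (pj O2 (mB O2)) = 1
    simp only [← map_mul]
    rw [fx2_m3, pj_neg, map_one, map_one]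
  · show θ (pj O2 (mB O2)) * (θ (pj O2 (mU (wq (-2) 0 ℤ))))⁻¹ * θ (pj O2 (mB O2)) *
      θ (pj O2 (mU (wq (-2) 0 ℤ))) * θ (pj O2 (mB O2)) * (θ (pj O2 (mU (wq (-2) 0 ℤ))))⁻¹ *
      θ (pj O2 (mB O2)) * θ (pj O2 (mU (wq (-2) 0 ℤ))) = 1
    simp only [← map_inv, ← fx2_neg, ← map_mul]
    rw [fx2_m4, pj_neg, map_one, map_one]

private theorem fx2_ext (f g : SL2 O2 →* P) (h1 : f (mU 1) = g (mU 1))
    (h2 : f (mU (wq (-2) 0 ℤ)) = g (mU (wq (-2) 0 ℤ))) (h3 : f (mB O2) = g (mB O2)) (x : SL2 O2) :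
    f x = g x :=
  D2.SL_sub (f.eqLocus g) h1 h2 h3 x

private theorem fx2_inj (θ θ' : MQ (-2) 0 →* P) (h : fx2_v θ = fx2_v θ') : θ = θ' := by
  have h1 : ∀ x, θ.comp (pj O2) x = θ'.comp (pj O2) x :=
    fx2_ext _ _ (congrArg Prod.fst h) (congrArg (fun t => t.2.1) h) (congrArg (fun t => t.2.2) h)
  apply MonoidHom.ext
  intro y
  obtain ⟨x, rfl⟩ := QuotientGroup.mk'_surjective (pm O2) y
  exact h1 x

private theorem fx2_sur (t : P × P × P) (h : fx2_Q t) : ∃ θ : MQ (-2) 0 →* P, fx2_v θ = t := by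
  obtain ⟨al, up, be⟩ := t
  obtain ⟨h2, h3, h4⟩ := h
  obtain ⟨f, hf, hb⟩ := D2.pres (Q := P) (al := al) (up := up) (be := be)
    ⟨mul_comm _ _, h2, h3, h4⟩
  have hn : f (-1) = 1 := by
    rw [← BB, map_mul, hb]
    exact h2
  have hk : ∀ x ∈ pm O2, f x = 1 := by
    rintro x (rfl | rfl)
    · exact map_one f
    · exact hn
  refine ⟨QuotientGroup.lift (pm O2) f hk, ?_⟩
  have e1 : f (mU 1) = al := by
    rw [hf]
    simp [D2.ee]
  have e2 : f (mU (wq (-2) 0 ℤ)) = up := by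
    rw [hf]
    simp [D2.ee, wq]
  exact Prod.ext e1 (Prod.ext e2 hb)

/-- the values after `stq d e` -/
private theorem fx2_st (θ : MQ (-2) 0 →* P) (d e : Bool) :
    θ (pj O2 (stq (-2) 0 d e (mU 1))) = fx2_g d (fx2_v θ) ∧
    θ (pj O2 (stq (-2) 0 d e (mU (wq (-2) 0 ℤ)))) = fx2_k d e (fx2_v θ) ∧
    θ (pj O2 (stq (-2) 0 d e (mB O2))) = θ (pj O2 (mB O2)) := by
  cases d <;> cases e
  · exact ⟨rfl, rfl, rfl⟩
  · refine ⟨?_, ?_, ?_⟩
    · show θ (pj O2 (cGq (-2) 0 (mU 1))) = θ (pj O2 (mU 1))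
      rw [fx2_c1]
    · show θ (pj O2 (cGq (-2) 0 (mU (wq (-2) 0 ℤ)))) = (θ (pj O2 (mU (wq (-2) 0 ℤ))))⁻¹
      rw [fx2_c2, fx2_neg, map_inv, map_inv]
    · show θ (pj O2 (cGq (-2) 0 (mB O2))) = θ (pj O2 (mB O2))
      rw [fx2_c3]
  · refine ⟨?_, ?_, ?_⟩
    · show θ (pj O2 (deR O2 (mU 1))) = (θ (pj O2 (mU 1)))⁻¹
      rw [fx2_d, fx2_neg, map_inv, map_inv]
    · show θ (pj O2 (deR O2 (mU (wq (-2) 0 ℤ)))) = (θ (pj O2 (mU (wq (-2) 0 ℤ))))⁻¹
      rw [fx2_d, fx2_neg, map_inv, map_inv]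
    · show θ (pj O2 (deR O2 (mB O2))) = θ (pj O2 (mB O2))
      rw [fx2_d3, pj_neg]
  · refine ⟨?_, ?_, ?_⟩
    · show θ (pj O2 (deR O2 (cGq (-2) 0 (mU 1)))) = (θ (pj O2 (mU 1)))⁻¹
      rw [fx2_c1, fx2_d, fx2_neg, map_inv, map_inv]
    · show θ (pj O2 (deR O2 (cGq (-2) 0 (mU (wq (-2) 0 ℤ))))) = θ (pj O2 (mU (wq (-2) 0 ℤ)))
      rw [fx2_c2, fx2_d, neg_neg]
    · show θ (pj O2 (deR O2 (cGq (-2) 0 (mB O2)))) = θ (pj O2 (mB O2))
      rw [fx2_c3, fx2_d3, pj_neg]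

private theorem fx2_iff (h : MulAut (MQ (-2) 0)) (d e : Bool) (hI : IsQ (-2) 0 h d e)
    (θ : MQ (-2) 0 →* P) :
    (∃ z : P, ∀ x, θ (h x) = z * θ x * z⁻¹) ↔
      fx2_g d (fx2_v θ) = (fx2_v θ).1 ∧ fx2_k d e (fx2_v θ) = (fx2_v θ).2.1 := by
  obtain ⟨m, hm⟩ := hI
  obtain ⟨s1, s2, s3⟩ := fx2_st θ d e
  have hc : ∀ x, θ (h (pj O2 x)) = θ (pj O2 (stq (-2) 0 d e x)) := by
    intro x
    have hx : h (pj O2 x) = pj O2 (m * stq (-2) 0 d e x * m⁻¹) := hm x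
    rw [hx, map_mul, map_mul, map_mul, map_mul, map_inv, map_inv, mul_comm (θ (pj O2 m)),
      mul_inv_cancel_right]
  have hz : ∀ z a : P, z * a * z⁻¹ = a := fun z a => by rw [mul_comm z a, mul_inv_cancel_right]
  constructor
  · rintro ⟨z, hz'⟩
    have h1 := hz' (pj O2 (mU 1))
    have h2 := hz' (pj O2 (mU (wq (-2) 0 ℤ)))
    rw [hc, hz, s1] at h1
    rw [hc, hz, s2] at h2
    exact ⟨h1, h2⟩
  · rintro ⟨h1, h2⟩
    refine ⟨1, fun y => ?_⟩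
    obtain ⟨x, rfl⟩ := QuotientGroup.mk'_surjective (pm O2) y
    have h3 : θ (h (pj O2 x)) = θ (pj O2 x) := by
      rw [hc]
      exact fx2_ext ((θ.comp (pj O2)).comp (stq (-2) 0 d e)) (θ.comp (pj O2)) (s1.trans h1)
        (s2.trans h2) s3 x
    rw [hz]
    exact h3

private theorem fx2_card (h : MulAut (MQ (-2) 0)) (d e : Bool) (hI : IsQ (-2) 0 h d e) :
    Fx (MQ (-2) 0) P h = Nat.card {t : P × P × P // fx2_R d e t} := by
  unfold Fx
  let F : {θ : MQ (-2) 0 →* P // ∃ z : P, ∀ x, θ (h x) = z * θ x * z⁻¹} →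
      {t : P × P × P // fx2_R d e t} :=
    fun θ => ⟨fx2_v θ.1, fx2_vQ θ.1, (fx2_iff h d e hI θ.1).1 θ.2⟩
  apply Nat.card_eq_of_bijective F
  constructor
  · intro θ θ' hθ
    exact Subtype.ext (fx2_inj _ _ (congrArg Subtype.val hθ))
  · rintro ⟨t, ht, ht'⟩
    obtain ⟨θ, hθ⟩ := fx2_sur t ht
    subst hθ
    exact ⟨⟨θ, (fx2_iff h d e hI θ).2 ht'⟩, rfl⟩

end

private instance {P : Type} [CommGroup P] [DecidableEq P] (t : P × P × P) :
    Decidable (fx2_Q t) := by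
  unfold fx2_Q
  infer_instance

private instance {P : Type} [CommGroup P] [DecidableEq P] (d e : Bool) (t : P × P × P) :
    Decidable (fx2_R d e t) := by
  unfold fx2_R
  infer_instance

/-- the piece fx2 -/
theorem p_fx2 : O_fx2 := by
  intro h d e hI
  constructor
  · rw [fx2_card h d e hI, Nat.card_eq_fintype_card]
    clear hI
    revert d e
    decide +kernel
  · rw [fx2_card h d e hI, Nat.card_eq_fintype_card]
    clear hI
    revert d e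
    decide +kernel

end

end Pool.Agent.F8.BG
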