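import Pool.Agent.Lib.MP_305fdd_al.F8.BG.StmU

/-!
# MP_305fdd_al, the Bianchi group of `ℚ(√-11)`, piece g3_11: at most two characters
-/

set_option autoImplicit false

namespace Pool.Agent.F8.BG

open Pool.Agent.MP_305fdd_al Pool.Agent.Lib.MP_305fdd_al Pool.Agent.F2X Pool.Agent.F8
  Pool.Agent.F8.HN
open scoped QuadraticAlgebra

noncomputable section

private theorem g3_11_tr_conj {K : Type} [CommRing K] (C g : SL2 K) :
    tr (C * g * C⁻¹) = tr g := by
  have h : (C * g * C⁻¹).val = C.val * g.val * C⁻¹.val := rfl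
  have h2 : C⁻¹.val * C.val = 1 := by
    have := congrArg Subtype.val (inv_mul_cancel C)
    exact this
  show (C * g * C⁻¹).val.trace = g.val.trace
  rw [h, Matrix.trace_mul_comm, ← mul_assoc, h2, one_mul]

private theorem g3_11_gen : GenQ (-3) 1 := fun H h1 h2 h3 g => D11.sub' H h1 h2 h3 g

/-- each character with property P is one of the standard ones -/
private theorem g3_11_w (hnf : U_nf (-3) 1) (hstd : U_std (-3) 1) (hrel : U_rel11)
    (hcoc : U_coc11) (hcg : U_cg11) (halg : U_alg11) (hcgP : U_cgP (-3) 1 0 hu11)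
    (hpf : PIC7.S_pf) (K : Type) [Field K] [IsAlgClosed K] (h2 : (2 : K) ≠ 0)
    (ρ : GQ (-3) 1 →* SL2 K)
    (hP : PIC7.Pt2 (P3 0 hu11) (P3 (((1 : ℤ) : ZMod 3) - 0) (rt_cj hu11)) ρ) :
    ∃ (x : K) (hx : x * x = ((-3 : ℤ) : K) + ((1 : ℤ) : K) * x), ∀ g,
      tr (ρ g) = evq (-3) 1 (Int.castRingHom K) x hx (tr g) := by
  have hirr : Irr ρ := by
    obtain ⟨g, h, e⟩ := hP.1.1
    exact ⟨g, h, e⟩
  obtain ⟨C, s, p, c, f, hN⟩ := hnf g3_11_gen K h2 ρ hirr
  have hP' := hpf.2.2 (GQ (-3) 1) _ _ K C ρ hP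
  have hc1 := hcoc K h2 _ s p c f hN hP'.1
  have hN2 := hcg K h2 _ s p c f hN
  have hc2 := hcoc K h2 _ s p _ _ hN2 (hcgP K _ hP'.2)
  have hr := hrel K h2 _ s p c f hN
  have key : p = 1 ∧ c = 1 := by
    rcases hc1 with h | h
    · exact h
    · rcases hc2 with h' | h'
      · obtain ⟨e1, e2⟩ := h'
        refine ⟨e1, ?_⟩
        rw [e1] at e2
        linear_combination e2
      · exact halg K h2 s p c f _ _ hN.hs hN.e1 hN.e2 hr rfl rfl h h'
  obtain ⟨hp, hc⟩ := key
  subst hp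
  subst hc
  have hs : s ^ 2 = 1 := by linear_combination -hN.e1
  have hf : f * f = ((-3 : ℤ) : K) - ((1 : ℤ) : K) * f := by
    push_cast
    linear_combination hr - f * (1 + f * 1) * hs
  obtain ⟨x, hx, H⟩ := hstd g3_11_gen K h2 _ s f hN hf
  refine ⟨x, hx, fun g => ?_⟩
  rw [← H g]
  exact (g3_11_tr_conj C (ρ g)).symm

/-- **BG g3_11**: at most two characters -/
theorem p_g3_11 (hnf : U_nf (-3) 1) (hstd : U_std (-3) 1) (hrel : U_rel11) (hcoc : U_coc11)
    (hcg : U_cg11) (halg : U_alg11) (hcgP : U_cgP (-3) 1 0 hu11) (hpf : PIC7.S_pf) :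
    U_g3_11 := by
  intro k _ h2 hG
  have h2' : (2 : AlgebraicClosure k) ≠ 0 := by
    have h := (map_ne_zero (algebraMap k (AlgebraicClosure k))).mpr h2
    rwa [map_ofNat] at h
  obtain ⟨ρ, hP, hne⟩ := hpf.2.1 (GQ (-3) 1) _ _ k (AlgebraicClosure k)
    (algebraMap k (AlgebraicClosure k)) 3 hG
  have hc := fun i => g3_11_w hnf hstd hrel hcoc hcg halg hcgP hpf (AlgebraicClosure k) h2'
    (ρ i) (hP i)
  choose w hw H using hc
  have key : ∀ i j, i ≠ j → w i ≠ w j := by
    intro i j hij e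
    obtain ⟨g, hg⟩ := hne i j hij
    apply hg
    rw [H i g, H j g, evq_apply, evq_apply, e]
  have hs : ∀ i j, w i = w j ∨ w i = 1 - w j := by
    intro i j
    have h1 := hw i
    have h2 := hw j
    push_cast at h1 h2
    have h : (w i - w j) * (w i - 1 + w j) = 0 := by
      linear_combination h1 - h2
    rcases mul_eq_zero.mp h with h | h
    · exact Or.inl (by linear_combination h)
    · exact Or.inr (by linear_combination h)
  have h01 : w 0 = 1 - w 1 := (hs 0 1).resolve_left (key 0 1 (by decide))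
  have h21 : w 2 = 1 - w 1 := (hs 2 1).resolve_left (key 2 1 (by decide))
  exact key 0 2 (by decide) (h01.trans h21.symm)

end

end Pool.Agent.F8.BG
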