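import Pool.Agent.Lib.MP_305fdd_al.F8.BG.StmU

/-!
# MP_305fdd_al, Bianchi groups, piece g3_2: at most two characters for `ℚ(√-2)`
-/

set_option autoImplicit false

namespace Pool.Agent.F8.BG

open Pool.Agent.MP_305fdd_al Pool.Agent.Lib.MP_305fdd_al Pool.Agent.F2X Pool.Agent.F8
  Pool.Agent.F8.HN
open scoped QuadraticAlgebra

noncomputable section

private theorem g3_2_tr_conj {K : Type} [CommRing K] (C g : SL2 K) :
    tr (C * g * C⁻¹) = tr g := by
  have h : (C * g * C⁻¹).val = C.val * g.val * C⁻¹.val := rfl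
  have h2 : C⁻¹.val * C.val = 1 := by
    have := congrArg Subtype.val (inv_mul_cancel C)
    exact this
  show (C * g * C⁻¹).val.trace = g.val.trace
  rw [h, Matrix.trace_mul_comm, ← mul_assoc, h2, one_mul]

/-- the generators of `SL₂(ℤ[√-2])` -/
theorem g3_2_gen : GenQ (-2) 0 := fun H hA hU hB g => D2.SL_sub H hA hU hB g

/-- each character with property P is one of the standard ones -/
theorem g3_2_w (hnf : U_nf (-2) 0) (hstd : U_std (-2) 0) (hrel : U_rel2) (hcoc : U_coc2)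
    (hcg : U_cg2) (halg : U_alg2) (hcgP : U_cgP (-2) 0 2 hu2) (hpf : PIC7.S_pf)
    (K : Type) [Field K] [IsAlgClosed K] (h2 : (2 : K) ≠ 0) (ρ : GQ (-2) 0 →* SL2 K)
    (hP : PIC7.Pt2 (P3 2 hu2) (P3 (((0 : ℤ) : ZMod 3) - 2) (rt_cj hu2)) ρ) :
    ∃ (x : K) (hx : x * x = ((-2 : ℤ) : K) + ((0 : ℤ) : K) * x), ∀ g,
      tr (ρ g) = evq (-2) 0 (Int.castRingHom K) x hx (tr g) := by
  have hirr : Irr ρ := by
    obtain ⟨g, h, e⟩ := hP.1.1
    exact ⟨g, h, e⟩
  obtain ⟨C, s, p, c, f, hN⟩ := hnf g3_2_gen K h2 ρ hirr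
  have hP' := hpf.2.2 _ _ _ K C ρ hP
  have hN' := hcg K h2 _ s p c f hN
  have hc1 := hcoc K h2 _ s p c f hN hP'.1
  have hc2 := hcoc K h2 _ s p c (-f) hN' (hcgP K _ hP'.2)
  obtain ⟨hr1, hr2⟩ := hrel K h2 _ s p c f hN
  have hpc : p = 1 ∧ c = 1 := by
    rcases hc1 with h | h
    · exact h
    · rcases hc2 with h' | h'
      · exact h'
      · refine halg K h2 s p c f hN.hs hN.e1 hr1 hr2 h ?_
        linear_combination h'
  obtain ⟨hp, hc⟩ := hpc
  subst hp
  subst hc
  have hs : s ^ 2 = 1 := by linear_combination -hN.e1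
  have hf : f * f = ((-2 : ℤ) : K) - ((0 : ℤ) : K) * f := by
    push_cast
    linear_combination hr1 - f ^ 2 * hs
  obtain ⟨x, hx, H⟩ := hstd g3_2_gen K h2 _ s f hN hf
  refine ⟨x, hx, fun g => ?_⟩
  rw [← H g]
  exact (g3_2_tr_conj C (ρ g)).symm

/-- **BG g3_2**: at most two characters -/
theorem p_g3_2 (hnf : U_nf (-2) 0) (hstd : U_std (-2) 0) (hrel : U_rel2) (hcoc : U_coc2)
    (hcg : U_cg2) (halg : U_alg2) (hcgP : U_cgP (-2) 0 2 hu2) (hpf : PIC7.S_pf) : U_g3_2 := by
  intro k _ h2 hG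
  have h2' : (2 : AlgebraicClosure k) ≠ 0 := by
    have h := (map_ne_zero (algebraMap k (AlgebraicClosure k))).mpr h2
    rwa [map_ofNat] at h
  obtain ⟨ρ, hP, hne⟩ := hpf.2.1 _ _ _ k (AlgebraicClosure k)
    (algebraMap k (AlgebraicClosure k)) 3 hG
  have hc := fun i => g3_2_w hnf hstd hrel hcoc hcg halg hcgP hpf (AlgebraicClosure k) h2'
    (ρ i) (hP i)
  choose w hw H using hc
  have key : ∀ i j, i ≠ j → w i ≠ w j := by
    intro i j hij e
    obtain ⟨g, hg⟩ := hne i j hij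
    apply hg
    rw [H i g, H j g, evq_apply, evq_apply, e]
  have hs : ∀ i j, w i = w j ∨ w i = - w j := by
    intro i j
    have hi := hw i
    have hj := hw j
    push_cast at hi hj
    have h : (w i - w j) * (w i + w j) = 0 := by
      linear_combination hi - hj
    rcases mul_eq_zero.mp h with h | h
    · exact Or.inl (by linear_combination h)
    · exact Or.inr (by linear_combination h)
  have h01 : w 0 = - w 1 := (hs 0 1).resolve_left (key 0 1 (by decide))
  have h21 : w 2 = - w 1 := (hs 2 1).resolve_left (key 2 1 (by decide))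
  exact key 0 2 (by decide) (h01.trans h21.symm)

end

end Pool.Agent.F8.BG
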