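import Pool.Agent.Lib.MP_305fdd_al.F8.BG.StmL

/-!
# MP_305fdd_al, Legendre's theorem over `ℤ[√-2]`
-/

set_option autoImplicit false

namespace Pool.Agent.F8.BG

open Pool.Agent.MP_305fdd_al Pool.Agent.Lib.MP_305fdd_al Pool.Agent.F2X Pool.Agent.F8
open scoped QuadraticAlgebra

/-- the norm of `x + y w` -/
def leg2_n (x y : ℤ) : ℤ := x * x + 2 * (y * y)

/-- the descent inequality for the quotient `q1 + q2 w` -/
def leg2_good (b1 b2 r1 r2 a1 a2 q1 q2 : ℤ) : Prop :=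
  leg2_n
    ((r1 - (b1 * q1 - 2 * (b2 * q2))) * (r1 - (b1 * q1 - 2 * (b2 * q2))) -
      2 * ((r2 - (b1 * q2 + b2 * q1)) * (r2 - (b1 * q2 + b2 * q1))) - a1)
    ((r1 - (b1 * q1 - 2 * (b2 * q2))) * (r2 - (b1 * q2 + b2 * q1)) +
      (r2 - (b1 * q2 + b2 * q1)) * (r1 - (b1 * q1 - 2 * (b2 * q2))) - a2) <
    leg2_n b1 b2 * leg2_n b1 b2

instance leg2_dec (b1 b2 r1 r2 a1 a2 q1 q2 : ℤ) : Decidable (leg2_good b1 b2 r1 r2 a1 a2 q1 q2) :=
  Int.decLt _ _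

/-- the quotients -/
def leg2_qs : List (ℤ × ℤ) :=
  [(0, 0), (1, 0), (-1, 0), (0, 1), (0, -1), (1, 1), (1, -1), (-1, 1), (-1, -1)]

/-- the finite check for one triple -/
def leg2_chk (b1 b2 r1 r2 a1 a2 : ℤ) : Bool :=
  leg2_qs.any (fun q => decide (leg2_good b1 b2 r1 r2 a1 a2 q.1 q.2)) ||
    ((decide (a1 = -1) && decide (a2 = 0) && decide (b1 = 0) &&
      (decide (b2 = 1) || decide (b2 = -1))) || (decide (a1 = 2) && decide (a2 = 0)))

/-- the condition `b ∣ r² - a` -/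
def leg2_dv (b1 b2 r1 r2 a1 a2 : ℤ) : Bool :=
  decide (((r1 * r1 - 2 * (r2 * r2) - a1) * b1 + 2 * ((r1 * r2 + r2 * r1 - a2) * b2)) %
    leg2_n b1 b2 = 0) &&
  decide (((r1 * r2 + r2 * r1 - a2) * b1 - (r1 * r1 - 2 * (r2 * r2) - a1) * b2) %
    leg2_n b1 b2 = 0)

/-- the finite check -/
def leg2_all : Bool :=
  (List.range 9).all fun i => (List.range 5).all fun j =>
    !(decide (2 ≤ leg2_n ((i : ℤ) - 4) ((j : ℤ) - 2)) &&
      decide (leg2_n ((i : ℤ) - 4) ((j : ℤ) - 2) ≤ 16)) ||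
    (List.range 7).all fun k => (List.range 5).all fun l =>
      !decide (4 * leg2_n ((k : ℤ) - 3) ((l : ℤ) - 2) ≤
        3 * leg2_n ((i : ℤ) - 4) ((j : ℤ) - 2)) ||
      (List.range 9).all fun m => (List.range 5).all fun o =>
        !(decide (leg2_n ((m : ℤ) - 4) ((o : ℤ) - 2) ≤ leg2_n ((i : ℤ) - 4) ((j : ℤ) - 2)) &&
          leg2_dv ((i : ℤ) - 4) ((j : ℤ) - 2) ((k : ℤ) - 3) ((l : ℤ) - 2) ((m : ℤ) - 4)
            ((o : ℤ) - 2)) ||
        leg2_chk ((i : ℤ) - 4) ((j : ℤ) - 2) ((k : ℤ) - 3) ((l : ℤ) - 2) ((m : ℤ) - 4)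
          ((o : ℤ) - 2)

theorem leg2_all_true : leg2_all = true := by decide +kernel

theorem leg2_fin (b1 b2 r1 r2 a1 a2 : ℤ) (h2 : 2 ≤ leg2_n b1 b2) (h16 : leg2_n b1 b2 ≤ 16)
    (hr : 4 * leg2_n r1 r2 ≤ 3 * leg2_n b1 b2) (ha : leg2_n a1 a2 ≤ leg2_n b1 b2)
    (hd : leg2_dv b1 b2 r1 r2 a1 a2 = true) : leg2_chk b1 b2 r1 r2 a1 a2 = true := by
  have bnd : ∀ (x y B c d : ℤ), leg2_n x y ≤ B → 0 ≤ c → 0 ≤ d → B < (c + 1) * (c + 1) →
      B < 2 * ((d + 1) * (d + 1)) → (-c ≤ x ∧ x ≤ c) ∧ (-d ≤ y ∧ y ≤ d) := by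
    intro x y B c d h hc hd h3 h4
    unfold leg2_n at h
    refine ⟨⟨?_, ?_⟩, ⟨?_, ?_⟩⟩ <;> by_contra hh <;> push Not at hh <;> nlinarith [mul_self_nonneg x, mul_self_nonneg y]
  obtain ⟨⟨b3, b4⟩, b5, b6⟩ := bnd b1 b2 16 4 2 h16 (by norm_num) (by norm_num) (by norm_num) (by norm_num)
  obtain ⟨⟨a3, a4⟩, a5, a6⟩ := bnd a1 a2 16 4 2 (ha.trans h16) (by norm_num) (by norm_num) (by norm_num) (by norm_num)
  obtain ⟨⟨r3, r4⟩, r5, r6⟩ := bnd r1 r2 12 3 2 (by linarith) (by norm_num) (by norm_num) (by norm_num) (by norm_num)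
  have e : ∀ (x c : ℤ), -c ≤ x → (((x + c).toNat : ℕ) : ℤ) - c = x := by
    intro x c h; omega
  have hall := leg2_all_true
  unfold leg2_all at hall
  rw [List.all_eq_true] at hall
  have g1 := hall (b1 + 4).toNat (List.mem_range.2 (by omega))
  rw [List.all_eq_true] at g1
  have g2 := g1 (b2 + 2).toNat (List.mem_range.2 (by omega))
  rw [e b1 4 b3, e b2 2 b5] at g2
  have g3 : (decide (2 ≤ leg2_n b1 b2) && decide (leg2_n b1 b2 ≤ 16)) = true := by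
    rw [Bool.and_eq_true, decide_eq_true_iff, decide_eq_true_iff]; exact ⟨h2, h16⟩
  rw [g3, Bool.not_true, Bool.false_or, List.all_eq_true] at g2
  have g4 := g2 (r1 + 3).toNat (List.mem_range.2 (by omega))
  rw [List.all_eq_true] at g4
  have g5 := g4 (r2 + 2).toNat (List.mem_range.2 (by omega))
  rw [e r1 3 r3, e r2 2 r5] at g5
  rw [decide_eq_true hr, Bool.not_true, Bool.false_or, List.all_eq_true] at g5
  have g6 := g5 (a1 + 4).toNat (List.mem_range.2 (by omega))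
  rw [List.all_eq_true] at g6
  have g7 := g6 (a2 + 2).toNat (List.mem_range.2 (by omega))
  rw [e a1 4 a3, e a2 2 a5] at g7
  rw [decide_eq_true ha, hd, Bool.and_true, Bool.not_true, Bool.false_or] at g7
  exact g7

theorem leg2_nm (z : D2.O2) : D2.nm z = leg2_n z.re z.im := by
  unfold D2.nm leg2_n
  ring

/-- the norm as a natural number -/
def leg2_N (z : D2.O2) : ℕ := (D2.nm z).natAbs

theorem leg2_cast (z : D2.O2) : (leg2_N z : ℤ) = D2.nm z := by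
  unfold leg2_N
  exact Int.natAbs_of_nonneg (D2.nm_nonneg z)

/-- the norm structure -/
def leg2_nu : EG.Nm D2.O2 where
  N := leg2_N
  mul x y := by
    unfold leg2_N
    rw [D2.nm_mul, Int.natAbs_mul]
  zero x h := by
    apply D2.nm_eq_zero
    rw [← leg2_cast, h]; rfl
  unit x h := by
    have h1 : D2.nm x = 1 := by rw [← leg2_cast, h]; rfl
    rcases D2.unit_cases h1 with h2 | h2
    · rw [h2]; exact isUnit_one
    · rw [h2]; exact isUnit_one.neg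

theorem leg2_small (a c : D2.O2) (hc : c ≠ 0) : ∃ q : D2.O2, 4 * D2.nm (a - c * q) ≤ 3 * D2.nm c := by
  have hN := D2.nm_pos hc
  obtain ⟨P, hP⟩ := D2.quot a c
  generalize D2.nm c = N at *
  obtain ⟨n, hn⟩ := D2.near P.im N hN
  obtain ⟨m, hm⟩ := D2.near P.re N hN
  refine ⟨⟨m, n⟩, ?_⟩
  have h3 := hP ⟨m, n⟩
  simp only at h3
  rw [mul_comm (⟨m, n⟩ : D2.O2) c] at h3
  generalize P.re - m * N = r at *
  generalize P.im - n * N = s at *
  rw [abs_le] at hm hn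
  have h7 : 4 * r ^ 2 ≤ N ^ 2 := by
    nlinarith [mul_nonneg (show 0 ≤ N - 2 * r by linarith)
      (show 0 ≤ N + 2 * r by linarith)]
  have h8 : 4 * s ^ 2 ≤ N ^ 2 := by
    nlinarith [mul_nonneg (show 0 ≤ N - 2 * s by linarith) (show 0 ≤ N + 2 * s by linarith)]
  by_contra hcon
  push Not at hcon
  nlinarith

theorem leg2_add (u v : D2.O2) : 3 * D2.nm (u - v) ≤ 4 * D2.nm u + 12 * D2.nm v := by
  unfold D2.nm
  rw [QuadraticAlgebra.re_sub, QuadraticAlgebra.im_sub]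
  nlinarith [sq_nonneg (u.re + 3 * v.re), sq_nonneg (u.im + 3 * v.im)]

theorem leg2_big (a b r : D2.O2) (h17 : 17 ≤ D2.nm b) (hab : D2.nm a ≤ D2.nm b)
    (hr : 4 * D2.nm r ≤ 3 * D2.nm b) : D2.nm (r ^ 2 - a) < D2.nm b ^ 2 := by
  have h1 := leg2_add (r ^ 2) a
  rw [pow_two r, D2.nm_mul, ← pow_two r] at h1
  have h2 := D2.nm_nonneg r
  generalize D2.nm (r ^ 2 - a) = w at *
  generalize D2.nm r = x at *
  generalize D2.nm b = n at *
  generalize D2.nm a = y at *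
  have h3 : 16 * (x * x) ≤ 9 * (n * n) := by nlinarith
  nlinarith

theorem leg2_dvd (a b r : D2.O2) (h : b ∣ r ^ 2 - a) :
    leg2_dv b.re b.im r.re r.im a.re a.im = true := by
  obtain ⟨y, hy⟩ := h
  have e1 := congrArg QuadraticAlgebra.re hy
  have e2 := congrArg QuadraticAlgebra.im hy
  rw [QuadraticAlgebra.re_sub, pow_two, D2.O_re_mul, D2.O_re_mul] at e1
  rw [QuadraticAlgebra.im_sub, pow_two, D2.O_im_mul, D2.O_im_mul] at e2
  unfold leg2_dv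
  rw [Bool.and_eq_true, decide_eq_true_iff, decide_eq_true_iff]
  constructor
  · apply Int.emod_eq_zero_of_dvd
    refine ⟨y.re, ?_⟩
    unfold leg2_n
    linear_combination b.re * e1 + 2 * b.im * e2
  · apply Int.emod_eq_zero_of_dvd
    refine ⟨y.im, ?_⟩
    unfold leg2_n
    linear_combination b.re * e2 - b.im * e1

theorem leg2_of_good (a b r : D2.O2) (q : ℤ × ℤ)
    (h : leg2_good b.re b.im r.re r.im a.re a.im q.1 q.2) :
    D2.nm ((r - b * ⟨q.1, q.2⟩) ^ 2 - a) < D2.nm b ^ 2 := by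
  unfold leg2_good at h
  have e : D2.nm ((r - b * ⟨q.1, q.2⟩) ^ 2 - a) = leg2_n
    ((r.re - (b.re * q.1 - 2 * (b.im * q.2))) * (r.re - (b.re * q.1 - 2 * (b.im * q.2))) -
      2 * ((r.im - (b.re * q.2 + b.im * q.1)) * (r.im - (b.re * q.2 + b.im * q.1))) - a.re)
    ((r.re - (b.re * q.1 - 2 * (b.im * q.2))) * (r.im - (b.re * q.2 + b.im * q.1)) +
      (r.im - (b.re * q.2 + b.im * q.1)) * (r.re - (b.re * q.1 - 2 * (b.im * q.2))) - a.im) := by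
    rw [leg2_nm]
    rw [QuadraticAlgebra.re_sub, QuadraticAlgebra.im_sub, pow_two, D2.O_re_mul, D2.O_im_mul,
      QuadraticAlgebra.re_sub, QuadraticAlgebra.im_sub, D2.O_re_mul, D2.O_im_mul]
  rw [e, leg2_nm, pow_two]
  exact h

theorem leg2_unit_w : ¬ IsUnit (⟨0, 1⟩ : D2.O2) := by
  intro h
  obtain ⟨v, hv⟩ := h.exists_right_inv
  have h1 := congrArg D2.nm hv
  rw [D2.nm_mul, D2.nm_one] at h1
  have h2 : D2.nm (⟨0, 1⟩ : D2.O2) = 2 := by decide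
  rw [h2] at h1
  omega

theorem leg2_step (a b r : D2.O2) (h2 : 2 ≤ D2.nm b) (hab : D2.nm a ≤ D2.nm b)
    (hSa : EG.Sf a) (hd : b ∣ r ^ 2 - a) (hb : b ≠ 0) :
    EG.Sol a b ∨ ∃ q : D2.O2, D2.nm ((r - b * q) ^ 2 - a) < D2.nm b ^ 2 := by
  obtain ⟨q0, hq0⟩ := leg2_small r b hb
  by_cases h17 : 17 ≤ D2.nm b
  · exact Or.inr ⟨q0, leg2_big a b _ h17 hab hq0⟩
  have hd' : b ∣ (r - b * q0) ^ 2 - a := by
    have e : (r - b * q0) ^ 2 - a = (r ^ 2 - a) + b * (-(2 * r * q0) + b * q0 ^ 2) := by ring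
    rw [e]
    exact dvd_add hd (dvd_mul_right _ _)
  have hdv := leg2_dvd a b (r - b * q0) hd'
  have hchk := leg2_fin b.re b.im (r - b * q0).re (r - b * q0).im a.re a.im
    (by rw [← leg2_nm]; exact h2) (by rw [← leg2_nm]; omega)
    (by rw [← leg2_nm, ← leg2_nm]; exact hq0) (by rw [← leg2_nm, ← leg2_nm]; exact hab) hdv
  unfold leg2_chk at hchk
  rw [Bool.or_eq_true] at hchk
  rcases hchk with hk | hk
  · rw [List.any_eq_true] at hk
    obtain ⟨q, -, hq⟩ := hk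
    rw [decide_eq_true_iff] at hq
    refine Or.inr ⟨q0 + ⟨q.1, q.2⟩, ?_⟩
    have := leg2_of_good a b (r - b * q0) q hq
    rw [show r - b * (q0 + ⟨q.1, q.2⟩) = r - b * q0 - b * ⟨q.1, q.2⟩ by ring]
    exact this
  · left
    simp only [Bool.or_eq_true, Bool.and_eq_true, decide_eq_true_iff] at hk
    rcases hk with ⟨⟨⟨a1, a2⟩, b1⟩, b2⟩ | ⟨a1, a2⟩
    · have ea : a = ⟨-1, 0⟩ := D2.O_ext a1 a2
      rcases b2 with b2 | b2
      · have eb : b = ⟨0, 1⟩ := D2.O_ext b1 b2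
        rw [ea, eb]
        exact ⟨⟨1, 0⟩, ⟨0, 1⟩, ⟨1, -1⟩, by decide, by decide⟩
      · have eb : b = ⟨0, -1⟩ := D2.O_ext b1 b2
        rw [ea, eb]
        exact ⟨⟨1, 1⟩, ⟨0, 1⟩, ⟨1, 0⟩, by decide, by decide⟩
    · have ea : a = ⟨2, 0⟩ := D2.O_ext a1 a2
      exfalso
      apply leg2_unit_w
      apply hSa
      rw [ea]
      exact ⟨⟨-1, 0⟩, by decide⟩

theorem leg2_one_cases (a : D2.O2) (h0 : a ≠ 0) (h : leg2_N a < 2) : a = ⟨1, 0⟩ ∨ a = ⟨-1, 0⟩ := by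
  have h1 := D2.nm_pos h0
  rw [← leg2_cast] at h1
  have h2 : D2.nm a = 1 := by rw [← leg2_cast]; omega
  rcases D2.unit_cases h2 with h3 | h3
  · left; rw [h3]; rfl
  · right; rw [h3]; decide

theorem p_leg2 (hgen : L_gen) (hpid : L_pid) : L_leg2 := by
  have : IsDomain (Qf (-2) 0 ℤ) := Qf_domain (by norm_num)
  have : IsPrincipalIdealRing (Qf (-2) 0 ℤ) := hpid.1
  refine hgen (Qf (-2) 0 ℤ) leg2_nu 2 ?_ ?_
  · intro a b r r' ha hb h2 hab hSa hSb hd _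
    have h2' : 2 ≤ D2.nm b := by
      rw [← leg2_cast]
      exact_mod_cast h2
    have hab' : D2.nm a ≤ D2.nm b := by
      rw [← leg2_cast, ← leg2_cast]
      exact_mod_cast hab
    rcases leg2_step a b r h2' hab' hSa hd hb with h | ⟨q, hq⟩
    · exact Or.inl h
    · refine Or.inr ⟨q, ?_⟩
      show leg2_N _ < leg2_N b ^ 2
      zify
      rw [leg2_cast, leg2_cast]
      exact hq
  · intro a b ha hb h1 h2 _ _ _
    rcases leg2_one_cases a ha h1 with rfl | rfl <;> rcases leg2_one_cases b hb h2 with rfl | rfl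
    · exact ⟨⟨1, 0⟩, ⟨0, 0⟩, ⟨1, 0⟩, by decide, by decide⟩
    · exact ⟨⟨1, 0⟩, ⟨0, 0⟩, ⟨1, 0⟩, by decide, by decide⟩
    · exact ⟨⟨0, 0⟩, ⟨1, 0⟩, ⟨1, 0⟩, by decide, by decide⟩
    · exact ⟨⟨1, 0⟩, ⟨1, 0⟩, ⟨0, 1⟩, by decide, by decide⟩

end Pool.Agent.F8.BG
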