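import Pool.Agent.Lib.MP_305fdd_al.F8.BG.StmT

set_option autoImplicit false

namespace Pool.Agent.F8.BG

open Pool.Agent.MP_305fdd_al Pool.Agent.Lib.MP_305fdd_al Pool.Agent.F2X Pool.Agent.F8
  Pool.Agent.F8.HN
open scoped QuadraticAlgebra

theorem p_lim (a b : ℤ) : T_lim a b := by
  intro R _ Rk _ π p h
  obtain ⟨h1, h2⟩ := h
  refine ⟨?_, ?_⟩
  · intro k
    apply RingHom.ext
    intro z
    apply QuadraticAlgebra.ext
    · show p k (π (k + 1) z.re) = π k z.re
      exact DFunLike.congr_fun (h1 k) z.re
    · show p k (π (k + 1) z.im) = π k z.im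
      exact DFunLike.congr_fun (h1 k) z.im
  · intro x hx
    obtain ⟨c, hc, hc'⟩ := h2 (fun k => (x k).re) (fun k => by
      have := congrArg QuadraticAlgebra.re (hx k)
      exact this)
    obtain ⟨d, hd, hd'⟩ := h2 (fun k => (x k).im) (fun k => by
      have := congrArg QuadraticAlgebra.im (hx k)
      exact this)
    refine ⟨⟨c, d⟩, ?_, ?_⟩
    · intro k
      apply QuadraticAlgebra.ext
      · exact hc k
      · exact hd k
    · intro y hy
      apply QuadraticAlgebra.ext
      · apply hc'
        intro k
        exact congrArg QuadraticAlgebra.re (hy k)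
      · apply hd'
        intro k
        exact congrArg QuadraticAlgebra.im (hy k)

end Pool.Agent.F8.BG
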