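import Pool.Agent.Lib.MP_305fdd_al.F8.BG.StmT

/-!
# MP_305fdd_al, Bianchi groups, piece out: main result of the transfer
-/

set_option autoImplicit false

namespace Pool.Agent.F8.BG

open Pool.Agent.MP_305fdd_al Pool.Agent.Lib.MP_305fdd_al Pool.Agent.F2X Pool.Agent.F8
  Pool.Agent.F8.HN
open scoped QuadraticAlgebra

noncomputable section

private theorem out_root (a b : ℤ) (K : Type) [Field K] [CharZero K] [IsAlgClosed K] :
    ∃ w : K, w * w = (a : K) + (b : K) * w := by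
  obtain ⟨s, hs⟩ := IsAlgClosed.exists_eq_mul_self ((b : K) ^ 2 + 4 * (a : K))
  refine ⟨(s + b) / 2, ?_⟩
  have h2 : (2 : K) ≠ 0 := two_ne_zero
  field_simp
  linear_combination -hs

private theorem out_irr {L K : Type} [Group L] [CommRing K] {P Q : Subgroup L}
    {s : L →* SL2 K} (h : PIC7.Pt2 P Q s) : Irr s := by
  obtain ⟨⟨⟨g, g', hg⟩, -⟩, -⟩ := h
  exact ⟨g, g', hg⟩

variable {a b : ℤ} {u : ZMod 3} {hu : u * u = (a : ZMod 3) + (b : ZMod 3) * u}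

private theorem out_red {Λ : Type} [Group Λ] {Φ : NatBij (GQ a b) Λ} {p : ℕ} [Fact p.Prime]
    {r : Λ →* SL2 (Qf a b ℤ_[p])} (hD : DatQ Φ u hu p r) (k : ℕ) (g : Λ) (x : Qf a b ℤ)
    (hx : tr (r g) = Qfm a b (Int.castRingHom ℤ_[p]) x) :
    Qfm a b (Int.castRingHom (ZMod (p ^ k))) x = tr (Φ.toFun _ (rdq a b (p ^ k)) g) := by
  rw [← hD.red k]
  show _ = tr (SLm (Qfm a b (PadicInt.toZModPow k)) (r g))
  rw [tr_map, hx]
  rw [Qfm_apply, Qfm_apply, Qfm_apply]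
  simp

private theorem out_fi {Λ : Type} [Group Λ] (Φ : NatBij (GQ a b) Λ)
    (r : GQ a b →* SL2 (ZMod 3)) :
    ((PIC.UP (ZMod 3)).comap (Φ.toFun _ r)).FiniteIndex := by
  have h1 : (Φ.toFun _ r).ker ≤ (PIC.UP (ZMod 3)).comap (Φ.toFun _ r) := by
    intro x hx
    show Φ.toFun _ r x ∈ PIC.UP (ZMod 3)
    rw [MonoidHom.mem_ker.1 hx]
    exact one_mem _
  exact Subgroup.finiteIndex_of_le h1

theorem p_out (a b : ℤ) (u : ZMod 3) (hu : u * u = (a : ZMod 3) + (b : ZMod 3) * u)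
    (hpf : PIC7.S_pf) (hsp : PIC7.S_sp) (hpx : T_px a b u hu) (hdat : T_dat a b u hu)
    (hd4 : T_d4 a b u hu) (hsq : T_sq) (hd5 : T_d5 a b) (hd6 : T_d6 a b u hu) :
    T_out a b u hu := by
  intro H p₀ Λ _ _ Φ
  have hdneg : b ^ 2 + 4 * a < 0 := H.neg
  have hf1 : (L3 Φ u hu).FiniteIndex := out_fi Φ _
  have hf2 : (L3 Φ ((b : ZMod 3) - u) (rt_cj hu)).FiniteIndex := out_fi Φ _
  have h3 : ∀ (K : Type) [Field K] [CharZero K], ¬ GdL Φ u hu K 3 := by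
    intro K _ _ h
    obtain ⟨⟨k, _, _, h2, hk⟩, -⟩ := hsp Λ (L3 Φ u hu) (L3 Φ ((b : ZMod 3) - u) (rt_cj hu))
      hf1 hf2 K 3 h
    exact H.g3 k h2 (hpx H Λ Φ k 3 hk)
  have hG : GdL Φ u hu (AlgebraicClosure ℚ) 2 := by
    have : Fact (Nat.Prime 2) := ⟨Nat.prime_two⟩
    obtain ⟨r, hr⟩ := hdat H Λ Φ 2
    obtain ⟨w, hw⟩ := out_root a b (Fl 2)
    refine (hsp Λ (L3 Φ u hu) (L3 Φ ((b : ZMod 3) - u) (rt_cj hu)) hf1 hf2 (Fl 2) 2
      ⟨![(SLm (evq a b (iz 2) w hw)).comp r,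
      (SLm (evq a b (iz 2) ((b : Fl 2) - w) (rt_cj hw))).comp r], ?_, ?_⟩).2
    · intro i
      fin_cases i
      · exact hr.good (Fl 2) (evq a b (iz 2) w hw)
      · exact hr.good (Fl 2) (evq a b (iz 2) ((b : Fl 2) - w) (rt_cj hw))
    · have hne : ∃ g, tr (SLm (evq a b (iz 2) w hw) (r g)) ≠
          tr (SLm (evq a b (iz 2) ((b : Fl 2) - w) (rt_cj hw)) (r g)) := by
        obtain ⟨g, hg⟩ := hr.ne
        refine ⟨g, fun h => ?_⟩
        rw [tr_map, tr_map, evq_apply, evq_apply] at h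
        have hinj : Function.Injective (iz 2) := by
          intro a b hab
          have h1 : algebraMap ℚ_[2] (Fl 2) (a : ℚ_[2]) = algebraMap ℚ_[2] (Fl 2) (b : ℚ_[2]) := hab
          exact Subtype.ext ((algebraMap ℚ_[2] (Fl 2)).injective h1)
        have h1 : iz 2 (tr (r g)).im * (2 * w - (b : Fl 2)) = 0 := by linear_combination h
        rcases mul_eq_zero.1 h1 with h2 | h2
        · exact hg (hinj (by rw [h2, map_zero]))
        · have h7 : ((b ^ 2 + 4 * a : ℤ) : Fl 2) = 0 := by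
            push_cast
            linear_combination (-4 : Fl 2) * hw + (2 * w - (b : Fl 2)) * h2
          have h8 : b ^ 2 + 4 * a = 0 := by exact_mod_cast h7
          omega
      intro i j hij
      obtain ⟨g, hg⟩ := hne
      refine ⟨g, ?_⟩
      fin_cases i <;> fin_cases j
      · exact absurd rfl hij
      · exact hg
      · exact hg.symm
      · exact absurd rfl hij
  obtain ⟨w, hw⟩ := out_root a b (AlgebraicClosure ℚ)
  obtain ⟨ρ, hρ, hne⟩ := hG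
  have hne' := hne 0 1 (by decide)
  have h1 := hρ 0
  have h2 := hρ 1
  generalize ρ 0 = s₁ at *
  generalize ρ 1 = s₂ at *
  have hval : ∀ l : Λ, ∃ T : Qf a b ℤ, tr (s₁ l) = evq a b (Int.castRingHom _) w hw T ∧
      tr (s₂ l) = evq a b (Int.castRingHom _) w hw (cjq a b ℤ T) := by
    intro l
    obtain ⟨S, P, hS, hP, hp⟩ := hd4 H Λ Φ h3 (fun p _ => hdat H Λ Φ p) s₁ s₂ h1 h2 hne' l
    have hm : ∃ m : ℤ, S * S - 4 * P = (b ^ 2 + 4 * a) * (m * m) := by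
      apply hsq _ _ (by omega)
      intro p _
      obtain ⟨r, hD⟩ := hdat H Λ Φ p
      obtain ⟨hp1, hp2⟩ := hp p r hD
      refine ⟨(tr (r l)).im, ?_⟩
      push_cast
      rw [hp1, hp2]
      unfold nq
      ring
    obtain ⟨m, hm⟩ := hm
    exact hd5 (AlgebraicClosure ℚ) w hw _ _ S P m hS hP hm
  choose T hT using hval
  have hfin : ∀ (s₁ s₂ : Λ →* SL2 (AlgebraicClosure ℚ)) (T : Λ → Qf a b ℤ), PtL Φ u hu s₁ →
      PtL Φ u hu s₂ → (∃ g, tr (s₁ g) ≠ tr (s₂ g)) →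
      (∀ g, tr (s₁ g) = evq a b (Int.castRingHom _) w hw (T g) ∧
        tr (s₂ g) = evq a b (Int.castRingHom _) w hw (cjq a b ℤ (T g))) →
      (∀ _ : Fact p₀.Prime, ∃ r : Λ →* SL2 (Qf a b ℤ_[p₀]), DatQ Φ u hu p₀ r ∧
        ∀ g, tr (r g) = Qfm a b (Int.castRingHom ℤ_[p₀]) (T g)) →
      OutQ Φ p₀ T s₁ w hw := by
    intro s₁ s₂ T h1 h2 hne hT h22
    refine ⟨fun g => (hT g).1, out_irr h1, ?_⟩
    intro p hpp
    by_cases hp : p = p₀
    · subst hp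
      obtain ⟨r, hD, hr⟩ := h22 hpp
      exact ⟨false, fun _ => rfl, fun k g => out_red hD k g _ (hr g)⟩
    · obtain ⟨r, hD⟩ := hdat H Λ Φ p
      rcases hd6 H Λ Φ h3 s₁ s₂ h1 h2 hne w hw T hT p r hD with h | h
      · exact ⟨false, fun _ => rfl, fun k g => out_red hD k g _ (h g)⟩
      · exact ⟨true, fun h => absurd h hp, fun k g => out_red hD k g _ (h g)⟩
  by_cases hpr : Fact p₀.Prime
  · obtain ⟨r, hD⟩ := hdat H Λ Φ p₀
    rcases hd6 H Λ Φ h3 s₁ s₂ h1 h2 hne' w hw T hT p₀ r hD with h | h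
    · exact ⟨T, _, w, hw, hfin s₁ s₂ T h1 h2 hne' hT (fun _ => ⟨r, hD, h⟩)⟩
    · refine ⟨fun g => cjq a b ℤ (T g), _, w, hw, hfin s₂ s₁ (fun g => cjq a b ℤ (T g)) h2 h1
        ?_ ?_ (fun _ => ⟨r, hD, h⟩)⟩
      · obtain ⟨g, hg⟩ := hne'
        exact ⟨g, hg.symm⟩
      · intro g
        rw [cjq_cjq]
        exact ⟨(hT g).2, (hT g).1⟩
  · exact ⟨T, _, w, hw, hfin s₁ s₂ T h1 h2 hne' hT (fun h => absurd h hpr)⟩

end

end Pool.Agent.F8.BG
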