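import Pool.Agent.Lib.MP_305fdd_al.F8.BG.StmT

/-!
# MP_305fdd_al, Bianchi groups: piece T_psl, from `SL₂` to `PSL₂`
-/

set_option autoImplicit false

namespace Pool.Agent.F8.BG

open Pool.Agent.MP_305fdd_al Pool.Agent.Lib.MP_305fdd_al Pool.Agent.F2X Pool.Agent.F8
  Pool.Agent.F8.HN Pool.Agent.F8.AB
open scoped QuadraticAlgebra

noncomputable section

section psl

variable {a b : ℤ}

/-- `SL₂(ℤ[w])` is finitely generated -/
theorem psl_fg {u : ZMod 3} {hu : u * u = (a : ZMod 3) + (b : ZMod 3) * u} (H : UQ a b u hu) :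
    Group.FG (GQ a b) := by
  rw [Group.fg_iff]
  refine ⟨{mU 1, mU (wq a b ℤ), mB _}, ?_, Set.toFinite _⟩
  rw [eq_top_iff]
  intro g _
  exact H.gen _ (Subgroup.subset_closure (by simp)) (Subgroup.subset_closure (by simp))
    (Subgroup.subset_closure (by simp)) g

/-- natural bijections give the same finite quotients -/
theorem psl_same {G H : Type} [Group G] [Group H] (Φ : NatBij G H) :
    SameFiniteQuotients G H := by
  intro Q _ _
  constructor
  · rintro ⟨φ, hφ⟩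
    refine ⟨Φ.toFun Q φ, ?_⟩
    rw [← MonoidHom.range_eq_top, Φ.range_eq, MonoidHom.range_eq_top]
    exact hφ
  · rintro ⟨φ, hφ⟩
    refine ⟨Φ.symm.toFun Q φ, ?_⟩
    rw [← MonoidHom.range_eq_top, Φ.symm.range_eq, MonoidHom.range_eq_top]
    exact hφ

/-- `ℤ[w]` has no zero divisors -/
theorem psl_zd (hn : b ^ 2 + 4 * a < 0) {x y : Qf a b ℤ} (h : x * y = 0) : x = 0 ∨ y = 0 := by
  have := Qf_domain hn
  exact mul_eq_zero.1 h

/-- the only involution of `SL₂(ℤ[w])` is `-1` -/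
theorem psl_inv (hn : b ^ 2 + 4 * a < 0) {x : GQ a b} (h : x * x = 1) (h1 : x ≠ 1) : x = -1 := by
  have e00 := congrArg (fun g : GQ a b => g.val 0 0) h
  have e01 := congrArg (fun g : GQ a b => g.val 0 1) h
  have e10 := congrArg (fun g : GQ a b => g.val 1 0) h
  have e11 := congrArg (fun g : GQ a b => g.val 1 1) h
  simp only [G.SL_mul, G.one00, G.one01, G.one10, G.one11] at e00 e01 e10 e11
  have hd := G.SL_det x
  have h2 : x.val 0 0 * (x.val 0 0 + x.val 1 1) = 2 := by linear_combination e00 + hd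
  have hne : x.val 0 0 + x.val 1 1 ≠ 0 := by
    intro h0
    rw [h0, mul_zero] at h2
    have := congrArg QuadraticAlgebra.re h2
    rw [QuadraticAlgebra.re_zero, QuadraticAlgebra.re_ofNat] at this
    exact absurd this (by norm_num)
  have hb : x.val 0 1 = 0 := by
    rcases psl_zd hn (x := x.val 0 1) (y := x.val 0 0 + x.val 1 1)
      (by linear_combination e01) with h3 | h3
    · exact h3
    · exact absurd h3 hne
  have hc : x.val 1 0 = 0 := by
    rcases psl_zd hn (x := x.val 1 0) (y := x.val 0 0 + x.val 1 1)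
      (by linear_combination e10) with h3 | h3
    · exact h3
    · exact absurd h3 hne
  rw [hb] at e00 hd
  have h4 : (x.val 0 0 - 1) * (x.val 0 0 + 1) = 0 := by linear_combination e00
  rcases psl_zd hn h4 with h5 | h5
  · exfalso
    apply h1
    have ha : x.val 0 0 = 1 := by linear_combination h5
    apply G.SL_ext
    · rw [G.one00, ha]
    · rw [G.one01, hb]
    · rw [G.one10, hc]
    · rw [G.one11]
      rw [ha] at hd
      linear_combination hd
  · have ha : x.val 0 0 = -1 := by linear_combination h5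
    apply G.SL_ext
    · rw [G.SL_neg, G.one00, ha]
    · rw [G.SL_neg, G.one01, hb, neg_zero]
    · rw [G.SL_neg, G.one10, hc, neg_zero]
    · rw [G.SL_neg, G.one11]
      rw [ha] at hd
      linear_combination -hd

theorem psl_SLm_neg {R S : Type} [CommRing R] [CommRing S] (f : R →+* S) (g : SL2 R) :
    SLm f (-g) = -SLm f g := by
  apply G.SL_ext <;> exact map_neg f _

theorem psl_r_neg (u : ZMod 3) (hu : u * u = (a : ZMod 3) + (b : ZMod 3) * u) (g : GQ a b) :
    r3 u hu (-g) = -r3 u hu g :=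
  psl_SLm_neg (evq a b (Int.castRingHom (ZMod 3)) u hu) g

/-- the homomorphism `PSL₂(ℤ[w]) → PSL₂(3)` -/
def psl_q (u : ZMod 3) (hu : u * u = (a : ZMod 3) + (b : ZMod 3) * u) :
    (GQ a b ⧸ pm (Qf a b ℤ)) →* (SL2 (ZMod 3) ⧸ pm (ZMod 3)) :=
  QuotientGroup.lift (pm (Qf a b ℤ)) ((pj (ZMod 3)).comp (r3 u hu)) (by
    rintro g (rfl | rfl)
    · exact map_one _
    · show pj (ZMod 3) (r3 u hu (-1 : GQ a b)) = 1
      rw [psl_r_neg, map_one, pj_neg, map_one])

theorem psl_ne : (-1 : SL2 (ZMod 3)) ≠ 1 := by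
  intro h
  have h1 := congrArg (fun g : SL2 (ZMod 3) => g.val 0 0) h
  simp only [G.SL_neg, G.one00] at h1
  exact absurd h1 (by decide)

/-- the fibre product -/
def psl_N {L : Type} [Group L] (q : L →* SL2 (ZMod 3) ⧸ pm (ZMod 3)) :
    Subgroup (L × SL2 (ZMod 3)) :=
  ((MonoidHom.fst (SL2 (ZMod 3) ⧸ pm (ZMod 3)) (SL2 (ZMod 3) ⧸ pm (ZMod 3))).eqLocus
    (MonoidHom.snd _ _)).comap
    ((q.comp (MonoidHom.fst L (SL2 (ZMod 3)))).prod
      ((pj (ZMod 3)).comp (MonoidHom.snd L (SL2 (ZMod 3)))))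

theorem psl_mem {L : Type} [Group L] (q : L →* SL2 (ZMod 3) ⧸ pm (ZMod 3))
    (x : L × SL2 (ZMod 3)) : x ∈ psl_N q ↔ q x.1 = pj (ZMod 3) x.2 := Iff.rfl

/-- `SL₂(ℤ[w])` is the fibre product -/
def psl_iota (u : ZMod 3) (hu : u * u = (a : ZMod 3) + (b : ZMod 3) * u) :
    GQ a b →* psl_N (psl_q u hu) :=
  ((pj (Qf a b ℤ)).prod (r3 u hu)).codRestrict _ fun _ => rfl

theorem psl_iota_bij (u : ZMod 3) (hu : u * u = (a : ZMod 3) + (b : ZMod 3) * u) :
    Function.Bijective (psl_iota u hu) := by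
  constructor
  · rw [injective_iff_map_eq_one]
    intro g hg
    have h0 : ((psl_iota u hu g : psl_N (psl_q u hu)) :
        (GQ a b ⧸ pm (Qf a b ℤ)) × SL2 (ZMod 3)) = 1 := by
      rw [hg]; rfl
    have h1 : pj (Qf a b ℤ) g = 1 := congrArg Prod.fst h0
    have h2 : r3 u hu g = 1 := congrArg Prod.snd h0
    rcases pj_eq_one h1 with h3 | h3
    · exact h3
    · exfalso
      rw [h3, psl_r_neg, map_one] at h2
      exact psl_ne h2
  · rintro ⟨⟨y, c⟩, hy⟩
    obtain ⟨g, rfl⟩ := QuotientGroup.mk'_surjective (pm (Qf a b ℤ)) y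
    have h1 : pj (ZMod 3) (r3 u hu g) = pj (ZMod 3) c := hy
    rcases pj_eq h1 with h2 | h2
    · refine ⟨g, Subtype.ext (Prod.ext rfl h2)⟩
    · refine ⟨-g, Subtype.ext (Prod.ext (pj_neg g) ?_)⟩
      show r3 u hu (-g) = c
      rw [psl_r_neg, h2, neg_neg]

/-- the central involution of the fibre product -/
def psl_k {L : Type} [Group L] (q : L →* SL2 (ZMod 3) ⧸ pm (ZMod 3)) : psl_N q :=
  ⟨(1, -1), by
    rw [psl_mem]
    show q 1 = pj (ZMod 3) (-1)
    rw [map_one, pj_neg, map_one]⟩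

/-- the projection of the fibre product -/
def psl_pr {L : Type} [Group L] (q : L →* SL2 (ZMod 3) ⧸ pm (ZMod 3)) : psl_N q →* L :=
  (MonoidHom.fst L (SL2 (ZMod 3))).comp (psl_N q).subtype

theorem psl_pr_sur {L : Type} [Group L] (q : L →* SL2 (ZMod 3) ⧸ pm (ZMod 3)) :
    Function.Surjective (psl_pr q) := by
  intro l
  obtain ⟨b, hb⟩ := QuotientGroup.mk'_surjective (pm (ZMod 3)) (q l)
  exact ⟨⟨(l, b), hb.symm⟩, rfl⟩

theorem psl_pr_ker {L : Type} [Group L] (q : L →* SL2 (ZMod 3) ⧸ pm (ZMod 3)) (x : psl_N q) :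
    psl_pr q x = 1 ↔ x = 1 ∨ x = psl_k q := by
  constructor
  · intro h
    obtain ⟨⟨l, b⟩, hx⟩ := x
    have hl : l = 1 := h
    subst hl
    have h1 : q 1 = pj (ZMod 3) b := hx
    rw [map_one] at h1
    rcases pj_eq_one h1.symm with h2 | h2
    · left; subst h2; rfl
    · right; subst h2; rfl
  · rintro (rfl | rfl)
    · exact map_one _
    · rfl

theorem psl_k_ne {L : Type} [Group L] (q : L →* SL2 (ZMod 3) ⧸ pm (ZMod 3)) : psl_k q ≠ 1 := by
  intro h
  have h1 : (-1 : SL2 (ZMod 3)) = 1 := congrArg (fun x : psl_N q => x.1.2) h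
  exact psl_ne h1

theorem psl_k_sq {L : Type} [Group L] (q : L →* SL2 (ZMod 3) ⧸ pm (ZMod 3)) :
    psl_k q * psl_k q = 1 := by
  apply Subtype.ext
  show ((1 : L) * 1, (-1 : SL2 (ZMod 3)) * -1) = (1, 1)
  rw [one_mul, neg_mul_neg, one_mul]

/-- [BG T_psl] from `SL₂` to `PSL₂` -/
theorem p_psl (a b : ℤ) (u : ZMod 3) (hu : u * u = (a : ZMod 3) + (b : ZMod 3) * u)
    (hprd : PIC.S_prd) : T_psl a b u hu := by
  intro H hR Λ _ h
  obtain ⟨hΛ, hrf, hs⟩ := h
  have hfg : Group.FG (GQ a b) := psl_fg H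
  have hP : Group.FG (GQ a b ⧸ pm (Qf a b ℤ)) :=
    Group.fg_of_surjective (f := pj (Qf a b ℤ)) (QuotientGroup.mk'_surjective _)
  obtain ⟨Φ⟩ := exists_natBij hs.symm
  obtain ⟨Ψ, hΨ⟩ := hprd (GQ a b ⧸ pm (Qf a b ℤ)) Λ (SL2 (ZMod 3)) Φ
  let q' : Λ →* SL2 (ZMod 3) ⧸ pm (ZMod 3) := Φ.toFun _ (psl_q u hu)
  have h1 : Ψ.toFun _ (((psl_q u hu).comp (MonoidHom.fst _ (SL2 (ZMod 3)))).prod
      ((pj (ZMod 3)).comp (MonoidHom.snd (GQ a b ⧸ pm (Qf a b ℤ)) (SL2 (ZMod 3))))) =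
      (q'.comp (MonoidHom.fst Λ (SL2 (ZMod 3)))).prod
      ((pj (ZMod 3)).comp (MonoidHom.snd Λ (SL2 (ZMod 3)))) := by
    rw [pair_prod, (hΨ _).1, (hΨ _).2]
  obtain ⟨Ξ, -⟩ := natBij_comap Ψ h1
    ((MonoidHom.fst (SL2 (ZMod 3) ⧸ pm (ZMod 3)) (SL2 (ZMod 3) ⧸ pm (ZMod 3))).eqLocus
      (MonoidHom.snd _ _))
  have Ξ' : NatBij (psl_N (psl_q u hu)) (psl_N q') := Ξ
  let e : GQ a b ≃* psl_N (psl_q u hu) := MulEquiv.ofBijective (psl_iota u hu) (psl_iota_bij u hu)
  have hsame : SameFiniteQuotients (psl_N q') (GQ a b) := (psl_same (natBij_equiv e Ξ')).symm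
  have hBfg : Group.FG (SL2 (ZMod 3)) := inferInstance
  have hprodfg : Group.FG (Λ × SL2 (ZMod 3)) := inferInstance
  have hfi : (psl_N q').FiniteIndex := by
    have hle : ((q'.comp (MonoidHom.fst Λ (SL2 (ZMod 3)))).prod
      ((pj (ZMod 3)).comp (MonoidHom.snd Λ (SL2 (ZMod 3))))).ker ≤ psl_N q' := by
      intro x hx
      rw [MonoidHom.mem_ker] at hx
      rw [psl_mem]
      have h2 : q' x.1 = 1 := congrArg Prod.fst hx
      have h3 : pj (ZMod 3) x.2 = 1 := congrArg Prod.snd hx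
      rw [h2, h3]
    have h4 : ((q'.comp (MonoidHom.fst Λ (SL2 (ZMod 3)))).prod
      ((pj (ZMod 3)).comp (MonoidHom.snd Λ (SL2 (ZMod 3))))).ker.FiniteIndex :=
      Subgroup.finiteIndex_ker _
    exact Subgroup.finiteIndex_of_le hle
  have hNfg : Group.FG (psl_N q') := Subgroup.fg_of_index_ne_zero _
  have hNrf : Group.ResiduallyFinite (psl_N q') := inferInstance
  obtain ⟨f⟩ := hR (psl_N q') ⟨hNfg, hNrf, hsame⟩
  have hfk : f (psl_k q') = -1 := by
    apply psl_inv H.neg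
    · rw [← map_mul, psl_k_sq, map_one]
    · intro h2
      exact psl_k_ne q' (f.injective (by rw [h2, map_one]))
  let g : psl_N q' →* GQ a b ⧸ pm (Qf a b ℤ) := (pj (Qf a b ℤ)).comp f.toMonoidHom
  have hg : Function.Surjective g :=
    (QuotientGroup.mk'_surjective (pm (Qf a b ℤ))).comp f.surjective
  have hker : (psl_pr q').ker = g.ker := by
    ext x
    rw [MonoidHom.mem_ker, MonoidHom.mem_ker, psl_pr_ker]
    constructor
    · rintro (rfl | rfl)
      · exact map_one _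
      · show pj (Qf a b ℤ) (f (psl_k q')) = 1
        rw [hfk, pj_neg, map_one]
    · intro hx
      have hx' : pj (Qf a b ℤ) (f x) = 1 := hx
      rcases pj_eq_one hx' with h2 | h2
      · left
        exact f.injective (by rw [h2, map_one])
      · right
        exact f.injective (by rw [h2, hfk])
  exact ⟨(QuotientGroup.quotientKerEquivOfSurjective (psl_pr q') (psl_pr_sur q')).symm.trans
    ((QuotientGroup.quotientMulEquivOfEq hker).trans
      (QuotientGroup.quotientKerEquivOfSurjective g hg))⟩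

end psl

end

end Pool.Agent.F8.BG
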