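import Pool.Agent.Lib.MP_305fdd_al.F8.BG.StmT

/-!
# MP_305fdd_al, Bianchi groups: matching of property P (piece px)
-/

set_option autoImplicit false

namespace Pool.Agent.F8.BG

open Pool.Agent.MP_305fdd_al Pool.Agent.Lib.MP_305fdd_al Pool.Agent.F2X Pool.Agent.F8
  Pool.Agent.F8.HN Pool.Agent.F8.AB Pool.Agent.F8.D7
open scoped QuadraticAlgebra

private theorem px_one {G H : Type} [Group G] [Group H] (Ψ : NatBij G H) (Q : Type) [Group Q]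
    [Finite Q] : Ψ.toFun Q 1 = 1 := by
  have h := Ψ.nat (1 : Q →* Q) (1 : G →* Q)
  rw [MonoidHom.one_comp, MonoidHom.one_comp] at h
  exact h

/-- the matching for one subgroup -/
private theorem px_pt (hmt : S_mt) {G Λ : Type} [Group G] [Group Λ] (Φ : NatBij G Λ)
    (r : G →* SL2 (ZMod 3))
    (k : Type) [Field k] [Finite k] (ρ : Λ →* SL2 k)
    (h : PIC.Pt ((PIC.UP (ZMod 3)).comap (Φ.toFun _ r)) ρ) :
    PIC.Pt ((PIC.UP (ZMod 3)).comap r) (Φ.invFun _ ρ) := by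
  obtain ⟨Ψ, hΨ⟩ : ∃ Ψ : NatBij ((PIC.UP (ZMod 3)).comap r)
      ((PIC.UP (ZMod 3)).comap (Φ.toFun _ r)), ∀ (R : Type) [Group R] [Finite R] (θ : G →* R),
      Ψ.toFun R (θ.comp ((PIC.UP (ZMod 3)).comap r).subtype) =
        (Φ.toFun R θ).comp ((PIC.UP (ZMod 3)).comap (Φ.toFun _ r)).subtype :=
    natBij_comap Φ (π := r) (π' := Φ.toFun _ r) rfl (PIC.UP (ZMod 3))
  obtain ⟨hirr, Θ, h1, h2, h3⟩ := h
  have hΨi : Ψ.toFun _ ((Φ.invFun _ ρ).comp ((PIC.UP (ZMod 3)).comap r).subtype) =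
      ρ.comp ((PIC.UP (ZMod 3)).comap (Φ.toFun _ r)).subtype := by
    have h := hΨ (SL2 k) (Φ.invFun _ ρ)
    rw [Φ.right_inv] at h
    exact h
  obtain ⟨m1, m2, m3, m4⟩ := hmt _ _ Ψ k (Ψ.invFun _ Θ)
  rw [Ψ.right_inv] at m1 m2 m3 m4
  have e1 : Q2.mH.comp (Ψ.invFun _ Θ) =
      (Φ.invFun _ ρ).comp ((PIC.UP (ZMod 3)).comap r).subtype := by
    apply Ψ.injective
    rw [← m2, h1, hΨi]
  have e2 : Q2.tH.comp (Ψ.invFun _ Θ) = 1 := by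
    apply Ψ.injective
    rw [← m1, h2, px_one]
  refine ⟨?_, Ψ.invFun _ Θ, e1, e2, m3.1 h3⟩
  rw [← e1]
  apply m4.1
  rw [h1]
  exact hirr

theorem p_px (a b : ℤ) (u : ZMod 3) (hu : u * u = (a : ZMod 3) + (b : ZMod 3) * u)
    (hmt : S_mt) (hmp : S_mp) : T_px a b u hu := by
  intro _ Λ _ Φ k _ _ N ⟨ρ, hP, hne⟩
  refine ⟨fun i => Φ.invFun _ (ρ i), fun i => ⟨px_pt hmt Φ (r3 u hu) k (ρ i) (hP i).1,
    px_pt hmt Φ (r3 ((b : ZMod 3) - u) (rt_cj hu)) k (ρ i) (hP i).2⟩, fun i j hij => ?_⟩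
  obtain ⟨g, hg⟩ := hne i j hij
  obtain ⟨h5, h6⟩ := hmp (GQ a b) Λ Φ (SL2 k) (SL2 k) (Φ.invFun _ (ρ i)) (Φ.invFun _ (ρ j))
  rw [Φ.right_inv, Φ.right_inv] at h6
  obtain ⟨g', hg1, hg2⟩ := h6 g
  refine ⟨g', ?_⟩
  show tr (Φ.invFun _ (ρ i) g') ≠ tr (Φ.invFun _ (ρ j) g')
  rw [← hg1, ← hg2]
  exact hg

end Pool.Agent.F8.BG
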