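import Pool.Agent.Lib.MP_305fdd_al.F8.BG.StmU

/-!
# [BG rel11] the last relation of the presentation for `ℚ(√-11)`
-/

set_option autoImplicit false

namespace Pool.Agent.F8.BG

open Pool.Agent.MP_305fdd_al Pool.Agent.Lib.MP_305fdd_al Pool.Agent.F2X Pool.Agent.F8
  Pool.Agent.F8.HN
open scoped QuadraticAlgebra

/-- the relation `X³ = -1 = B²`, `X = B T U⁻¹ B U` -/
theorem rel11_r : mB _ * mU 1 * (mU (wq (-3) 1 ℤ))⁻¹ * mB _ * mU (wq (-3) 1 ℤ) *
    (mB _ * mU 1 * (mU (wq (-3) 1 ℤ))⁻¹ * mB _ * mU (wq (-3) 1 ℤ)) *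
    (mB _ * mU 1 * (mU (wq (-3) 1 ℤ))⁻¹ * mB _ * mU (wq (-3) 1 ℤ)) =
    (mB _ * mB _ : GQ (-3) 1) := by decide

/-- the inverse in `SL₂` -/
theorem rel11_inv {K : Type} [CommRing K] (g : SL2 K) :
    (g⁻¹).val = !![g.val 1 1, -g.val 0 1; -g.val 1 0, g.val 0 0] := by
  rw [Matrix.SpecialLinearGroup.SL2_inv_expl]
  rfl

/-- A matrix with `X³ = -1` has trace `1` or is scalar, `-1`. -/
theorem rel11_X {K : Type} [Field K] {m n k l : K} (hd : m * l - n * k = 1)
    (h : !![m, n; k, l] * !![m, n; k, l] * !![m, n; k, l] = !![(-1 : K), 0; 0, -1]) :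
    m + l = 1 ∨ (m = -1 ∧ n = 0 ∧ k = 0 ∧ l = -1) := by
  rw [Matrix.mul_fin_two, Matrix.mul_fin_two] at h
  have e1 : (m * m + n * k) * m + (m * n + n * l) * k = -1 := congrFun (congrFun h 0) 0
  have e2 : (m * m + n * k) * n + (m * n + n * l) * l = 0 := congrFun (congrFun h 0) 1
  have e3 : (k * m + l * k) * m + (k * n + l * l) * k = 0 := congrFun (congrFun h 1) 0
  have e4 : (k * m + l * k) * n + (k * n + l * l) * l = -1 := congrFun (congrFun h 1) 1
  -- `((m + l) ^ 2 - 1) X = (m + l) - 1`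
  have f1 : (m + l - 1) * ((m + l + 1) * m - 1) = 0 := by
    linear_combination e1 + (2 * m + l) * hd
  have f4 : (m + l - 1) * ((m + l + 1) * l - 1) = 0 := by
    linear_combination e4 + (2 * l + m) * hd
  have f2 : (m + l - 1) * ((m + l + 1) * n) = 0 := by
    linear_combination e2 + n * hd
  have f3 : (m + l - 1) * ((m + l + 1) * k) = 0 := by
    linear_combination e3 + k * hd
  by_cases h1 : m + l = 1
  · exact Or.inl h1
  · right
    have h2 : m + l - 1 ≠ 0 := fun h => h1 (sub_eq_zero.1 h)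
    have g1 := (mul_eq_zero.1 f1).resolve_left h2
    have g2 := (mul_eq_zero.1 f2).resolve_left h2
    have g3 := (mul_eq_zero.1 f3).resolve_left h2
    have g4 := (mul_eq_zero.1 f4).resolve_left h2
    have h3 : m + l + 1 ≠ 0 := by
      intro h
      rw [h, zero_mul] at g1
      exact one_ne_zero (show (1 : K) = 0 by linear_combination -g1)
    have n0 := (mul_eq_zero.1 g2).resolve_left h3
    have k0 := (mul_eq_zero.1 g3).resolve_left h3
    have ml : m = l := mul_left_cancel₀ h3 (by linear_combination g1 - g4)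
    subst ml
    have hm : m = -1 := by
      rw [n0, k0] at e1 hd
      linear_combination e1 - m * hd
    exact ⟨hm, n0, k0, hm⟩

theorem p_rel11 : U_rel11 := by
  intro K _ h2 ρ s p c f h
  obtain ⟨hs, he1, he2, hB, hT, hU⟩ := h
  obtain ⟨X, hX⟩ : ∃ X : SL2 K, X = ρ (mB _) * ρ (mU 1) * (ρ (mU (wq (-3) 1 ℤ)))⁻¹ * ρ (mB _) *
    ρ (mU (wq (-3) 1 ℤ)) := ⟨_, rfl⟩
  have hU' : ((ρ (mU (wq (-3) 1 ℤ)))⁻¹).val =
      !![c, f * ((s + 1) / 2); f * ((s - 1) / 2), c] := by rw [← map_inv, hU]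
  have hV : (ρ (mU (wq (-3) 1 ℤ))).val =
      !![c, -(f * ((s + 1) / 2)); -(f * ((s - 1) / 2)), c] := by
    have h3 := rel11_inv (ρ (mU (wq (-3) 1 ℤ)))⁻¹
    rw [inv_inv, hU'] at h3
    rw [h3]
    rfl
  have hXv : X.val = !![0, -1; 1, 0] * !![p, (s + 1) / 2; (s - 1) / 2, p] *
      !![c, f * ((s + 1) / 2); f * ((s - 1) / 2), c] * !![0, -1; 1, 0] *
      !![c, -(f * ((s + 1) / 2)); -(f * ((s - 1) / 2)), c] := by
    rw [← hB, ← hT, ← hU', ← hV, hX]
    rfl
  have hX3 : X.val * X.val * X.val = !![0, -1; 1, 0] * !![0, -1; 1, 0] := by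
    rw [← hB]
    have h4 : (ρ (mB _)).val * (ρ (mB _)).val = (ρ (mB _ * mB _)).val := by
      rw [map_mul]
      rfl
    rw [h4, ← rel11_r]
    simp only [map_mul, map_inv]
    rw [hX]
    rfl
  have hx : ∃ x, x = (s + 1) / 2 := ⟨_, rfl⟩
  obtain ⟨x, hx⟩ := hx
  have hy : ∃ y, y = (s - 1) / 2 := ⟨_, rfl⟩
  obtain ⟨y, hy⟩ := hy
  have hxs : 2 * x = s + 1 := by rw [hx]; field_simp
  have hys : 2 * y = s - 1 := by rw [hy]; field_simp
  have hxy : x = y + 1 := mul_left_cancel₀ h2 (by linear_combination hxs - hys)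
  have hxy' : x + y = s := mul_left_cancel₀ h2 (by linear_combination hxs + hys)
  rw [← hx, ← hy] at hXv
  have hdet := X.det_coe
  obtain ⟨m, hm⟩ : ∃ m, m = X.val 0 0 := ⟨_, rfl⟩
  obtain ⟨n, hn⟩ : ∃ n, n = X.val 0 1 := ⟨_, rfl⟩
  obtain ⟨k, hk⟩ : ∃ k, k = X.val 1 0 := ⟨_, rfl⟩
  obtain ⟨l, hl⟩ : ∃ l, l = X.val 1 1 := ⟨_, rfl⟩
  have hE : X.val = !![m, n; k, l] := by
    rw [hm, hn, hk, hl]
    exact Matrix.eta_fin_two _
  have hd : m * l - n * k = 1 := by
    have h5 : X.val.det = 1 := hdet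
    rw [hE, Matrix.det_fin_two_of] at h5
    exact h5
  have hX3' : !![m, n; k, l] * !![m, n; k, l] * !![m, n; k, l] = !![(-1 : K), 0; 0, -1] := by
    rw [← hE, hX3, Matrix.mul_fin_two]
    simp
  -- the entries
  rw [hE] at hXv
  simp only [Matrix.mul_fin_two] at hXv
  have e1 := congrFun (congrFun hXv 0) 0
  have e2 := congrFun (congrFun hXv 0) 1
  have e3 := congrFun (congrFun hXv 1) 0
  have e4 := congrFun (congrFun hXv 1) 1
  simp only [Matrix.of_apply, Matrix.cons_val_zero, Matrix.cons_val_one, Matrix.cons_val',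
    Matrix.cons_val_fin_one] at e1 e2 e3 e4
  have h4 : (2 : K) * 2 ≠ 0 := mul_ne_zero h2 h2
  have hc : c ^ 2 - f ^ 2 * (x * y) = 1 := mul_left_cancel₀ h4 (by
    linear_combination he2 - (f ^ 2 * (s + 1)) * hys - (f ^ 2 * 2 * y) * hxs)
  rcases rel11_X hd hX3' with h5 | ⟨h6, h7, h8, h9⟩
  · rw [← hxy']
    linear_combination e1 + e4 - h5 - 2 * p * hc
  · exfalso
    rw [h6] at e1
    rw [h7] at e2
    rw [h8] at e3
    rw [h9] at e4
    have a1 : (p * f + c) * f = 0 := by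
      apply mul_left_cancel₀ hs
      rw [← hxy']
      linear_combination e4 - e1 - ((x + y) * (p * f + c) * f) * hxy
    have a2 : (p * f + c) * c + (p * c + x * y * f) * f = 0 := by
      apply mul_left_cancel₀ hs
      rw [← hxy']
      linear_combination -e2 - e3
    have a3 : (p * f + c) * c - (p * c + x * y * f) * f = 0 := by
      linear_combination e2 - e3 - ((p * f + c) * c - (p * c + x * y * f) * f) * hxy
    have a4 : (p * f + c) * c = 0 := mul_left_cancel₀ h2 (by linear_combination a2 + a3)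
    have a5 : (p * c + x * y * f) * f = 0 := mul_left_cancel₀ h2 (by linear_combination a2 - a3)
    have a6 : (p * c + x * y * f) * c = 1 := by
      linear_combination e1 - y ^ 2 * a1
    have a7 : c ≠ 0 := by
      rintro rfl
      rw [mul_zero] at a6
      exact zero_ne_one a6
    have a8 : p * c + x * y * f ≠ 0 := by
      intro h
      rw [h, zero_mul] at a6
      exact zero_ne_one a6
    have a9 : f = 0 := (mul_eq_zero.1 a5).resolve_left a8
    have b1 : p * f + c = 0 := (mul_eq_zero.1 a4).resolve_right a7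
    rw [a9, mul_zero, zero_add] at b1
    exact a7 b1

end Pool.Agent.F8.BG
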