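import Pool.Agent.Lib.MP_305fdd_al.F8.BG.StmU

/-!
# MP_305fdd_al, Bianchi groups: proof of `U_rel2`
-/

set_option autoImplicit false

namespace Pool.Agent.F8.BG

open Pool.Agent.MP_305fdd_al Pool.Agent.Lib.MP_305fdd_al Pool.Agent.F2X Pool.Agent.F8
  Pool.Agent.F8.HN
open scoped QuadraticAlgebra

/-- the relation `X² = B²` for `X = B u⁻¹ B u` -/
theorem rel2_word : (mB (Qf (-2) 0 ℤ) * (mU (wq (-2) 0 ℤ))⁻¹ * mB _ * mU (wq (-2) 0 ℤ)) *
    (mB (Qf (-2) 0 ℤ) * (mU (wq (-2) 0 ℤ))⁻¹ * mB _ * mU (wq (-2) 0 ℤ)) = mB _ * mB _ := by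
  decide

theorem rel2_inv {K : Type} [Field K] (g : SL2 K) (a b c d : K) (h : g.val = !![a, b; c, d]) :
    (g⁻¹).val = !![d, -b; -c, a] := by
  rw [Matrix.SpecialLinearGroup.coe_inv, h, Matrix.adjugate_fin_two_of]

/-- the computation -/
theorem rel2_calc {K : Type} [Field K] (x y c f : K)
    (hd : c * c - f * x * (f * y) = 1)
    (h : (!![0, -1; 1, 0] * !![c, f * x; f * y, c] * !![0, -1; 1, 0] * !![c, -(f * x); -(f * y), c]) *
      (!![0, -1; 1, 0] * !![c, f * x; f * y, c] * !![0, -1; 1, 0] * !![c, -(f * x); -(f * y), c]) =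
      (!![0, -1; 1, 0] * !![0, -1; 1, 0] : Matrix (Fin 2) (Fin 2) K)) :
    2 * c ^ 2 + f ^ 2 * (x ^ 2 + y ^ 2) = 0 := by
  simp only [Matrix.mul_fin_two] at h
  have h00 := congrFun (congrFun h 0) 0
  have h01 := congrFun (congrFun h 0) 1
  have h11 := congrFun (congrFun h 1) 1
  simp only [Matrix.of_apply, Matrix.cons_val', Matrix.cons_val_zero, Matrix.cons_val_one,
    Matrix.cons_val_fin_one, Matrix.empty_val'] at h00 h01 h11
  set t := 2 * c ^ 2 + f ^ 2 * (x ^ 2 + y ^ 2) with ht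
  have e00 : t * (f ^ 2 * y ^ 2 + c ^ 2) = 0 := by
    rw [ht]
    linear_combination h00 + (c * c - f * x * (f * y) + 1) * hd
  have e01 : t * (c * f * (x + y)) = 0 := by
    rw [ht]
    linear_combination -h01
  have e11 : t * (f ^ 2 * x ^ 2 + c ^ 2) = 0 := by
    rw [ht]
    linear_combination h11 + (c * c - f * x * (f * y) + 1) * hd
  linear_combination (f ^ 2 * x ^ 2 + c ^ 2) * e00 - c * f * (x + y) * e01 -
    t * (c * c - f * x * (f * y) + 1) * hd

/-- **[BG U_rel2]** -/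
theorem p_rel2 : U_rel2 := by
  intro K _ h2 ρ s p c f hN
  have h4 : (4 : K) ≠ 0 := by
    have : (4 : K) = 2 * 2 := by norm_num
    rw [this]
    exact mul_ne_zero h2 h2
  have hw := congrArg (fun g => (ρ g).val) rel2_word
  simp only [map_mul, Matrix.SpecialLinearGroup.coe_mul] at hw
  have hU := hN.U
  have hU' : (ρ (mU (wq (-2) 0 ℤ))).val =
      !![c, -(f * ((s + 1) / 2)); -(f * ((s - 1) / 2)), c] := by
    have h := rel2_inv _ _ _ _ _ hU
    rw [map_inv, inv_inv] at h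
    exact h
  rw [hN.B, hU, hU'] at hw
  have hd : c * c - f * ((s + 1) / 2) * (f * ((s - 1) / 2)) = 1 := by
    have h := (ρ (mU (wq (-2) 0 ℤ))⁻¹).property
    rw [hU, Matrix.det_fin_two_of] at h
    exact h
  have h := rel2_calc _ _ _ _ hd hw
  have h' : 4 * c ^ 2 + f ^ 2 * (s ^ 2 + 1) = 0 := by
    have e : 4 * c ^ 2 + f ^ 2 * (s ^ 2 + 1) =
        2 * (2 * c ^ 2 + f ^ 2 * (((s + 1) / 2) ^ 2 + ((s - 1) / 2) ^ 2)) := by
      field_simp
      ring
    rw [e, h, mul_zero]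
  have e2 := hN.e2
  have e3 : f ^ 2 * s ^ 2 = -2 := by
    apply mul_left_cancel₀ h2
    linear_combination h' - e2
  exact ⟨e3, by linear_combination h' - e3⟩

end Pool.Agent.F8.BG
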