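import Pool.Agent.Lib.MP_305fdd_al.F8.BG.StmT

/-!
# MP_305fdd_al, Bianchi groups: piece [BG sq]

A local-global principle for a fixed integer times squares.
-/

set_option autoImplicit false

namespace Pool.Agent.F8.BG

/-- `-1` is not a square in `ℚ_3` -/
private theorem sq_three (u m : ℚ_[3]) (hm : m ≠ 0) (h : u * u = -(m * m)) : False := by
  have hz : (u / m) * (u / m) = -1 := by
    field_simp
    linear_combination h
  have hn : ‖u / m‖ = 1 := by
    have h1 : ‖u / m‖ * ‖u / m‖ = 1 := by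
      rw [← norm_mul, hz, norm_neg, norm_one]
    nlinarith [norm_nonneg (u / m)]
  obtain ⟨z, hz'⟩ : ∃ z : ℤ_[3], (z : ℚ_[3]) = u / m := ⟨⟨u / m, hn.le⟩, rfl⟩
  have h2 : z * z = (-1 : ℤ_[3]) := by
    apply Subtype.ext
    rw [PadicInt.coe_mul, PadicInt.coe_neg, PadicInt.coe_one, hz']
    exact hz
  have h3 := congrArg (PadicInt.toZMod (p := 3)) h2
  rw [map_mul, map_neg, map_one] at h3
  have h4 : ∀ x : ZMod 3, x * x ≠ -1 := by decide
  exact h4 _ h3

/-- the valuation of an integer which is a square is even -/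
private theorem sq_val (p : ℕ) [Fact p.Prime] (M : ℤ) (hM : M ≠ 0)
    (h : ∃ y : ℚ_[p], (M : ℚ_[p]) = y * y) : ∃ k : ℤ, (padicValInt p M : ℤ) = k + k := by
  obtain ⟨y, hy⟩ := h
  have hy0 : y ≠ 0 := by
    rintro rfl
    rw [mul_zero] at hy
    exact hM (by exact_mod_cast hy)
  refine ⟨y.valuation, ?_⟩
  rw [← Padic.valuation_intCast, hy, Padic.valuation_mul hy0 hy0]

/-- a positive integer with even valuations is a square -/
private theorem sq_nat (n : ℕ) (hn : n ≠ 0)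
    (h : ∀ p : ℕ, p.Prime → ∃ k : ℤ, (padicValNat p n : ℤ) = k + k) : ∃ m : ℕ, n = m * m := by
  obtain ⟨a, b, hab, ha⟩ := Nat.sq_mul_squarefree n
  have ha0 : a ≠ 0 := ha.ne_zero
  have hb0 : b ≠ 0 := by
    rintro rfl
    apply hn
    rw [← hab]; simp
  by_cases ha1 : a = 1
  · refine ⟨b, ?_⟩
    rw [← hab, ha1]; ring
  · exfalso
    obtain ⟨p, hp, hpa⟩ := Nat.exists_prime_and_dvd ha1
    have : Fact p.Prime := ⟨hp⟩
    obtain ⟨k, hk⟩ := h p hp
    rw [← hab, padicValNat.mul (pow_ne_zero 2 hb0) ha0, padicValNat.pow] at hk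
    have h1 : 1 ≤ padicValNat p a := one_le_padicValNat_of_dvd ha0 hpa
    have h2 : padicValNat p a ≤ 1 := by
      by_contra h3
      have h4 : p ^ 2 ∣ a := (padicValNat_dvd_iff_le ha0).2 (by omega)
      have h5 := ha p (by rwa [← pow_two])
      exact hp.one_lt.ne' (Nat.isUnit_iff.1 h5)
    omega

/-- local divisibility implies divisibility -/
private theorem sq_dvd (D N : ℤ) (h : ∀ (p : ℕ) [Fact p.Prime], ∃ y : ℤ_[p],
    (N : ℤ_[p]) = D * (y * y)) : D ∣ N := by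
  rw [← Int.natAbs_dvd_natAbs, Nat.dvd_iff_prime_pow_dvd_dvd]
  intro p k hp hk
  have fp : Fact p.Prime := ⟨hp⟩
  obtain ⟨y, hy⟩ := h p
  have h1 : ((p : ℤ) ^ k) ∣ D := by
    have h2 : ((p ^ k : ℕ) : ℤ) ∣ D := Int.natCast_dvd.2 hk
    exact_mod_cast h2
  have h2 := (PadicInt.norm_int_le_pow_iff_dvd (p := p) (k := D) (n := k)).2 h1
  have h3 : ‖((N : ℤ) : ℤ_[p])‖ ≤ (p : ℝ) ^ (-k : ℤ) := by
    rw [hy, norm_mul]
    have h6 := (y * y).norm_le_one
    have h7 := norm_nonneg ((D : ℤ) : ℤ_[p])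
    have h8 := norm_nonneg (y * y)
    nlinarith
  have h4 := (PadicInt.norm_int_le_pow_iff_dvd (p := p) (k := N) (n := k)).1 h3
  have h5 : ((p ^ k : ℕ) : ℤ) ∣ N := by exact_mod_cast h4
  exact Int.natCast_dvd.1 h5

theorem p_sq : T_sq := by
  intro D N hD h
  by_cases hN0 : N = 0
  · exact ⟨0, by rw [hN0]; ring⟩
  obtain ⟨M, hDM⟩ := sq_dvd D N h
  have f3 : Fact (Nat.Prime 3) := ⟨by norm_num⟩
  have hM : M ≠ 0 := by
    rintro rfl
    apply hN0
    rw [hDM, mul_zero]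
  have hsq : ∀ (p : ℕ) [Fact p.Prime], ∃ y : ℚ_[p], ((M : ℤ) : ℚ_[p]) = y * y := by
    intro p _
    obtain ⟨y, hy⟩ := h p
    refine ⟨(y : ℚ_[p]), ?_⟩
    have h1 : ((N : ℤ_[p]) : ℚ_[p]) = ((D * (y * y) : ℤ_[p]) : ℚ_[p]) := by rw [hy]
    rw [hDM] at h1
    push_cast at h1 ⊢
    have h7 : (D : ℚ_[p]) ≠ 0 := by exact_mod_cast hD
    exact mul_left_cancel₀ h7 h1
  obtain ⟨m, hm⟩ := sq_nat M.natAbs (by omega) (by
    intro p hp
    have : Fact p.Prime := ⟨hp⟩
    exact sq_val p M hM (hsq p))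
  rcases Int.natAbs_eq M with h | h
  · -- the positive case
    rw [hm] at h
    push_cast at h
    exact ⟨m, by rw [hDM, h]⟩
  · exfalso
    rw [hm] at h
    push_cast at h
    obtain ⟨y, hy⟩ := hsq 3
    rw [h] at hy
    push_cast at hy
    refine sq_three y m ?_ hy.symm
    intro h0
    have h1 : m = 0 := by exact_mod_cast h0
    rw [h1] at h
    apply hM
    push_cast at h
    omega

end Pool.Agent.F8.BG
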