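import Pool.Agent.Lib.MP_305fdd_al.F8.BG.StmU
import Pool.Agent.Lib.MP_305fdd_al.F8.PIC7.P_std

/-!
# MP_305fdd_al, [BG std] the standard representations
-/

set_option autoImplicit false

namespace Pool.Agent.F8.BG

open Pool.Agent.MP_305fdd_al Pool.Agent.Lib.MP_305fdd_al Pool.Agent.F2X Pool.Agent.F8
  Pool.Agent.F8.HN
open scoped QuadraticAlgebra

theorem std_uu (a b : ℤ) : (mU (wq a b ℤ))⁻¹ = mU (-(wq a b ℤ)) := by
  apply inv_eq_of_mul_eq_one_right
  rw [← G.mU_add, add_neg_cancel, G.mU_zero]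

/-- a representation with the standard values on the generators is standard -/
theorem std_main {a b : ℤ} (hgen : GenQ a b) (K : Type) [Field K] (w : K)
    (hw : w * w = (a : K) + (b : K) * w) (ρ : GQ a b →* SL2 K)
    (hB : (ρ (mB _)).val = !![0, -1; 1, 0])
    (hT : (ρ (mU 1)).val = !![1, 1; 0, 1])
    (hU : (ρ (mU (wq a b ℤ))⁻¹).val = !![1, -w; 0, 1]) (g : GQ a b) :
    ρ g = SLm (evq a b (Int.castRingHom K) w hw) g := by
  have hf : ∀ x y : ℤ, evq a b (Int.castRingHom K) w hw ⟨x, y⟩ = (x : K) + (y : K) * w :=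
    fun x y => rfl
  have key : ∀ h : GQ a b, ∀ p q r t : K, (ρ h).val = !![p, q; r, t] →
      evq a b (Int.castRingHom K) w hw (h.val 0 0) = p →
      evq a b (Int.castRingHom K) w hw (h.val 0 1) = q →
      evq a b (Int.castRingHom K) w hw (h.val 1 0) = r →
      evq a b (Int.castRingHom K) w hw (h.val 1 1) = t →
      h ∈ MonoidHom.eqLocus ρ (SLm (evq a b (Int.castRingHom K) w hw)) := by
    intro h p q r t h0 ha hb hc hd
    show ρ h = SLm (evq a b (Int.castRingHom K) w hw) h
    apply G.SL_ext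
    · rw [h0]; exact ha.symm
    · rw [h0]; exact hb.symm
    · rw [h0]; exact hc.symm
    · rw [h0]; exact hd.symm
  have hu : (mU (wq a b ℤ))⁻¹ ∈
      MonoidHom.eqLocus ρ (SLm (evq a b (Int.castRingHom K) w hw)) := by
    rw [std_uu] at hU ⊢
    refine key _ _ _ _ _ hU (map_one _) ?_ (map_zero _) (map_one _)
    show evq a b (Int.castRingHom K) w hw (-⟨0, 1⟩) = -w
    rw [map_neg, hf]; simp
  have hm := hgen (MonoidHom.eqLocus ρ (SLm (evq a b (Int.castRingHom K) w hw)))
    (key _ _ _ _ _ hT (map_one _) (map_one _) (map_zero _) (map_one _))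
    (by
      have h := Subgroup.inv_mem _ hu
      rw [inv_inv] at h
      exact h)
    (key _ _ _ _ _ hB (map_zero _) (by
      show evq a b (Int.castRingHom K) w hw (-1) = -1
      rw [map_neg, map_one]) (map_one _) (map_zero _)) g
  exact hm

theorem p_std (a b : ℤ) : U_std a b := by
  intro hgen K _ h2 ρ s f hN hff
  obtain ⟨hs, e1, e2, hB, hT, hU⟩ := hN
  have hs2 : (s - 1) * (s + 1) = 0 := by linear_combination (-1 : K) * e1
  have hw : (-f) * (-f) = (a : K) + (b : K) * (-f) := by linear_combination hff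
  rcases mul_eq_zero.1 hs2 with h | h
  · have h1 : s = 1 := by linear_combination h
    subst h1
    have hh : ((1 : K) + 1) / 2 = 1 := by
      rw [div_eq_iff h2]; ring
    have hh0 : ((1 : K) - 1) / 2 = 0 := by rw [sub_self, zero_div]
    rw [hh, hh0] at hT hU
    rw [mul_one, mul_zero] at hU
    refine ⟨-f, hw, fun g => ?_⟩
    rw [std_main hgen K (-f) hw ρ hB hT (by rw [neg_neg]; exact hU) g, tr_map]
  · have h1 : s = -1 := by linear_combination h
    subst h1
    have hh : ((-1 : K) + 1) / 2 = 0 := by rw [neg_add_cancel, zero_div]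
    have hh0 : ((-1 : K) - 1) / 2 = -1 := by
      rw [div_eq_iff h2]; ring
    rw [hh, hh0] at hT hU
    rw [mul_zero, mul_neg, mul_one] at hU
    refine ⟨-f, hw, fun g => ?_⟩
    have hm := std_main hgen K (-f) hw ((MulAut.conj (mB K)).toMonoidHom.comp ρ)
      (by
        show (mB K * ρ (mB _) * (mB K)⁻¹).val = _
        rw [PIC7.std_cj _ _ _ _ _ hB]
        simp)
      (by
        show (mB K * ρ (mU 1) * (mB K)⁻¹).val = _
        rw [PIC7.std_cj _ _ _ _ _ hT]
        simp)
      (by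
        show (mB K * ρ (mU (wq a b ℤ))⁻¹ * (mB K)⁻¹).val = _
        rw [PIC7.std_cj _ _ _ _ _ hU]
        simp) g
    have h3 : tr ((MulAut.conj (mB K)).toMonoidHom.comp ρ g) = tr (ρ g) :=
      PIC7.std_tr (mB K) (ρ g)
    rw [← h3, hm, tr_map]

end Pool.Agent.F8.BG
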