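import Pool.Agent.Lib.MP_305fdd_al.F8.BG.StmT
import Pool.Agent.Lib.MP_305fdd_al.F8.P.wm

set_option autoImplicit false

namespace Pool.Agent.F8.BG

open Pool.Agent.MP_305fdd_al Pool.Agent.Lib.MP_305fdd_al Pool.Agent.F2X Pool.Agent.F8
  Pool.Agent.F8.HN
open scoped QuadraticAlgebra

/-- conjugation from `P3 (b - u)` to `P3 u` -/
private def tb2_c {a b : ℤ} (u : ZMod 3) (hu : u * u = (a : ZMod 3) + (b : ZMod 3) * u) :
    P3 ((b : ZMod 3) - u) (rt_cj hu) →* P3 u hu where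
  toFun g := ⟨cGq a b g.1, (mem_P3_cG u hu g.1).1 g.2⟩
  map_one' := Subtype.ext (map_one (cGq a b))
  map_mul' x y := Subtype.ext (map_mul (cGq a b) x.1 y.1)

private theorem tb2_mem {a b : ℤ} (u : ZMod 3) (hu : u * u = (a : ZMod 3) + (b : ZMod 3) * u)
    (g : P3 u hu) : cGq a b g.1 ∈ P3 ((b : ZMod 3) - u) (rt_cj hu) := by
  rw [mem_P3_cG, cGq_cGq]
  exact g.2

theorem p_tb2 (a b : ℤ) (u : ZMod 3) (hu : u * u = (a : ZMod 3) + (b : ZMod 3) * u) :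
    T_tb2 a b u hu := by
  rintro ⟨Θ, hm, ht, g, h, h1, h2⟩
  refine ⟨(Q2.map (cjq a b ℤ)).comp (Θ.comp (tb2_c u hu)), ?_, ?_,
    ⟨cGq a b g.1, tb2_mem u hu g⟩, ⟨cGq a b h.1, tb2_mem u hu h⟩, ?_⟩
  · apply MonoidHom.ext
    intro x
    have e : (Θ (tb2_c u hu x)).m = cGq a b x.1 := DFunLike.congr_fun hm (tb2_c u hu x)
    show SLm (cjq a b ℤ) (Θ (tb2_c u hu x)).m = x.1
    rw [e]
    exact cGq_cGq x.1
  · apply MonoidHom.ext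
    intro x
    have e : (Θ (tb2_c u hu x)).t = 1 := DFunLike.congr_fun ht (tb2_c u hu x)
    show Units.map (cjq a b ℤ).toMonoidHom (Θ (tb2_c u hu x)).t = 1
    rw [e, map_one]
  · have e1 : tb2_c u hu ⟨cGq a b g.1, tb2_mem u hu g⟩ = g := Subtype.ext (cGq_cGq g.1)
    have e2 : tb2_c u hu ⟨cGq a b h.1, tb2_mem u hu h⟩ = h := Subtype.ext (cGq_cGq h.1)
    have e : Q2.W (((Q2.map (cjq a b ℤ)).comp (Θ.comp (tb2_c u hu))) ⟨cGq a b g.1, tb2_mem u hu g⟩)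
        (((Q2.map (cjq a b ℤ)).comp (Θ.comp (tb2_c u hu))) ⟨cGq a b h.1, tb2_mem u hu h⟩) 0 =
        cjq a b ℤ (Q2.W (Θ g) (Θ h) 0) := by
      show Q2.W (Q2.map (cjq a b ℤ) (Θ (tb2_c u hu _))) (Q2.map (cjq a b ℤ) (Θ (tb2_c u hu _))) 0 = _
      rw [e1, e2]
      exact pf_wm _ _ (cjq a b ℤ) _ _ 0
    rw [e, nq_cjq]
    exact ⟨h1, h2⟩

end Pool.Agent.F8.BG
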