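import Pool.Agent.Lib.MP_305fdd_al.F8.BG.MainG
import Pool.Agent.Lib.MP_305fdd_al.F8.BG.MainOf
import Pool.Agent.Lib.MP_305fdd_al.F8.BG.Fund
import Pool.Agent.Lib.MP_305fdd_al.F8.PIC7.Main
import Pool.Agent.Lib.MP_305fdd_al.F8.PO.Main7
import Pool.Agent.Lib.MP_305fdd_al.F8.BG.P_psl
import Pool.Agent.Lib.MP_305fdd_al.F8.BG.P_px
import Pool.Agent.Lib.MP_305fdd_al.F8.BG.P_lim
import Pool.Agent.Lib.MP_305fdd_al.F8.BG.P_tb2
import Pool.Agent.Lib.MP_305fdd_al.F8.BG.P_dat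
import Pool.Agent.Lib.MP_305fdd_al.F8.BG.P_d4
import Pool.Agent.Lib.MP_305fdd_al.F8.BG.P_sq
import Pool.Agent.Lib.MP_305fdd_al.F8.BG.P_d5
import Pool.Agent.Lib.MP_305fdd_al.F8.BG.P_d6
import Pool.Agent.Lib.MP_305fdd_al.F8.BG.P_out
import Pool.Agent.Lib.MP_305fdd_al.F8.BG.P_sig
import Pool.Agent.Lib.MP_305fdd_al.F8.BG.P_E
import Pool.Agent.Lib.MP_305fdd_al.F8.BG.P_X1
import Pool.Agent.Lib.MP_305fdd_al.F8.BG.MainOk
import Pool.Agent.Lib.MP_305fdd_al.F8.BG.P_nf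
import Pool.Agent.Lib.MP_305fdd_al.F8.BG.P_std
import Pool.Agent.Lib.MP_305fdd_al.F8.BG.P_tab2
import Pool.Agent.Lib.MP_305fdd_al.F8.BG.P_rel2
import Pool.Agent.Lib.MP_305fdd_al.F8.BG.P_det2
import Pool.Agent.Lib.MP_305fdd_al.F8.BG.P_coc2
import Pool.Agent.Lib.MP_305fdd_al.F8.BG.P_cg2
import Pool.Agent.Lib.MP_305fdd_al.F8.BG.P_alg2
import Pool.Agent.Lib.MP_305fdd_al.F8.BG.P_cgP
import Pool.Agent.Lib.MP_305fdd_al.F8.BG.P_g3_2
import Pool.Agent.Lib.MP_305fdd_al.F8.BG.P_tab11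
import Pool.Agent.Lib.MP_305fdd_al.F8.BG.P_rel11
import Pool.Agent.Lib.MP_305fdd_al.F8.BG.P_det11
import Pool.Agent.Lib.MP_305fdd_al.F8.BG.P_coc11
import Pool.Agent.Lib.MP_305fdd_al.F8.BG.P_cg11
import Pool.Agent.Lib.MP_305fdd_al.F8.BG.P_alg11
import Pool.Agent.Lib.MP_305fdd_al.F8.BG.P_g3_11
import Pool.Agent.Lib.MP_305fdd_al.F8.BG.P_Lgen
import Pool.Agent.Lib.MP_305fdd_al.F8.BG.P_Lpid
import Pool.Agent.Lib.MP_305fdd_al.F8.BG.P_leg2
import Pool.Agent.Lib.MP_305fdd_al.F8.BG.P_leg11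
import Pool.Agent.Lib.MP_305fdd_al.F8.BG.P_aut0
import Pool.Agent.Lib.MP_305fdd_al.F8.BG.P_aut2
import Pool.Agent.Lib.MP_305fdd_al.F8.BG.P_aut11
import Pool.Agent.Lib.MP_305fdd_al.F8.BG.P_fx2
import Pool.Agent.Lib.MP_305fdd_al.F8.BG.P_fx11
import Pool.Agent.Lib.MP_305fdd_al.F8.BG.D11.P_lin
import Pool.Agent.Lib.MP_305fdd_al.F8.BG.D11.P_eta
import Pool.Agent.Lib.MP_305fdd_al.F8.BG.D11.P_noc
import Pool.Agent.Lib.MP_305fdd_al.F8.BG.D11.P_chr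
import Pool.Agent.Lib.MP_305fdd_al.F8.BG.D11.P_cj
import Pool.Agent.Lib.MP_305fdd_al.F8.BG.D11.P_sur

/-!
# MP_305fdd_al, the Bianchi groups of `ℚ(√-2)` and `ℚ(√-11)` are profinitely rigid: assembly
-/

set_option autoImplicit false

namespace Pool.Agent.F8.BG

open Pool.Agent.MP_305fdd_al Pool.Agent.Lib.MP_305fdd_al Pool.Agent.F2X Pool.Agent.F8
open scoped QuadraticAlgebra

/-! ### The hypotheses of the transfer -/

theorem m_nf (a b : ℤ) : U_nf a b := p_nf a b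
theorem m_std (a b : ℤ) : U_std a b := p_std a b
theorem m_tab2 : U_tab2 := p_tab2
theorem m_rel2 : U_rel2 := p_rel2
theorem m_det2 : U_det2 := p_det2
theorem m_coc2 : U_coc2 := p_coc2 m_tab2 m_rel2 m_det2
theorem m_cg2 : U_cg2 := p_cg2
theorem m_alg2 : U_alg2 := p_alg2
theorem m_g3_2 : U_g3_2 :=
  p_g3_2 (m_nf _ _) (m_std _ _) m_rel2 m_coc2 m_cg2 m_alg2 (p_cgP _ _ _ _) PIC7.m_pf
theorem m_tab11 : U_tab11 := p_tab11
theorem m_rel11 : U_rel11 := p_rel11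
theorem m_det11 : U_det11 := p_det11
theorem m_coc11 : U_coc11 := p_coc11 m_tab11 m_rel11 m_det11
theorem m_cg11 : U_cg11 := p_cg11
theorem m_alg11 : U_alg11 := p_alg11
theorem m_g3_11 : U_g3_11 :=
  p_g3_11 (m_nf _ _) (m_std _ _) m_rel11 m_coc11 m_cg11 m_alg11 (p_cgP _ _ _ _) PIC7.m_pf
theorem m_Lgen : L_gen := p_Lgen
theorem m_Lpid : L_pid := p_Lpid
theorem m_leg2 : L_leg2 := p_leg2 m_Lgen m_Lpid
theorem m_leg11 : L_leg11 := p_leg11 m_Lgen m_Lpid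

theorem uq2 : UQ (-2) 0 2 hu2 where
  neg := by norm_num
  fund := fund2
  gen H h1 h2 h3 g := D2.SL_sub H h1 h2 h3 g
  g3 := m_g3_2
  coc := m_tab2.2
  leg := m_leg2
  pid := m_Lpid.1

theorem uq11 : UQ (-3) 1 0 hu11 where
  neg := by norm_num
  fund := fund11
  gen H h1 h2 h3 g := D11.SL_sub H h1 h2 h3 g
  g3 := m_g3_11
  coc := m_tab11.2
  leg := m_leg11
  pid := m_Lpid.2

/-! ### The transfer -/

section T

variable (a b : ℤ) (u : ZMod 3) (hu : u * u = (a : ZMod 3) + (b : ZMod 3) * u)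

theorem m_psl : T_psl a b u hu := p_psl a b u hu PIC.m_prd
theorem m_px : T_px a b u hu := p_px a b u hu pf_mt pf_mp
theorem m_lim : T_lim a b := p_lim a b
theorem m_tb2 : T_tb2 a b u hu := p_tb2 a b u hu
theorem m_dat : T_dat a b u hu := p_dat a b u hu (m_tb2 a b u hu) (m_lim a b)
theorem m_d4 : T_d4 a b u hu := p_d4 a b u hu PIC7.m_pf pf_gal pf_int
theorem m_sq : T_sq := p_sq
theorem m_d5 : T_d5 a b := p_d5 a b
theorem m_d6 : T_d6 a b u hu := p_d6 a b u hu PIC7.m_pf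
theorem m_out : T_out a b u hu :=
  p_out a b u hu PIC7.m_pf PIC7.m_sp (m_px a b u hu) (m_dat a b u hu) (m_d4 a b u hu) m_sq
    (m_d5 a b) (m_d6 a b u hu)
theorem m_sig : T_sig a b := p_sig a b
theorem m_E : T_E a b u hu := p_E a b u hu (m_sig a b)
theorem m_X1 : T_X1 a b := p_X1 a b PIC.m_gr (m_sig a b)
theorem m_main : T_main a b u hu := main_of_T (m_out a b u hu) (m_E a b u hu) (m_X1 a b)

end T

/-! ### The results -/

theorem m_sur2 : D2.S_sur := D2.p_sur m_X3 m_fi m_con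
theorem m_sur11 : D11.S_sur :=
  D11.p_sur D11.p_eta (D11.p_noc D11.p_lin) D11.p_chr (D11.p_cj m_X3) m_mq m_fi m_con

theorem fg2 : Group.FG (GQ (-2) 0) := fg_of_gen uq2.gen
theorem fg11 : Group.FG (GQ (-3) 1) := fg_of_gen uq11.gen

/-- `SL₂(ℤ[√-2])` is profinitely rigid -/
theorem SL_rigid2 : ProfinitelyRigid (GQ (-2) 0) :=
  rigid_SL fg2 (iso2 (m_main _ _ _ _) uq2 m_sur2)

/-- `SL₂` of the ring of integers of `ℚ(√-11)` is profinitely rigid -/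
theorem SL_rigid11 : ProfinitelyRigid (GQ (-3) 1) :=
  rigid_SL fg11 (iso11 (m_main _ _ _ _) uq11 m_sur11)

/-- `PSL₂(ℤ[√-2])` is profinitely rigid -/
theorem PSL_rigid2 : ProfinitelyRigid (MQ (-2) 0) := m_psl _ _ _ _ uq2 SL_rigid2

/-- `PSL₂` of the ring of integers of `ℚ(√-11)` is profinitely rigid -/
theorem PSL_rigid11 : ProfinitelyRigid (MQ (-3) 1) := m_psl _ _ _ _ uq11 SL_rigid11

theorem m_aut0 (a b : ℤ) : O_aut0 a b := p_aut0 a b PO.m_par PO.m_nrm m_bd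

/-- the groups which contain `PSL₂(ℤ[√-2])` as a normal subgroup of finite index -/
theorem over2 : O_over (-2) 0 :=
  over_of uq2.neg fg2 (p_aut2 (m_aut0 _ _) m_Lpid.1) p_fx2

/-- the groups which contain `PSL₂(O11)` as a normal subgroup of finite index -/
theorem over11 : O_over (-3) 1 :=
  over_of uq11.neg fg11 (p_aut11 (m_aut0 _ _) m_Lpid.2) p_fx11

end Pool.Agent.F8.BG
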