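import Pool.Agent.Lib.MP_305fdd_al.F8.BG.StmC

/-!
# [BG bd] discreteness of the ring of integers in `ℂ`
-/

set_option autoImplicit false

namespace Pool.Agent.F8.BG

open Pool.Agent.MP_305fdd_al Pool.Agent.Lib.MP_305fdd_al Pool.Agent.F8
open scoped QuadraticAlgebra

noncomputable section

theorem p_bd : S_bd := by
  intro a b hD
  have hD' : (0 : ℝ) < -((b : ℝ) ^ 2 + 4 * a) := by
    have : (((b ^ 2 + 4 * a : ℤ)) : ℝ) < 0 := by exact_mod_cast hD
    push_cast at this
    linarith
  obtain ⟨s, hs0, hs2⟩ : ∃ s : ℝ, 0 < s ∧ s * s = -((b : ℝ) ^ 2 + 4 * a) :=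
    ⟨Real.sqrt (-((b : ℝ) ^ 2 + 4 * a)), Real.sqrt_pos.2 hD', Real.mul_self_sqrt hD'.le⟩
  have hw : (⟨(b : ℝ) / 2, s / 2⟩ : ℂ) * ⟨(b : ℝ) / 2, s / 2⟩ =
      (a : ℂ) + (b : ℂ) * ⟨(b : ℝ) / 2, s / 2⟩ := by
    apply Complex.ext
    · simp only [Complex.mul_re, Complex.add_re, Complex.intCast_re, Complex.intCast_im]
      nlinarith
    · simp only [Complex.mul_im, Complex.add_im, Complex.intCast_re, Complex.intCast_im]
      ring
  refine ⟨⟨(b : ℝ) / 2, s / 2⟩, hw, ?_, ?_⟩
  · intro z z' h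
    rw [evq_apply, evq_apply] at h
    have hre := congrArg Complex.re h
    have him := congrArg Complex.im h
    simp only [eq_intCast, Complex.mul_re, Complex.add_re, Complex.intCast_re,
      Complex.intCast_im, Complex.mul_im, Complex.add_im, zero_mul, sub_zero, add_zero,
      zero_add] at hre him
    have h1 : (z.im : ℝ) = z'.im := by
      have h2 : (z.im : ℝ) * (s / 2) = z'.im * (s / 2) := by linarith
      exact mul_right_cancel₀ (by positivity) h2
    have h3 : (z.re : ℝ) = z'.re := by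
      rw [h1] at hre
      linarith
    apply QuadraticAlgebra.ext
    · exact_mod_cast h3
    · exact_mod_cast h1
  · intro B
    obtain ⟨m, hm⟩ := exists_nat_ge (2 * B / s)
    obtain ⟨n, hn⟩ := exists_nat_ge (B + m * (|(b : ℝ)| / 2))
    have hfin : ((fun q : ℤ × ℤ => (⟨q.1, q.2⟩ : Qf a b ℤ)) ''
        ((Set.Icc (-(n : ℤ)) n) ×ˢ (Set.Icc (-(m : ℤ)) m))).Finite :=
      ((Set.finite_Icc _ _).prod (Set.finite_Icc _ _)).image _
    refine hfin.subset ?_
    intro z hz
    rw [Set.mem_ofPred_eq, evq_apply] at hz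
    have hre := (Complex.abs_re_le_norm _).trans hz
    have him := (Complex.abs_im_le_norm _).trans hz
    simp only [eq_intCast, Complex.mul_re, Complex.add_re, Complex.intCast_re,
      Complex.intCast_im, Complex.mul_im, Complex.add_im, zero_mul, sub_zero, add_zero,
      zero_add] at hre him
    rw [abs_mul, abs_of_pos (by positivity : (0 : ℝ) < s / 2)] at him
    have h1 : |(z.im : ℝ)| ≤ m := by
      refine le_trans ?_ hm
      rw [le_div_iff₀ hs0]
      linarith
    have h2 : |(z.re : ℝ)| ≤ n := by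
      refine le_trans ?_ hn
      have h3 : (z.re : ℝ) = ((z.re : ℝ) + z.im * (b / 2)) - z.im * (b / 2) := by ring
      rw [h3]
      refine (abs_sub _ _).trans ?_
      have h4 : |(z.im : ℝ) * (b / 2)| ≤ m * (|(b : ℝ)| / 2) := by
        rw [abs_mul, abs_div, abs_two]
        exact mul_le_mul_of_nonneg_right h1 (by positivity)
      linarith
    refine ⟨(z.re, z.im), ?_, rfl⟩
    rw [Set.mem_prod, Set.mem_Icc, Set.mem_Icc]
    rw [abs_le] at h1 h2
    refine ⟨⟨?_, ?_⟩, ?_, ?_⟩
    · exact_mod_cast h2.1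
    · exact_mod_cast h2.2
    · exact_mod_cast h1.1
    · exact_mod_cast h1.2

end

end Pool.Agent.F8.BG
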