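import Pool.Agent.Lib.MP_305fdd_al.F8.BG.StmI

/-!
# MP_305fdd_al, Bianchi groups, piece core: a finite core
-/

set_option autoImplicit false

namespace Pool.Agent.F8.BG

/-- [BG core] a finite core. -/
theorem p_core (h_st : S_st) (h_cyc : S_cyc) : S_core := by
  classical
  rintro ι V _ hst ⟨R, hR, hRv⟩
  choose C hCfin hC using fun v : V => h_st ι V v (hst v)
  refine ⟨⋃ v₀ ∈ R, C v₀, hR.biUnion fun v₀ _ => hCfin v₀, ?_⟩
  intro L hL hcyc v hv
  obtain ⟨v₀, hv₀, g, hg⟩ := hRv v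
  exact (h_cyc ι V v₀ (C v₀) (hC v₀) L hL hcyc g v hg hv).trans
    (Set.subset_biUnion_of_mem (u := C) hv₀)

end Pool.Agent.F8.BG
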