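import Pool.Agent.Lib.MP_305fdd_al.F8.BG.StmI

/-! # MP_305fdd_al, Bianchi groups: piece cyc

Induction on the length of the reduced word `W` of `g`: if the first letter of `W` cancels against the last letter of `L` or is the first letter of
`L`, rotate `L` and shorten `W`; otherwise `W⁻¹ L W` is reduced.
-/

set_option autoImplicit false

namespace Pool.Agent.F8.BG

private theorem cyc_mk_append {ι V : Type} [MulAction (FreeGroup ι) V] (l l' : List (ι × Bool))
    (v : V) : FreeGroup.mk (l ++ l') • v = FreeGroup.mk l • FreeGroup.mk l' • v := by
  rw [← FreeGroup.mul_mk, mul_smul]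

private theorem cyc_rotL {ι : Type} (a : ι × Bool) (L : List (ι × Bool))
    (h : FreeGroup.IsCyclicallyReduced (a :: L)) : FreeGroup.IsCyclicallyReduced (L ++ [a]) := by
  obtain ⟨h1, h2⟩ := h
  rw [FreeGroup.IsReduced, List.isChain_cons] at h1
  refine ⟨?_, ?_⟩
  · rw [FreeGroup.IsReduced, List.isChain_append]
    refine ⟨h1.2, by simp, ?_⟩
    intro x hx y hy
    have hy' : a = y := by simpa using hy
    subst hy'
    refine h2 x ?_ a (by simp)
    rcases List.eq_nil_or_concat L with rfl | ⟨L', b, rfl⟩
    · simp at hx
    · rw [List.concat_eq_append, List.getLast?_concat] at hx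
      rw [List.concat_eq_append, ← List.cons_append, List.getLast?_concat]
      exact hx
  · intro x hx y hy
    rw [List.getLast?_concat] at hx
    have hx' : a = x := by simpa using hx
    subst hx'
    cases L with
    | nil =>
      have hy' : a = y := by simpa using hy
      subst hy'
      intro _
      rfl
    | cons b L'' =>
      have hy' : b = y := by simpa using hy
      subst hy'
      exact h1.1 b (by simp)

private theorem cyc_rotR {ι : Type} (a : ι × Bool) (L : List (ι × Bool))
    (h : FreeGroup.IsCyclicallyReduced (L ++ [a])) : FreeGroup.IsCyclicallyReduced (a :: L) := by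
  obtain ⟨h1, h2⟩ := h
  rw [FreeGroup.IsReduced, List.isChain_append] at h1
  refine ⟨?_, ?_⟩
  · rw [FreeGroup.IsReduced, List.isChain_cons]
    refine ⟨?_, h1.1⟩
    intro y hy
    refine h2 a (by simp) y ?_
    cases L with
    | nil => simp at hy
    | cons b L'' => simpa using hy
  · intro x hx y hy
    have hy' : a = y := by simpa using hy
    subst hy'
    rcases List.eq_nil_or_concat L with rfl | ⟨L', b, rfl⟩
    · have hx' : a = x := by simpa using hx
      subst hx'
      intro _
      rfl
    · rw [List.concat_eq_append, ← List.cons_append, List.getLast?_concat] at hx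
      refine h1.2.2 x ?_ a (by simp)
      rw [List.concat_eq_append, List.getLast?_concat]
      exact hx

private theorem cyc_main {ι V : Type} [DecidableEq ι] [MulAction (FreeGroup ι) V] (v₀ : V)
    (C : Set V) (hC : ∀ g : FreeGroup ι, g • v₀ = v₀ → sv g.toWord v₀ ⊆ C) :
    ∀ W : List (ι × Bool), FreeGroup.IsReduced W → ∀ L : List (ι × Bool), L ≠ [] →
    FreeGroup.IsCyclicallyReduced L →
    FreeGroup.mk L • FreeGroup.mk W • v₀ = FreeGroup.mk W • v₀ →
    sv L (FreeGroup.mk W • v₀) ⊆ C := by
  intro W
  induction W with
  | nil =>
    intro _ L _ hL hfix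
    have h1 : FreeGroup.mk ([] : List (ι × Bool)) • v₀ = v₀ := one_smul _ v₀
    rw [h1] at hfix ⊢
    have h2 := hC (FreeGroup.mk L) hfix
    rwa [FreeGroup.toWord_mk, hL.1.reduce_eq] at h2
  | cons a W' ih =>
    intro hW L hL0 hL hfix
    have hW' : FreeGroup.IsReduced W' := by
      rw [FreeGroup.IsReduced, List.isChain_cons] at hW
      exact hW.2
    have hva : FreeGroup.mk (a :: W') • v₀ = FreeGroup.mk [a] • FreeGroup.mk W' • v₀ := by
      rw [← cyc_mk_append]
      rfl
    have hinv : (FreeGroup.mk [a])⁻¹ = FreeGroup.mk [(a.1, !a.2)] := by
      rw [FreeGroup.inv_mk]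
      rfl
    rw [hva] at hfix ⊢
    generalize hv' : FreeGroup.mk W' • v₀ = v' at hfix ih ⊢
    by_cases hc1 : a ∈ L.head?
    · -- the first letter of `L` is `a`
      cases L with
      | nil => simp at hc1
      | cons b L' =>
        have hb : b = a := by simpa using hc1
        subst hb
        have hLv : FreeGroup.mk L' • FreeGroup.mk [b] • v' = v' := by
          have h := hfix
          have h3 : FreeGroup.mk (b :: L') • FreeGroup.mk [b] • v' =
              FreeGroup.mk [b] • FreeGroup.mk L' • FreeGroup.mk [b] • v' := by
            rw [← cyc_mk_append [b] L']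
            rfl
          rw [h3] at h
          exact smul_left_cancel _ h
        have hstep := ih hW' (L' ++ [b]) (by simp) (cyc_rotL b L' hL) (by
          rw [cyc_mk_append]
          exact hLv)
        refine Set.Subset.trans ?_ hstep
        rintro u ⟨l, hl, rfl⟩
        rcases List.suffix_cons_iff.1 hl with rfl | hl'
        · refine ⟨[b], List.suffix_append _ _, ?_⟩
          rw [hfix]
        · refine ⟨l ++ [b], ?_, ?_⟩
          · obtain ⟨s, rfl⟩ := hl'
            exact ⟨s, by simp⟩
          · rw [cyc_mk_append]
    by_cases hc2 : (a.1, !a.2) ∈ L.getLast?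
    · rcases List.eq_nil_or_concat L with rfl | ⟨L', b, rfl⟩
      · exact absurd rfl hL0
      · rw [List.concat_eq_append] at *
        rw [List.getLast?_concat] at hc2
        have hb : b = (a.1, !a.2) := by simpa using hc2
        have hbv : FreeGroup.mk [b] • FreeGroup.mk [a] • v' = v' := by
          rw [hb, ← hinv, inv_smul_smul]
        have hLv : FreeGroup.mk L' • v' = FreeGroup.mk [a] • v' := by
          rw [cyc_mk_append, hbv] at hfix
          exact hfix
        have hstep := ih hW' (b :: L') (by simp) (cyc_rotR b L' hL) (by
          have h3 : FreeGroup.mk (b :: L') • v' = FreeGroup.mk [b] • FreeGroup.mk L' • v' := by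
            rw [← cyc_mk_append [b] L']
            rfl
          rw [h3, hLv, hbv])
        refine Set.Subset.trans ?_ hstep
        rintro u ⟨l, hl, rfl⟩
        rcases List.suffix_concat_iff.1 hl with rfl | ⟨t, rfl, ht⟩
        · refine ⟨L', List.suffix_cons _ _, ?_⟩
          rw [hLv]
          exact one_smul _ _
        · refine ⟨t, ht.trans (List.suffix_cons _ _), ?_⟩
          rw [cyc_mk_append, hbv]
    · -- no cancellation
      have hred : FreeGroup.IsReduced (FreeGroup.invRev (a :: W') ++ (L ++ (a :: W'))) := by
        have hWi : FreeGroup.IsReduced (FreeGroup.invRev (a :: W')) := by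
          apply FreeGroup.IsReduced.of_reduce_eq
          rw [FreeGroup.reduce_invRev, hW.reduce_eq]
        rw [FreeGroup.IsReduced, List.isChain_append]
        refine ⟨hWi, ?_, ?_⟩
        · rw [List.isChain_append]
          refine ⟨hL.1, hW, ?_⟩
          intro x hx y hy hxy
          have hy' : a = y := by simpa using hy
          subst hy'
          by_contra hne
          apply hc2
          have : x = (a.1, !a.2) := by
            apply Prod.ext
            · exact hxy
            · show x.2 = !a.2
              cases hx2 : x.2 <;> cases ha2 : a.2 <;> simp_all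
          rw [← this]
          exact hx
        · intro x hx y hy hxy
          have hx' : x = (a.1, !a.2) := by
            rw [FreeGroup.invRev_cons] at hx
            have : FreeGroup.invRev [a] = [(a.1, !a.2)] := rfl
            rw [this, List.getLast?_concat] at hx
            simpa using hx.symm
          cases L with
          | nil => exact absurd rfl hL0
          | cons b L' =>
            have hy' : b = y := by simpa using hy
            subst hy'
            by_contra hne
            apply hc1
            have : b = a := by
              rw [hx'] at hxy hne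
              apply Prod.ext
              · exact hxy.symm
              · show b.2 = a.2
                cases hb2 : b.2 <;> cases ha2 : a.2 <;> simp_all
            rw [this]
            simp
      have hp : FreeGroup.mk (FreeGroup.invRev (a :: W') ++ (L ++ (a :: W'))) • v₀ = v₀ := by
        rw [cyc_mk_append, cyc_mk_append, hva, hv', hfix, ← FreeGroup.inv_mk, ← hv', ← hva,
          inv_smul_smul]
      have h2 := hC _ hp
      rw [FreeGroup.toWord_mk, hred.reduce_eq] at h2
      refine Set.Subset.trans ?_ h2
      rintro u ⟨l, hl, rfl⟩
      refine ⟨l ++ (a :: W'), ?_, ?_⟩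
      · obtain ⟨s, rfl⟩ := hl
        exact ⟨FreeGroup.invRev (a :: W') ++ s, by simp⟩
      · rw [cyc_mk_append, hva, hv']

theorem p_cyc (_h_sv : S_sv) : S_cyc := by
  intro ι V _ _ v₀ C hC L hL0 hL g v hg hfix
  have hgW : FreeGroup.mk g.toWord = g := FreeGroup.mk_toWord
  have h := cyc_main v₀ C hC g.toWord FreeGroup.isReduced_toWord L hL0 hL (by
    rw [hgW, hg]
    exact hfix)
  rw [hgW, hg] at h
  exact h

end Pool.Agent.F8.BG
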