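import Pool.Agent.Lib.MP_305fdd_al.F8.BG.StmI

/-!
# MP_305fdd_al, Bianchi groups, piece i2: the set of the edges is a union of orbits
-/

set_option autoImplicit false

namespace Pool.Agent.F8.BG

private theorem i2_turn {ι : Type} {β : MulAut (FreeGroup ι)} {w : ι → List ι}
    (hβ : ∀ i, β (FreeGroup.of i) = pw (w i)) {V : Type} [MulAction (FreeGroup ι) V]
    {ψ : Equiv.Perm V} (hψ : ∀ (g : FreeGroup ι) (v : V), ψ (g • v) = β g • ψ v)
    {S : Set (V × ι)} (hS : ∀ (v : V) (i : ι), ∀ e' ∈ pe (ψ v) (w i), e' ∈ S ↔ (v, i) ∈ S)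
    {b a : ι} (h : Turn w b a) :
    ∀ u : V, (FreeGroup.of b • u, b) ∈ S ↔ (u, a) ∈ S := by
  induction h with
  | base i b a h =>
    intro u
    obtain ⟨l, l', hl⟩ := h
    have hv : ψ (ψ.symm (pw l • FreeGroup.of b • u)) = pw l • FreeGroup.of b • u :=
      ψ.apply_symm_apply _
    have hpe : pe (ψ (ψ.symm (pw l • FreeGroup.of b • u))) (w i) =
        pe (pw l • FreeGroup.of b • u) l ++
          ((FreeGroup.of b • u, b) :: (u, a) :: pe ((FreeGroup.of a)⁻¹ • u) l') := by
      rw [hv, ← hl, List.append_assoc, pe_append, inv_smul_smul]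
      rw [show [b, a] ++ l' = b :: a :: l' from rfl, pe_cons, pe_cons, inv_smul_smul]
    have h1 := hS (ψ.symm (pw l • FreeGroup.of b • u)) i (FreeGroup.of b • u, b)
      (by rw [hpe]; simp)
    have h2 := hS (ψ.symm (pw l • FreeGroup.of b • u)) i (u, a)
      (by rw [hpe]; simp)
    exact h1.trans h2.symm
  | step b a b' a' h hb ha ih =>
    intro u
    have hu : ψ (ψ.symm u) = u := ψ.apply_symm_apply u
    obtain ⟨l, hl⟩ := List.getLast?_eq_some_iff.1 (Option.mem_def.1 hb)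
    obtain ⟨l', hl'⟩ := List.head?_eq_some_iff.1 (Option.mem_def.1 ha)
    have h1 : (u, a') ∈ S ↔ (ψ.symm u, a) ∈ S := by
      refine hS (ψ.symm u) a (u, a') ?_
      rw [hu, hl', pe_cons]
      exact List.mem_cons_self
    have h2 : (FreeGroup.of b' • u, b') ∈ S ↔ (FreeGroup.of b • ψ.symm u, b) ∈ S := by
      refine hS (FreeGroup.of b • ψ.symm u) b (FreeGroup.of b' • u, b') ?_
      have e1 : (pw l)⁻¹ • ψ (FreeGroup.of b • ψ.symm u) = FreeGroup.of b' • u := by
        rw [hψ, hu, hβ, hl, pw_append, pw_cons, pw_nil, mul_one, mul_smul, inv_smul_smul]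
      rw [hl, pe_append, e1, pe_cons]
      simp
    rw [h1, h2]
    exact ih (ψ.symm u)

/-- [BG i2] the set of the edges is a union of orbits. -/
theorem p_i2 : S_i2 := by
  intro ι β w hpos V _ ψ hψ S hS
  have hT : ∀ (b a : ι), Turn w b a → ∀ u : V, (FreeGroup.of b • u, b) ∈ S ↔ (u, a) ∈ S :=
    fun b a h => i2_turn hpos.eq hψ hS h
  -- all the statements at `u` are equivalent
  have hP : ∀ (u : V) (x y : ι ⊕ ι),
      (Sum.elim (fun b => (FreeGroup.of b • u, b) ∈ S) (fun a => (u, a) ∈ S) x ↔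
        Sum.elim (fun b => (FreeGroup.of b • u, b) ∈ S) (fun a => (u, a) ∈ S) y) := by
    intro u x y
    have h := hpos.con x y
    induction h with
    | rel x y h =>
      obtain ⟨b, a, rfl, rfl, h⟩ := h
      exact hT b a h u
    | refl x => exact Iff.rfl
    | symm x y _ ih => exact ih.symm
    | trans x y z _ _ ih1 ih2 => exact ih1.trans ih2
  have hA : ∀ (v : V) (i : ι), (v, i) ∈ S → ∀ j, (v, j) ∈ S :=
    fun v i h j => (hP v (Sum.inr i) (Sum.inr j)).1 h
  have hB : ∀ (v : V) (i j : ι), (v, i) ∈ S → (FreeGroup.of j • v, j) ∈ S :=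
    fun v i j h => (hP v (Sum.inr i) (Sum.inl j)).1 h
  have hC : ∀ (v : V) (i j : ι), (v, i) ∈ S → ((FreeGroup.of i)⁻¹ • v, j) ∈ S := by
    intro v i j h
    refine (hP ((FreeGroup.of i)⁻¹ • v) (Sum.inl i) (Sum.inr j)).1 ?_
    show (FreeGroup.of i • (FreeGroup.of i)⁻¹ • v, i) ∈ S
    rw [smul_inv_smul]
    exact h
  intro v i hvi g
  have hg : ∀ v : V, (∀ j, (v, j) ∈ S) → ∀ j, (g • v, j) ∈ S := by
    induction g using FreeGroup.induction_on with
    | C1 => intro v h j; rw [one_smul]; exact h j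
    | of x => intro v h j; exact hA _ x (hB v x x (h x)) j
    | inv_of x _ => intro v h j; exact hC v x j (h x)
    | mul x y ih1 ih2 => intro v h j; rw [mul_smul]; exact ih1 _ (ih2 v h) j
  exact hg v (hA v i hvi)

end Pool.Agent.F8.BG
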