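import Pool.Agent.Lib.MP_305fdd_al.F8.BG.StmI

/-!
# [BG i3] a finite orbit of `F` implies that the index is finite (helper78)
-/

set_option autoImplicit false

namespace Pool.Agent.F8.BG

private theorem i3_orb {ι : Type} (α : MulAut (FreeGroup ι)) (H : Subgroup (GR α))
    (v : GR α ⧸ H) (hv : (Set.range fun g : FreeGroup ι => iR α g • v).Finite)
    (y : GR α) : (Set.range fun g : FreeGroup ι => iR α g • (y • v)).Finite := by
  refine (hv.image (fun z => y • z)).subset ?_
  rintro _ ⟨g, rfl⟩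
  have h1 : nR α (y⁻¹ * iR α g * y) = 1 := by
    rw [map_mul, map_mul, nR_iR, mul_one, map_inv, inv_mul_cancel]
  obtain ⟨g', hg'⟩ := GR_ker α _ h1
  refine ⟨iR α g' • v, ⟨g', rfl⟩, ?_⟩
  change y • (iR α g' • v) = iR α g • (y • v)
  rw [← hg', smul_smul, smul_smul]
  congr 1
  group

theorem p_i3 : S_i3 := by
  intro ι α H ⟨x, hxH, hx⟩ v hv
  obtain ⟨k, hk⟩ : ∃ k : ℤ, nR α x = Multiplicative.ofAdd k := ⟨Multiplicative.toAdd (nR α x), rfl⟩
  have hk0 : k ≠ 0 := by
    rintro rfl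
    exact hx hk
  have hall : ∀ w : GR α ⧸ H, (Set.range fun g : FreeGroup ι => iR α g • w).Finite := by
    intro w
    obtain ⟨y, hy⟩ := MulAction.exists_smul_eq (GR α) v w
    rw [← hy]
    exact i3_orb α H v hv y
  have hcov : (Set.univ : Set (GR α ⧸ H)) ⊆ ⋃ r ∈ Finset.range k.natAbs,
      Set.range fun g : FreeGroup ι => iR α g • ((tR α ^ (r : ℤ) : GR α) : GR α ⧸ H) := by
    intro w _
    obtain ⟨b, rfl⟩ := QuotientGroup.mk_surjective w
    obtain ⟨u, n, rfl⟩ := GR_cases α b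
    have hr0 := Int.emod_nonneg n hk0
    have hr1 := Int.emod_lt_abs n hk0
    have h1 : nR α (tR α ^ n * (x ^ (n / k))⁻¹ * (tR α ^ (n % k))⁻¹) = 1 := by
      rw [map_mul, map_mul, map_inv, map_inv, map_zpow, map_zpow, map_zpow, nR_tR, hk,
        ← ofAdd_zsmul, ← ofAdd_zsmul, ← ofAdd_zsmul, ← ofAdd_neg, ← ofAdd_neg, ← ofAdd_add,
        ← ofAdd_add]
      have h2 := Int.emod_add_mul_ediv n k
      have h3 : n • (1 : ℤ) + -((n / k) • k) + -((n % k) • (1 : ℤ)) = 0 := by
        simp only [smul_eq_mul, mul_one]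
        have h4 : n / k * k = k * (n / k) := mul_comm _ _
        rw [h4]
        omega
      rw [h3]
      rfl
    obtain ⟨u', hu'⟩ := GR_ker α _ h1
    have h5 : tR α ^ n = iR α u' * tR α ^ (n % k) * x ^ (n / k) := by
      rw [← hu']; group
    have h6 : (((n % k).natAbs : ℕ) : ℤ) = n % k := by omega
    refine Set.mem_iUnion₂.2 ⟨(n % k).natAbs, ?_, u * u', ?_⟩
    · rw [Finset.mem_range]
      have : |k| = (k.natAbs : ℤ) := (Int.natCast_natAbs k).symm
      omega
    · change iR α (u * u') • ((tR α ^ (((n % k).natAbs : ℕ) : ℤ) : GR α) : GR α ⧸ H) =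
        ((iR α u * tR α ^ n : GR α) : GR α ⧸ H)
      rw [h6, h5, MulAction.Quotient.smul_coe]
      apply (QuotientGroup.eq).2
      have h7 : (iR α (u * u') • tR α ^ (n % k))⁻¹ *
          (iR α u * (iR α u' * tR α ^ (n % k) * x ^ (n / k))) = x ^ (n / k) := by
        rw [smul_eq_mul, map_mul]
        group
      rw [h7]
      exact H.zpow_mem hxH _
  have hfin : (Set.univ : Set (GR α ⧸ H)).Finite := by
    refine Set.Finite.subset ?_ hcov
    exact Set.Finite.biUnion (Finset.finite_toSet _) (fun r _ => hall _)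
  have : Finite (GR α ⧸ H) := Set.finite_univ_iff.1 hfin
  exact Subgroup.finiteIndex_of_finite_quotient

end Pool.Agent.F8.BG
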