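import Pool.Agent.Lib.MP_305fdd_al.F8.BG.StmI

/-! # MP_305fdd_al, Bianchi groups, piece i4 -/

set_option autoImplicit false

namespace Pool.Agent.F8.BG

variable {ι : Type}

private theorem i4_cyc (l : List ι) :
    FreeGroup.IsCyclicallyReduced (l.map (fun i => (i, true))) := by
  have hall : ∀ a ∈ l.map (fun i => (i, true)), a.2 = true := by
    intro a ha
    obtain ⟨i, -, rfl⟩ := List.mem_map.1 ha
    rfl
  refine ⟨?_, ?_⟩
  · apply List.Pairwise.isChain
    rw [List.pairwise_map]
    exact List.pairwise_of_forall (fun _ _ _ => rfl)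
  · intro a ha b hb _
    rw [hall a (List.mem_of_mem_getLast? ha), hall b (List.mem_of_mem_head? hb)]

private theorem i4_mk (l : List ι) : FreeGroup.mk (l.map (fun i => (i, true))) = pw l := by
  induction l with
  | nil => rfl
  | cons i l ih =>
    rw [pw_cons, ← ih, List.map_cons, FreeGroup.of, FreeGroup.mul_mk]
    rfl

private theorem i4_pe {V : Type} [MulAction (FreeGroup ι) V] (l : List ι) :
    ∀ (v : V) (e : V × ι), e ∈ pe v l → ∃ l₁ l₂, l = l₁ ++ e.2 :: l₂ ∧ e.1 = (pw l₁)⁻¹ • v := by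
  induction l with
  | nil =>
    intro v e he
    simp at he
  | cons i l ih =>
    intro v e he
    rw [pe_cons, List.mem_cons] at he
    rcases he with rfl | he
    · exact ⟨[], l, rfl, by simp⟩
    · obtain ⟨l₁, l₂, h1, h2⟩ := ih _ e he
      refine ⟨i :: l₁, l₂, by rw [h1]; rfl, ?_⟩
      rw [h2, pw_cons, mul_inv_rev, mul_smul]

theorem p_i4 : S_i4 := by
  intro ι _ β w hw V _ C hC ψ hψ u q hq hqu
  have hwne : ∀ i, w i ≠ [] := by
    classical
    intro i h
    have h1 := hw i
    rw [h, pw_nil, ← map_one β] at h1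
    exact FreeGroup.of_ne_one i (β.injective h1)
  have hpw : ∀ l : List ι, pw (l.flatMap w) = β (pw l) := by
    intro l
    induction l with
    | nil => simp
    | cons i l ih => rw [List.flatMap_cons, pw_append, ih, pw_cons, map_mul, hw]
  have hpe : ∀ (l : List ι) (v : V), pe (ψ v) (l.flatMap w) =
      (pe v l).flatMap (fun e => pe (ψ e.1) (w e.2)) := by
    intro l
    induction l with
    | nil => intro v; rfl
    | cons i l ih =>
      intro v
      rw [List.flatMap_cons, pe_append, pe_cons, List.flatMap_cons, ← ih, hψ, map_inv, hw]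
  set Q : ℕ → List ι := fun n => Nat.rec q (fun _ l => l.flatMap w) n with hQ
  have hQ0 : Q 0 = q := rfl
  have hQs : ∀ n, Q (n + 1) = (Q n).flatMap w := fun n => rfl
  have hψs : ∀ n : ℕ, (ψ ^ (n + 1)) u = ψ ((ψ ^ n) u) := by
    intro n
    rw [pow_succ', Equiv.Perm.mul_apply]
  have hne : ∀ n, Q n ≠ [] := by
    intro n
    induction n with
    | zero => exact hq
    | succ n ih =>
      rw [hQs]
      obtain ⟨i, l, hl⟩ := List.exists_cons_of_ne_nil ih
      rw [hl, List.flatMap_cons]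
      intro h
      exact hwne i (List.append_eq_nil_iff.1 h).1
  have hfix : ∀ n, pw (Q n) • (ψ ^ n) u = (ψ ^ n) u := by
    intro n
    induction n with
    | zero => exact hqu
    | succ n ih => rw [hQs, hpw, hψs, ← hψ, ih]
  refine ⟨{e | ∃ n : ℕ, e ∈ pe ((ψ ^ n) u) (Q n)}, ?_, ?_, ?_⟩
  · refine (hC.1.prod (Set.finite_univ (α := ι))).subset ?_
    rintro e ⟨n, he⟩
    refine ⟨?_, Set.mem_univ _⟩
    obtain ⟨l₁, l₂, h1, h2⟩ := i4_pe (Q n) _ e he
    have hmk : FreeGroup.mk ((Q n).map (fun i => (i, true))) • (ψ ^ n) u = (ψ ^ n) u := by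
      rw [i4_mk]
      exact hfix n
    refine hC.2 ((Q n).map (fun i => (i, true))) ?_ (i4_cyc _) ((ψ ^ n) u) hmk ?_
    · rw [Ne, List.map_eq_nil_iff]
      exact hne n
    · refine ⟨(e.2 :: l₂).map (fun i => (i, true)), ?_, ?_⟩
      · refine ⟨l₁.map (fun i => (i, true)), ?_⟩
        rw [h1, ← List.map_append]
      · rw [i4_mk, h2]
        have h3 := hfix n
        rw [h1, pw_append, mul_smul] at h3
        rw [inv_smul_eq_iff]
        exact h3.symm
  · obtain ⟨i, l, hl⟩ := List.exists_cons_of_ne_nil hq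
    refine ⟨(u, i), 0, ?_⟩
    change (u, i) ∈ pe u q
    rw [hl, pe_cons]
    exact List.mem_cons_self
  · rintro e ⟨n, he⟩ e' he'
    refine ⟨n + 1, ?_⟩
    rw [hψs, hQs, hpe]
    exact List.mem_flatMap.2 ⟨e, he, he'⟩

end Pool.Agent.F8.BG
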