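import Pool.Agent.Lib.MP_305fdd_al.F8.BG.StmI

/-!
# MP_305fdd_al, Bianchi groups: assembly of the block INF
-/

set_option autoImplicit false

namespace Pool.Agent.F8.BG

private theorem inf_conj {ι : Type} (α : MulAut (FreeGroup ι)) (x : GR α) :
    ∃ φ : MulAut (FreeGroup ι), ∀ g, iR α (φ g) = x⁻¹ * iR α g * x := by
  obtain ⟨u, n, rfl⟩ := GR_cases α x
  refine ⟨α ^ (-n) * MulAut.conj u⁻¹, fun g => ?_⟩
  rw [MulAut.mul_apply, ← tR_zpow_conj, MulAut.conj_apply, map_mul, map_mul, inv_inv, map_inv,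
    zpow_neg]
  group

private theorem inf_fg {ι : Type} (α : MulAut (FreeGroup ι)) (H : Subgroup (GR α))
    (hfg : (H.comap (iR α)).FG) (x : GR α) (K : Subgroup (FreeGroup ι))
    (hK : ∀ g, g ∈ K ↔ x⁻¹ * iR α g * x ∈ H) : K.FG := by
  classical
  obtain ⟨φ, hφ⟩ := inf_conj α x
  have : K = (H.comap (iR α)).map (φ⁻¹ : MulAut (FreeGroup ι)).toMonoidHom := by
    ext g
    rw [hK, Subgroup.mem_map]
    constructor
    · intro h
      refine ⟨φ g, ?_, ?_⟩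
      · rw [Subgroup.mem_comap, hφ]; exact h
      · exact MulAut.inv_apply_self _ φ g
    · rintro ⟨y, hy, rfl⟩
      rw [← hφ]
      have : φ ((φ⁻¹ : MulAut (FreeGroup ι)).toMonoidHom y) = y := MulAut.apply_inv_self _ φ y
      rw [this]
      exact hy
  rw [this]
  obtain ⟨s, hs⟩ := hfg
  refine ⟨s.image (φ⁻¹ : MulAut (FreeGroup ι)).toMonoidHom, ?_⟩
  rw [Finset.coe_image, ← MonoidHom.map_closure, hs]

private theorem inf_orb {ι : Type} (α : MulAut (FreeGroup ι)) (H : Subgroup (GR α))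
    (hx : ∃ x ∈ H, nR α x ≠ 1) :
    ∃ R : Set (GR α ⧸ H), R.Finite ∧ ∀ v, ∃ v₀ ∈ R, ∃ g : FreeGroup ι, iR α g • v₀ = v := by
  obtain ⟨x, hxH, hxn⟩ := hx
  obtain ⟨u, k, rfl⟩ := GR_cases α x
  rw [nR_eq] at hxn
  have hk : k ≠ 0 := by
    rintro rfl
    exact hxn rfl
  refine ⟨(fun r : ℤ => tR α ^ r • ((1 : GR α) : GR α ⧸ H)) '' Set.Ico 0 |k|,
    (Set.finite_Ico _ _).image _, fun v => ?_⟩
  obtain ⟨y, rfl⟩ := QuotientGroup.mk_surjective v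
  obtain ⟨u', n, rfl⟩ := GR_cases α y
  have h1 : nR α (tR α ^ n * (tR α ^ (n % k) * (iR α u * tR α ^ k) ^ (n / k))⁻¹) = 1 := by
    rw [map_mul, map_inv, map_mul, map_zpow, map_zpow, map_zpow, nR_eq, nR_tR, ← ofAdd_zsmul,
      ← ofAdd_zsmul, ← ofAdd_zsmul, ← ofAdd_add, ← ofAdd_neg, ← ofAdd_add, ← ofAdd_zero]
    congr 1
    simp only [smul_eq_mul, mul_one]
    have := Int.emod_add_mul_ediv n k
    linarith [mul_comm k (n / k)]
  obtain ⟨w, hw⟩ := GR_ker α _ h1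
  refine ⟨_, ⟨n % k, ⟨Int.emod_nonneg _ hk, Int.emod_lt_abs _ hk⟩, rfl⟩, u' * w, ?_⟩
  show iR α (u' * w) • tR α ^ (n % k) • ((1 : GR α) : GR α ⧸ H) = _
  have h2 : (iR α u * tR α ^ k) ^ (n / k) • ((1 : GR α) : GR α ⧸ H) = ((1 : GR α) : GR α ⧸ H) := by
    rw [MulAction.Quotient.smul_coe, smul_eq_mul, QuotientGroup.eq]
    simpa using H.inv_mem (H.zpow_mem hxH (n / k))
  rw [map_mul, mul_smul, ← hw, mul_inv_rev, smul_smul, smul_smul]
  calc _ = (iR α u' * tR α ^ n) • (((iR α u * tR α ^ k) ^ (n / k))⁻¹ •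
        ((1 : GR α) : GR α ⧸ H)) := by
        rw [smul_smul]
        congr 1
        group
    _ = (iR α u' * tR α ^ n) • ((1 : GR α) : GR α ⧸ H) := by
        rw [inv_smul_eq_iff.mpr h2.symm]
    _ = _ := by
        rw [MulAction.Quotient.smul_coe, smul_eq_mul, mul_one]

/-- [BG inf] -/
theorem p_inf (h_i1 : S_i1) (h_i2 : S_i2) (h_i3 : S_i3) (h_core : S_core) (h_pos : S_pos)
    (h_i4 : S_i4) : S_inf := by
  classical
  intro ι _ α N w hN hP H hfg hx hp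
  let act : MulAction (FreeGroup ι) (GR α ⧸ H) := MulAction.compHom _ (iR α)
  have hsmul : ∀ (g : FreeGroup ι) (v : GR α ⧸ H), g • v = iR α g • v := fun g v => rfl
  let ψ : Equiv.Perm (GR α ⧸ H) := MulAction.toPerm (tR α ^ N)
  have hψ : ∀ (g : FreeGroup ι) (v : GR α ⧸ H), ψ (g • v) = (α ^ N) g • ψ v := by
    intro g v
    show tR α ^ N • (iR α g • v) = iR α ((α ^ N) g) • (tR α ^ N • v)
    rw [smul_smul, smul_smul, ← tR_pow_conj]
    congr 1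
    group
  have hst : ∀ v : GR α ⧸ H, (MulAction.stabilizer (FreeGroup ι) v).FG := by
    intro v
    obtain ⟨x, rfl⟩ := QuotientGroup.mk_surjective v
    refine inf_fg α H hfg x _ fun g => ?_
    rw [MulAction.mem_stabilizer_iff, hsmul, MulAction.Quotient.smul_coe, smul_eq_mul, eq_comm,
      QuotientGroup.eq, mul_assoc]
  obtain ⟨R, hR, hRv⟩ := inf_orb α H hx
  obtain ⟨C, hC⟩ := h_core ι (GR α ⧸ H) hst ⟨R, hR, hRv⟩
  obtain ⟨p, hpH, hnp⟩ := hp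
  have hfix : p • ((1 : GR α) : GR α ⧸ H) = ((1 : GR α) : GR α ⧸ H) := by
    rw [hsmul, MulAction.Quotient.smul_coe, smul_eq_mul, QuotientGroup.eq]
    simpa using H.inv_mem hpH
  have hnp' : NPer (α ^ N) p := by
    intro j g hj
    rw [← pow_mul]
    exact hnp (N * j) g (Nat.mul_pos hN hj)
  obtain ⟨u, q, hq, hqu⟩ := h_pos ι (α ^ N) w hP.eq (GR α ⧸ H) C hC ψ hψ _ p hfix hnp'
  obtain ⟨S, hSf, ⟨⟨v, i⟩, hvi⟩, hS⟩ := h_i4 ι (α ^ N) w hP.eq (GR α ⧸ H) C hC ψ hψ u q hq hqu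
  have hS2 : ∀ (v : GR α ⧸ H) (i : ι), ∀ e' ∈ pe (ψ v) (w i), e' ∈ S ↔ (v, i) ∈ S :=
    fun v i e' he' => ⟨h_i1 ι w hP.irr (GR α ⧸ H) ψ S hSf hS v i e' he',
      fun h => hS (v, i) h e' he'⟩
  have hS3 := h_i2 ι (α ^ N) w hP (GR α ⧸ H) ψ hψ S hS2 v i hvi
  refine h_i3 ι α H hx v ((hSf.image Prod.fst).subset ?_)
  rintro _ ⟨g, rfl⟩
  exact ⟨_, hS3 g i, rfl⟩

end Pool.Agent.F8.BG
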