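import Pool.Agent.Lib.MP_305fdd_al.F8.BG.StmC

/-!
# MP_305fdd_al, Bianchi groups, piece par (helper9): commuting elements
-/

set_option autoImplicit false

namespace Pool.Agent.F8.BG

open Pool.Agent.MP_305fdd_al Pool.Agent.Lib.MP_305fdd_al Pool.Agent.F8
open scoped QuadraticAlgebra

noncomputable section

/-- complex `2 × 2` matrices -/
private abbrev par_M : Type := Matrix (Fin 2) (Fin 2) ℂ

private theorem par_rank (E M : par_M) (h : E.det = 0) :
    E * M * E = (E * M).trace • E := by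
  rw [Matrix.det_fin_two] at h
  ext i j
  rw [Matrix.smul_apply, smul_eq_mul]
  fin_cases i <;> fin_cases j <;>
    simp only [Matrix.mul_apply, Fin.sum_univ_two, Matrix.trace_fin_two, Fin.zero_eta, Fin.mk_one]
  · linear_combination (-M 1 1) * h
  · linear_combination (M 0 1) * h
  · linear_combination (M 1 0) * h
  · linear_combination (-M 0 0) * h

private theorem par_ch (E : par_M) : E * E = E.trace • E - E.det • (1 : par_M) := by
  ext i j
  rw [Matrix.sub_apply, Matrix.smul_apply, Matrix.smul_apply, smul_eq_mul, smul_eq_mul]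
  fin_cases i <;> fin_cases j <;>
    simp [Matrix.mul_apply, Fin.sum_univ_two, Matrix.trace_fin_two, Matrix.det_fin_two] <;> ring

private theorem par_det (E : par_M) (u v : ℂ) (h : E.det = 0) (ht : E.trace = 1) :
    (u • E + v • (1 - E)).det = u * v := by
  rw [Matrix.det_fin_two] at h ⊢
  rw [Matrix.trace_fin_two] at ht
  simp only [Matrix.add_apply, Matrix.sub_apply, Matrix.smul_apply, smul_eq_mul, Matrix.one_apply,
    Fin.isValue, if_true, zero_ne_one, one_ne_zero, if_false]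
  linear_combination (u - v) ^ 2 * h + v * (u - v) * ht

/-- the eigenvalue of a matrix which commutes with `E` -/
private theorem par_eig (E B : par_M) (h : E.det = 0) (ht : E.trace = 1) (hB : E * B = B * E)
    (hd : B.det = 1) : ∃ m : ℂ, m ≠ 0 ∧ B = m • E + m⁻¹ • (1 - E) := by
  have hE : E * E = E := by rw [par_ch, h, ht, one_smul, zero_smul, sub_zero]
  have h' : (1 - E).det = 0 := by
    have := par_det E 0 1 h ht
    simpa using this
  have hE' : (1 - E) * (1 - E) = 1 - E := by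
    rw [sub_mul, mul_sub, mul_sub, hE]; simp
  have hB' : (1 - E) * B = B * (1 - E) := by rw [sub_mul, mul_sub, hB]; simp
  have h1 : B * E = (E * B).trace • E := by
    rw [← par_rank E B h, hB, mul_assoc, hE]
  have h2 : B * (1 - E) = ((1 - E) * B).trace • (1 - E) := by
    rw [← par_rank (1 - E) B h', hB', mul_assoc, hE']
  have h3 : B = (E * B).trace • E + ((1 - E) * B).trace • (1 - E) := by
    rw [← h1, ← h2, ← mul_add]; simp
  have h4 : (E * B).trace * ((1 - E) * B).trace = 1 := by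
    rw [← hd, ← par_det E _ _ h ht, ← h3]
  refine ⟨(E * B).trace, left_ne_zero_of_mul_eq_one h4, ?_⟩
  rw [← eq_inv_of_mul_eq_one_right h4]
  exact h3

/-- the projection to an eigenspace -/
private theorem par_proj (A : par_M) (hd : A.det = 1) (ht : A.trace ≠ 2) (ht' : A.trace ≠ -2) :
    ∃ E : par_M, E.det = 0 ∧ E.trace = 1 ∧ ∀ B, A * B = B * A → E * B = B * E := by
  obtain ⟨s, hs⟩ := IsAlgClosed.exists_pow_nat_eq (A.trace ^ 2 - 4) (n := 2) (by norm_num)
  have hs0 : s ≠ 0 := by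
    rintro rfl
    have h1 : (A.trace - 2) * (A.trace + 2) = 0 := by linear_combination -hs
    rcases mul_eq_zero.1 h1 with h2 | h2
    · exact ht (sub_eq_zero.1 h2)
    · exact ht' (eq_neg_of_add_eq_zero_left h2)
  refine ⟨s⁻¹ • (A - ((A.trace - s) / 2) • (1 : par_M)), ?_, ?_, ?_⟩
  · rw [Matrix.det_smul]
    have : (A - ((A.trace - s) / 2) • (1 : par_M)).det = 0 := by
      rw [Matrix.det_fin_two] at hd ⊢
      rw [Matrix.trace_fin_two] at hs ⊢
      simp only [Matrix.sub_apply, Matrix.smul_apply, smul_eq_mul, Matrix.one_apply,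
        Fin.isValue, if_true, zero_ne_one, one_ne_zero, if_false]
      linear_combination hd + (1 / 4) * hs
    rw [this, mul_zero]
  · rw [Matrix.trace_smul, Matrix.trace_sub, Matrix.trace_smul, Matrix.trace_one, smul_eq_mul,
      smul_eq_mul, Fintype.card_fin]
    field_simp
    push_cast
    ring
  · intro B hB
    rw [smul_mul_assoc, mul_smul_comm, sub_mul, mul_sub, hB, smul_mul_assoc, mul_smul_comm,
      one_mul, mul_one]

/-- `u ↦ u E + u⁻¹ (1 - E)` -/
private def par_hom (E : par_M) (hE : E * E = E) : ℂ →* par_M where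
  toFun u := u • E + u⁻¹ • (1 - E)
  map_one' := by simp
  map_mul' u v := by
    have h1 : E * (1 - E) = 0 := by rw [mul_sub, hE]; simp
    have h2 : (1 - E) * E = 0 := by rw [sub_mul, hE]; simp
    have h3 : (1 - E) * (1 - E) = 1 - E := by rw [mul_sub, h2]; simp
    rw [add_mul, mul_add, mul_add, smul_mul_smul_comm, smul_mul_smul_comm, smul_mul_smul_comm,
      smul_mul_smul_comm, hE, h1, h2, h3, smul_zero, smul_zero, add_zero, zero_add, mul_inv]

private theorem par_hom_apply (E : par_M) (hE : E * E = E) (u : ℂ) :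
    par_hom E hE u = u • E + u⁻¹ • (1 - E) := rfl

private theorem par_bound (E : par_M) : ∃ C : ℝ, 0 ≤ C ∧ ∀ (w : ℂ) (R : ℝ), ‖w‖ ≤ R → ‖w⁻¹‖ ≤ R →
    ∀ p q, ‖(w • E + w⁻¹ • (1 - E)) p q‖ ≤ R * C := by
  refine ⟨∑ p, ∑ q, (‖E p q‖ + ‖(1 - E) p q‖), by positivity, ?_⟩
  intro w R h1 h2 p q
  have hR : 0 ≤ R := (norm_nonneg w).trans h1
  have h3 : ‖E p q‖ + ‖(1 - E) p q‖ ≤ ∑ p, ∑ q, (‖E p q‖ + ‖(1 - E) p q‖) := by
    refine le_trans ?_ (Finset.single_le_sum (f := fun p => ∑ q, (‖E p q‖ + ‖(1 - E) p q‖))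
      (fun _ _ => by positivity) (Finset.mem_univ p))
    exact Finset.single_le_sum (f := fun q => (‖E p q‖ + ‖(1 - E) p q‖))
      (fun _ _ => by positivity) (Finset.mem_univ q)
  rw [Matrix.add_apply, Matrix.smul_apply, Matrix.smul_apply, smul_eq_mul, smul_eq_mul]
  calc ‖w * E p q + w⁻¹ * (1 - E) p q‖ ≤ ‖w‖ * ‖E p q‖ + ‖w⁻¹‖ * ‖(1 - E) p q‖ := by
        refine (norm_add_le _ _).trans ?_
        rw [norm_mul, norm_mul]
    _ ≤ R * ‖E p q‖ + R * ‖(1 - E) p q‖ := by gcongr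
    _ = R * (‖E p q‖ + ‖(1 - E) p q‖) := by ring
    _ ≤ _ := mul_le_mul_of_nonneg_left h3 hR

/-- finitely many matrices with bounded entries -/
private theorem par_fin {a b : ℤ} (φ : Qf a b ℤ →+* ℂ)
    (h : ∀ B : ℝ, {z : Qf a b ℤ | ‖φ z‖ ≤ B}.Finite) (B : ℝ) :
    {Z : GQ a b | ∀ p q, ‖φ (Z.val p q)‖ ≤ B}.Finite := by
  have h1 : {f : Fin 2 → Fin 2 → Qf a b ℤ | ∀ p, f p ∈ {g : Fin 2 → Qf a b ℤ |
      ∀ q, g q ∈ {z : Qf a b ℤ | ‖φ z‖ ≤ B}}}.Finite :=
    Set.Finite.pi' fun _ => Set.Finite.pi' fun _ => h B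
  have h2 : Function.Injective (fun Z : GQ a b => (fun p q => Z.val p q : Fin 2 → Fin 2 → Qf a b ℤ)) := by
    intro Z Z' hZ
    apply Matrix.SpecialLinearGroup.ext
    intro p q
    exact congrFun (congrFun hZ p) q
  exact h1.preimage h2.injOn

/-- the pigeonhole principle -/
private theorem par_pig {a b : ℤ} (S : Set (GQ a b)) (hS : S.Finite) (Z : ℕ → GQ a b)
    (hZ : ∀ j, Z j ∈ S) : ∃ j k, j ≠ k ∧ Z j = Z k := by
  have : Finite S := hS
  obtain ⟨j, k, h1, h2⟩ := Finite.exists_ne_map_eq_of_infinite (fun j => (⟨Z j, hZ j⟩ : S))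
  exact ⟨j, k, h1, congrArg Subtype.val h2⟩

/-- **par.** commuting elements satisfy a relation -/
theorem p_par (h_bd : S_bd) : S_par := by
  intro a b hab X Y hXY ht ht'
  obtain ⟨w₀, hw, hinj, hfin⟩ := h_bd a b hab
  set φ := evq a b (Int.castRingHom ℂ) w₀ hw with hφ
  -- the matrices
  set A : par_M := (SLm φ X).val with hA
  set B : par_M := (SLm φ Y).val with hB
  have hAB : A * B = B * A := by
    have h1 : SLm φ X * SLm φ Y = SLm φ Y * SLm φ X := by rw [← map_mul, ← map_mul, hXY]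
    exact congrArg Subtype.val h1
  have hAd : A.det = 1 := (SLm φ X).property
  have hBd : B.det = 1 := (SLm φ Y).property
  have htr : A.trace = φ (tr X) := tr_map φ X
  have h2 : A.trace ≠ 2 := by
    rw [htr]
    intro h
    exact ht (hinj (by rw [h, map_ofNat]))
  have h2' : A.trace ≠ -2 := by
    rw [htr]
    intro h
    exact ht' (hinj (by rw [h, map_neg, map_ofNat]))
  obtain ⟨E, hE0, hE1, hEc⟩ := par_proj A hAd h2 h2'
  have hE : E * E = E := by rw [par_ch, hE0, hE1, one_smul, zero_smul, sub_zero]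
  obtain ⟨l, hl0, hl⟩ := par_eig E A hE0 hE1 (hEc A rfl) hAd
  obtain ⟨m, hm0, hm⟩ := par_eig E B hE0 hE1 (hEc B hAB) hBd
  obtain ⟨C, hC0, hC⟩ := par_bound E
  -- powers
  let ψ : GQ a b →* Matrix.GeneralLinearGroup (Fin 2) ℂ :=
    (Matrix.SpecialLinearGroup.toGL).comp (SLm φ)
  let Θ : ℂˣ →* Matrix.GeneralLinearGroup (Fin 2) ℂ := Units.map (par_hom E hE)
  have hX : ψ X = Θ (Units.mk0 l hl0) := by
    apply Units.ext
    show A = par_hom E hE l
    rw [par_hom_apply]; exact hl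
  have hY : ψ Y = Θ (Units.mk0 m hm0) := by
    apply Units.ext
    show B = par_hom E hE m
    rw [par_hom_apply]; exact hm
  have key : ∀ i j : ℤ, ∀ p q, φ ((X ^ i * Y ^ j).val p q) =
      ((l ^ i * m ^ j) • E + (l ^ i * m ^ j)⁻¹ • (1 - E)) p q := by
    intro i j p q
    have h3 : ψ (X ^ i * Y ^ j) = Θ (Units.mk0 l hl0 ^ i * Units.mk0 m hm0 ^ j) := by
      rw [map_mul, map_zpow, map_zpow, map_mul, map_zpow, map_zpow, hX, hY]
    have h4 : (ψ (X ^ i * Y ^ j)).val p q =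
        (Θ (Units.mk0 l hl0 ^ i * Units.mk0 m hm0 ^ j)).val p q := by rw [h3]
    have h5 : (Θ (Units.mk0 l hl0 ^ i * Units.mk0 m hm0 ^ j)).val =
        par_hom E hE (l ^ i * m ^ j) := by
      show par_hom E hE ((Units.mk0 l hl0 ^ i * Units.mk0 m hm0 ^ j : ℂˣ) : ℂ) = _
      simp
    rw [h5, par_hom_apply] at h4
    exact h4
  have hbd : ∀ (i j : ℤ) (R : ℝ), ‖l ^ i * m ^ j‖ ≤ R → ‖(l ^ i * m ^ j)⁻¹‖ ≤ R →
      X ^ i * Y ^ j ∈ {Z : GQ a b | ∀ p q, ‖φ (Z.val p q)‖ ≤ R * C} := by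
    intro i j R h3 h4 p q
    rw [key]
    exact hC _ R h3 h4 p q
  by_cases hl1 : ‖l‖ = 1
  · -- X is periodic
    obtain ⟨i, k, hik, h3⟩ := par_pig _ (par_fin φ hfin (1 * C)) (fun i => X ^ (i : ℤ) * Y ^ (0 : ℤ))
      (by
        intro i
        apply hbd
        · simp [hl1]
        · simp [hl1])
    refine ⟨(i : ℤ) - k, 0, Or.inl ?_, ?_⟩
    · intro h
      exact hik (by exact_mod_cast sub_eq_zero.1 h)
    · simp only [zpow_zero, mul_one] at h3 ⊢
      rw [zpow_sub, h3, mul_inv_cancel]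
  · -- choose the exponents
    have hex : ∃ R : ℝ, 1 ≤ R ∧ ∀ j : ℕ, ∃ i : ℤ, 1 ≤ ‖l ^ i * m ^ (j : ℤ)‖ ∧
        ‖l ^ i * m ^ (j : ℤ)‖ ≤ R := by
      have hlp : 0 < ‖l‖ := norm_pos_iff.2 hl0
      have hmp : 0 < ‖m‖ := norm_pos_iff.2 hm0
      rcases lt_or_gt_of_ne hl1 with h3 | h3
      · have h4 : 1 < ‖l‖⁻¹ := (one_lt_inv₀ hlp).2 h3
        refine ⟨‖l‖⁻¹, h4.le, fun j => ?_⟩
        obtain ⟨i, h5, h6⟩ := exists_mem_Ico_zpow (x := ‖m‖ ^ (j : ℤ)) (y := ‖l‖⁻¹)
          (by positivity) h4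
        refine ⟨i, ?_, ?_⟩
        · rw [norm_mul, norm_zpow, norm_zpow]
          rw [inv_zpow] at h5
          calc (1 : ℝ) = ‖l‖ ^ i * (‖l‖ ^ i)⁻¹ := (mul_inv_cancel₀ (by positivity)).symm
            _ ≤ _ := mul_le_mul_of_nonneg_left h5 (by positivity)
        · rw [norm_mul, norm_zpow, norm_zpow]
          rw [zpow_add_one₀ (by positivity), inv_zpow] at h6
          calc ‖l‖ ^ i * ‖m‖ ^ (j : ℤ) ≤ ‖l‖ ^ i * ((‖l‖ ^ i)⁻¹ * ‖l‖⁻¹) :=
                mul_le_mul_of_nonneg_left h6.le (by positivity)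
            _ = ‖l‖⁻¹ := by rw [← mul_assoc, mul_inv_cancel₀ (by positivity), one_mul]
      · refine ⟨‖l‖, h3.le, fun j => ?_⟩
        obtain ⟨i, h5, h6⟩ := exists_mem_Ico_zpow (x := ‖m‖ ^ (j : ℤ)) (y := ‖l‖)
          (by positivity) h3
        refine ⟨-i, ?_, ?_⟩
        · rw [norm_mul, norm_zpow, norm_zpow, zpow_neg]
          calc (1 : ℝ) = (‖l‖ ^ i)⁻¹ * ‖l‖ ^ i := (inv_mul_cancel₀ (by positivity)).symm
            _ ≤ _ := mul_le_mul_of_nonneg_left h5 (by positivity)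
        · rw [norm_mul, norm_zpow, norm_zpow, zpow_neg]
          rw [zpow_add_one₀ (by positivity)] at h6
          calc (‖l‖ ^ i)⁻¹ * ‖m‖ ^ (j : ℤ) ≤ (‖l‖ ^ i)⁻¹ * (‖l‖ ^ i * ‖l‖) :=
                mul_le_mul_of_nonneg_left h6.le (by positivity)
            _ = ‖l‖ := by rw [← mul_assoc, inv_mul_cancel₀ (by positivity), one_mul]
    obtain ⟨R, hR, hex⟩ := hex
    choose i hi using hex
    obtain ⟨j, k, hjk, h3⟩ := par_pig _ (par_fin φ hfin (R * C))
      (fun j => X ^ (i j) * Y ^ (j : ℤ)) (by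
        intro j
        apply hbd
        · exact (hi j).2
        · rw [norm_inv]
          exact (inv_le_one_of_one_le₀ (hi j).1).trans hR)
    refine ⟨i j - i k, (j : ℤ) - k, Or.inr ?_, ?_⟩
    · intro h
      exact hjk (by exact_mod_cast sub_eq_zero.1 h)
    · have h4 : X ^ (i j - i k) = (X ^ (i k))⁻¹ * X ^ (i j) := by
        rw [← zpow_neg, ← zpow_add]; congr 1; ring
      rw [h4, zpow_sub]
      calc (X ^ (i k))⁻¹ * X ^ (i j) * (Y ^ (j : ℤ) * (Y ^ (k : ℤ))⁻¹)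
          = (X ^ (i k))⁻¹ * (X ^ (i j) * Y ^ (j : ℤ)) * (Y ^ (k : ℤ))⁻¹ := by group
        _ = 1 := by rw [h3]; group

end

end Pool.Agent.F8.BG
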