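import Pool.Agent.Lib.MP_305fdd_al.F8.BG.StmI

/-!
# [BG pos] Existence of a positive closed path
-/

set_option autoImplicit false

namespace Pool.Agent.F8.BG

private theorem pos_sc_cons (a : Bool) (l : List Bool) : sc l ≤ sc (a :: l) := by
  cases l with
  | nil => simp [sc]
  | cons b l => simp [sc]

private theorem pos_sc_append_left (l l' : List Bool) : sc l' ≤ sc (l ++ l') := by
  induction l with
  | nil => simp
  | cons a l ih =>
    rw [List.cons_append]
    exact ih.trans (pos_sc_cons _ _)

private theorem pos_sc_append_right (l l' : List Bool) : sc l ≤ sc (l ++ l') := by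
  induction l with
  | nil => simp [sc]
  | cons a l ih =>
    cases l with
    | nil => simp [sc]
    | cons b l =>
      simp only [List.cons_append, sc] at ih ⊢
      omega

private theorem pos_sc_infix (l l' : List Bool) (h : l <:+: l') : sc l ≤ sc l' := by
  obtain ⟨s, t, rfl⟩ := h
  exact (pos_sc_append_left s l).trans (pos_sc_append_right (s ++ l) t)

private theorem pos_mk_true {ι : Type} (q : List ι) :
    FreeGroup.mk (q.map fun i => (i, true)) = pw q := by
  induction q with
  | nil => rfl
  | cons i q ih =>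
    rw [List.map_cons, pw_cons, ← ih]
    rfl

private theorem pos_mk_false {ι : Type} (q : List ι) :
    FreeGroup.mk (q.map fun i => (i, false)) = (pw q.reverse)⁻¹ := by
  induction q with
  | nil => simp [FreeGroup.one_eq_mk]
  | cons i q ih =>
    rw [List.map_cons, List.reverse_cons, pw_append, mul_inv_rev, ← ih, pw_cons, pw_nil, mul_one]
    rfl

private theorem pos_fst {ι : Type} (b : Bool) (L : List (ι × Bool)) (k : ℕ)
    (h : L.map Prod.snd = List.replicate k b) : L = (L.map Prod.fst).map fun i => (i, b) := by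
  induction L generalizing k with
  | nil => rfl
  | cons a L ih =>
    cases k with
    | zero => simp at h
    | succ k =>
      rw [List.map_cons, List.replicate_succ, List.cons.injEq] at h
      rw [List.map_cons, List.map_cons, ← ih k h.2, ← h.1]

theorem p_pos (h_sc2 : S_sc2) (h_sc3 : S_sc3) : S_pos := by
  classical
  intro ι _ β w hw V _ C hC ψ hψ v p hpv hp
  obtain ⟨hCf, hCc⟩ := hC
  have hψn : ∀ (n : ℕ) (g : FreeGroup ι) (x : V), (ψ ^ n) (g • x) = (β ^ n) g • (ψ ^ n) x := by
    intro n
    induction n with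
    | zero => intro g x; simp
    | succ n ih =>
      intro g x
      rw [pow_succ', Equiv.Perm.mul_apply, ih, hψ, pow_succ' β, MulAut.mul_apply,
        Equiv.Perm.mul_apply]
  -- the words
  obtain ⟨c, hc⟩ : ∃ c : ℕ → List (ι × Bool), c = fun n =>
    FreeGroup.reduceCyclically ((β ^ n) p).toWord := ⟨_, rfl⟩
  obtain ⟨d, hd⟩ : ∃ d : ℕ → FreeGroup ι, d = fun n =>
    FreeGroup.mk (FreeGroup.reduceCyclically.conjugator ((β ^ n) p).toWord) := ⟨_, rfl⟩
  have hcd : ∀ n, FreeGroup.reduceCyclically.conjugator ((β ^ n) p).toWord ++ c n ++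
      FreeGroup.invRev (FreeGroup.reduceCyclically.conjugator ((β ^ n) p).toWord) =
      ((β ^ n) p).toWord := by
    intro n
    rw [hc]
    exact FreeGroup.reduceCyclically.conj_conjugator_reduceCyclically _
  have h1 : ∀ n, (β ^ n) p = d n * FreeGroup.mk (c n) * (d n)⁻¹ := by
    intro n
    have h := congrArg FreeGroup.mk (hcd n)
    rw [FreeGroup.mk_toWord, ← FreeGroup.mul_mk, ← FreeGroup.mul_mk, ← FreeGroup.inv_mk] at h
    rw [← h, hd]
  have h2 : ∀ n, FreeGroup.IsCyclicallyReduced (c n) := by
    intro n
    rw [hc]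
    exact FreeGroup.reduceCyclically.isCyclicallyReduced FreeGroup.isReduced_toWord
  have h3 : ∀ n, c n ≠ [] := by
    intro n hn
    have h := h1 n
    rw [hn, ← FreeGroup.one_eq_mk, mul_one, mul_inv_cancel] at h
    have hp1 : p = 1 := by
      apply (β ^ n).injective
      rw [h, map_one]
    apply hp 1 1 le_rfl
    rw [hp1]
    simp
  have h4 : ∀ n, sc (((β ^ n) p).toWord.map Prod.snd) ≤ sc (p.toWord.map Prod.snd) := by
    intro n
    induction n with
    | zero => simp
    | succ n ih =>
      rw [pow_succ', MulAut.mul_apply]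
      exact (h_sc3 ι β w hw _).trans ih
  have h5 : ∀ n, sc ((c n).map Prod.snd) ≤ sc (p.toWord.map Prod.snd) := by
    intro n
    refine (pos_sc_infix _ _ ?_).trans (h4 n)
    exact List.IsInfix.map _ ⟨_, _, hcd n⟩
  obtain ⟨s, hs⟩ : ∃ s, s = sc (p.toWord.map Prod.snd) := ⟨_, rfl⟩
  rw [← hs] at h5
  obtain ⟨m, hm⟩ : ∃ m, m = C.ncard := ⟨_, rfl⟩
  by_cases hall : ∀ n, (c n).length ≤ (s + 1) * m
  · -- periodic
    exfalso
    have hfin : {l : List (ι × Bool) | l.length ≤ (s + 1) * m}.Finite :=
      List.finite_length_le _ _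
    have : Finite {l : List (ι × Bool) | l.length ≤ (s + 1) * m} := hfin
    obtain ⟨n, k, hnk, he⟩ := Finite.exists_ne_map_eq_of_infinite
      (fun n : ℕ => (⟨c n, hall n⟩ : {l : List (ι × Bool) | l.length ≤ (s + 1) * m}))
    have he' : c n = c k := congrArg Subtype.val he
    -- the symmetric argument
    have key : ∀ n k : ℕ, n < k → c n = c k → False := by
      intro n k hlt he
      obtain ⟨j, rfl⟩ := Nat.exists_eq_add_of_le hlt.le
      have hj : 1 ≤ j := by omega
      have e1 := h1 n
      have e2 := h1 (n + j)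
      rw [← he] at e2
      have e3 : (β ^ (n + j)) p = (d (n + j) * (d n)⁻¹) * (β ^ n) p * (d (n + j) * (d n)⁻¹)⁻¹ := by
        rw [e2, e1]
        group
      rw [pow_add, MulAut.mul_apply] at e3
      apply hp j ((β ^ n).symm (d (n + j) * (d n)⁻¹)) hj
      apply (β ^ n).injective
      rw [e3, map_mul, map_mul, map_inv, MulEquiv.apply_symm_apply]
    rcases lt_or_gt_of_ne hnk with h | h
    · exact key n k h he'
    · exact key k n h he'.symm
  · push Not at hall
    obtain ⟨n, hn⟩ := hall
    obtain ⟨b, hb⟩ := h_sc2 s m ((c n).map Prod.snd) (h5 n) (by rw [List.length_map]; exact hn)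
    obtain ⟨t₁, t₂, ht⟩ := hb
    obtain ⟨l₁', l₂, hl1, hl2, hl3⟩ := List.map_eq_append_iff.1 ht.symm
    obtain ⟨l₁, M, hm1, hm2, hm3⟩ := List.map_eq_append_iff.1 hl2
    rw [hm1] at hl1
    have hMlen : M.length = m + 1 := by
      have := congrArg List.length hm3
      simpa using this
    -- the vertices
    obtain ⟨v', hv'⟩ : ∃ v', v' = (d n)⁻¹ • (ψ ^ n) v := ⟨_, rfl⟩
    have hfix : FreeGroup.mk (c n) • v' = v' := by
      have e1 : (β ^ n) p • (ψ ^ n) v = (ψ ^ n) v := by rw [← hψn, hpv]
      rw [h1 n, mul_smul, mul_smul, ← hv'] at e1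
      calc FreeGroup.mk (c n) • v' = (d n)⁻¹ • (d n • FreeGroup.mk (c n) • v') := by
            rw [inv_smul_smul]
        _ = v' := by rw [e1, hv']
    have hsub := hCc (c n) (h3 n) (h2 n) v' hfix
    have hfC : ∀ i ∈ Finset.range (m + 2),
        FreeGroup.mk (M.drop i ++ l₂) • v' ∈ hCf.toFinset := by
      intro i _
      rw [hCf.mem_toFinset]
      refine hsub ⟨M.drop i ++ l₂, ?_, rfl⟩
      rw [hl1, List.append_assoc]
      refine List.IsSuffix.trans ?_ (List.suffix_append l₁ (M ++ l₂))
      refine ⟨M.take i, ?_⟩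
      rw [← List.append_assoc, List.take_append_drop]
    have hcard : hCf.toFinset.card < (Finset.range (m + 2)).card := by
      rw [Finset.card_range, ← Set.ncard_eq_toFinset_card C hCf, ← hm]
      omega
    obtain ⟨i, hi, j, hj, hij, he⟩ := Finset.exists_ne_map_eq_of_card_lt_of_maps_to hcard hfC
    have key : ∀ i j : ℕ, i < j → j < m + 2 →
        FreeGroup.mk (M.drop i ++ l₂) • v' = FreeGroup.mk (M.drop j ++ l₂) • v' →
        ∃ (u : V) (q : List ι), q ≠ [] ∧ pw q • u = u := by
      intro i j hij hj he
      obtain ⟨Q, hQ⟩ : ∃ Q, Q = (M.drop i).take (j - i) := ⟨_, rfl⟩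
      have hQM : M.drop i = Q ++ M.drop j := by
        have : M.drop j = (M.drop i).drop (j - i) := by
          rw [List.drop_drop]
          congr 1
          omega
        rw [this, hQ, List.take_append_drop]
      have hQlen : Q.length = j - i := by
        rw [hQ, List.length_take, List.length_drop, hMlen]
        omega
      have hQne : Q ≠ [] := by
        intro h
        rw [h] at hQlen
        simp at hQlen
        omega
      have hQsnd : Q.map Prod.snd = List.replicate (j - i) b := by
        rw [List.eq_replicate_iff]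
        refine ⟨by rw [List.length_map, hQlen], fun x hx => ?_⟩
        have hx2 : x ∈ M.map Prod.snd := by
          obtain ⟨y, hy, rfl⟩ := List.mem_map.1 hx
          refine List.mem_map.2 ⟨y, ?_, rfl⟩
          rw [hQ] at hy
          exact List.mem_of_mem_drop (List.mem_of_mem_take hy)
        rw [hm3] at hx2
        exact List.eq_of_mem_replicate hx2
      have hQfix : FreeGroup.mk Q • FreeGroup.mk (M.drop j ++ l₂) • v' =
          FreeGroup.mk (M.drop j ++ l₂) • v' := by
        rw [← mul_smul, FreeGroup.mul_mk, ← List.append_assoc, ← hQM]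
        exact he
      have hQeq := pos_fst b Q _ hQsnd
      obtain ⟨q, hq⟩ : ∃ q, q = Q.map Prod.fst := ⟨_, rfl⟩
      have hqne : q ≠ [] := by
        rw [hq]
        simpa using hQne
      rw [← hq] at hQeq
      cases b with
      | true =>
        rw [hQeq, pos_mk_true] at hQfix
        exact ⟨_, q, hqne, hQfix⟩
      | false =>
        rw [hQeq, pos_mk_false, inv_smul_eq_iff] at hQfix
        exact ⟨_, q.reverse, by simpa using hqne, hQfix.symm⟩
    rcases lt_or_gt_of_ne hij with h | h
    · exact key i j h (Finset.mem_range.1 hj) he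
    · exact key j i h (Finset.mem_range.1 hi) he.symm

end Pool.Agent.F8.BG
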