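import Pool.Agent.Lib.MP_305fdd_al.F8.BG.StmI

/-!
# MP_305fdd_al, Bianchi groups, piece sc1: sign changes do not increase under reduction
-/

set_option autoImplicit false

namespace Pool.Agent.F8.BG

private theorem sc1_cons (c : Bool) (B : List Bool) : sc B ≤ sc (c :: B) := by
  cases B with
  | nil => exact Nat.zero_le _
  | cons d B =>
    change sc (d :: B) ≤ (if c = d then 0 else 1) + sc (d :: B)
    omega

private theorem sc1_cons_cons (a c : Bool) (B : List Bool) : sc (a :: B) ≤ sc (a :: c :: B) := by
  cases B with
  | nil => exact Nat.zero_le _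
  | cons d B =>
    change (if a = d then 0 else 1) + sc (d :: B) ≤
      (if a = c then 0 else 1) + ((if c = d then 0 else 1) + sc (d :: B))
    by_cases h1 : a = c
    · subst h1
      simp
    · rw [if_neg h1]
      split_ifs <;> omega

/-- a new letter does not decrease the number of sign changes -/
private theorem sc1_ins (c : Bool) (B : List Bool) : ∀ A : List Bool,
    sc (A ++ B) ≤ sc (A ++ c :: B)
  | [] => sc1_cons c B
  | [a] => sc1_cons_cons a c B
  | a :: b :: A => by
    change (if a = b then 0 else 1) + sc (b :: A ++ B) ≤
      (if a = b then 0 else 1) + sc (b :: A ++ c :: B)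
    exact Nat.add_le_add_left (sc1_ins c B (b :: A)) _

theorem p_sc1 : S_sc1 := by
  intro ι L L' h
  induction h with
  | refl => exact le_rfl
  | tail _ hs ih =>
    refine le_trans ?_ ih
    cases hs with
    | @not L₁ L₂ x b =>
      rw [List.map_append, List.map_append, List.map_cons, List.map_cons]
      exact (sc1_ins _ _ _).trans (sc1_ins _ _ _)

end Pool.Agent.F8.BG
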