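import Pool.Agent.Lib.MP_305fdd_al.F8.BG.StmI

/-! Proof of `S_sc2`: long lists with few sign changes have long monochrome sublists. -/

namespace Pool.Agent.F8.BG

/-- The first monochrome block of a nonempty list. -/
private theorem sc2_block (l : List Bool) : ∀ b : Bool, ∃ (k : ℕ) (l' : List Bool),
    b :: l = List.replicate (k + 1) b ++ l' ∧ (l' = [] ∨ sc (b :: l) = sc l' + 1) := by
  induction l with
  | nil =>
    intro b
    exact ⟨0, [], by simp, Or.inl rfl⟩
  | cons c t ih =>
    intro b
    by_cases h : b = c
    · subst h
      obtain ⟨k, l', h1, h2⟩ := ih b
      refine ⟨k + 1, l', ?_, ?_⟩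
      · rw [h1, List.replicate_succ (n := k + 1), List.cons_append]
      · rcases h2 with h2 | h2
        · exact Or.inl h2
        · right
          simp only [sc, if_true]
          omega
    · refine ⟨0, c :: t, by simp, Or.inr ?_⟩
      simp only [sc, if_neg h]
      omega

theorem p_sc2 : S_sc2 := by
  intro s m
  induction s with
  | zero =>
    intro l hs hl
    cases l with
    | nil => simp at hl
    | cons b t =>
      obtain ⟨k, l', h1, h2⟩ := sc2_block t b
      have hlen : (b :: t).length = (k + 1) + l'.length := by
        rw [h1]; simp
      rcases h2 with h2 | h2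
      · subst h2
        refine ⟨b, ?_⟩
        rw [h1, List.append_nil]
        have hk : k + 1 = (m + 1) + (k - m) := by
          simp only [List.length_nil] at hlen
          omega
        rw [hk, List.replicate_add (m + 1) (k - m) b]
        exact (List.prefix_append _ _).isInfix
      · omega
  | succ s ih =>
    intro l hs hl
    cases l with
    | nil => simp at hl
    | cons b t =>
      obtain ⟨k, l', h1, h2⟩ := sc2_block t b
      have hlen : (b :: t).length = (k + 1) + l'.length := by
        rw [h1]; simp
      by_cases hkm : m ≤ k
      · refine ⟨b, ?_⟩
        have hk : k + 1 = (m + 1) + (k - m) := by omega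
        rw [h1, hk, List.replicate_add (m + 1) (k - m) b, List.append_assoc]
        exact (List.prefix_append _ _).isInfix
      · have hexp : (s + 1 + 1) * m = (s + 1) * m + m := by ring
        have hl' : (s + 1) * m < l'.length := by omega
        have hsc : sc l' ≤ s := by
          rcases h2 with h2 | h2
          · subst h2
            simp at hl'
          · omega
        obtain ⟨c, hc⟩ := ih l' hsc hl'
        refine ⟨c, hc.trans ?_⟩
        rw [h1]
        exact (List.suffix_append _ _).isInfix

end Pool.Agent.F8.BG
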