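import Pool.Agent.Lib.MP_305fdd_al.F8.BG.StmI

/-!
# MP_305fdd_al, Bianchi groups, piece st: the paths of the elements of a finitely generated stabiliser
-/

set_option autoImplicit false

namespace Pool.Agent.F8.BG

private theorem st_finite {ι V : Type} [MulAction (FreeGroup ι) V] (L : List (ι × Bool)) (v : V) :
    (sv L v).Finite := by
  have h : sv L v ⊆ (fun l : List (ι × Bool) => FreeGroup.mk l • v) '' {l | l ∈ L.tails} := by
    rintro u ⟨l, hl, rfl⟩
    exact ⟨l, (List.mem_tails l L).2 hl, rfl⟩
  exact ((List.finite_toSet L.tails).image _).subset h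

private theorem st_append {ι V : Type} [MulAction (FreeGroup ι) V] (L L' : List (ι × Bool))
    (v : V) : sv (L ++ L') v ⊆ sv L' v ∪ sv L (FreeGroup.mk L' • v) := by
  rintro u ⟨l, ⟨t, ht⟩, rfl⟩
  rcases List.append_eq_append_iff.1 ht with ⟨a, h1, h2⟩ | ⟨a, h1, h2⟩
  · right
    refine ⟨a, ⟨t, h1.symm⟩, ?_⟩
    rw [h2, ← FreeGroup.mul_mk, mul_smul]
  · left
    exact ⟨l, ⟨a, h2.symm⟩, rfl⟩

theorem p_st (h_sv : S_sv) : S_st := by
  intro ι V _ _ v hFG
  obtain ⟨T, hT⟩ := hFG
  set C : Set V := {v} ∪ ⋃ s ∈ T, (sv s.toWord v ∪ sv (s⁻¹).toWord v) with hC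
  have hfin : C.Finite := by
    refine (Set.finite_singleton v).union ?_
    exact T.finite_toSet.biUnion fun s _ => (st_finite _ v).union (st_finite _ v)
  have hmem : ∀ s ∈ T, s • v = v := by
    intro s hs
    have : s ∈ MulAction.stabilizer (FreeGroup ι) v := by
      rw [← hT]; exact Subgroup.subset_closure hs
    exact MulAction.mem_stabilizer_iff.1 this
  -- one step
  have hstep : ∀ s g : FreeGroup ι, sv s.toWord v ⊆ C → s • v = v → g • v = v →
      sv g.toWord v ⊆ C → sv (s * g).toWord v ⊆ C := by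
    intro s g hs hsv hgv hg
    have hred : FreeGroup.Red (s.toWord ++ g.toWord) (s * g).toWord := by
      rw [FreeGroup.toWord_mul]
      exact FreeGroup.reduce.red
    refine (h_sv ι V _ _ hred v).trans ((st_append _ _ v).trans ?_)
    rw [FreeGroup.mk_toWord, hgv]
    exact Set.union_subset hg hs
  refine ⟨C, hfin, ?_⟩
  intro g hg
  have hg' : g ∈ Subgroup.closure (T : Set (FreeGroup ι)) := by
    rw [hT]; exact MulAction.mem_stabilizer_iff.2 hg
  have key : g • v = v ∧ sv g.toWord v ⊆ C := by
    induction hg' using Subgroup.closure_induction_left with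
    | one =>
      refine ⟨one_smul _ v, ?_⟩
      rintro u ⟨l, hl, rfl⟩
      rw [FreeGroup.toWord_one] at hl
      have : l = [] := List.suffix_nil.1 hl
      subst this
      left
      show FreeGroup.mk [] • v = v
      rw [← FreeGroup.one_eq_mk, one_smul]
    | mul_left s hs y hy ih =>
      have hsv := hmem s hs
      have hy2 : y • v = v := by
        rw [mul_smul] at hg
        have := congrArg (fun z => s⁻¹ • z) hg
        simp only [inv_smul_smul] at this
        rw [this, inv_smul_eq_iff, hsv]
      obtain ⟨h1, h2⟩ := ih hy2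
      refine ⟨hg, hstep s y ?_ hsv h1 h2⟩
      intro u hu
      right
      exact Set.mem_biUnion hs (Or.inl hu)
    | inv_mul_cancel s hs y hy ih =>
      have hsv := hmem s hs
      have hsi : s⁻¹ • v = v := by rw [inv_smul_eq_iff, hsv]
      have hy2 : y • v = v := by
        rw [mul_smul, inv_smul_eq_iff, hsv] at hg
        exact hg
      obtain ⟨h1, h2⟩ := ih hy2
      refine ⟨hg, hstep s⁻¹ y ?_ hsi h1 h2⟩
      intro u hu
      right
      exact Set.mem_biUnion hs (Or.inr hu)
  exact key.2

end Pool.Agent.F8.BG
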