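import Pool.Agent.Lib.MP_305fdd_al.F8.BG.StmI

/-!
# MP_305fdd_al, Bianchi groups: the vertices of the path of a reduced word
-/

set_option autoImplicit false

namespace Pool.Agent.F8.BG

/-- one step of the reduction -/
private theorem sv_step {ι V : Type} [MulAction (FreeGroup ι) V] {L L' : List (ι × Bool)}
    (h : FreeGroup.Red.Step L L') (v : V) : sv L' v ⊆ sv L v := by
  obtain @⟨L₁, L₂, x, b⟩ := h
  rintro u ⟨l, ⟨t, ht⟩, rfl⟩
  rcases List.append_eq_append_iff.1 ht with ⟨a, h1, h2⟩ | ⟨c, h1, h2⟩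
  · refine ⟨a ++ (x, b) :: (x, !b) :: L₂, ⟨t, ?_⟩, ?_⟩
    · rw [h1, List.append_assoc]
    · have h3 : FreeGroup.mk (a ++ (x, b) :: (x, !b) :: L₂) = FreeGroup.mk l := by
        rw [h2]
        exact Quot.sound FreeGroup.Red.Step.not
      rw [h3]
  · refine ⟨l, ⟨L₁ ++ (x, b) :: (x, !b) :: c, ?_⟩, rfl⟩
    rw [h2]
    simp

theorem p_sv : S_sv := by
  intro ι V _ L L' h v
  induction h with
  | refl => exact subset_rfl
  | tail _ h2 ih => exact (sv_step h2 v).trans ih

end Pool.Agent.F8.BG
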