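import Pool.Agent.Lib.MP_305fdd_al.F8.BG.P_i1
import Pool.Agent.Lib.MP_305fdd_al.F8.BG.P_i2
import Pool.Agent.Lib.MP_305fdd_al.F8.BG.P_i3
import Pool.Agent.Lib.MP_305fdd_al.F8.BG.P_sv
import Pool.Agent.Lib.MP_305fdd_al.F8.BG.P_st
import Pool.Agent.Lib.MP_305fdd_al.F8.BG.P_cyc
import Pool.Agent.Lib.MP_305fdd_al.F8.BG.P_core
import Pool.Agent.Lib.MP_305fdd_al.F8.BG.P_sc1
import Pool.Agent.Lib.MP_305fdd_al.F8.BG.P_sc2
import Pool.Agent.Lib.MP_305fdd_al.F8.BG.P_sc3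
import Pool.Agent.Lib.MP_305fdd_al.F8.BG.P_pos
import Pool.Agent.Lib.MP_305fdd_al.F8.BG.P_i4
import Pool.Agent.Lib.MP_305fdd_al.F8.BG.P_inf
import Pool.Agent.Lib.MP_305fdd_al.F8.BG.P_bd
import Pool.Agent.Lib.MP_305fdd_al.F8.BG.P_par

/-!
# MP_305fdd_al, Bianchi groups: assembly of the block INF
-/

set_option autoImplicit false

namespace Pool.Agent.F8.BG

theorem m_i1 : S_i1 := p_i1
theorem m_i2 : S_i2 := p_i2
theorem m_i3 : S_i3 := p_i3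
theorem m_sv : S_sv := p_sv
theorem m_st : S_st := p_st m_sv
theorem m_cyc : S_cyc := p_cyc m_sv
theorem m_core : S_core := p_core m_st m_cyc
theorem m_sc1 : S_sc1 := p_sc1
theorem m_sc2 : S_sc2 := p_sc2
theorem m_sc3 : S_sc3 := p_sc3 m_sc1
theorem m_pos : S_pos := p_pos m_sc2 m_sc3
theorem m_i4 : S_i4 := p_i4
theorem m_inf : S_inf := p_inf m_i1 m_i2 m_i3 m_core m_pos m_i4
theorem m_bd : S_bd := p_bd
theorem m_par : S_par := p_par m_bd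

end Pool.Agent.F8.BG
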