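import Pool.Agent.Lib.MP_305fdd_al.F8.BG.StmC
import Pool.Agent.Lib.MP_305fdd_al.F8.PIC.P_fi

/-!
# MP_305fdd_al, Bianchi groups, piece fi: the index of `ρ(Λ)` is finite
-/

set_option autoImplicit false

namespace Pool.Agent.F8.BG

open Pool.Agent.MP_305fdd_al Pool.Agent.Lib.MP_305fdd_al Pool.Agent.F8
open scoped QuadraticAlgebra

private theorem fi_finite (a b : ℤ) (M : ℕ) [NeZero M] : Finite (SL2 (Qf a b (ZMod M))) := by
  have h1 : Finite (Qf a b (ZMod M)) := by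
    refine Finite.of_injective (fun z : Qf a b (ZMod M) => (z.re, z.im)) ?_
    intro z z' h
    exact QuadraticAlgebra.ext (congrArg Prod.fst h) (congrArg Prod.snd h)
  exact Finite.of_injective (fun g : SL2 (Qf a b (ZMod M)) => g.val) Subtype.val_injective

private theorem fi_level {a b : ℤ} {M : ℕ} (hM : M ≠ 0) (G₀ : Subgroup (GQ a b))
    (h : ∀ x : GQ a b, rdq a b M x = 1 → x ∈ G₀) : G₀.FiniteIndex := by
  haveI : NeZero M := ⟨hM⟩
  haveI : Finite (SL2 (Qf a b (ZMod M))) := fi_finite a b M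
  haveI : (rdq a b M).ker.FiniteIndex := Subgroup.finiteIndex_ker _
  exact Subgroup.finiteIndex_of_le (H := (rdq a b M).ker) fun x hx => h x hx

theorem p_fi (h_hq : S_hq) (h_afg : S_afg) (h_npr : S_npr) (h_inf : S_inf) : S_fi := by
  intro a b hD ι _ α N w hN hPos M c g G₀ η hη hn hxy Λ _ _ Φ ρ hρ hcoc
  obtain ⟨hfg, hlift⟩ := h_hq a b ι α M c g G₀ η hη Λ Φ ρ hρ
  have hnot : ∃ x ∈ HQ ρ η, nR α x ≠ 1 := by
    obtain ⟨m, _, x₀, hx₀⟩ := hn
    obtain ⟨x, hx, hxr⟩ := hlift m x₀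
    exact ⟨η x, ⟨x, hx, rfl⟩, hx₀ x hxr⟩
  obtain ⟨q, _, u, hu⟩ := hcoc
  have hF := h_afg ι α (HQ ρ η) hfg hnot q u hu
  obtain ⟨m, _, x₀, y₀, ht1, ht2⟩ := hxy
  have hp := h_npr a b hD ι α M c g G₀ η hη Λ Φ ρ hρ m x₀ y₀ ht1 ht2
  have hH : (HQ ρ η).FiniteIndex := h_inf ι α N w hN hPos (HQ ρ η) hF hnot hp
  have hc : ((HQ ρ η).comap η).FiniteIndex := by
    have : (HQ ρ η).IsFiniteRelIndex η.range := Subgroup.isFiniteRelIndex_of_finiteIndex
    refine ⟨?_⟩
    rw [Subgroup.index_comap]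
    exact Subgroup.relIndex_ne_zero
  have hG : G₀.FiniteIndex := fi_level hη.ne G₀ hη.lev
  have hB : (((HQ ρ η).comap η).map G₀.subtype).FiniteIndex := by
    refine ⟨?_⟩
    rw [Subgroup.index_map_subtype]
    exact mul_ne_zero hc.index_ne_zero hG.index_ne_zero
  refine PIC.fi_cover ρ.range (((HQ ρ η).comap η).map G₀.subtype) (-1) ?_ ?_
  · intro x
    rw [neg_mul, mul_neg, one_mul, mul_one]
  · rintro y ⟨x, hx, rfl⟩
    have hx' : η x ∈ HQ ρ η := hx
    obtain ⟨z, hz, hzx⟩ := hx'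
    have hz' : z.val ∈ ρ.range := hz
    have h5 : η (z⁻¹ * x) = 1 := by
      rw [map_mul, map_inv, hzx, inv_mul_cancel]
    rcases (hη.ker _).1 h5 with h6 | h6
    · left
      have h7 : (x : GQ a b) = z := by
        have h8 : (z : GQ a b)⁻¹ * (x : GQ a b) = 1 := h6
        exact (inv_mul_eq_one.1 h8).symm
      show (x : GQ a b) ∈ ρ.range
      rw [h7]
      exact hz'
    · right
      have h8 : (z : GQ a b)⁻¹ * (x : GQ a b) = -1 := h6
      have h7 : (x : GQ a b) = -(z : GQ a b) := by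
        rw [inv_mul_eq_iff_eq_mul] at h8
        rw [h8, mul_neg, mul_one]
      show (-1 : GQ a b) * (x : GQ a b) ∈ ρ.range
      rw [h7, neg_mul_neg, one_mul]
      exact hz'

end Pool.Agent.F8.BG
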