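import Pool.Agent.Lib.MP_305fdd_al.F8.BG.StmC

/-!
# MP_305fdd_al, BG, piece frg: a finiteness criterion for free groups
-/

set_option autoImplicit false

namespace Pool.Agent.F8.BG

/-- The abelianisation of a free group. -/
private noncomputable def frg_ab {P B : Type} [Group P] (b : FreeGroupBasis B P) :
    P →* Multiplicative (B →₀ ℤ) :=
  b.lift (fun i => Multiplicative.ofAdd (Finsupp.single i 1))

private lemma frg_ab_gen {P B : Type} [Group P] (b : FreeGroupBasis B P) (i : B) :
    frg_ab b (b i) = Multiplicative.ofAdd (Finsupp.single i 1) := by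
  simp [frg_ab]

private lemma frg_ab_surj {P B : Type} [Group P] (b : FreeGroupBasis B P) :
    Function.Surjective (frg_ab b) := by
  intro y
  have h : ∀ y : B →₀ ℤ, Multiplicative.ofAdd y ∈ (frg_ab b).range := by
    intro y
    induction y using Finsupp.induction_linear with
    | zero => exact one_mem _
    | add f g hf hg => rw [ofAdd_add]; exact mul_mem hf hg
    | single i n =>
      refine ⟨b i ^ n, ?_⟩
      rw [map_zpow, frg_ab_gen, ← ofAdd_zsmul, Finsupp.smul_single, smul_eq_mul, mul_one]
  exact h (Multiplicative.toAdd y)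

private lemma frg_desc {P B : Type} [Group P] (b : FreeGroupBasis B P) (σ : P →* P) :
    ∃ T : (B →₀ ℤ) →+ (B →₀ ℤ), ∀ x, T (Multiplicative.toAdd (frg_ab b x)) =
      Multiplicative.toAdd (frg_ab b (σ x)) := by
  refine ⟨Finsupp.liftAddHom (fun i => (zmultiplesHom _) (Multiplicative.toAdd (frg_ab b (σ (b i))))), ?_⟩
  intro x
  have h : ((AddMonoidHom.toMultiplicative (Finsupp.liftAddHom (fun i => (zmultiplesHom _)
      (Multiplicative.toAdd (frg_ab b (σ (b i)))))))).comp (frg_ab b) = (frg_ab b).comp σ := by
    apply b.ext_hom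
    intro i
    rw [MonoidHom.comp_apply, MonoidHom.comp_apply, frg_ab_gen]
    simp
  have h2 := DFunLike.congr_fun h x
  exact congrArg Multiplicative.toAdd h2

theorem p_frg (h_frm : S_frm) : S_frg := by
  intro q _ c hc P _ hP τ S hS hf
  obtain ⟨B, ⟨b⟩⟩ : ∃ B : Type, Nonempty (FreeGroupBasis B P) := ⟨_, ⟨IsFreeGroup.basis P⟩⟩
  obtain ⟨T, hT⟩ := frg_desc b (τ : P →* P)
  obtain ⟨T', hT'⟩ := frg_desc b (τ.symm : P →* P)
  have hs := frg_ab_surj b
  have e1 : ∀ y, T' (T y) = y := by
    intro y
    obtain ⟨x, hx⟩ := hs (Multiplicative.ofAdd y)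
    have hy : y = Multiplicative.toAdd (frg_ab b x) := by rw [hx]; rfl
    rw [hy, hT, hT']
    simp
  have e2 : ∀ y, T (T' y) = y := by
    intro y
    obtain ⟨x, hx⟩ := hs (Multiplicative.ofAdd y)
    have hy : y = Multiplicative.toAdd (frg_ab b x) := by rw [hx]; rfl
    rw [hy, hT', hT]
    simp
  let τ' : (B →₀ ℤ) ≃+ (B →₀ ℤ) :=
    { toFun := T, invFun := T', left_inv := e1, right_inv := e2, map_add' := map_add T }
  classical
  have hfin : Finite B := by
    refine h_frm q c hc B τ' (S.image fun x => Multiplicative.toAdd (frg_ab b x)) ?_ ?_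
    · intro K hK hK2
      have h1 : (AddSubgroup.toSubgroup K).comap (frg_ab b) = ⊤ := by
        apply hS
        · intro x hx
          exact hK _ (Finset.mem_image_of_mem _ hx)
        · intro x hx
          have hx' : Multiplicative.toAdd (frg_ab b x) ∈ K := hx
          obtain ⟨h2, h3⟩ := hK2 _ hx'
          constructor
          · show Multiplicative.toAdd (frg_ab b (τ x)) ∈ K
            have := hT x
            rw [MonoidHom.coe_coe] at this
            rw [← this]
            exact h2
          · show Multiplicative.toAdd (frg_ab b (τ.symm x)) ∈ K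
            have := hT' x
            rw [MonoidHom.coe_coe] at this
            rw [← this]
            exact h3
      rw [eq_top_iff]
      intro y _
      obtain ⟨x, hx⟩ := hs (Multiplicative.ofAdd y)
      have hx2 : x ∈ (AddSubgroup.toSubgroup K).comap (frg_ab b) := by rw [h1]; trivial
      have hx3 : frg_ab b x ∈ AddSubgroup.toSubgroup K := hx2
      rw [hx] at hx3
      exact hx3
    · intro f hf'
      have h1 : (AddMonoidHom.toMultiplicative f).comp (frg_ab b) = 1 := by
        apply hf
        intro x
        show f (Multiplicative.toAdd (frg_ab b (τ x))) =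
          c * f (Multiplicative.toAdd (frg_ab b x))
        have := hT x
        rw [MonoidHom.coe_coe] at this
        rw [← this]
        exact hf' _
      refine DFunLike.ext _ _ fun y => ?_
      obtain ⟨x, hx⟩ := hs (Multiplicative.ofAdd y)
      have h2 := DFunLike.congr_fun h1 x
      have h3 : f (Multiplicative.toAdd (frg_ab b x)) = 0 := congrArg Multiplicative.toAdd h2
      rw [hx] at h3
      exact h3
  rw [Group.fg_iff_exists_freeGroup_hom_surjective_finite]
  exact ⟨B, hfin, b.repr.symm.toMonoidHom, b.repr.symm.surjective⟩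

end Pool.Agent.F8.BG
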