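import Pool.Agent.Lib.MP_305fdd_al.F8.BG.StmC

/-!
# MP_305fdd_al, Bianchi groups, piece frm: a finiteness criterion for modules over `ℤ[τ, 1/τ]`
-/

set_option autoImplicit false

namespace Pool.Agent.F8.BG

open Polynomial LaurentPolynomial

section

variable {M : Type} [AddCommGroup M]

/-- the automorphism as a unit of the endomorphism ring -/
private noncomputable def frm_u (τ : M ≃+ M) : (Module.End ℤ M)ˣ where
  val := τ.toAddMonoidHom.toIntLinearMap
  inv := τ.symm.toAddMonoidHom.toIntLinearMap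
  val_inv := by
    ext x
    exact τ.apply_symm_apply x
  inv_val := by
    ext x
    exact τ.symm_apply_apply x

private theorem frm_u_apply (τ : M ≃+ M) (x : M) : (frm_u τ : Module.End ℤ M) x = τ x := rfl

private theorem frm_u_inv_apply (τ : M ≃+ M) (x : M) :
    ((frm_u τ)⁻¹ : (Module.End ℤ M)ˣ).val x = τ.symm x := rfl

/-- evaluation of Laurent polynomials in a unit -/
private noncomputable def frm_ev {A : Type} [Ring A] (u : Aˣ) : ℤ[T;T⁻¹] →ₐ[ℤ] A :=
  AddMonoidAlgebra.lift ℤ A ℤ ((Units.coeHom A).comp (zpowersHom Aˣ u))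

private theorem frm_ev_T {A : Type} [Ring A] (u : Aˣ) (n : ℤ) :
    frm_ev u (T n) = ((u ^ n : Aˣ) : A) := by
  unfold frm_ev
  change AddMonoidAlgebra.lift ℤ A ℤ _ (AddMonoidAlgebra.single n 1) = _
  rw [AddMonoidAlgebra.lift_single, one_smul]
  rfl

private theorem frm_ev_toLaurent {A : Type} [Ring A] (u : Aˣ) (f : ℤ[X]) :
    frm_ev u (toLaurent f) = aeval (u : A) f := by
  have h : (frm_ev u).comp (toLaurentAlg : ℤ[X] →ₐ[ℤ] ℤ[T;T⁻¹]) = aeval (u : A) := by
    apply Polynomial.algHom_ext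
    rw [AlgHom.comp_apply, toLaurentAlg_apply, toLaurent_X, frm_ev_T, zpow_one, aeval_X]
  exact DFunLike.congr_fun h f

private theorem frm_nak {q : ℕ} [Fact q.Prime] {c : ZMod q} (hc : c ≠ 0) (τ : M ≃+ M)
    (S : Finset M)
    (hS : ∀ K : AddSubgroup M, (∀ x ∈ S, x ∈ K) → (∀ x ∈ K, τ x ∈ K ∧ τ.symm x ∈ K) → K = ⊤)
    (hI : ∀ x : M, ∃ a b : M, x = (q : ℤ) • a + (τ b - (c.val : ℤ) • b)) :
    ∃ r : ℤ[X], r ≠ 0 ∧ ∀ x, aeval (frm_u τ : Module.End ℤ M) r x = 0 := by
  let _ : Module ℤ[T;T⁻¹] M := Module.compHom M (frm_ev (frm_u τ)).toRingHom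
  have hsm : ∀ (p : ℤ[T;T⁻¹]) (x : M), p • x = frm_ev (frm_u τ) p x := fun _ _ => rfl
  have htop : Submodule.span ℤ[T;T⁻¹] (S : Set M) = ⊤ := by
    have h := hS (Submodule.span ℤ[T;T⁻¹] (S : Set M)).toAddSubgroup
      (fun x hx => Submodule.subset_span hx) (fun x hx => by
        have h1 : (T 1 : ℤ[T;T⁻¹]) • x ∈ Submodule.span ℤ[T;T⁻¹] (S : Set M) :=
          Submodule.smul_mem _ _ hx
        have h2 : (T (-1) : ℤ[T;T⁻¹]) • x ∈ Submodule.span ℤ[T;T⁻¹] (S : Set M) :=
          Submodule.smul_mem _ _ hx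
        rw [hsm, frm_ev_T, zpow_one] at h1
        rw [hsm, frm_ev_T, zpow_neg_one] at h2
        exact ⟨h1, h2⟩)
    rw [eq_top_iff]
    intro x _
    have h1 : x ∈ (Submodule.span ℤ[T;T⁻¹] (S : Set M)).toAddSubgroup := by rw [h]; trivial
    exact h1
  let I : Ideal ℤ[T;T⁻¹] := Ideal.span {((q : ℤ) : ℤ[T;T⁻¹]), T 1 - ((c.val : ℤ) : ℤ[T;T⁻¹])}
  have h3 : ((q : ℤ) : ℤ[T;T⁻¹]) ∈ I := Ideal.subset_span (by simp)
  have h2 : (T 1 - ((c.val : ℤ) : ℤ[T;T⁻¹])) ∈ I := Ideal.subset_span (by simp)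
  have hint : ∀ (n : ℤ) (x : M), (n : ℤ[T;T⁻¹]) • x = n • x := by
    intro n x
    rw [hsm, map_intCast]
    exact Module.End.intCast_apply n x
  obtain ⟨r, hr, hr0⟩ := Submodule.exists_sub_one_mem_and_smul_eq_zero_of_fg_of_le_smul I
    (⊤ : Submodule ℤ[T;T⁻¹] M) ⟨S, htop⟩ (by
      intro x _
      obtain ⟨a, b, hab⟩ := hI x
      have h4 : x = ((q : ℤ) : ℤ[T;T⁻¹]) • a + (T 1 - ((c.val : ℤ) : ℤ[T;T⁻¹])) • b := by
        rw [sub_smul, hint, hint, hsm, frm_ev_T, zpow_one, frm_u_apply]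
        exact hab
      rw [h4]
      exact Submodule.add_mem _ (Submodule.smul_mem_smul h3 trivial)
        (Submodule.smul_mem_smul h2 trivial))
  set ε : ℤ[T;T⁻¹] →ₐ[ℤ] ZMod q := frm_ev (Units.mk0 c hc) with hε
  have hεr : ε r = 1 := by
    obtain ⟨u, v, huv⟩ := Ideal.mem_span_pair.1 hr
    have h5 := congrArg ε huv
    rw [map_add, map_mul, map_mul, map_sub, map_sub, map_one, map_intCast, map_intCast, hε,
      frm_ev_T, zpow_one, Units.val_mk0] at h5
    push_cast at h5
    rw [ZMod.natCast_self, ZMod.natCast_zmod_val, sub_self, mul_zero, mul_zero, add_zero] at h5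
    exact (sub_eq_zero.1 h5.symm)
  obtain ⟨n, f, hf⟩ := exists_T_pow r
  refine ⟨f, ?_, fun x => ?_⟩
  · rintro rfl
    rw [map_zero] at hf
    have h5 := congrArg ε hf
    rw [map_zero, map_mul, hεr, one_mul, hε, frm_ev_T] at h5
    exact (Units.ne_zero _) h5.symm
  · rw [← frm_ev_toLaurent, hf, mul_comm, map_mul, Module.End.mul_apply]
    have h6 : frm_ev (frm_u τ) r x = 0 := hr0 x trivial
    rw [h6, map_zero]

private theorem frm_coeff (τ : M ≃+ M) : ∀ (n : ℕ) (r : ℤ[X]), r.natDegree ≤ n → r ≠ 0 →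
    (∀ x, aeval (frm_u τ : Module.End ℤ M) r x = 0) →
    ∃ r' : ℤ[X], r'.coeff 0 ≠ 0 ∧ ∀ x, aeval (frm_u τ : Module.End ℤ M) r' x = 0 := by
  intro n
  induction n with
  | zero =>
    intro r hn hr h0
    refine ⟨r, fun hc => hr ?_, h0⟩
    rw [Polynomial.eq_C_of_natDegree_le_zero hn, hc, Polynomial.C_0]
  | succ n ih =>
    intro r hn hr h0
    by_cases hc : r.coeff 0 = 0
    · have e : X * r.divX = r := by
        have := Polynomial.X_mul_divX_add r
        rw [hc, Polynomial.C_0, add_zero] at this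
        exact this
      refine ih r.divX ?_ ?_ ?_
      · rw [Polynomial.natDegree_divX_eq_natDegree_tsub_one]
        omega
      · intro h
        rw [h, mul_zero] at e
        exact hr e.symm
      · intro x
        have h1 := h0 x
        rw [← e, map_mul, aeval_X, Module.End.mul_apply, frm_u_apply] at h1
        exact (AddEquiv.map_eq_zero_iff τ).1 h1
    · exact ⟨r, hc, h0⟩

private theorem frm_fin (τ : M ≃+ M) (S : Finset M)
    (hS : ∀ K : AddSubgroup M, (∀ x ∈ S, x ∈ K) → (∀ x ∈ K, τ x ∈ K ∧ τ.symm x ∈ K) → K = ⊤)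
    (r : ℤ[X]) (hr0 : r.coeff 0 ≠ 0) (h0 : ∀ x, aeval (frm_u τ : Module.End ℤ M) r x = 0) :
    ∃ G : Finset M, ∀ x : M, ∃ n : ℤ, n ≠ 0 ∧ n • x ∈ AddSubgroup.closure (G : Set M) := by
  classical
  have hr : r ≠ 0 := by
    rintro rfl
    exact hr0 (by simp)
  set σ : Module.End ℤ M := (frm_u τ : Module.End ℤ M) with hσ
  have hστ : ∀ x, σ x = τ x := fun x => rfl
  let G : Finset M := (Finset.range (r.natDegree + 1) ×ˢ S).image fun p => (σ ^ p.1) p.2
  have hG : ∀ i, i ≤ r.natDegree → ∀ y ∈ S, (σ ^ i) y ∈ AddSubgroup.closure (G : Set M) := by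
    intro i hi y hy
    apply AddSubgroup.subset_closure
    exact Finset.mem_coe.2 (Finset.mem_image.2 ⟨(i, y), Finset.mem_product.2
      ⟨Finset.mem_range.2 (by lia), hy⟩, rfl⟩)
  have hc : r.leadingCoeff ≠ 0 := leadingCoeff_ne_zero.2 hr
  have hstep : ∀ w ∈ AddSubgroup.closure (G : Set M),
      r.leadingCoeff • σ w ∈ AddSubgroup.closure (G : Set M) := by
    intro w hw
    induction hw using AddSubgroup.closure_induction with
    | mem w hw =>
      obtain ⟨⟨i, y⟩, hp, rfl⟩ := Finset.mem_image.1 (Finset.mem_coe.1 hw)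
      rw [Finset.mem_product, Finset.mem_range] at hp
      change i < r.natDegree + 1 ∧ y ∈ S at hp
      change r.leadingCoeff • σ ((σ ^ i) y) ∈ _
      have h1 : σ ((σ ^ i) y) = (σ ^ (i + 1)) y := by
        rw [pow_succ']; rfl
      rcases lt_or_eq_of_le (Nat.lt_succ_iff.1 hp.1) with hi | hi
      · rw [h1]
        exact AddSubgroup.zsmul_mem _ (hG (i + 1) hi y hp.2) _
      · subst hi
        have h2 := h0 y
        rw [aeval_eq_sum_range, Finset.sum_range_succ, LinearMap.add_apply,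
          LinearMap.smul_apply, coeff_natDegree] at h2
        have h3 : r.leadingCoeff • (σ ^ r.natDegree) y =
            -((∑ i ∈ Finset.range r.natDegree, r.coeff i • σ ^ i) y) :=
          eq_neg_of_add_eq_zero_right h2
        rw [← map_zsmul, h3, map_neg, LinearMap.sum_apply, map_sum]
        refine AddSubgroup.neg_mem _ (AddSubgroup.sum_mem _ fun j hj => ?_)
        rw [LinearMap.smul_apply, map_zsmul]
        refine AddSubgroup.zsmul_mem _ ?_ _
        have h4 : σ ((σ ^ j) y) = (σ ^ (j + 1)) y := by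
          rw [pow_succ']; rfl
        rw [h4]
        exact hG (j + 1) (by have := Finset.mem_range.1 hj; lia) y hp.2
    | zero => rw [map_zero, smul_zero]; exact AddSubgroup.zero_mem _
    | add a b _ _ ha hb => rw [map_add, smul_add]; exact AddSubgroup.add_mem _ ha hb
    | neg a _ ha => rw [map_neg, smul_neg]; exact AddSubgroup.neg_mem _ ha
  have hdown : ∀ (i : ℕ) (y : M), τ.symm ((σ ^ (i + 1)) y) = (σ ^ i) y := by
    intro i y
    rw [pow_succ', Module.End.mul_apply, hστ, AddEquiv.symm_apply_apply]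
  have hstep' : ∀ w ∈ AddSubgroup.closure (G : Set M),
      r.coeff 0 • τ.symm w ∈ AddSubgroup.closure (G : Set M) := by
    intro w hw
    induction hw using AddSubgroup.closure_induction with
    | mem w hw =>
      obtain ⟨⟨i, y⟩, hp, rfl⟩ := Finset.mem_image.1 (Finset.mem_coe.1 hw)
      rw [Finset.mem_product, Finset.mem_range] at hp
      change i < r.natDegree + 1 ∧ y ∈ S at hp
      change r.coeff 0 • τ.symm ((σ ^ i) y) ∈ _
      rcases Nat.eq_zero_or_pos i with hi | hi
      · subst hi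
        have h2 := h0 y
        rw [aeval_eq_sum_range, Finset.sum_range_succ', LinearMap.add_apply,
          LinearMap.smul_apply] at h2
        have h3 : r.coeff 0 • (σ ^ 0) y =
            -((∑ i ∈ Finset.range r.natDegree, r.coeff (i + 1) • σ ^ (i + 1)) y) :=
          eq_neg_of_add_eq_zero_right h2
        rw [← map_zsmul, h3, map_neg, LinearMap.sum_apply, map_sum]
        refine AddSubgroup.neg_mem _ (AddSubgroup.sum_mem _ fun j hj => ?_)
        rw [LinearMap.smul_apply, map_zsmul]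
        refine AddSubgroup.zsmul_mem _ ?_ _
        rw [hdown]
        exact hG j (by have := Finset.mem_range.1 hj; lia) y hp.2
      · obtain ⟨j, rfl⟩ : ∃ j, i = j + 1 := ⟨i - 1, by omega⟩
        rw [hdown]
        exact AddSubgroup.zsmul_mem _ (hG j (by lia) y hp.2) _
    | zero => rw [map_zero, smul_zero]; exact AddSubgroup.zero_mem _
    | add a b _ _ ha hb => rw [map_add, smul_add]; exact AddSubgroup.add_mem _ ha hb
    | neg a _ ha => rw [map_neg, smul_neg]; exact AddSubgroup.neg_mem _ ha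
  let K : AddSubgroup M :=
    { carrier := {x | ∃ n : ℤ, n ≠ 0 ∧ n • x ∈ AddSubgroup.closure (G : Set M)}
      zero_mem' := ⟨1, one_ne_zero, by rw [smul_zero]; exact AddSubgroup.zero_mem _⟩
      add_mem' := by
        rintro a b ⟨n, hn, ha⟩ ⟨m, hm, hb⟩
        refine ⟨n * m, mul_ne_zero hn hm, ?_⟩
        rw [smul_add]
        refine AddSubgroup.add_mem _ ?_ ?_
        · rw [mul_comm, mul_smul]
          exact AddSubgroup.zsmul_mem _ ha _
        · rw [mul_smul]
          exact AddSubgroup.zsmul_mem _ hb _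
      neg_mem' := by
        rintro a ⟨n, hn, ha⟩
        refine ⟨n, hn, ?_⟩
        rw [smul_neg]
        exact AddSubgroup.neg_mem _ ha }
  have hK : K = ⊤ := by
    apply hS
    · intro y hy
      refine ⟨1, one_ne_zero, ?_⟩
      rw [one_smul]
      have := hG 0 (Nat.zero_le _) y hy
      rwa [pow_zero] at this
    · rintro x ⟨n, hn, hx⟩
      refine ⟨⟨r.leadingCoeff * n, mul_ne_zero hc hn, ?_⟩, ⟨r.coeff 0 * n, mul_ne_zero hr0 hn, ?_⟩⟩
      · rw [mul_smul, ← map_zsmul]
        exact hstep _ hx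
      · rw [mul_smul, ← map_zsmul]
        exact hstep' _ hx
  refine ⟨G, fun x => ?_⟩
  have hx : x ∈ K := by rw [hK]; trivial
  exact hx

private theorem frm_dual {q : ℕ} [Fact q.Prime] {V : Type} [AddCommGroup V]
    (hV : ∀ y : V, q • y = 0) {x : V} (hx : x ≠ 0) : ∃ φ : V →+ ZMod q, φ x ≠ 0 := by
  have key : ∀ [Module (ZMod q) V], ∃ f : Module.Dual (ZMod q) V, f x ≠ 0 := by
    intro _
    by_contra hcon
    push Not at hcon
    exact hx ((Module.forall_dual_apply_eq_zero_iff (ZMod q) x).1 hcon)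
  obtain ⟨f, hf⟩ := @key (AddCommGroup.zmodModule hV)
  exact ⟨LinearMap.toAddMonoidHom f, hf⟩

private theorem frm_M {q : ℕ} [Fact q.Prime] {c : ZMod q} (hc : c ≠ 0) (τ : M ≃+ M) (S : Finset M)
    (h1 : ∀ K : AddSubgroup M, (∀ x ∈ S, x ∈ K) → (∀ x ∈ K, τ x ∈ K ∧ τ.symm x ∈ K) → K = ⊤)
    (h2 : ∀ f : M →+ ZMod q, (∀ x, f (τ x) = c * f x) → f = 0) :
    ∃ G : Finset M, ∀ x : M, ∃ n : ℤ, n ≠ 0 ∧ n • x ∈ AddSubgroup.closure (G : Set M) := by
  classical
  have hJ : ∀ x : M, ∃ a b : M, x = (q : ℤ) • a + (τ b - (c.val : ℤ) • b) := by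
    let g : M × M →+ M :=
      { toFun := fun p => (q : ℤ) • p.1 + (τ p.2 - (c.val : ℤ) • p.2)
        map_zero' := by simp
        map_add' := by
          intro p q
          simp only [Prod.fst_add, Prod.snd_add, smul_add, map_add]
          abel }
    have hg : g.range = ⊤ := by
      by_contra hne
      obtain ⟨x, hx⟩ : ∃ x : M, x ∉ g.range := by
        by_contra hcon
        push Not at hcon
        exact hne (eq_top_iff.2 fun x _ => hcon x)
      have hx' : (QuotientAddGroup.mk x : M ⧸ g.range) ≠ 0 := by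
        rwa [Ne, QuotientAddGroup.eq_zero_iff]
      obtain ⟨φ, hφ⟩ := frm_dual (q := q) (V := M ⧸ g.range) (by
        intro y
        induction y using QuotientAddGroup.induction_on with
        | H y =>
          rw [← QuotientAddGroup.mk_nsmul, QuotientAddGroup.eq_zero_iff]
          refine ⟨(y, 0), ?_⟩
          change (q : ℤ) • y + (τ 0 - (c.val : ℤ) • 0) = q • y
          rw [map_zero, smul_zero, sub_zero, add_zero]
          exact natCast_zsmul y q) hx'
      apply hφ
      have h5 := h2 (φ.comp (QuotientAddGroup.mk' g.range)) (by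
        intro y
        change φ (QuotientAddGroup.mk (τ y)) = c * φ (QuotientAddGroup.mk y)
        have e1 : c * φ (QuotientAddGroup.mk y) =
            φ (QuotientAddGroup.mk ((c.val : ℤ) • y)) := by
          rw [QuotientAddGroup.mk_zsmul, map_zsmul, zsmul_eq_mul]
          push_cast
          rw [ZMod.natCast_zmod_val]
        rw [e1, ← sub_eq_zero, ← map_sub, ← QuotientAddGroup.mk_sub,
          (QuotientAddGroup.eq_zero_iff _).2, map_zero]
        refine ⟨(0, y), ?_⟩
        change (q : ℤ) • (0 : M) + (τ y - (c.val : ℤ) • y) = τ y - (c.val : ℤ) • y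
        rw [smul_zero, zero_add])
      exact congrArg (fun f => f x) h5
    intro x
    have hx : x ∈ g.range := by rw [hg]; trivial
    obtain ⟨⟨a, b⟩, hab⟩ := hx
    exact ⟨a, b, hab.symm⟩
  obtain ⟨r, hr, h0⟩ := frm_nak hc τ S h1 hJ
  obtain ⟨r', hr', h0'⟩ := frm_coeff τ r.natDegree r le_rfl hr h0
  exact frm_fin τ S h1 r' hr' h0'

end

theorem p_frm : S_frm := by
  classical
  intro q _ c hc B τ S h1 h2
  obtain ⟨G, hG⟩ := frm_M hc τ S h1 h2
  have h3 : ∀ x ∈ AddSubgroup.closure (G : Set (B →₀ ℤ)), x.support ⊆ G.biUnion Finsupp.support := by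
    intro x hx
    induction hx using AddSubgroup.closure_induction with
    | mem x hx => exact Finset.subset_biUnion_of_mem _ (Finset.mem_coe.1 hx)
    | zero => simp
    | add a b _ _ ha hb => exact Finsupp.support_add.trans (Finset.union_subset ha hb)
    | neg a _ ha => rwa [Finsupp.support_neg]
  have h4 : ∀ b : B, b ∈ G.biUnion Finsupp.support := by
    intro b
    obtain ⟨n, hn, hb⟩ := hG (Finsupp.single b 1)
    apply h3 _ hb
    rw [Finsupp.mem_support_iff, Finsupp.smul_single, Finsupp.single_eq_same]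
    simpa using hn
  exact Finite.of_injective (fun b : B => (⟨b, h4 b⟩ : {x // x ∈ G.biUnion Finsupp.support}))
    (fun a b hab => congrArg Subtype.val hab)

end Pool.Agent.F8.BG
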