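import Pool.Agent.Lib.MP_305fdd_al.F8.BG.StmC
import Pool.Agent.Lib.MP_305fdd_al.F8.PIC.P_hl1

/-!
# MP_305fdd_al, Bianchi groups: piece hl1, a cocycle for permutation modules (helper71)
-/

set_option autoImplicit false

namespace Pool.Agent.F8.BG

open Pool.Agent.MP_305fdd_al Pool.Agent.Lib.MP_305fdd_al Pool.Agent.F8

theorem p_hl1 (ha : S_ha) : S_hl1 := by
  classical
  intro ι _ α c g hc hg X Y _ _ _ _ _ π hπ p _ x₁ x₂ hne hpi hP
  set P : Subgroup (GR α) := Subgroup.closure {iR α c, iR α g * tR α} with hPdef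
  have hO : ∀ q ∈ P, ∀ x, x ∈ Finset.univ.filter (fun x => ∃ q ∈ P, q • x₁ = x) ↔
      q • x ∈ Finset.univ.filter (fun x => ∃ q ∈ P, q • x₁ = x) := by
    intro q hq x
    simp only [Finset.mem_filter, Finset.mem_univ, true_and]
    constructor
    · rintro ⟨r, hr, rfl⟩
      exact ⟨q * r, P.mul_mem hq hr, by rw [mul_smul]⟩
    · rintro ⟨r, hr, h⟩
      exact ⟨q⁻¹ * r, P.mul_mem (P.inv_mem hq) hr, by rw [mul_smul, h, inv_smul_smul]⟩
  set O : Finset X := Finset.univ.filter (fun x => ∃ q ∈ P, q • x₁ = x) with hOdef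
  have hx1 : x₁ ∈ O := by
    rw [hOdef, Finset.mem_filter]
    exact ⟨Finset.mem_univ _, 1, P.one_mem, one_smul _ _⟩
  have hx2 : x₂ ∉ O := by
    intro hxO
    rw [hOdef, Finset.mem_filter] at hxO
    obtain ⟨_, q, hq, hq2⟩ := hxO
    apply hne
    have h1 : q • x₁ = x₁ := by
      refine hP q hq ?_ x₁ rfl
      rw [← hπ, hq2, hpi]
    rw [← hq2, h1]
  have hfW : (Pi.single x₁ 1 - Pi.single x₂ 1 : X → ZMod p) ∈ PIC.hl1_W π (ZMod p) := by
    intro y
    simp only [Pi.sub_apply, Finset.sum_sub_distrib, PIC.hl1_single, Finset.mem_filter,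
      Finset.mem_univ, true_and, hpi, sub_self]
  have hl1' : PIC.hl1_lam π (ZMod p) O ⟨_, hfW⟩ = 1 := by
    rw [PIC.hl1_lam_apply]
    simp only [Pi.sub_apply, Finset.sum_sub_distrib, PIC.hl1_single, hx1, if_true]
    rw [if_neg hx2, sub_zero]
  have hlam : PIC.hl1_lam π (ZMod p) O ≠ 0 := by
    intro h
    rw [h] at hl1'
    exact zero_ne_one hl1'
  obtain ⟨z, hz1, hz2⟩ := ha ι α c g hc hg (ZMod p) (PIC.hl1_W π (ZMod p))
    (PIC.hl1_s π hπ (ZMod p)) (PIC.hl1_lam π (ZMod p) O) hlam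
    (PIC.hl1_inv π hπ (ZMod p) O _ (hO _ (Subgroup.subset_closure (Set.mem_insert _ _))))
    (PIC.hl1_inv π hπ (ZMod p) O _ (hO _ (Subgroup.subset_closure
      (Set.mem_insert_of_mem _ (Set.mem_singleton _)))))
  refine ⟨fun g x => (z g).1 x, ?_, ?_, ?_⟩
  · intro g h x
    show (z (g * h)).1 x = _
    rw [hz1 g h]
    rfl
  · intro g y
    exact (z g).2 y
  · rintro ⟨f, hf, hz⟩
    apply hz2
    refine ⟨⟨f, hf⟩, fun g => ?_⟩
    apply Subtype.ext
    funext x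
    exact hz g x

end Pool.Agent.F8.BG
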