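import Pool.Agent.Lib.MP_305fdd_al.F8.BG.StmC

/-!
# MP_305fdd_al, Bianchi groups, piece hq: first properties of `HQ ρ η`
-/

set_option autoImplicit false

namespace Pool.Agent.F8.BG

open Pool.Agent.MP_305fdd_al Pool.Agent.Lib.MP_305fdd_al Pool.Agent.F8
open scoped QuadraticAlgebra

private theorem hq_cast {a b : ℤ} {m n : ℕ} (h : m ∣ n) (x : GQ a b) :
    rdq a b m x = SLm (Qfm a b (ZMod.castHom h (ZMod m))) (rdq a b n x) := by
  apply Subtype.ext
  apply Matrix.ext
  intro i k
  change Qfm a b (Int.castRingHom (ZMod m)) (x.val i k) =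
    Qfm a b (ZMod.castHom h (ZMod m)) (Qfm a b (Int.castRingHom (ZMod n)) (x.val i k))
  rw [Qfm_apply, Qfm_apply, Qfm_apply]
  apply QuadraticAlgebra.ext
  · change (((x.val i k).re : ℤ) : ZMod m) = ZMod.castHom h (ZMod m) (((x.val i k).re : ℤ) : ZMod n)
    rw [map_intCast]
  · change (((x.val i k).im : ℤ) : ZMod m) = ZMod.castHom h (ZMod m) (((x.val i k).im : ℤ) : ZMod n)
    rw [map_intCast]

private theorem hq_red {a b : ℤ} {m n : ℕ} (h : m ∣ n) (x y : GQ a b)
    (hxy : rdq a b n x = rdq a b n y) : rdq a b m x = rdq a b m y := by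
  rw [hq_cast h x, hq_cast h y, hxy]

theorem p_hq : S_hq := by
  intro a b ι α M c g G₀ η hη Λ _ _ Φ ρ hR
  have hMne : NeZero M := ⟨hη.ne⟩
  constructor
  · set L0 : Subgroup Λ := G₀.comap ρ with hL0
    let f : L0 →* G₀ := (ρ.comp L0.subtype).codRestrict G₀ (fun l => l.2)
    have hrange : HQ ρ η = (η.comp f).range := by
      ext x
      constructor
      · rintro ⟨y, ⟨l, hl⟩, rfl⟩
        have hl' : ρ l = y.1 := hl
        refine ⟨⟨l, ?_⟩, ?_⟩
        · change ρ l ∈ G₀
          rw [hl']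
          exact y.2
        · change η _ = η y
          congr 1
          exact Subtype.ext hl'
      · rintro ⟨l, rfl⟩
        exact ⟨f l, ⟨l.1, rfl⟩, rfl⟩
    have hfi : L0.FiniteIndex := by
      have h1 : ((rdq a b M).comp ρ).ker ≤ L0 := by
        intro l hl
        exact hη.lev (ρ l) hl
      have : Finite (SL2 (Qf a b (ZMod M))) := inferInstance
      have h2 : ((rdq a b M).comp ρ).ker.FiniteIndex := inferInstance
      exact Subgroup.finiteIndex_of_le h1
    have hfg : Group.FG L0 := inferInstance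
    rw [hrange, ← Group.fg_iff_subgroup_fg]
    infer_instance
  · intro m _ x₀
    have : NeZero (m * M) := ⟨mul_ne_zero (NeZero.ne m) hη.ne⟩
    obtain ⟨l, hl⟩ := hR.img (m * M) x₀.val
    have h1 : rdq a b M (ρ l) = rdq a b M x₀.val := hq_red (Dvd.intro_left m rfl) _ _ hl
    have h2 : rdq a b m (ρ l) = rdq a b m x₀.val := hq_red (Dvd.intro M rfl) _ _ hl
    have h3 : ρ l * x₀.val⁻¹ ∈ G₀ := by
      apply hη.lev
      rw [map_mul, map_inv, h1, mul_inv_cancel]
    have h4 : ρ l ∈ G₀ := by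
      have := G₀.mul_mem h3 x₀.2
      rwa [inv_mul_cancel_right] at this
    exact ⟨⟨ρ l, h4⟩, ⟨l, rfl⟩, h2⟩

end Pool.Agent.F8.BG
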