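import Pool.Agent.Lib.MP_305fdd_al.F8.BG.StmC

/-!
# MP_305fdd_al, Bianchi groups, piece npr: an element of `H ∩ F` which is not periodic
-/

set_option autoImplicit false

namespace Pool.Agent.F8.BG

open Pool.Agent.MP_305fdd_al Pool.Agent.Lib.MP_305fdd_al Pool.Agent.F8
open scoped QuadraticAlgebra

private theorem npr_cast {a b : ℤ} {m n : ℕ} (h : m ∣ n) (x : GQ a b) :
    rdq a b m x = SLm (Qfm a b (ZMod.castHom h (ZMod m))) (rdq a b n x) := by
  apply Subtype.ext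
  apply Matrix.ext
  intro i k
  change Qfm a b (Int.castRingHom (ZMod m)) (x.val i k) =
    Qfm a b (ZMod.castHom h (ZMod m)) (Qfm a b (Int.castRingHom (ZMod n)) (x.val i k))
  rw [Qfm_apply, Qfm_apply, Qfm_apply]
  apply QuadraticAlgebra.ext
  · change (((x.val i k).re : ℤ) : ZMod m) = ZMod.castHom h (ZMod m) (((x.val i k).re : ℤ) : ZMod n)
    rw [map_intCast]
  · change (((x.val i k).im : ℤ) : ZMod m) = ZMod.castHom h (ZMod m) (((x.val i k).im : ℤ) : ZMod n)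
    rw [map_intCast]

private theorem npr_red {a b : ℤ} {m n : ℕ} (h : m ∣ n) (x y : GQ a b)
    (hxy : rdq a b n x = rdq a b n y) : rdq a b m x = rdq a b m y := by
  rw [npr_cast h x, npr_cast h y, hxy]

private theorem npr_lift {a b : ℤ} {ι : Type} {α : MulAut (FreeGroup ι)} {M : ℕ}
    {c g : FreeGroup ι} {G₀ : Subgroup (GQ a b)} {η : G₀ →* GR α} (hη : EtaQ α M c g G₀ η)
    {Λ : Type} [Group Λ] {Φ : NatBij (GQ a b) Λ} {ρ : Λ →* GQ a b} (hR : RhoQ Φ ρ)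
    (m : ℕ) [NeZero m] (x₀ : G₀) :
    ∃ x : G₀, x.val ∈ ρ.range ∧ rdq a b m x.val = rdq a b m x₀.val := by
  have : NeZero (m * M) := ⟨mul_ne_zero (NeZero.ne m) hη.ne⟩
  obtain ⟨l, hl⟩ := hR.img (m * M) x₀.val
  have h1 : rdq a b M (ρ l) = rdq a b M x₀.val := npr_red (Dvd.intro_left m rfl) _ _ hl
  have h2 : rdq a b m (ρ l) = rdq a b m x₀.val := npr_red (Dvd.intro M rfl) _ _ hl
  have h3 : ρ l * x₀.val⁻¹ ∈ G₀ := by
    apply hη.lev
    rw [map_mul, map_inv, h1, mul_inv_cancel]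
  have h4 : ρ l ∈ G₀ := by
    have := G₀.mul_mem h3 x₀.2
    rwa [inv_mul_cancel_right] at this
  exact ⟨⟨ρ l, h4⟩, ⟨l, rfl⟩, h2⟩

private theorem npr_comm {a b : ℤ} (P W : GQ a b)
    (h : W * P * W⁻¹ * P⁻¹ = 1 ∨ W * P * W⁻¹ * P⁻¹ = -1) : P * W ^ 2 = W ^ 2 * P := by
  have h0 : W * P = (W * P * W⁻¹ * P⁻¹) * (P * W) := by group
  rcases h with h | h
  · rw [h, one_mul] at h0
    rw [pow_two, mul_assoc W W P, h0, ← mul_assoc, ← mul_assoc, h0]
  · rw [h, neg_mul, one_mul] at h0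
    rw [pow_two, mul_assoc W W P, h0, mul_neg, ← mul_assoc W P W, h0, neg_mul, neg_neg, mul_assoc]

private theorem npr_tr_one {a b : ℤ} : tr (1 : GQ a b) = 2 := by
  unfold tr
  rw [Matrix.SpecialLinearGroup.coe_one, Matrix.trace_one]
  simp

private theorem npr_tr_neg {a b : ℤ} : tr (-1 : GQ a b) = -2 := by
  unfold tr
  rw [Matrix.SpecialLinearGroup.coe_neg, Matrix.trace_neg, Matrix.SpecialLinearGroup.coe_one,
    Matrix.trace_one]
  simp

theorem p_npr (h_par : S_par) : S_npr := by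
  intro a b hab ι α M c g G₀ η hη Λ _ Φ ρ hR m _ x₀ y₀ ht1 ht2
  obtain ⟨X, hX, hXr⟩ := npr_lift hη hR m x₀
  obtain ⟨Y, hY, hYr⟩ := npr_lift hη hR m y₀
  set Z : G₀ := X * Y * X⁻¹ * Y⁻¹ with hZ
  have hZv : Z.val = X.val * Y.val * X.val⁻¹ * Y.val⁻¹ := rfl
  have hZr : rdq a b m Z.val = rdq a b m (x₀ * y₀ * x₀⁻¹ * y₀⁻¹ : G₀).val := by
    have e : (x₀ * y₀ * x₀⁻¹ * y₀⁻¹ : G₀).val = x₀.val * y₀.val * x₀.val⁻¹ * y₀.val⁻¹ := rfl
    rw [hZv, e]
    simp only [map_mul, map_inv, hXr, hYr]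
  have htr : tr (rdq a b m Z.val) = Qfm a b (Int.castRingHom (ZMod m)) (tr Z.val) := by
    unfold rdq
    rw [tr_map]
  have hZ1 : tr Z.val ≠ 2 := by
    intro h
    apply ht1
    rw [← hZr, htr, h, map_ofNat]
  have hZ2 : tr Z.val ≠ -2 := by
    intro h
    apply ht2
    rw [← hZr, htr, h, map_neg, map_ofNat]
  have hZH : η Z ∈ HQ ρ η := by
    refine ⟨Z, ?_, rfl⟩
    change Z.val ∈ ρ.range
    rw [hZv]
    exact ρ.range.mul_mem (ρ.range.mul_mem (ρ.range.mul_mem hX hY) (ρ.range.inv_mem hX))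
      (ρ.range.inv_mem hY)
  have hZn : nR α (η Z) = 1 := by
    rw [hZ]
    simp only [map_mul, map_inv]
    rw [mul_comm (nR α (η X)) (nR α (η Y))]
    group
  obtain ⟨p, hp⟩ := GR_ker α (η Z) hZn
  refine ⟨p, hp ▸ hZH, ?_⟩
  intro j g' hj hper
  set T : GR α := iR α g'⁻¹ * tR α ^ j with hT
  have hTp : T * iR α p = iR α p * T := by
    have h1 := tR_pow_conj α j p
    rw [hper] at h1
    have h2 : tR α ^ j * iR α p = iR α (g' * p * g'⁻¹) * tR α ^ j := by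
      rw [← h1]
      group
    rw [hT, mul_assoc, h2, ← mul_assoc, ← mul_assoc, ← map_mul, ← map_mul]
    congr 2
    group
  have hTn : nR α T = Multiplicative.ofAdd (j : ℤ) := by
    rw [hT, ← zpow_natCast, nR_eq]
  obtain ⟨k, hk, -, W, hW⟩ := Subgroup.exists_pow_mem_of_index_ne_zero hη.fin.index_ne_zero T
  have hWZ : η (W * Z * W⁻¹ * Z⁻¹) = 1 := by
    have h1 : T ^ k * iR α p = iR α p * T ^ k := (Commute.pow_left hTp k)
    rw [map_mul, map_mul, map_mul, map_inv, map_inv, hW, hp, h1]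
    group
  have hc : Z.val * W.val ^ 2 = W.val ^ 2 * Z.val :=
    npr_comm Z.val W.val ((hη.ker _).1 hWZ)
  obtain ⟨m', n', hmn, he⟩ := h_par a b hab Z.val (W.val ^ 2) hc hZ1 hZ2
  have he' : Z ^ m' * (W ^ 2) ^ n' = 1 := Subtype.ext he
  have h3 := congrArg (fun x => Multiplicative.toAdd (nR α (η x))) he'
  simp only [map_mul, map_zpow, map_pow, map_one, hW, hTn, hZn, one_zpow, one_mul, toAdd_one,
    toAdd_zpow, toAdd_pow, toAdd_ofAdd] at h3
  have hn' : n' = 0 := by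
    by_contra hne
    have hj' : (j : ℤ) ≠ 0 := by omega
    have hk' : (k : ℤ) ≠ 0 := by omega
    simp only [smul_eq_mul, nsmul_eq_mul, Nat.cast_ofNat] at h3
    have : n' * (2 * ((k : ℤ) * j)) ≠ 0 :=
      mul_ne_zero hne (mul_ne_zero two_ne_zero (mul_ne_zero hk' hj'))
    exact this h3
  have hm' : m' ≠ 0 := by
    rcases hmn with h | h
    · exact h
    · exact absurd hn' h
  rw [hn', zpow_zero, mul_one] at he'
  have h4 := congrArg η he'
  rw [map_zpow, map_one, hp, ← map_zpow, ← map_one (iR α)] at h4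
  have h5 : p ^ m' = 1 := iR_injective α h4
  have h6 : p = 1 := (IsMulTorsionFree.zpow_eq_one_iff_left hm').1 h5
  rw [h6, map_one] at hp
  rcases (hη.ker Z).1 hp with h | h
  · exact hZ1 (by rw [h, npr_tr_one])
  · exact hZ2 (by rw [h, npr_tr_neg])

end Pool.Agent.F8.BG
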