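import Pool.Agent.Lib.MP_305fdd_al.F8.PIC.Main
import Pool.Agent.Lib.MP_305fdd_al.F8.BG.MainI
import Pool.Agent.Lib.MP_305fdd_al.F8.BG.P_frm
import Pool.Agent.Lib.MP_305fdd_al.F8.BG.P_frg
import Pool.Agent.Lib.MP_305fdd_al.F8.BG.P_afg
import Pool.Agent.Lib.MP_305fdd_al.F8.BG.P_npr
import Pool.Agent.Lib.MP_305fdd_al.F8.BG.P_hq
import Pool.Agent.Lib.MP_305fdd_al.F8.BG.P_fi
import Pool.Agent.Lib.MP_305fdd_al.F8.BG.P_mq
import Pool.Agent.Lib.MP_305fdd_al.F8.BG.P_ha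
import Pool.Agent.Lib.MP_305fdd_al.F8.BG.P_hl1
import Pool.Agent.Lib.MP_305fdd_al.F8.BG.P_con
import Pool.Agent.Lib.MP_305fdd_al.F8.BG.P_X3

/-!
# MP_305fdd_al, Bianchi groups: assembly of the general pieces (INF, AFG, HL)
-/

set_option autoImplicit false

namespace Pool.Agent.F8.BG

theorem m_frm : S_frm := p_frm
theorem m_frg : S_frg := p_frg m_frm
theorem m_afg : S_afg := p_afg m_frg
theorem m_npr : S_npr := p_npr m_par
theorem m_hq : S_hq := p_hq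
theorem m_fi : S_fi := p_fi m_hq m_afg m_npr m_inf
theorem m_mq : S_mq := p_mq
theorem m_ha : S_ha := p_ha
theorem m_hl1 : S_hl1 := p_hl1 m_ha
theorem m_con : S_con := p_con m_hl1 PIC.m_hl2
theorem m_X3 : S_X3 := p_X3

end Pool.Agent.F8.BG
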