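import Pool.Agent.Lib.MP_305fdd_al.F8.BG.StmT
import Pool.Agent.Lib.MP_305fdd_al.F8.P.nz
import Pool.Agent.Lib.MP_305fdd_al.F8.P.lh
import Pool.Agent.Lib.MP_305fdd_al.F8.P.lz
import Pool.Agent.Lib.MP_305fdd_al.F8.P.mt
import Pool.Agent.Lib.MP_305fdd_al.F8.P.wm

/-!
# MP_305fdd_al, Bianchi groups, piece dat: the `p`-adic representation
-/

set_option autoImplicit false

namespace Pool.Agent.F8.BG

open Pool.Agent.MP_305fdd_al Pool.Agent.Lib.MP_305fdd_al Pool.Agent.F2X Pool.Agent.F8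
  Pool.Agent.F8.HN
open scoped QuadraticAlgebra

noncomputable section

variable {a b : ℤ}

/-- elements of `Qf a b ℤ_p` are determined by their reductions -/
private theorem dat_ext (p : ℕ) [Fact p.Prime] (x y : Qf a b ℤ_[p])
    (h : ∀ k : ℕ, Qfm a b (PadicInt.toZModPow k) x = Qfm a b (PadicInt.toZModPow k) y) :
    x = y := by
  have h1 : ∀ k : ℕ, PadicInt.toZModPow k x.re = PadicInt.toZModPow k y.re := fun k => by
    have := h k
    rw [Qfm_apply, Qfm_apply] at this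
    exact congrArg (fun z : Qf a b (ZMod (p ^ k)) => z.re) this
  have h2 : ∀ k : ℕ, PadicInt.toZModPow k x.im = PadicInt.toZModPow k y.im := fun k => by
    have := h k
    rw [Qfm_apply, Qfm_apply] at this
    exact congrArg (fun z : Qf a b (ZMod (p ^ k)) => z.im) this
  apply QuadraticAlgebra.ext
  · exact PadicInt.ext_of_toZModPow.1 h1
  · exact PadicInt.ext_of_toZModPow.1 h2

private theorem dat_Q2map {R S T : Type} [CommRing R] [CommRing S] [CommRing T] (f : R →+* S)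
    (g : S →+* T) : (Q2.map g).comp (Q2.map f) = Q2.map (g.comp f) := by
  ext1 x
  apply Q2.ext
  · rfl
  · rfl
  · rfl

private theorem dat_q0 {G R S : Type} [Group G] [CommRing R] [CommRing S] (f : R →+* S)
    (ρ : G →* SL2 R) : (Q2.map f).comp (q0 ρ) = q0 ((SLm f).comp ρ) := by
  ext1 m
  apply Q2.ext
  · show Units.map f.toMonoidHom 1 = 1
    rw [map_one]
  · rfl
  · ext i
    show f 0 = 0
    exact map_zero f

private theorem dat_tz (a b : ℤ) (p k : ℕ) :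
    (Qfm a b (tz p k)).comp (Qfm a b (Int.castRingHom (ZMod (p ^ (k + 1))))) =
      Qfm a b (Int.castRingHom (ZMod (p ^ k))) := by
  have h : (tz p k).comp (Int.castRingHom (ZMod (p ^ (k + 1)))) =
      Int.castRingHom (ZMod (p ^ k)) := RingHom.ext_int _ _
  rw [← h]
  rfl

private theorem dat_one {G H : Type} [Group G] [Group H] (Ψ : NatBij G H) (Q : Type) [Group Q]
    [Finite Q] : Ψ.toFun Q 1 = 1 := by
  have h := Ψ.nat (1 : Q →* Q) 1
  exact h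

/-- values of the matched homomorphism -/
private theorem dat_lift {G H : Type} [Group G] [Group H] (Ψ : NatBij G H) {Q : Type} [Group Q]
    [Finite Q] (θ : G →* Q) (g : G) : ∃ l, Ψ.toFun Q θ l = θ g := by
  have h : θ g ∈ (Ψ.toFun Q θ).range := by rw [Ψ.range_eq]; exact ⟨g, rfl⟩
  exact h

/-- elements with nonzero norm are not in the kernel -/
private theorem dat_ker (p : ℕ) [Fact p.Prime] (K : Type) [Field K] [CharZero K]
    (j : Qf a b ℤ_[p] →+* K) (z : Qf a b ℤ_[p]) (hz : nq z ≠ 0) : j z ≠ 0 := by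
  intro h0
  have h1 : z * cjq a b ℤ_[p] z = algebraMap ℤ_[p] (Qf a b ℤ_[p]) (nq z) := by
    rw [mul_cjq, QuadraticAlgebra.algebraMap_eq]
  have h2 := nz_base p K (j.comp (algebraMap ℤ_[p] (Qf a b ℤ_[p]))) _ hz
  apply h2
  rw [RingHom.comp_apply, ← h1, map_mul, h0, zero_mul]

private theorem dat_red (p k : ℕ) [Fact p.Prime] (x : Qf a b ℤ_[p]) (w : Qf a b ℤ)
    (h : Qfm a b (PadicInt.toZModPow k) x = Qfm a b (Int.castRingHom (ZMod (p ^ k))) w) :
    PadicInt.toZModPow k (nq x) = ((nq w : ℤ) : ZMod (p ^ k)) := by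
  rw [Qfm_apply, Qfm_apply] at h
  have h1 : PadicInt.toZModPow k x.re = (w.re : ZMod (p ^ k)) :=
    congrArg (fun z : Qf a b (ZMod (p ^ k)) => z.re) h
  have h2 : PadicInt.toZModPow k x.im = (w.im : ZMod (p ^ k)) :=
    congrArg (fun z : Qf a b (ZMod (p ^ k)) => z.im) h
  unfold nq
  rw [map_sub, map_add, map_mul, map_mul, map_mul, map_pow, map_pow, h1, h2, map_intCast,
    map_intCast]
  push_cast
  rfl

private theorem dat_nd (p : ℕ) [Fact p.Prime] (n : ℤ) (hn : 0 < n) (h2 : n < 1024) :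
    ((n : ℤ) : ZMod (p ^ 10)) ≠ 0 := by
  intro h
  rw [ZMod.intCast_zmod_eq_zero_iff_dvd] at h
  have h3 := (Fact.out (p := p.Prime)).two_le
  have h5 := Int.le_of_dvd hn h
  have h6 : 2 ^ 10 ≤ p ^ 10 := Nat.pow_le_pow_left h3 10
  omega

/-- elements whose reduction has a small norm are not in the kernel -/
private theorem dat_ne (p : ℕ) [Fact p.Prime] (K : Type) [Field K] [CharZero K]
    (j : Qf a b ℤ_[p] →+* K) (z : Qf a b ℤ_[p]) (w : Qf a b ℤ)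
    (h : Qfm a b (PadicInt.toZModPow 10) z = Qfm a b (Int.castRingHom (ZMod (p ^ 10))) w)
    (h1 : 0 < nq w) (h2 : nq w < 1024) : j z ≠ 0 := by
  apply dat_ker
  intro h0
  have h3 := dat_red p 10 z w h
  rw [h0, map_zero] at h3
  exact dat_nd p _ h1 h2 h3.symm

/-- the representation -/
private theorem dat_r (hlim : T_lim a b) (Λ : Type) [Group Λ] (Φ : NatBij (GQ a b) Λ) (p : ℕ)
    [Fact p.Prime] : ∃ r : Λ →* SL2 (Qf a b ℤ_[p]),
    ∀ k : ℕ, (SLm (Qfm a b (PadicInt.toZModPow k))).comp r = Φ.toFun _ (rdq a b (p ^ k)) := by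
  have hl : IsLim (Qf a b ℤ_[p]) (fun k => Qf a b (ZMod (p ^ k)))
      (fun k => Qfm a b (PadicInt.toZModPow k)) (fun k => Qfm a b (tz p k)) :=
    hlim ℤ_[p] _ _ _ (pf_lz p)
  obtain ⟨Θ', hΘ'⟩ := pf_lh (Qf a b ℤ_[p]) (fun k => Qf a b (ZMod (p ^ k))) _ _ hl Λ
    (fun k => Φ.toFun _ (q0 (rdq a b (p ^ k)))) (by
      intro k
      show (Q2.map (Qfm a b (tz p k))).comp (Φ.toFun _ (q0 (rdq a b (p ^ (k + 1))))) =
        Φ.toFun _ (q0 (rdq a b (p ^ k)))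
      rw [← Φ.nat, dat_q0]
      have h : (SLm (Qfm a b (tz p k))).comp (rdq a b (p ^ (k + 1))) = rdq a b (p ^ k) := by
        exact congrArg (fun f => SLm f) (dat_tz a b p k)
      rw [h])
  refine ⟨Q2.mH.comp Θ', ?_⟩
  intro k
  have h1 := congrArg (fun f => Q2.mH.comp f) (hΘ' k)
  have h2 : Q2.mH.comp (Φ.toFun _ (q0 (rdq a b (p ^ k)))) = Φ.toFun _ (rdq a b (p ^ k)) := by
    rw [← Φ.nat]; rfl
  exact h1.trans h2

/-- one subgroup -/
private theorem dat_sub (hlim : T_lim a b) (Λ : Type) [Group Λ] (Φ : NatBij (GQ a b) Λ) (p : ℕ)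
    [Fact p.Prime] (r : Λ →* SL2 (Qf a b ℤ_[p]))
    (hr : ∀ k : ℕ, (SLm (Qfm a b (PadicInt.toZModPow k))).comp r = Φ.toFun _ (rdq a b (p ^ k)))
    (P : Subgroup (GQ a b)) (L : Subgroup Λ) (Ψ : NatBij P L)
    (hΨ : ∀ (R : Type) [Group R] [Finite R] (θ : GQ a b →* R),
      Ψ.toFun R (θ.comp P.subtype) = (Φ.toFun R θ).comp L.subtype)
    (Θ₀ : P →* Q2 (Qf a b ℤ)) (hm : Q2.mH.comp Θ₀ = P.subtype) (ht : Q2.tH.comp Θ₀ = 1) (g h : P)
    (hW : 0 < nq (Q2.W (Θ₀ g) (Θ₀ h) 0)) (hW' : nq (Q2.W (Θ₀ g) (Θ₀ h) 0) < 1024)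
    (g₁ g₂ : P) (w : Qf a b ℤ)
    (hT : tr ((g₁ : GQ a b) * (g₂ : GQ a b) * (g₁ : GQ a b)⁻¹ * (g₂ : GQ a b)⁻¹) = w + 2)
    (hw : 0 < nq w) (hw' : nq w < 1024)
    (K : Type) [Field K] [CharZero K] (j : Qf a b ℤ_[p] →+* K) :
    PIC.Pt L ((SLm j).comp r) := by
  have hl : IsLim (Qf a b ℤ_[p]) (fun k => Qf a b (ZMod (p ^ k)))
      (fun k => Qfm a b (PadicInt.toZModPow k)) (fun k => Qfm a b (tz p k)) :=
    hlim ℤ_[p] _ _ _ (pf_lz p)
  obtain ⟨Θ', hΘ'⟩ := pf_lh (Qf a b ℤ_[p]) (fun k => Qf a b (ZMod (p ^ k))) _ _ hl L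
    (fun k => Ψ.toFun _ ((Q2.map (Qfm a b (Int.castRingHom (ZMod (p ^ k))))).comp Θ₀)) (by
      intro k
      show (Q2.map (Qfm a b (tz p k))).comp
        (Ψ.toFun _ ((Q2.map (Qfm a b (Int.castRingHom (ZMod (p ^ (k + 1)))))).comp Θ₀)) =
        Ψ.toFun _ ((Q2.map (Qfm a b (Int.castRingHom (ZMod (p ^ k))))).comp Θ₀)
      rw [← Ψ.nat, ← MonoidHom.comp_assoc, dat_Q2map, dat_tz a b])
  have hm' : Q2.mH.comp Θ' = r.comp L.subtype := by
    ext1 l
    apply Subtype.ext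
    ext1 i i'
    apply dat_ext
    intro k
    have h2 : Q2.mH.comp ((Q2.map (Qfm a b (Int.castRingHom (ZMod (p ^ k))))).comp Θ₀) =
        (rdq a b (p ^ k)).comp P.subtype := by
      rw [← hm]; rfl
    have h4 : SLm (Qfm a b (PadicInt.toZModPow k)) (Θ' l).m =
        SLm (Qfm a b (PadicInt.toZModPow k)) (r l) := by
      have h5 : SLm (Qfm a b (PadicInt.toZModPow k)) (Θ' l).m = (Q2.mH.comp (Ψ.toFun _
          ((Q2.map (Qfm a b (Int.castRingHom (ZMod (p ^ k))))).comp Θ₀))) l := by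
        rw [← hΘ' k]
        rfl
      rw [h5, (pf_mt _ _ Ψ _ _).2.1, h2, hΨ, ← hr k]
      rfl
    exact congrArg (fun M : SL2 (Qf a b (ZMod (p ^ k))) => M.val i i') h4
  have ht' : Q2.tH.comp Θ' = 1 := by
    ext1 l
    apply Units.ext
    apply dat_ext
    intro k
    have h2 : Q2.tH.comp ((Q2.map (Qfm a b (Int.castRingHom (ZMod (p ^ k))))).comp Θ₀) = 1 := by
      have h3 : Q2.tH.comp ((Q2.map (Qfm a b (Int.castRingHom (ZMod (p ^ k))))).comp Θ₀) =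
        (Units.map (Qfm a b (Int.castRingHom (ZMod (p ^ k)))).toMonoidHom).comp (Q2.tH.comp Θ₀) := rfl
      rw [h3, ht]
      ext1 g
      simp only [MonoidHom.comp_apply, MonoidHom.one_apply, map_one]
    have h4 : Units.map (Qfm a b (PadicInt.toZModPow k)).toMonoidHom (Θ' l).t = 1 := by
      have h5 : Units.map (Qfm a b (PadicInt.toZModPow k)).toMonoidHom (Θ' l).t =
          (Q2.tH.comp (Ψ.toFun _
            ((Q2.map (Qfm a b (Int.castRingHom (ZMod (p ^ k))))).comp Θ₀))) l := by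
        rw [← hΘ' k]
        rfl
      rw [h5, (pf_mt _ _ Ψ _ _).1, h2, dat_one]
      rfl
    exact (congrArg Units.val h4).trans (map_one (Qfm a b (PadicInt.toZModPow k))).symm
  refine ⟨?_, (Q2.map j).comp Θ', ?_, ?_, ?_⟩
  · -- irreducible
    obtain ⟨l, hl1⟩ := dat_lift Ψ ((rdq a b (p ^ 10)).comp P.subtype) g₁
    obtain ⟨l', hl2⟩ := dat_lift Ψ ((rdq a b (p ^ 10)).comp P.subtype) g₂
    rw [hΨ, ← hr 10] at hl1 hl2
    refine ⟨l, l', ?_⟩
    intro hf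
    have h1 : Qfm a b (PadicInt.toZModPow 10) (tr (r ((l * l' * l⁻¹ * l'⁻¹ : L) : Λ)) - 2) =
        Qfm a b (Int.castRingHom (ZMod (p ^ 10))) w := by
      have h2 : SLm (Qfm a b (PadicInt.toZModPow 10)) (r ((l * l' * l⁻¹ * l'⁻¹ : L) : Λ)) =
          rdq a b (p ^ 10) ((g₁ : GQ a b) * (g₂ : GQ a b) * (g₁ : GQ a b)⁻¹ *
            (g₂ : GQ a b)⁻¹) := by
        have h3 : SLm (Qfm a b (PadicInt.toZModPow 10)) (r (l : Λ)) =
          rdq a b (p ^ 10) (g₁ : GQ a b) := hl1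
        have h4 : SLm (Qfm a b (PadicInt.toZModPow 10)) (r (l' : Λ)) =
          rdq a b (p ^ 10) (g₂ : GQ a b) := hl2
        rw [Subgroup.coe_mul, Subgroup.coe_mul, Subgroup.coe_mul, Subgroup.coe_inv,
          Subgroup.coe_inv, map_mul, map_mul, map_mul, map_inv, map_inv, map_mul, map_mul,
          map_mul, map_inv, map_inv, h3, h4, map_mul, map_mul, map_mul, map_inv, map_inv]
      rw [map_sub, ← tr_map, h2]
      unfold rdq
      rw [tr_map, hT, map_add, map_ofNat, map_ofNat]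
      ring
    have h6 := dat_ne p K j (tr (r ((l * l' * l⁻¹ * l'⁻¹ : L) : Λ)) - 2) w h1 hw hw'
    apply h6
    have hf' : tr (SLm j (r ((l * l' * l⁻¹ * l'⁻¹ : L) : Λ))) = 2 := hf
    rw [tr_map] at hf'
    rw [map_sub, hf', map_ofNat, sub_self]
  · have h1 : Q2.mH.comp ((Q2.map j).comp Θ') = (SLm j).comp (Q2.mH.comp Θ') := rfl
    rw [h1, hm']
    rfl
  · have h1 : Q2.tH.comp ((Q2.map j).comp Θ') =
      (Units.map j.toMonoidHom).comp (Q2.tH.comp Θ') := rfl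
    rw [h1, ht']
    ext1 g
    simp only [MonoidHom.comp_apply, MonoidHom.one_apply, map_one]
  · obtain ⟨l, hl1⟩ := dat_lift Ψ ((Q2.map (Qfm a b (Int.castRingHom (ZMod (p ^ 10))))).comp Θ₀) g
    obtain ⟨l', hl2⟩ := dat_lift Ψ ((Q2.map (Qfm a b (Int.castRingHom (ZMod (p ^ 10))))).comp Θ₀) h
    rw [← hΘ' 10] at hl1 hl2
    refine ⟨l, l', ?_⟩
    have h1 : Qfm a b (PadicInt.toZModPow 10) (Q2.W (Θ' l) (Θ' l') 0) =
        Qfm a b (Int.castRingHom (ZMod (p ^ 10))) (Q2.W (Θ₀ g) (Θ₀ h) 0) := by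
      have h3 : Q2.map (Qfm a b (PadicInt.toZModPow 10)) (Θ' l) =
        Q2.map (Qfm a b (Int.castRingHom (ZMod (p ^ 10)))) (Θ₀ g) := hl1
      have h4 : Q2.map (Qfm a b (PadicInt.toZModPow 10)) (Θ' l') =
        Q2.map (Qfm a b (Int.castRingHom (ZMod (p ^ 10)))) (Θ₀ h) := hl2
      rw [← pf_wm, h3, h4, pf_wm]
    have h6 := dat_ne p K j (Q2.W (Θ' l) (Θ' l') 0) _ h1 hW hW'
    intro h0
    apply h6
    rw [← pf_wm]
    exact congrFun h0 0

/-- the two elements which show that the representations are irreducible -/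
private def dat_g : SL2 ℤ := ⟨!![1, 1; 0, 1], by simp [Matrix.det_fin_two]⟩

private def dat_h : SL2 ℤ := ⟨!![1, 0; 3, 1], by simp [Matrix.det_fin_two]⟩

private def dat_i (a b : ℤ) : SL2 ℤ →* GQ a b := SLm (Int.castRingHom (Qf a b ℤ))

private theorem dat_mem (v : ZMod 3) (hv : v * v = (a : ZMod 3) + (b : ZMod 3) * v) (x : SL2 ℤ)
    (hx : SLm (Int.castRingHom (ZMod 3)) x ∈ PIC.UP (ZMod 3)) : dat_i a b x ∈ P3 v hv := by
  show r3 v hv (dat_i a b x) ∈ PIC.UP (ZMod 3)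
  have h : (evq a b (Int.castRingHom (ZMod 3)) v hv).comp (Int.castRingHom (Qf a b ℤ)) =
      Int.castRingHom (ZMod 3) := RingHom.ext_int _ _
  rw [← h] at hx
  exact hx

private theorem dat_tr (a b : ℤ) : tr (dat_i a b dat_g * dat_i a b dat_h * (dat_i a b dat_g)⁻¹ *
    (dat_i a b dat_h)⁻¹) = (9 : Qf a b ℤ) + 2 := by
  rw [← map_inv, ← map_inv, ← map_mul, ← map_mul, ← map_mul]
  unfold dat_i
  rw [tr_map]
  have h : tr (dat_g * dat_h * dat_g⁻¹ * dat_h⁻¹) = (11 : ℤ) := by decide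
  rw [h, map_ofNat]
  norm_num

private theorem dat_n9 (a b : ℤ) : nq (9 : Qf a b ℤ) = 81 := by
  unfold nq
  have h1 : (9 : Qf a b ℤ).re = 9 := rfl
  have h2 : (9 : Qf a b ℤ).im = 0 := rfl
  rw [h1, h2]
  norm_num

/-- property P for one of the two subgroups -/
private theorem dat_one_sub (hlim : T_lim a b) (Λ : Type) [Group Λ] (Φ : NatBij (GQ a b) Λ)
    (p : ℕ) [Fact p.Prime] (r : Λ →* SL2 (Qf a b ℤ_[p]))
    (hr : ∀ k : ℕ, (SLm (Qfm a b (PadicInt.toZModPow k))).comp r = Φ.toFun _ (rdq a b (p ^ k)))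
    (v : ZMod 3) (hv : v * v = (a : ZMod 3) + (b : ZMod 3) * v) (hc : CocQ (P3 v hv))
    (K : Type) [Field K] [CharZero K] (j : Qf a b ℤ_[p] →+* K) :
    PIC.Pt (L3 Φ v hv) ((SLm j).comp r) := by
  obtain ⟨Θ₁, hm₁, ht₁, g, h, hW1, hW1'⟩ := hc
  obtain ⟨Ψ, hΨ⟩ := natBij_comap Φ (π := r3 v hv) (π' := Φ.toFun _ (r3 v hv)) rfl
    (PIC.UP (ZMod 3))
  change NatBij (P3 v hv) (L3 Φ v hv) at Ψ
  change ∀ (R : Type) [Group R] [Finite R] (θ : GQ a b →* R),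
      Ψ.toFun R (θ.comp (P3 v hv).subtype) = (Φ.toFun R θ).comp (L3 Φ v hv).subtype at hΨ
  have a1 : dat_i a b dat_g ∈ P3 v hv := by
    refine dat_mem v hv dat_g ⟨?_, ?_, ?_⟩ <;> decide
  have a2 : dat_i a b dat_h ∈ P3 v hv := by
    refine dat_mem v hv dat_h ⟨?_, ?_, ?_⟩ <;> decide
  exact dat_sub hlim Λ Φ p r hr (P3 v hv) (L3 Φ v hv) Ψ hΨ Θ₁ hm₁ ht₁ g h hW1 hW1'
    ⟨_, a1⟩ ⟨_, a2⟩ 9 (dat_tr a b) (by rw [dat_n9]; norm_num) (by rw [dat_n9]; norm_num) K j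

/-- [BG dat] the `p`-adic representation -/
theorem p_dat (a b : ℤ) (u : ZMod 3) (hu : u * u = (a : ZMod 3) + (b : ZMod 3) * u)
    (htb : T_tb2 a b u hu) (hlim : T_lim a b) : T_dat a b u hu := by
  intro H Λ _ Φ p _
  obtain ⟨r, hr⟩ := dat_r hlim Λ Φ p
  refine ⟨r, hr, ?_, ?_⟩
  · intro K _ _ j
    exact ⟨dat_one_sub hlim Λ Φ p r hr u hu H.coc K j,
      dat_one_sub hlim Λ Φ p r hr ((b : ZMod 3) - u) (rt_cj hu) (htb H.coc) K j⟩
  · obtain ⟨l, hl1⟩ := dat_lift Φ (rdq a b (p ^ 1)) (mU (wq a b ℤ) * mB (Qf a b ℤ))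
    refine ⟨l, ?_⟩
    intro h0
    have hnt : Nontrivial (ZMod (p ^ 1)) := by
      rw [pow_one]
      exact inferInstance
    rw [← hr 1] at hl1
    have h1 : Qfm a b (PadicInt.toZModPow 1) (tr (r l)) =
        Qfm a b (Int.castRingHom (ZMod (p ^ 1))) (wq a b ℤ) := by
      have h3 : SLm (Qfm a b (PadicInt.toZModPow 1)) (r l) =
        rdq a b (p ^ 1) (mU (wq a b ℤ) * mB (Qf a b ℤ)) := hl1
      rw [← tr_map, h3]
      unfold rdq
      rw [tr_map]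
      have h5 : tr (mU (wq a b ℤ) * mB (Qf a b ℤ)) = wq a b ℤ := by
        rw [tr_eq]
        simp [mU, mB, Matrix.mul_apply, Fin.sum_univ_two]
      rw [h5]
    have h2 := congrArg (fun z : Qf a b (ZMod (p ^ 1)) => z.im) h1
    rw [Qfm_apply, Qfm_apply] at h2
    have h6 : (wq a b ℤ).im = 1 := rfl
    simp only [h0, h6, map_zero, map_one] at h2
    exact zero_ne_one h2

end

end Pool.Agent.F8.BG
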