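import Pool.Agent.Lib.MP_305fdd_al.F8.BG.StmI

/-!
# MP_305fdd_al, Bianchi groups, piece i1: backward closed
-/

set_option autoImplicit false

namespace Pool.Agent.F8.BG

private theorem i1_mem {ι V : Type} [MulAction (FreeGroup ι) V] (l : List ι) :
    ∀ (v : V) (e : V × ι), e ∈ pe v l →
      ∃ (l₁ : List ι) (j : ι) (l₂ : List ι), l = l₁ ++ j :: l₂ ∧ e = ((pw l₁)⁻¹ • v, j) := by
  induction l with
  | nil =>
    intro v e he
    simp at he
  | cons i l ih =>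
    intro v e he
    rw [pe_cons, List.mem_cons] at he
    rcases he with he | he
    · exact ⟨[], i, l, rfl, by rw [he]; simp⟩
    · obtain ⟨l₁, j, l₂, h1, h2⟩ := ih _ _ he
      refine ⟨i :: l₁, j, l₂, by rw [h1]; rfl, ?_⟩
      rw [h2, pw_cons, mul_inv_rev, mul_smul]

private theorem i1_mem' {ι V : Type} [MulAction (FreeGroup ι) V] (v : V) (l₁ : List ι) (j : ι)
    (l₂ : List ι) : ((pw l₁)⁻¹ • v, j) ∈ pe v (l₁ ++ j :: l₂) := by
  rw [pe_append, pe_cons]
  simp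

theorem p_i1 : S_i1 := by
  intro ι _ w hirr V _ ψ S hS hfw
  have hfin : ∀ i : ι, {v : V | (v, i) ∈ S}.Finite := by
    intro i
    refine Set.Finite.preimage (f := fun v : V => (v, i)) ?_ hS
    intro a _ b _ hab
    exact (Prod.mk.inj hab).1
  have hinj : ∀ l : List ι, Function.Injective fun v : V => (pw l)⁻¹ • ψ v := by
    intro l a b hab
    exact ψ.injective (MulAction.injective _ hab)
  have himg : ∀ (i j : ι) (l₁ l₂ : List ι), w i = l₁ ++ j :: l₂ →
      (fun v : V => (pw l₁)⁻¹ • ψ v) '' {v : V | (v, i) ∈ S} ⊆ {v : V | (v, j) ∈ S} := by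
    rintro i j l₁ l₂ hw _ ⟨v, hv, rfl⟩
    refine hfw (v, i) hv _ ?_
    show ((pw l₁)⁻¹ • ψ v, j) ∈ pe (ψ v) (w i)
    rw [hw]
    exact i1_mem' _ _ _ _
  have hle1 : ∀ i j : ι, j ∈ w i →
      {v : V | (v, i) ∈ S}.ncard ≤ {v : V | (v, j) ∈ S}.ncard := by
    intro i j hj
    obtain ⟨l₁, l₂, hw⟩ := List.append_of_mem hj
    rw [← Set.ncard_image_of_injective _ (hinj l₁)]
    exact Set.ncard_le_ncard (himg i j l₁ l₂ hw) (hfin j)
  have hle : ∀ i j : ι, {v : V | (v, i) ∈ S}.ncard ≤ {v : V | (v, j) ∈ S}.ncard := by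
    intro i j
    induction hirr i j with
    | refl => exact le_rfl
    | tail _ h ih => exact ih.trans (hle1 _ _ h)
  intro v i e he heS
  obtain ⟨l₁, j, l₂, hw, rfl⟩ := i1_mem _ _ _ he
  have heq : (fun v : V => (pw l₁)⁻¹ • ψ v) '' {v : V | (v, i) ∈ S} = {v : V | (v, j) ∈ S} := by
    refine Set.eq_of_subset_of_ncard_le (himg i j l₁ l₂ hw) ?_ (hfin j)
    rw [Set.ncard_image_of_injective _ (hinj l₁)]
    exact hle j i
  have hmem : (pw l₁)⁻¹ • ψ v ∈ {v : V | (v, j) ∈ S} := heS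
  rw [← heq] at hmem
  obtain ⟨v', hv', h⟩ := hmem
  have : v' = v := hinj l₁ h
  rw [← this]
  exact hv'

end Pool.Agent.F8.BG
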