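import Pool.Agent.Lib.MP_305fdd_al.F8.BG.StmL

/-!
# MP_305fdd_al, Legendre's theorem over the ring of integers of `ℚ(√-11)`: piece leg11
-/

set_option autoImplicit false

namespace Pool.Agent.F8.BG

open Pool.Agent.F8
open Pool.Agent.F8.BG.D11
open scoped QuadraticAlgebra

/-! ### the covering radius -/

private theorem leg11_hex (n s t : ℤ) (hs : 0 ≤ s) (ht : 0 ≤ t) (hn : s + t ≤ n) (hn0 : 0 < n) :
    ∃ e f : ℤ, 11 * ((s - n * e) * (s - n * e) + (s - n * e) * (t - n * f) +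
      3 * ((t - n * f) * (t - n * f))) ≤ 9 * (n * n) := by
  by_contra hcon
  push Not at hcon
  have h0 := hcon 0 0
  have h1 := hcon 1 0
  have h2 := hcon 0 1
  have k0 := mul_le_mul_of_nonneg_left h0.le (show 0 ≤ n - s - t by linarith)
  have k1 := mul_le_mul_of_nonneg_left h1.le hs
  have k2 := mul_le_mul_of_nonneg_left h2.le ht
  have strict : n * (9 * (n * n)) <
      (n - s - t) * (11 * ((s - n * 0) * (s - n * 0) + (s - n * 0) * (t - n * 0) +
        3 * ((t - n * 0) * (t - n * 0)))) +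
      s * (11 * ((s - n * 1) * (s - n * 1) + (s - n * 1) * (t - n * 0) +
        3 * ((t - n * 0) * (t - n * 0)))) +
      t * (11 * ((s - n * 0) * (s - n * 0) + (s - n * 0) * (t - n * 1) +
        3 * ((t - n * 1) * (t - n * 1)))) := by
    rcases lt_or_ge (s + t) n with h | h
    · have := mul_lt_mul_of_pos_left h0 (show 0 < n - s - t by linarith)
      nlinarith
    · rcases lt_or_ge 0 s with h' | h'
      · have := mul_lt_mul_of_pos_left h1 h'
        nlinarith
      · have := mul_lt_mul_of_pos_left h2 (show 0 < t by linarith)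
        nlinarith
  have id : (n - s - t) * (11 * ((s - n * 0) * (s - n * 0) + (s - n * 0) * (t - n * 0) +
        3 * ((t - n * 0) * (t - n * 0)))) +
      s * (11 * ((s - n * 1) * (s - n * 1) + (s - n * 1) * (t - n * 0) +
        3 * ((t - n * 0) * (t - n * 0)))) +
      t * (11 * ((s - n * 0) * (s - n * 0) + (s - n * 0) * (t - n * 1) +
        3 * ((t - n * 1) * (t - n * 1)))) =
      11 * n * ((n - s - t) * s + 3 * ((n - s - t) * t) + 3 * (s * t)) := by
    ring
  rw [id] at strict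
  have fin : 11 * ((n - s - t) * s + 3 * ((n - s - t) * t) + 3 * (s * t)) ≤ 9 * (n * n) := by
    nlinarith [sq_nonneg (5 * (n - t) - 6 * t), sq_nonneg ((n - s - t) - s)]
  nlinarith

private theorem leg11_hex' (n A B : ℤ) (hn0 : 0 < n) :
    ∃ e f : ℤ, 11 * ((A - n * e) * (A - n * e) + (A - n * e) * (B - n * f) +
      3 * ((B - n * f) * (B - n * f))) ≤ 9 * (n * n) := by
  have a1 := Int.emod_nonneg A hn0.ne'
  have a2 := Int.emod_lt_of_pos A hn0
  have a3 := Int.emod_add_mul_ediv A n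
  have b1 := Int.emod_nonneg B hn0.ne'
  have b2 := Int.emod_lt_of_pos B hn0
  have b3 := Int.emod_add_mul_ediv B n
  rcases le_total (A % n + B % n) n with h | h
  · obtain ⟨e, f, hef⟩ := leg11_hex n (A % n) (B % n) a1 b1 h hn0
    refine ⟨A / n + e, B / n + f, ?_⟩
    have e1 : A - n * (A / n + e) = A % n - n * e := by linarith
    have e2 : B - n * (B / n + f) = B % n - n * f := by linarith
    rw [e1, e2]; exact hef
  · obtain ⟨e, f, hef⟩ := leg11_hex n (n - A % n) (n - B % n) (by linarith) (by linarith)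
      (by linarith) hn0
    refine ⟨A / n + 1 - e, B / n + 1 - f, ?_⟩
    have e1 : A - n * (A / n + 1 - e) = -(n - A % n - n * e) := by linarith
    have e2 : B - n * (B / n + 1 - f) = -(n - B % n - n * f) := by linarith
    rw [e1, e2]
    have e3 : ∀ x y : ℤ, (-x) * (-x) + (-x) * (-y) + 3 * ((-y) * (-y)) =
        x * x + x * y + 3 * (y * y) := by
      intro x y; ring
    rw [e3]; exact hef

/-- division with a small remainder -/
private theorem leg11_small (a b : O11) (hb : b ≠ 0) :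
    ∃ q : O11, 11 * D11.nm (a - b * q) ≤ 9 * D11.nm b := by
  have hN := nm_pos hb
  obtain ⟨P, hP⟩ := quot a b
  obtain ⟨e, f, hef⟩ := leg11_hex' (D11.nm b) P.re P.im hN
  refine ⟨⟨e, f⟩, ?_⟩
  have h3 := hP ⟨e, f⟩
  rw [mul_comm b]
  simp only at h3
  have h4 : (11 * D11.nm (a - ⟨e, f⟩ * b)) * D11.nm b ≤ (9 * D11.nm b) * D11.nm b := by
    rw [mul_assoc, h3]
    have e1 : e * D11.nm b = D11.nm b * e := mul_comm _ _
    have e2 : f * D11.nm b = D11.nm b * f := mul_comm _ _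
    rw [e1, e2]
    nlinarith [hef]
  exact le_of_mul_le_mul_right h4 hN

/-! ### the norm -/

private def leg11_N (z : O11) : ℕ := (D11.nm z).natAbs

private theorem leg11_N_cast (z : O11) : (leg11_N z : ℤ) = D11.nm z := by
  unfold leg11_N
  exact Int.natAbs_of_nonneg (nm_nonneg z)

private theorem leg11_conj (z : O11) : z * ⟨z.re + z.im, -z.im⟩ = ((D11.nm z : ℤ) : O11) := by
  apply O_ext
  · rw [O_re_mul]
    simp only [QuadraticAlgebra.re_intCast, Int.cast_id]
    unfold D11.nm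
    ring
  · rw [O_im_mul]
    simp only [QuadraticAlgebra.im_intCast]
    ring

private def leg11_nu : EG.Nm O11 where
  N := leg11_N
  mul x y := by
    unfold leg11_N
    rw [nm_mul, Int.natAbs_mul]
  zero x h := by
    apply nm_eq_zero
    rw [← leg11_N_cast, h]; rfl
  unit x h := by
    refine IsUnit.of_mul_eq_one (⟨x.re + x.im, -x.im⟩ : O11) ?_
    rw [leg11_conj, ← leg11_N_cast, h]
    rfl

private theorem leg11_add (u v : O11) : 18 * D11.nm (u - v) ≤ 22 * D11.nm u + 99 * D11.nm v := by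
  have h := nm_nonneg (2 * u + 9 * v)
  have e : D11.nm (2 * u + 9 * v) = 22 * D11.nm u + 99 * D11.nm v - 18 * D11.nm (u - v) := by
    have e3 : (2 * u + 9 * v : O11) = ⟨2 * u.re + 9 * v.re, 2 * u.im + 9 * v.im⟩ := by
      apply O_ext
      · simp
      · simp
    rw [e3]
    unfold D11.nm
    simp only [QuadraticAlgebra.re_sub, QuadraticAlgebra.im_sub]
    ring
  linarith

/-! ### the finite check -/

private def leg11_nP (z : ℤ × ℤ) : ℤ := z.1 * z.1 + z.1 * z.2 + 3 * (z.2 * z.2)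

private def leg11_tab : List (ℤ × ℤ) :=
  ((List.range 11).flatMap fun i => (List.range 7).map fun j =>
    (((i : ℕ) : ℤ) - 5, ((j : ℕ) : ℤ) - 3)).filter fun z => decide (leg11_nP z ≤ 30)

private def leg11_qt (b r a : ℤ × ℤ) (nn q1 q2 : ℤ) : Bool :=
  let s1 := r.1 - (b.1 * q1 - 3 * (b.2 * q2))
  let s2 := r.2 - (b.1 * q2 + b.2 * q1 + b.2 * q2)
  decide (leg11_nP (s1 * s1 - 3 * (s2 * s2) - a.1, 2 * (s1 * s2) + s2 * s2 - a.2) < nn)

private def leg11_dv (b r a : ℤ × ℤ) (n : ℤ) : Bool :=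
  let u1 := r.1 * r.1 - 3 * (r.2 * r.2) - a.1
  let u2 := 2 * (r.1 * r.2) + r.2 * r.2 - a.2
  decide ((u1 * (b.1 + b.2) + 3 * (u2 * b.2)) % n = 0) && decide ((u2 * b.1 - u1 * b.2) % n = 0)

private def leg11_exc (b a : ℤ × ℤ) : Bool :=
  decide (a = (-3, 0)) && (decide (b = (0, 2)) || decide (b = (0, -2)) || decide (b = (2, -2)) ||
    decide (b = (-2, 2)))

private def leg11_row (b r : ℤ × ℤ) (n nn : ℤ) : Bool :=
  leg11_tab.all fun a => !(decide (leg11_nP a ≤ n)) || (!(leg11_dv b r a n) ||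
    (leg11_qt b r a nn 0 0 || leg11_qt b r a nn 1 0 || leg11_qt b r a nn (-1) 0 ||
      leg11_qt b r a nn 0 1 || leg11_qt b r a nn 0 (-1) || leg11_qt b r a nn 1 1 ||
      leg11_qt b r a nn 1 (-1) || leg11_qt b r a nn (-1) 1 || leg11_qt b r a nn (-1) (-1) ||
      leg11_exc b a))

private def leg11_all : Bool :=
  leg11_tab.all fun b => !(decide (2 ≤ leg11_nP b)) || leg11_tab.all fun r =>
    !(decide (11 * leg11_nP r ≤ 9 * leg11_nP b)) ||
      leg11_row b r (leg11_nP b) (leg11_nP b * leg11_nP b)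

private theorem leg11_all_true : leg11_all = true := by decide +kernel

private theorem leg11_nP_eq (z : O11) : leg11_nP (z.re, z.im) = D11.nm z := by
  unfold leg11_nP D11.nm
  ring

private theorem leg11_mem (z : O11) (h : D11.nm z ≤ 30) : (z.re, z.im) ∈ leg11_tab := by
  have h4 := nm_four z
  have h3 : z.im ≤ 3 := by nlinarith [sq_nonneg (2 * z.re + z.im)]
  have h5 : -3 ≤ z.im := by nlinarith [sq_nonneg (2 * z.re + z.im)]
  have e1 : 12 * D11.nm z = 11 * z.re ^ 2 + (z.re + 6 * z.im) ^ 2 := by unfold D11.nm; ring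
  have h1 : z.re ≤ 5 := by nlinarith [sq_nonneg (z.re + 6 * z.im)]
  have h2 : -5 ≤ z.re := by nlinarith [sq_nonneg (z.re + 6 * z.im)]
  unfold leg11_tab
  rw [List.mem_filter]
  constructor
  · rw [List.mem_flatMap]
    refine ⟨(z.re + 5).toNat, List.mem_range.2 (by omega), ?_⟩
    rw [List.mem_map]
    refine ⟨(z.im + 3).toNat, List.mem_range.2 (by omega), ?_⟩
    apply Prod.ext
    · show (((z.re + 5).toNat : ℕ) : ℤ) - 5 = z.re
      omega
    · show (((z.im + 3).toNat : ℕ) : ℤ) - 3 = z.im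
      omega
  · rw [decide_eq_true_eq, leg11_nP_eq]
    exact h

private theorem leg11_dv_true (b r a : O11) (hd : b ∣ r ^ 2 - a) :
    leg11_dv (b.re, b.im) (r.re, r.im) (a.re, a.im) (D11.nm b) = true := by
  obtain ⟨c, hc⟩ := hd
  rw [pow_two] at hc
  have k1 := congrArg QuadraticAlgebra.re hc
  have k2 := congrArg QuadraticAlgebra.im hc
  rw [QuadraticAlgebra.re_sub, O_re_mul, O_re_mul] at k1
  rw [QuadraticAlgebra.im_sub, O_im_mul, O_im_mul] at k2
  unfold leg11_dv
  simp only [Bool.and_eq_true, decide_eq_true_eq]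
  constructor
  · apply Int.emod_eq_zero_of_dvd
    refine ⟨c.re, ?_⟩
    unfold D11.nm
    linear_combination (b.re + b.im) * k1 + 3 * b.im * k2
  · apply Int.emod_eq_zero_of_dvd
    refine ⟨c.im, ?_⟩
    unfold D11.nm
    linear_combination b.re * k2 - b.im * k1

private theorem leg11_qt_true (b r a : O11) (nn q1 q2 : ℤ)
    (h : leg11_qt (b.re, b.im) (r.re, r.im) (a.re, a.im) nn q1 q2 = true) :
    D11.nm ((r - b * ⟨q1, q2⟩) ^ 2 - a) < nn := by
  unfold leg11_qt at h
  simp only [decide_eq_true_eq] at h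
  have e : D11.nm ((r - b * ⟨q1, q2⟩) ^ 2 - a) =
      leg11_nP ((r.re - (b.re * q1 - 3 * (b.im * q2))) * (r.re - (b.re * q1 - 3 * (b.im * q2))) -
        3 * ((r.im - (b.re * q2 + b.im * q1 + b.im * q2)) *
          (r.im - (b.re * q2 + b.im * q1 + b.im * q2))) - a.re,
        2 * ((r.re - (b.re * q1 - 3 * (b.im * q2))) *
          (r.im - (b.re * q2 + b.im * q1 + b.im * q2))) +
          (r.im - (b.re * q2 + b.im * q1 + b.im * q2)) *
          (r.im - (b.re * q2 + b.im * q1 + b.im * q2)) - a.im) := by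
    rw [← leg11_nP_eq, pow_two]
    simp only [QuadraticAlgebra.re_sub, QuadraticAlgebra.im_sub, O_re_mul, O_im_mul]
    congr 1
    apply Prod.ext
    · rfl
    · show _ = _
      simp only
      ring
  rw [e]
  exact h

private theorem leg11_fin (b r a : O11) (h2 : 2 ≤ D11.nm b) (h30 : D11.nm b ≤ 30)
    (hr : 11 * D11.nm r ≤ 9 * D11.nm b) (ha : D11.nm a ≤ D11.nm b) (hd : b ∣ r ^ 2 - a) :
    (∃ q : O11, D11.nm ((r - b * q) ^ 2 - a) < D11.nm b * D11.nm b) ∨
      (a = ⟨-3, 0⟩ ∧ (b = ⟨0, 2⟩ ∨ b = ⟨0, -2⟩ ∨ b = ⟨2, -2⟩ ∨ b = ⟨-2, 2⟩)) := by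
  have H := leg11_all_true
  unfold leg11_all at H
  rw [List.all_eq_true] at H
  have H1 := H _ (leg11_mem b h30)
  rw [leg11_nP_eq, Bool.or_eq_true, Bool.not_eq_true', decide_eq_false_iff_not] at H1
  have H2 := H1.resolve_left (fun h => h h2)
  rw [List.all_eq_true] at H2
  have hrr := nm_nonneg r
  have H3 := H2 _ (leg11_mem r (by omega))
  rw [leg11_nP_eq, Bool.or_eq_true, Bool.not_eq_true', decide_eq_false_iff_not] at H3
  have H4 := H3.resolve_left (fun h => h hr)
  unfold leg11_row at H4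
  rw [List.all_eq_true] at H4
  have H5 := H4 _ (leg11_mem a (by omega))
  rw [leg11_nP_eq, Bool.or_eq_true, Bool.not_eq_true', decide_eq_false_iff_not] at H5
  have H6 := H5.resolve_left (fun h => h ha)
  rw [leg11_dv_true b r a hd] at H6
  simp only [Bool.not_true, Bool.false_or, Bool.or_eq_true] at H6
  have K := fun q1 q2 => leg11_qt_true b r a (D11.nm b * D11.nm b) q1 q2
  rcases H6 with ((((((((h | h) | h) | h) | h) | h) | h) | h) | h) | h
  · exact Or.inl ⟨_, K _ _ h⟩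
  · exact Or.inl ⟨_, K _ _ h⟩
  · exact Or.inl ⟨_, K _ _ h⟩
  · exact Or.inl ⟨_, K _ _ h⟩
  · exact Or.inl ⟨_, K _ _ h⟩
  · exact Or.inl ⟨_, K _ _ h⟩
  · exact Or.inl ⟨_, K _ _ h⟩
  · exact Or.inl ⟨_, K _ _ h⟩
  · exact Or.inl ⟨_, K _ _ h⟩
  · right
    unfold leg11_exc at h
    simp only [Bool.and_eq_true, Bool.or_eq_true, decide_eq_true_eq, Prod.mk.injEq] at h
    obtain ⟨⟨x1, x2⟩, hb⟩ := h
    refine ⟨O_ext x1 x2, ?_⟩
    rcases hb with ((⟨y1, y2⟩ | ⟨y1, y2⟩) | ⟨y1, y2⟩) | ⟨y1, y2⟩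
    · exact Or.inl (O_ext y1 y2)
    · exact Or.inr (Or.inl (O_ext y1 y2))
    · exact Or.inr (Or.inr (Or.inl (O_ext y1 y2)))
    · exact Or.inr (Or.inr (Or.inr (O_ext y1 y2)))

/-! ### the exceptions -/

private def leg11_ph1 : O11 →+* ZMod 3 := evq (-3) 1 (Int.castRingHom (ZMod 3)) 1 (by decide)

private def leg11_ph0 : O11 →+* ZMod 3 := evq (-3) 1 (Int.castRingHom (ZMod 3)) 0 (by decide)

private theorem leg11_sq (x : ZMod 3) : x ^ 2 ≠ 2 := by
  revert x
  decide

private theorem leg11_no1 (r' : O11) (h : (⟨-3, 0⟩ : O11) ∣ r' ^ 2 - ⟨0, 2⟩) : False := by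
  obtain ⟨c, hc⟩ := h
  have h1 := congrArg leg11_ph1 hc
  rw [map_sub, map_pow, map_mul] at h1
  have e1 : leg11_ph1 ⟨0, 2⟩ = 2 := by decide
  have e2 : leg11_ph1 ⟨-3, 0⟩ = 0 := by decide
  rw [e1, e2, zero_mul, sub_eq_zero] at h1
  exact leg11_sq _ h1

private theorem leg11_no2 (r' : O11) (h : (⟨-3, 0⟩ : O11) ∣ r' ^ 2 - ⟨2, -2⟩) : False := by
  obtain ⟨c, hc⟩ := h
  have h1 := congrArg leg11_ph0 hc
  rw [map_sub, map_pow, map_mul] at h1
  have e1 : leg11_ph0 ⟨2, -2⟩ = 2 := by decide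
  have e2 : leg11_ph0 ⟨-3, 0⟩ = 0 := by decide
  rw [e1, e2, zero_mul, sub_eq_zero] at h1
  exact leg11_sq _ h1

private theorem leg11_s1 : EG.Sol (⟨-3, 0⟩ : O11) ⟨0, -2⟩ :=
  ⟨⟨2, 1⟩, ⟨2, -2⟩, ⟨0, 3⟩, by decide, by decide⟩

private theorem leg11_s2 : EG.Sol (⟨-3, 0⟩ : O11) ⟨-2, 2⟩ :=
  ⟨⟨1, 1⟩, ⟨2, 2⟩, ⟨5, -5⟩, by decide, by decide⟩

private theorem leg11_s3 : EG.Sol (-1 : O11) (-1) :=
  ⟨⟨1, 1⟩, ⟨1, 0⟩, ⟨2, -1⟩, by decide, by decide⟩

/-- [BG leg11] -/
theorem p_leg11 (hgen : L_gen) (hpid : L_pid) : L_leg11 := by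
  haveI hdom : IsDomain O11 := Qf_domain (a := -3) (b := 1) (by norm_num)
  haveI hp : IsPrincipalIdealRing O11 := hpid.2
  refine hgen O11 leg11_nu 2 ?_ ?_
  · intro a b r r' ha hb h2 hab hSa hSb hd hd'
    have h2' : 2 ≤ D11.nm b := by
      have h : 2 ≤ leg11_N b := h2
      rw [← leg11_N_cast]; exact_mod_cast h
    have hab' : D11.nm a ≤ D11.nm b := by
      have h : leg11_N a ≤ leg11_N b := hab
      rw [← leg11_N_cast, ← leg11_N_cast]; exact_mod_cast h
    have conv : ∀ x : O11, D11.nm x < D11.nm b * D11.nm b → leg11_nu.N x < leg11_nu.N b ^ 2 := by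
      intro x hx
      show leg11_N x < leg11_N b ^ 2
      zify
      rw [leg11_N_cast, leg11_N_cast, pow_two]
      exact hx
    obtain ⟨q0, hq0⟩ := leg11_small r b hb
    have hd1 : b ∣ (r - b * q0) ^ 2 - a := by
      obtain ⟨c, hc⟩ := hd
      exact ⟨c - 2 * r * q0 + b * q0 ^ 2, by linear_combination hc⟩
    rcases le_or_gt (D11.nm b) 30 with h30 | h31
    · rcases leg11_fin b (r - b * q0) a h2' h30 hq0 hab' hd1 with ⟨q, hq⟩ | ⟨rfl, h⟩
      · right
        refine ⟨q0 + q, conv _ ?_⟩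
        have e : r - b * (q0 + q) = r - b * q0 - b * q := by ring
        rw [e]
        exact hq
      · left
        rcases h with rfl | rfl | rfl | rfl
        · exact absurd hd' (leg11_no1 r')
        · exact leg11_s1
        · exact absurd hd' (leg11_no2 r')
        · exact leg11_s2
    · right
      refine ⟨q0, conv _ ?_⟩
      have h1 := leg11_add ((r - b * q0) ^ 2) a
      rw [pow_two, D11.nm_mul] at h1
      have h3 : 0 ≤ D11.nm (r - b * q0) := D11.nm_nonneg _
      rw [pow_two]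
      generalize D11.nm (r - b * q0) = x at *
      generalize D11.nm b = n at *
      generalize D11.nm a = y at *
      generalize D11.nm ((r - b * q0) * (r - b * q0) - a) = w at *
      have h4 : 121 * (x * x) ≤ 81 * (n * n) := by nlinarith
      nlinarith
  · intro a b ha hb ha2 hb2 _ _ _
    have key : ∀ z : O11, z ≠ 0 → leg11_nu.N z < 2 → z = 1 ∨ z = -1 := by
      intro z hz h
      apply D11.unit_cases
      have h1 := D11.nm_pos hz
      have h2 : leg11_N z < 2 := h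
      have h3 := leg11_N_cast z
      omega
    rcases key a ha ha2 with rfl | rfl
    · exact ⟨1, 0, 1, fun h => one_ne_zero h.1, by ring⟩
    · rcases key b hb hb2 with rfl | rfl
      · exact ⟨0, 1, 1, fun h => one_ne_zero h.2.1, by ring⟩
      · exact leg11_s3

end Pool.Agent.F8.BG
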