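import Pool.Agent.Lib.MP_305fdd_al.F8.BG.StmU
import Pool.Agent.Lib.MP_305fdd_al.F8.PIC7.P_nf

/-!
# [BG nf] the normal form of an irreducible representation of `SL₂(ℤ[w])`
-/

set_option autoImplicit false
set_option linter.unusedVariables false

namespace Pool.Agent.F8.BG

open Pool.Agent.MP_305fdd_al Pool.Agent.Lib.MP_305fdd_al Pool.Agent.F2X Pool.Agent.F8
  Pool.Agent.F8.HN Pool.Agent.F8.AB
open scoped QuadraticAlgebra

section

variable {a b : ℤ}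

private theorem nf_r1 (R : Type) [CommRing R] : mB R * mB R = (-1 : SL2 R) := by
  apply G.SL_ext
  · rw [G.SL_mul, G.SL_neg, G.mB00, G.mB01, G.mB10, G.one00]; ring
  · rw [G.SL_mul, G.SL_neg, G.mB00, G.mB01, G.mB11, G.one01]; ring
  · rw [G.SL_mul, G.SL_neg, G.mB00, G.mB10, G.mB11, G.one10]; ring
  · rw [G.SL_mul, G.SL_neg, G.mB01, G.mB10, G.mB11, G.one11]; ring

private theorem nf_r2 (R : Type) [CommRing R] :
    mU (1 : R) * mB R * (mU 1 * mB R) * (mU 1 * mB R) = (-1 : SL2 R) := by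
  apply G.SL_ext <;>
  simp only [G.SL_mul, G.SL_neg, G.mB00, G.mB01, G.mB10, G.mB11, G.mU00, G.mU01, G.mU10, G.mU11,
    G.one00, G.one01, G.one10, G.one11] <;> ring

private theorem nf_r3 {R : Type} [CommRing R] (x y : R) : mU x * mU y = mU y * mU x := by
  apply G.SL_ext <;>
  simp only [G.SL_mul, G.mU00, G.mU01, G.mU10, G.mU11] <;> ring

private theorem nf_r5 (R : Type) [CommRing R] : (-1 : SL2 R) * (-1) = 1 := by
  rw [neg_mul_neg, one_mul]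

section
variable {K : Type} [Field K]

/-- commuting generators -/
private theorem nf_ab (hG : GenQ a b) (ρ : GQ a b →* SL2 K) (hI : Irr ρ)
    (h1 : ρ (mU 1) * ρ (mB _) = ρ (mB _) * ρ (mU 1))
    (h2 : ρ (mU (wq a b ℤ)) * ρ (mB _) = ρ (mB _) * ρ (mU (wq a b ℤ))) :
    False := by
  have h3 : ρ (mU 1) * ρ (mU (wq a b ℤ)) = ρ (mU (wq a b ℤ)) * ρ (mU 1) := by
    rw [← map_mul, nf_r3, map_mul]
  have hS : ∀ x : SL2 K, x * ρ (mU 1) = ρ (mU 1) * x →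
      x * ρ (mU (wq a b ℤ)) = ρ (mU (wq a b ℤ)) * x →
      x * ρ (mB _) = ρ (mB _) * x → ∀ g, x * ρ g = ρ g * x := by
    intro x a1 a2 a3 g
    have := hG ((Subgroup.centralizer {x}).comap ρ)
      (by
        rw [Subgroup.mem_comap, Subgroup.mem_centralizer_singleton_iff]
        exact a1.symm)
      (by
        rw [Subgroup.mem_comap, Subgroup.mem_centralizer_singleton_iff]
        exact a2.symm)
      (by
        rw [Subgroup.mem_comap, Subgroup.mem_centralizer_singleton_iff]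
        exact a3.symm) g
    rw [Subgroup.mem_comap, Subgroup.mem_centralizer_singleton_iff] at this
    exact this.symm
  have hT := hS (ρ (mU 1)) rfl h3 h1
  have hU := hS (ρ (mU (wq a b ℤ))) h3.symm rfl h2
  have hB := hS (ρ (mB _)) h1.symm h2.symm rfl
  obtain ⟨g, h, hgh⟩ := hI
  apply hgh
  have h5 := hS (ρ g) (hT g).symm (hU g).symm (hB g).symm h
  have h4 : ρ (g * h * g⁻¹ * h⁻¹) = 1 := by
    rw [map_mul, map_mul, map_mul, map_inv, map_inv, h5, mul_inv_cancel_right, mul_inv_cancel]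
  rw [h4, tr_eq, G.one00, G.one11]
  norm_num

/-- a common eigenvector of the generators -/
private theorem nf_tri (hG : GenQ a b) (ρ : GQ a b →* SL2 K) (hI : Irr ρ)
    (h1 : (ρ (mU 1)).val 1 0 = 0)
    (h2 : (ρ (mU (wq a b ℤ))).val 1 0 = 0) (h3 : (ρ (mB _)).val 1 0 = 0) : False := by
  let S : Subgroup (SL2 K) :=
    { carrier := {g | g.val 1 0 = 0}
      one_mem' := G.one10
      mul_mem' := by
        intro g h hg hh
        show (g * h).val 1 0 = 0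
        replace hg : g.val 1 0 = 0 := hg
        replace hh : h.val 1 0 = 0 := hh
        rw [G.SL_mul, hg, hh]; ring
      inv_mem' := by
        intro g hg
        show (g⁻¹).val 1 0 = 0
        replace hg : g.val 1 0 = 0 := hg
        rw [PIC7.nf_i10, hg, neg_zero] }
  have hall : ∀ g : GQ a b, (ρ g).val 1 0 = 0 := fun g => hG (S.comap ρ) h1 h2 h3 g
  obtain ⟨g, h, hgh⟩ := hI
  apply hgh
  have hg := hall g
  have hh := hall h
  have dg := G.SL_det (ρ g)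
  have dh := G.SL_det (ρ h)
  rw [hg] at dg
  rw [hh] at dh
  rw [map_mul, map_mul, map_mul, map_inv, map_inv, tr_eq]
  simp only [G.SL_mul, PIC7.nf_i00, PIC7.nf_i01, PIC7.nf_i10, PIC7.nf_i11, hg, hh]
  linear_combination (2 * (ρ h).val 0 0 * (ρ h).val 1 1) * dg + 2 * dh

end

/-- the case `ρ (-1) = 1` does not occur -/
private theorem nf_neg (hG : GenQ a b) {K : Type} [Field K] (h2 : (2 : K) ≠ 0)
    (ρ : GQ a b →* SL2 K) (hI : Irr ρ) : ρ (-1) = -1 := by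
  have h1 : ρ (-1) * ρ (-1) = 1 := by rw [← map_mul, nf_r5, map_one]
  rcases PIC.nf_sq_one h2 _ h1 with h3 | h3
  · exfalso
    have hB : ∀ x : SL2 K, x * ρ (mB _) = ρ (mB _) * x := by
      intro x
      rcases PIC.nf_sq_one h2 (ρ (mB _)) (by rw [← map_mul, nf_r1, h3]) with h | h
      · rw [h, one_mul, mul_one]
      · rw [h, mul_neg, neg_mul, one_mul, mul_one]
    exact nf_ab hG ρ hI (hB _) (hB _)
  · exact h3

private theorem nf_irr {K : Type} [Field K] {ρ : GQ a b →* SL2 K} (hI : Irr ρ) (C : SL2 K) :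
    Irr ((MulAut.conj C).toMonoidHom.comp ρ) := by
  obtain ⟨g, h, hgh⟩ := hI
  refine ⟨g, h, ?_⟩
  show tr (C * ρ (g * h * g⁻¹ * h⁻¹) * C⁻¹) ≠ 2
  rwa [PIC7.nf_trc]

/-- `V` is a combination of `1` and `T` -/
private theorem nf_V {K : Type} [Field K] (τ : GQ a b →* SL2 K)
    (hτ : (τ (mU 1)).val 0 1 - (τ (mU 1)).val 1 0 = 1) :
    (τ (mU (wq a b ℤ))⁻¹).val 0 1 = ((τ (mU (wq a b ℤ))⁻¹).val 0 1 -
      (τ (mU (wq a b ℤ))⁻¹).val 1 0) * (τ (mU 1)).val 0 1 ∧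
    (τ (mU (wq a b ℤ))⁻¹).val 1 0 = ((τ (mU (wq a b ℤ))⁻¹).val 0 1 -
      (τ (mU (wq a b ℤ))⁻¹).val 1 0) * (τ (mU 1)).val 1 0 ∧
    (τ (mU (wq a b ℤ))⁻¹).val 1 1 - (τ (mU (wq a b ℤ))⁻¹).val 0 0 =
      ((τ (mU (wq a b ℤ))⁻¹).val 0 1 - (τ (mU (wq a b ℤ))⁻¹).val 1 0) *
        ((τ (mU 1)).val 1 1 - (τ (mU 1)).val 0 0) := by
  have h3 : τ (mU 1) * τ (mU (wq a b ℤ))⁻¹ = τ (mU (wq a b ℤ))⁻¹ * τ (mU 1) := by
    rw [← map_mul, ← map_mul]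
    congr 1
    rw [eq_inv_mul_iff_mul_eq, ← mul_assoc, ← nf_r3, mul_inv_cancel_right]
  have c00 : (τ (mU 1) * τ (mU (wq a b ℤ))⁻¹).val 0 0 =
      (τ (mU (wq a b ℤ))⁻¹ * τ (mU 1)).val 0 0 := by rw [h3]
  have c01 : (τ (mU 1) * τ (mU (wq a b ℤ))⁻¹).val 0 1 =
      (τ (mU (wq a b ℤ))⁻¹ * τ (mU 1)).val 0 1 := by rw [h3]
  have c10 : (τ (mU 1) * τ (mU (wq a b ℤ))⁻¹).val 1 0 =
      (τ (mU (wq a b ℤ))⁻¹ * τ (mU 1)).val 1 0 := by rw [h3]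
  rw [G.SL_mul, G.SL_mul] at c00 c01 c10
  refine ⟨?_, ?_, ?_⟩
  · linear_combination (-(τ (mU (wq a b ℤ))⁻¹).val 0 1) * hτ + c00
  · linear_combination (-(τ (mU (wq a b ℤ))⁻¹).val 1 0) * hτ + c00
  · linear_combination (-((τ (mU (wq a b ℤ))⁻¹).val 1 1 - (τ (mU (wq a b ℤ))⁻¹).val 0 0)) * hτ +
      c01 + c10

/-- the degenerate case does not occur -/
private theorem nf_ne (hG : GenQ a b) {K : Type} [Field K] [IsAlgClosed K]
    (ρ : GQ a b →* SL2 K) (hI : Irr ρ)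
    (hB : ρ (mB _) = mB K) (hxy : (ρ (mU 1)).val 0 1 - (ρ (mU 1)).val 1 0 = 1) :
    ((ρ (mU 1)).val 0 0 - (ρ (mU 1)).val 1 1) ^ 2 +
      ((ρ (mU 1)).val 0 1 + (ρ (mU 1)).val 1 0) ^ 2 ≠ 0 := by
  intro h0
  obtain ⟨w, hw⟩ := IsAlgClosed.exists_pow_nat_eq (-1 : K) (n := 2) (by norm_num)
  obtain ⟨j, hj, hjT⟩ : ∃ j : K, j ^ 2 = -1 ∧
      (ρ (mU 1)).val 0 1 + (ρ (mU 1)).val 1 0 -
        j * ((ρ (mU 1)).val 0 0 - (ρ (mU 1)).val 1 1) = 0 := by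
    have h1 : ((ρ (mU 1)).val 0 1 + (ρ (mU 1)).val 1 0 -
        w * ((ρ (mU 1)).val 0 0 - (ρ (mU 1)).val 1 1)) *
        ((ρ (mU 1)).val 0 1 + (ρ (mU 1)).val 1 0 -
          (-w) * ((ρ (mU 1)).val 0 0 - (ρ (mU 1)).val 1 1)) = 0 := by
      linear_combination h0 - ((ρ (mU 1)).val 0 0 - (ρ (mU 1)).val 1 1) ^ 2 * hw
    rcases mul_eq_zero.1 h1 with h2 | h2
    · exact ⟨w, hw, h2⟩
    · exact ⟨-w, by rw [neg_sq, hw], h2⟩
  obtain ⟨D, hD⟩ : ∃ D : SL2 K, D = mx 1 0 (-j) 1 (by ring) := ⟨_, rfl⟩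
  have hD10 : ∀ g : SL2 K, (D * g * D⁻¹).val 1 0 =
      g.val 0 1 + g.val 1 0 - j * (g.val 0 0 - g.val 1 1) := by
    intro g
    rw [hD]
    simp only [G.SL_mul, PIC7.nf_i00, PIC7.nf_i10, mx_10, mx_11]
    linear_combination (-g.val 0 1) * hj
  obtain ⟨v1, v2, v3⟩ := nf_V ρ hxy
  refine nf_tri hG ((MulAut.conj D).toMonoidHom.comp ρ) (nf_irr hI D) ?_ ?_ ?_
  · show (D * ρ (mU 1) * D⁻¹).val 1 0 = 0
    rw [hD10, hjT]
  · show (D * ρ (mU (wq a b ℤ)) * D⁻¹).val 1 0 = 0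
    have h4 : ρ (mU (wq a b ℤ)) = (ρ (mU (wq a b ℤ))⁻¹)⁻¹ := by rw [map_inv, inv_inv]
    rw [h4, hD10, PIC7.nf_i00, PIC7.nf_i01, PIC7.nf_i10, PIC7.nf_i11]
    linear_combination (-1) * v1 - v2 - j * v3 -
      ((ρ (mU (wq a b ℤ))⁻¹).val 0 1 - (ρ (mU (wq a b ℤ))⁻¹).val 1 0) * hjT
  · show (D * ρ (mB _) * D⁻¹).val 1 0 = 0
    rw [hD10, hB, G.mB00, G.mB01, G.mB10, G.mB11]
    ring

end

theorem p_nf (a b : ℤ) : U_nf a b := by
  intro hG K _ _ h2 ρ hI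
  have hE := nf_neg hG h2 ρ hI
  obtain ⟨C₁, hC₁⟩ := PIC7.nf_B h2 (ρ (mB _)) (PIC.nf_sq_neg h2 _ (by rw [← map_mul, nf_r1, hE]))
  obtain ⟨σ, hσ⟩ : ∃ σ : GQ a b →* SL2 K, σ = (MulAut.conj C₁).toMonoidHom.comp ρ := ⟨_, rfl⟩
  have hσ' : ∀ g, σ g = C₁ * ρ g * C₁⁻¹ := by
    intro g; rw [hσ]; rfl
  have hσE : σ (-1) = -1 := by
    rw [hσ', hE, mul_neg, neg_mul, mul_one, mul_inv_cancel]
  have hσI : Irr σ := by
    rw [hσ]
    exact nf_irr hI C₁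
  have hσB : σ (mB _) = mB K := by rw [hσ', hC₁]
  have hT1 : tr (σ (mU 1) * σ (mB _)) = 1 := by
    rcases PIC.nf_cu_neg h2 (σ (mU 1) * σ (mB _)) (by
      rw [← map_mul, ← map_mul, ← map_mul, nf_r2, hσE]) with h3 | h3
    · exact h3
    · exfalso
      have h4 : σ (mU 1) = σ (mB _) := by
        have h5 : σ (mB _) * σ (mB _) = -1 := by rw [← map_mul, nf_r1, hσE]
        have h6 : σ (mU 1) * σ (mB _) * σ (mB _) = -σ (mB _) := by rw [h3, neg_one_mul]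
        rw [mul_assoc, h5, mul_neg, mul_one] at h6
        exact neg_injective h6
      refine nf_ab hG σ hσI (by rw [h4]) ?_
      rw [← h4, ← map_mul, nf_r3, map_mul]
  have hxy : (σ (mU 1)).val 0 1 - (σ (mU 1)).val 1 0 = 1 := by
    rw [hσB, tr_eq, G.SL_mul, G.SL_mul, G.mB00, G.mB10, G.mB01, G.mB11] at hT1
    linear_combination hT1
  obtain ⟨C₂, s, hs0, hC₂, hTd, hTs⟩ := PIC7.nf_T h2 (σ (mU 1)) hxy (nf_ne hG σ hσI hσB hxy)
  obtain ⟨τ, hτ⟩ : ∃ τ : GQ a b →* SL2 K, τ = (MulAut.conj C₂).toMonoidHom.comp σ := ⟨_, rfl⟩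
  have hτ' : ∀ g, τ g = C₂ * σ g * C₂⁻¹ := by
    intro g; rw [hτ]; rfl
  have hτB : τ (mB _) = mB K := by rw [hτ', hσB, hC₂]
  have hT2 : tr (τ (mU 1) * τ (mB _)) = 1 := by
    rw [hτ', hτ', ← hT1, ← PIC7.nf_trc C₂ (σ (mU 1) * σ (mB _))]
    congr 1
    group
  rw [← hτ'] at hTd hTs
  have hxy2 : (τ (mU 1)).val 0 1 - (τ (mU 1)).val 1 0 = 1 := by
    rw [hτB, tr_eq, G.SL_mul, G.SL_mul, G.mB00, G.mB10, G.mB01, G.mB11] at hT2
    linear_combination hT2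
  obtain ⟨v1, v2, v3⟩ := nf_V τ hxy2
  have hdT := G.SL_det (τ (mU 1))
  have hdV := G.SL_det (τ (mU (wq a b ℤ))⁻¹)
  obtain ⟨p, hp⟩ : ∃ p, p = (τ (mU 1)).val 0 0 := ⟨_, rfl⟩
  obtain ⟨x, hx⟩ : ∃ x, x = (τ (mU 1)).val 0 1 := ⟨_, rfl⟩
  obtain ⟨y, hy⟩ : ∃ y, y = (τ (mU 1)).val 1 0 := ⟨_, rfl⟩
  obtain ⟨f, hf⟩ : ∃ f, f = (τ (mU (wq a b ℤ))⁻¹).val 0 1 -
    (τ (mU (wq a b ℤ))⁻¹).val 1 0 := ⟨_, rfl⟩
  obtain ⟨c, hc⟩ : ∃ c, c = (τ (mU (wq a b ℤ))⁻¹).val 0 0 := ⟨_, rfl⟩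
  rw [← hf, ← hx] at v1
  rw [← hf, ← hy] at v2
  rw [← hTd, sub_self, mul_zero, ← hc] at v3
  replace v3 : (τ (mU (wq a b ℤ))⁻¹).val 1 1 = c := by linear_combination v3
  rw [← hTd, ← hp, ← hx, ← hy] at hdT
  rw [← hc, v3, v1, v2] at hdV
  rw [← hx, ← hy] at hxy2 hTs
  have h2x : 2 * x = s + 1 := by linear_combination hTs + hxy2
  have h2y : 2 * y = s - 1 := by linear_combination hTs - hxy2
  have hx1 : x = (s + 1) / 2 := by rw [eq_div_iff h2]; linear_combination h2x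
  have hy1 : y = (s - 1) / 2 := by rw [eq_div_iff h2]; linear_combination h2y
  have h4xy : 4 * (x * y) = s ^ 2 - 1 := by linear_combination 2 * y * h2x + (s + 1) * h2y
  refine ⟨C₂ * C₁, s, p, c, f, ?_⟩
  have hcomp : (MulAut.conj (C₂ * C₁)).toMonoidHom.comp ρ = τ := by
    ext1 g
    rw [hτ', hσ']
    show C₂ * C₁ * ρ g * (C₂ * C₁)⁻¹ = _
    group
  rw [hcomp]
  refine ⟨hs0, ?_, ?_, ?_, ?_, ?_⟩
  · linear_combination 4 * hdT + h4xy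
  · linear_combination 4 * hdV + f ^ 2 * h4xy
  · rw [hτB]
    rfl
  · apply Matrix.ext
    intro i j
    fin_cases i <;> fin_cases j
    · exact hp.symm
    · show (τ (mU 1)).val 0 1 = (s + 1) / 2
      rw [← hx, hx1]
    · show (τ (mU 1)).val 1 0 = (s - 1) / 2
      rw [← hy, hy1]
    · show (τ (mU 1)).val 1 1 = p
      rw [← hTd, hp]
  · apply Matrix.ext
    intro i j
    fin_cases i <;> fin_cases j
    · exact hc.symm
    · show (τ (mU (wq a b ℤ))⁻¹).val 0 1 = f * ((s + 1) / 2)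
      rw [v1, hx1]
    · show (τ (mU (wq a b ℤ))⁻¹).val 1 0 = f * ((s - 1) / 2)
      rw [v2, hy1]
    · exact v3

end Pool.Agent.F8.BG
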