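import Pool.Agent.Lib.MP_305fdd_al.F8.BG.StmT
import Mathlib.FieldTheory.Minpoly.IsIntegrallyClosed
import Mathlib.RingTheory.Polynomial.RationalRoot

/-!
# MP_305fdd_al: the ring of integers of an imaginary quadratic field `ℚ(w)`, `w² = a + b w`
-/

set_option autoImplicit false

namespace Pool.Agent.F8.BG

open Pool.Agent.MP_305fdd_al Pool.Agent.Lib.MP_305fdd_al Pool.Agent.F8
open scoped QuadraticAlgebra
open Polynomial

/-- `1, w` are linearly independent over `ℚ` -/
private lemma ok_ind {K : Type} [Field K] [NumberField K] {a b : ℤ} {w : K}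
    (hD : b ^ 2 + 4 * a < 0) (hw : w * w = (a : K) + (b : K) * w) (r s : ℚ)
    (h : (r : K) + (s : K) * w = 0) : r = 0 ∧ s = 0 := by
  have h1 : (r : K) ^ 2 + (b : K) * r * s - (a : K) * s ^ 2 = 0 := by
    have h2 : (r : K) = -((s : K) * w) := by linear_combination h
    rw [h2]
    linear_combination ((s : K) ^ 2) * hw
  have h3 : r ^ 2 + (b : ℚ) * r * s - (a : ℚ) * s ^ 2 = 0 := by exact_mod_cast h1
  have h4 : ((b : ℚ) ^ 2 + 4 * a) < 0 := by exact_mod_cast hD
  have h5 : (2 * r + b * s) ^ 2 + (-((b : ℚ) ^ 2 + 4 * a)) * s ^ 2 = 0 := by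
    linear_combination 4 * h3
  have hs : s = 0 := by
    by_contra hs
    have h6 : 0 < s ^ 2 := by positivity
    have h7 : 0 < (-((b : ℚ) ^ 2 + 4 * a)) * s ^ 2 := mul_pos (by linarith) h6
    nlinarith [sq_nonneg (2 * r + b * s)]
  refine ⟨?_, hs⟩
  rw [hs] at h3
  have h6 : r ^ 2 = 0 := by linear_combination h3
  exact pow_eq_zero_iff (two_ne_zero) |>.1 h6

/-- `1, w` is a basis -/
private lemma ok_span {K : Type} [Field K] [NumberField K] {a b : ℤ} {w : K}
    (hD : b ^ 2 + 4 * a < 0) (hw : w * w = (a : K) + (b : K) * w)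
    (hf : Module.finrank ℚ K = 2) (x : K) : ∃ r s : ℚ, x = (r : K) + (s : K) * w := by
  let f : (ℚ × ℚ) →ₗ[ℚ] K :=
    { toFun := fun p => (p.1 : K) + (p.2 : K) * w
      map_add' := fun p q => by
        rw [Prod.fst_add, Prod.snd_add]
        push_cast
        ring
      map_smul' := fun c p => by
        show ((c • p.1 : ℚ) : K) + ((c • p.2 : ℚ) : K) * w = c • ((p.1 : K) + (p.2 : K) * w)
        rw [smul_eq_mul, smul_eq_mul, Rat.smul_def]
        push_cast
        ring }
  have hfv : ∀ p : ℚ × ℚ, f p = (p.1 : K) + (p.2 : K) * w := fun _ => rfl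
  have hinj : Function.Injective f := by
    rw [← LinearMap.ker_eq_bot, LinearMap.ker_eq_bot']
    intro p hp
    rw [hfv] at hp
    obtain ⟨h1, h2⟩ := ok_ind hD hw _ _ hp
    exact Prod.ext h1 h2
  have hfin : Module.finrank ℚ (ℚ × ℚ) = Module.finrank ℚ K := by
    rw [hf, Module.finrank_prod, Module.finrank_self]
  obtain ⟨p, hp⟩ := (LinearMap.injective_iff_surjective_of_finrank_eq_finrank hfin).1 hinj x
  exact ⟨p.1, p.2, by rw [← hp, hfv]⟩

/-- trace and norm of integral elements -/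
private lemma ok_tr {K : Type} [Field K] [NumberField K] {a b : ℤ} {w : K}
    (hD : b ^ 2 + 4 * a < 0) (hw : w * w = (a : K) + (b : K) * w) (r s : ℚ)
    (hx : IsIntegral ℤ ((r : K) + (s : K) * w)) :
    ∃ S P : ℤ, 2 * r + b * s = S ∧ r ^ 2 + b * r * s - a * s ^ 2 = P := by
  by_cases hs : s = 0
  · rw [hs] at hx ⊢
    have h1 : IsIntegral ℤ (r : K) := by simpa using hx
    have h2 : IsIntegral ℤ r := by
      have h3 : IsIntegral ℤ (algebraMap ℚ K r) := by rwa [eq_ratCast]
      exact (isIntegral_algebraMap_iff (algebraMap ℚ K).injective).1 h3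
    obtain ⟨m, hm⟩ := IsIntegrallyClosed.isIntegral_iff.1 h2
    rw [eq_intCast] at hm
    refine ⟨2 * m, m ^ 2, ?_, ?_⟩
    · rw [← hm]; push_cast; ring
    · rw [← hm]; push_cast; ring
  · obtain ⟨u, hu⟩ : ∃ u : ℚ, u = 2 * r + b * s := ⟨_, rfl⟩
    obtain ⟨v, hv⟩ : ∃ v : ℚ, v = r ^ 2 + b * r * s - a * s ^ 2 := ⟨_, rfl⟩
    obtain ⟨P, hP⟩ : ∃ P : ℚ[X], P = X ^ 2 - C u * X + C v := ⟨_, rfl⟩
    have hdeg : P.natDegree = 2 := by
      rw [hP]
      compute_degree!
    have hmon : P.Monic := by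
      rw [hP]
      monicity!
    obtain ⟨x, hxdef⟩ : ∃ x : K, x = (r : K) + (s : K) * w := ⟨_, rfl⟩
    rw [← hxdef] at hx
    have hroot : aeval x P = 0 := by
      rw [hP]
      simp only [map_add, map_sub, map_mul, map_pow, aeval_X, aeval_C, eq_ratCast]
      rw [hxdef, hu, hv]
      push_cast
      linear_combination ((s : K) ^ 2) * hw
    have hxQ : IsIntegral ℚ x := hx.tower_top
    have hdvd : minpoly ℚ x ∣ P := minpoly.dvd ℚ x hroot
    have hnot : x ∉ (algebraMap ℚ K).range := by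
      rintro ⟨q, hq⟩
      rw [eq_ratCast, hxdef] at hq
      have h1 : (((r - q : ℚ)) : K) + (s : K) * w = 0 := by
        push_cast
        linear_combination -hq
      exact hs (ok_ind hD hw _ _ h1).2
    have h2 : 2 ≤ (minpoly ℚ x).natDegree := (minpoly.two_le_natDegree_iff hxQ).2 hnot
    have hEq : P = minpoly ℚ x :=
      Polynomial.eq_of_monic_of_dvd_of_natDegree_le (minpoly.monic hxQ) hmon hdvd
        (by rw [hdeg]; exact h2)
    have hmap := minpoly.isIntegrallyClosed_eq_field_fractions' (R := ℤ) ℚ hx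
    rw [← hEq] at hmap
    have hc0 : P.coeff 0 = v := by
      rw [hP]
      simp
    have hc1 : P.coeff 1 = -u := by
      rw [hP]
      simp [coeff_C]
    refine ⟨-((minpoly ℤ x).coeff 1), (minpoly ℤ x).coeff 0, ?_, ?_⟩
    · have h3 : P.coeff 1 = ((minpoly ℤ x).coeff 1 : ℚ) := by
        rw [hmap, coeff_map, eq_intCast]
      push_cast
      rw [← h3, hc1, hu]
      ring
    · have h3 : P.coeff 0 = ((minpoly ℤ x).coeff 0 : ℚ) := by
        rw [hmap, coeff_map, eq_intCast]
      rw [← h3, hc0, hv]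

/-- a rational number whose denominator divides its numerator is an integer -/
private lemma ok_den (s : ℚ) (h : (s.den : ℤ) ∣ s.num) : ∃ n : ℤ, s = n := by
  have h1 : s.den ∣ s.num.natAbs := by
    have := Int.natAbs_dvd_natAbs.2 h
    simpa using this
  have h2 : s.den ∣ Nat.gcd s.num.natAbs s.den := Nat.dvd_gcd h1 dvd_rfl
  have h3 : Nat.gcd s.num.natAbs s.den = 1 := s.reduced
  rw [h3, Nat.dvd_one] at h2
  exact ⟨s.num, ((Rat.den_eq_one_iff s).1 h2).symm⟩

/-- integral elements -/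
private lemma ok_mn {K : Type} [Field K] [NumberField K] {a b : ℤ} {w : K}
    (hD : b ^ 2 + 4 * a < 0)
    (hfu : ∀ S P m n : ℤ, n ≠ 0 → n ^ 2 * (S ^ 2 - 4 * P) = (b ^ 2 + 4 * a) * m ^ 2 → n ∣ m)
    (hw : w * w = (a : K) + (b : K) * w) (hf : Module.finrank ℚ K = 2)
    (x : K) (hx : IsIntegral ℤ x) : ∃ m n : ℤ, (m : K) + (n : K) * w = x := by
  obtain ⟨r, s, rfl⟩ := ok_span hD hw hf x
  obtain ⟨S, P, h1, h2⟩ := ok_tr hD hw r s hx
  have hden : (s.den : ℚ) ≠ 0 := by exact_mod_cast s.den_pos.ne'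
  have h3 : (s.num : ℚ) = s * s.den := (Rat.mul_den_eq_num s).symm
  have h4 : (s.den : ℚ) ^ 2 * ((S : ℚ) ^ 2 - 4 * P) = ((b : ℚ) ^ 2 + 4 * a) * (s.num : ℚ) ^ 2 := by
    rw [h3, ← h1, ← h2]
    ring
  have h5 : (s.den : ℤ) ^ 2 * (S ^ 2 - 4 * P) = (b ^ 2 + 4 * a) * s.num ^ 2 := by
    exact_mod_cast h4
  obtain ⟨n, hn⟩ := ok_den s (hfu S P s.num s.den (by exact_mod_cast s.den_pos.ne') h5)
  have hri : IsIntegral ℤ r := by
    refine ⟨X ^ 2 + C (b * n) * X - C (a * n ^ 2 + P), ?_, ?_⟩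
    · monicity!
    · rw [eval₂_sub, eval₂_add, eval₂_mul, eval₂_pow, eval₂_X, eval₂_C, eval₂_C, eq_intCast,
        eq_intCast]
      push_cast
      rw [← h2, hn]
      ring
  obtain ⟨m, hm⟩ := IsIntegrallyClosed.isIntegral_iff.1 hri
  rw [eq_intCast] at hm
  refine ⟨m, n, ?_⟩
  rw [← hm, hn]
  push_cast
  rfl

/-- the isomorphism -/
private lemma ok_iso {K R : Type} [Field K] [NumberField K] [CommRing R] (f : R →+* K)
    (hi : ∀ z, IsIntegral ℤ (f z)) (hinj : ∀ z, f z = 0 → z = 0)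
    (hsur : ∀ x : K, IsIntegral ℤ x → ∃ z, f z = x) :
    Nonempty (R ≃+* NumberField.RingOfIntegers K) := by
  let g : R →+* NumberField.RingOfIntegers K :=
    { toFun := fun z => ⟨f z, hi z⟩
      map_one' := by
        apply NumberField.RingOfIntegers.ext
        exact map_one f
      map_zero' := by
        apply NumberField.RingOfIntegers.ext
        exact map_zero f
      map_add' := fun x y => by
        apply NumberField.RingOfIntegers.ext
        exact map_add f x y
      map_mul' := fun x y => by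
        apply NumberField.RingOfIntegers.ext
        exact map_mul f x y }
  have hg : ∀ z, ((g z : NumberField.RingOfIntegers K) : K) = f z := fun _ => rfl
  refine ⟨RingEquiv.ofBijective g ⟨?_, ?_⟩⟩
  · rw [injective_iff_map_eq_zero]
    intro z hz
    apply hinj
    rw [← hg, hz]
    rfl
  · intro x
    obtain ⟨z, hz⟩ := hsur x x.2
    refine ⟨z, ?_⟩
    apply NumberField.RingOfIntegers.ext
    rw [hg, hz]

theorem p_ok (a b : ℤ) : T_ok a b := by
  intro hD hfu K _ _ w hw hf
  have hwi : IsIntegral ℤ w := by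
    refine ⟨X ^ 2 - C b * X - C a, ?_, ?_⟩
    · monicity!
    · rw [eval₂_sub, eval₂_sub, eval₂_mul, eval₂_pow, eval₂_X, eval₂_C, eval₂_C, eq_intCast,
        eq_intCast]
      linear_combination hw
  refine ok_iso (evq a b (Int.castRingHom K) w hw) ?_ ?_ ?_
  · intro z
    rw [evq_apply]
    exact (isIntegral_algebraMap (R := ℤ) (A := K) (x := z.re)).add
      ((isIntegral_algebraMap (R := ℤ) (A := K) (x := z.im)).mul hwi)
  · intro z hz
    rw [evq_apply, eq_intCast, eq_intCast] at hz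
    have h3 : ((z.re : ℚ) : K) + ((z.im : ℚ) : K) * w = 0 := by
      push_cast
      linear_combination hz
    obtain ⟨h4, h5⟩ := ok_ind hD hw _ _ h3
    apply QuadraticAlgebra.ext
    · exact_mod_cast h4
    · exact_mod_cast h5
  · intro x hx
    obtain ⟨m, n, h3⟩ := ok_mn hD hfu hw hf x hx
    refine ⟨⟨m, n⟩, ?_⟩
    rw [evq_apply, eq_intCast, eq_intCast]
    exact h3

end Pool.Agent.F8.BG
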