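import Pool.Agent.Lib.MP_305fdd_al.F8.BG.StmI

/-!
# MP_305fdd_al, Bianchi groups, piece sc3: a positive automorphism does not increase the number of
sign changes
-/

set_option autoImplicit false

namespace Pool.Agent.F8.BG

private theorem sc3_cons (c : Bool) (B : List Bool) : sc B ≤ sc (c :: B) := by
  cases B with
  | nil => exact Nat.zero_le _
  | cons d B =>
    change sc (d :: B) ≤ (if c = d then 0 else 1) + sc (d :: B)
    omega

private theorem sc3_cons_cons (a c : Bool) (B : List Bool) : sc (a :: B) ≤ sc (a :: c :: B) := by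
  cases B with
  | nil => exact Nat.zero_le _
  | cons d B =>
    change (if a = d then 0 else 1) + sc (d :: B) ≤
      (if a = c then 0 else 1) + ((if c = d then 0 else 1) + sc (d :: B))
    by_cases h1 : a = c
    · subst h1
      simp
    · rw [if_neg h1]
      split_ifs <;> omega

private theorem sc3_rep (b : Bool) (B : List Bool) : ∀ n : ℕ,
    sc (b :: (List.replicate n b ++ B)) = sc (b :: B)
  | 0 => rfl
  | n + 1 => by
    rw [List.replicate_succ, List.cons_append]
    change (if b = b then 0 else 1) + sc (b :: (List.replicate n b ++ B)) = _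
    rw [if_pos rfl, zero_add, sc3_rep b B n]

private theorem sc3_blk {ι : Type} (n : ι × Bool → ℕ) : ∀ (L : List (ι × Bool)) (c : Bool),
    sc (c :: L.flatMap (fun x => List.replicate (n x) x.2)) ≤ sc (c :: L.map Prod.snd)
  | [], _ => le_rfl
  | x :: L, c => by
    rw [List.flatMap_cons, List.map_cons]
    rcases hn : n x with _ | k
    · rw [List.replicate_zero, List.nil_append]
      exact (sc3_blk n L c).trans (sc3_cons_cons _ _ _)
    · rw [List.replicate_succ, List.cons_append]
      change (if c = x.2 then 0 else 1) + sc (x.2 :: (List.replicate k x.2 ++ _)) ≤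
        (if c = x.2 then 0 else 1) + sc (x.2 :: L.map Prod.snd)
      rw [sc3_rep]
      exact Nat.add_le_add_left (sc3_blk n L x.2) _

private theorem sc3_blk' {ι : Type} (n : ι × Bool → ℕ) : ∀ L : List (ι × Bool),
    sc (L.flatMap (fun x => List.replicate (n x) x.2)) ≤ sc (L.map Prod.snd)
  | [] => le_rfl
  | x :: L => by
    rw [List.flatMap_cons, List.map_cons]
    refine (sc3_cons x.2 _).trans ?_
    rw [sc3_rep]
    exact sc3_blk n L x.2

/-- the block of a letter -/
private def sc3_bl {ι : Type} (w : ι → List ι) (x : ι × Bool) : List (ι × Bool) :=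
  if x.2 then (w x.1).map (fun j => (j, true)) else ((w x.1).map (fun j => (j, false))).reverse

private theorem sc3_snd {ι : Type} (w : ι → List ι) (x : ι × Bool) :
    (sc3_bl w x).map Prod.snd = List.replicate (w x.1).length x.2 := by
  obtain ⟨i, b⟩ := x
  cases b
  · simp [sc3_bl, List.map_reverse, Function.comp_def]
  · simp [sc3_bl, Function.comp_def]

private theorem sc3_pw {ι : Type} : ∀ l : List ι,
    FreeGroup.mk (l.map (fun j => (j, true))) = pw l
  | [] => rfl
  | i :: l => by
    rw [List.map_cons, pw_cons, ← sc3_pw l, FreeGroup.of, FreeGroup.mul_mk]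
    rfl

private theorem sc3_mk_bl {ι : Type} (β : MulAut (FreeGroup ι)) (w : ι → List ι)
    (hw : ∀ i, β (FreeGroup.of i) = pw (w i)) (x : ι × Bool) :
    FreeGroup.mk (sc3_bl w x) = β (FreeGroup.mk [x]) := by
  obtain ⟨i, b⟩ := x
  cases b
  · have h1 : FreeGroup.mk [((i, false) : ι × Bool)] = (FreeGroup.of i)⁻¹ := rfl
    rw [h1, map_inv, hw, ← sc3_pw, FreeGroup.inv_mk]
    simp [sc3_bl, FreeGroup.invRev, Function.comp_def]
  · have h1 : FreeGroup.mk [((i, true) : ι × Bool)] = FreeGroup.of i := rfl
    rw [h1, hw, ← sc3_pw]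
    simp [sc3_bl]

private theorem sc3_mk {ι : Type} (β : MulAut (FreeGroup ι)) (w : ι → List ι)
    (hw : ∀ i, β (FreeGroup.of i) = pw (w i)) : ∀ L : List (ι × Bool),
    FreeGroup.mk (L.flatMap (sc3_bl w)) = β (FreeGroup.mk L)
  | [] => (map_one β).symm
  | x :: L => by
    have h : FreeGroup.mk (x :: L) = FreeGroup.mk [x] * FreeGroup.mk L := by
      rw [FreeGroup.mul_mk]
      rfl
    rw [List.flatMap_cons, ← FreeGroup.mul_mk, sc3_mk β w hw L, sc3_mk_bl β w hw, h, map_mul]

theorem p_sc3 (h_sc1 : S_sc1) : S_sc3 := by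
  intro ι _ β w hw p
  have h1 : (β p).toWord = FreeGroup.reduce (p.toWord.flatMap (sc3_bl w)) := by
    rw [← FreeGroup.toWord_mk, sc3_mk β w hw, FreeGroup.mk_toWord]
  rw [h1]
  refine (h_sc1 ι _ _ FreeGroup.reduce.red).trans ?_
  rw [List.map_flatMap]
  have h2 : (fun x : ι × Bool => (sc3_bl w x).map Prod.snd) =
      fun x => List.replicate (w x.1).length x.2 := by
    funext x
    exact sc3_snd w x
  rw [h2]
  exact sc3_blk' (fun x => (w x.1).length) _

end Pool.Agent.F8.BG
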