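import Pool.Agent.Lib.MP_305fdd_al.F8.BG.StmU

/-!
# MP_305fdd_al, Bianchi group for `d = 11`: piece tab11, the coset table of `P3 0 hu11`
-/

set_option autoImplicit false

namespace Pool.Agent.F8.BG

open Pool.Agent.MP_305fdd_al Pool.Agent.Lib.MP_305fdd_al Pool.Agent.F2X Pool.Agent.F8
  Pool.Agent.F8.HN Pool.Agent.F8.AB
open Pool.Agent.F8.BG.D11 (O11)
open scoped QuadraticAlgebra

/-! ### The model of `Q2 O11` -/

/-- multiplication in `O11` -/
def tab11_gmul (x y : O11) : O11 :=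
  ⟨x.re * y.re - 3 * (x.im * y.im), x.re * y.im + x.im * y.re + x.im * y.im⟩
/-- addition in `O11` -/
def tab11_gadd (x y : O11) : O11 := ⟨x.re + y.re, x.im + y.im⟩

theorem tab11_gmul_eq (x y : O11) : tab11_gmul x y = x * y := by
  apply D11.O_ext
  · rw [D11.O_re_mul]; rfl
  · rw [D11.O_im_mul]; rfl
theorem tab11_gadd_eq (x y : O11) : tab11_gadd x y = x + y := by
  apply D11.O_ext
  · rw [QuadraticAlgebra.re_add]; rfl
  · rw [QuadraticAlgebra.im_add]; rfl

/-- the entries of a matrix over `O11` -/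
def tab11_o4 (g : SL2 O11) : O11 × O11 × O11 × O11 := (g.val 0 0, g.val 0 1, g.val 1 0, g.val 1 1)
/-- matrix multiplication -/
def tab11_omul (x y : O11 × O11 × O11 × O11) : O11 × O11 × O11 × O11 :=
  (tab11_gadd (tab11_gmul x.1 y.1) (tab11_gmul x.2.1 y.2.2.1),
   tab11_gadd (tab11_gmul x.1 y.2.1) (tab11_gmul x.2.1 y.2.2.2),
   tab11_gadd (tab11_gmul x.2.2.1 y.1) (tab11_gmul x.2.2.2 y.2.2.1),
   tab11_gadd (tab11_gmul x.2.2.1 y.2.1) (tab11_gmul x.2.2.2 y.2.2.2))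
/-- negation -/
def tab11_gneg (x : O11) : O11 := ⟨-x.re, -x.im⟩
/-- negation -/
def tab11_oneg (x : O11 × O11 × O11 × O11) : O11 × O11 × O11 × O11 :=
  (tab11_gneg x.1, tab11_gneg x.2.1, tab11_gneg x.2.2.1, tab11_gneg x.2.2.2)

theorem tab11_o4_mul (g h : SL2 O11) : tab11_o4 (g * h) = tab11_omul (tab11_o4 g) (tab11_o4 h) := by
  unfold tab11_o4 tab11_omul
  simp only [G.SL_mul, tab11_gadd_eq, tab11_gmul_eq]
theorem tab11_o4_neg (g : SL2 O11) : tab11_o4 (-g) = tab11_oneg (tab11_o4 g) := by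
  unfold tab11_o4 tab11_oneg
  simp only [G.SL_neg]
  rfl
theorem tab11_o4_inj {g h : SL2 O11} (hgh : tab11_o4 g = tab11_o4 h) : g = h := by
  unfold tab11_o4 at hgh
  simp only [Prod.mk.injEq] at hgh
  exact G.SL_ext hgh.1 hgh.2.1 hgh.2.2.1 hgh.2.2.2

/-- the model: the entries of the matrix and the translation -/
abbrev tab11_Md : Type := (O11 × O11 × O11 × O11) × O11 × O11

/-- the entries -/
def tab11_md (x : Q2 O11) : tab11_Md := (tab11_o4 x.m, x.v 0, x.v 1)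

/-- the multiplication -/
def tab11_mul (x y : tab11_Md) : tab11_Md :=
  (tab11_omul x.1 y.1,
    tab11_gadd x.2.1 (tab11_gadd (tab11_gmul x.1.1 y.2.1) (tab11_gmul x.1.2.1 y.2.2)),
    tab11_gadd x.2.2 (tab11_gadd (tab11_gmul x.1.2.2.1 y.2.1) (tab11_gmul x.1.2.2.2 y.2.2)))

theorem tab11_md_mul (x y : Q2 O11) (hx : x.t = 1) :
    tab11_md (x * y) = tab11_mul (tab11_md x) (tab11_md y) := by
  have e : ∀ i : Fin 2, (x * y).v i = x.v i + (x.m.val i 0 * y.v 0 + x.m.val i 1 * y.v 1) := by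
    intro i
    rw [Q2.mul_v, hx]
    simp only [Units.val_one, one_smul, Pi.add_apply, Matrix.mulVec, dotProduct,
      Fin.sum_univ_two]
  unfold tab11_md tab11_mul
  refine Prod.ext ?_ (Prod.ext ?_ ?_)
  · exact tab11_o4_mul x.m y.m
  · show (x * y).v 0 = tab11_gadd (x.v 0) (tab11_gadd (tab11_gmul (x.m.val 0 0) (y.v 0))
      (tab11_gmul (x.m.val 0 1) (y.v 1)))
    rw [e, tab11_gadd_eq, tab11_gadd_eq, tab11_gmul_eq, tab11_gmul_eq]
  · show (x * y).v 1 = tab11_gadd (x.v 1) (tab11_gadd (tab11_gmul (x.m.val 1 0) (y.v 0))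
      (tab11_gmul (x.m.val 1 1) (y.v 1)))
    rw [e, tab11_gadd_eq, tab11_gadd_eq, tab11_gmul_eq, tab11_gmul_eq]

theorem tab11_md_inj {x y : Q2 O11} (hx : x.t = 1) (hy : y.t = 1) (h : tab11_md x = tab11_md y) :
    x = y := by
  apply Q2.ext
  · rw [hx, hy]
  · exact tab11_o4_inj (congrArg Prod.fst h)
  · funext i
    fin_cases i
    · exact congrArg (fun z : tab11_Md => z.2.1) h
    · exact congrArg (fun z : tab11_Md => z.2.2) h

/-- letters: the three generators and their inverses -/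
inductive tab11_Lt
  | t | t' | u | u' | y | y'
  deriving DecidableEq

/-- the value of `t` -/
def tab11_T : Q2 O11 := ⟨1, mU 1, ![⟨0, 1⟩, 0]⟩
/-- the value of `u` -/
def tab11_U : Q2 O11 := ⟨1, v11, 0⟩
/-- the value of `y` -/
def tab11_Y : Q2 O11 := ⟨1, y11, ![⟨2, 0⟩, 0]⟩
/-- the inverse of `t` -/
def tab11_T' : Q2 O11 := ⟨1, mx 1 ⟨-1, 0⟩ 0 1 (by decide), ![⟨0, -1⟩, 0]⟩
/-- the inverse of `u` -/
def tab11_U' : Q2 O11 := ⟨1, mx 1 ⟨0, -1⟩ 0 1 (by decide), 0⟩
/-- the inverse of `y` -/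
def tab11_Y' : Q2 O11 := ⟨1, mx 1 0 ⟨0, 1⟩ 1 (by decide), ![⟨-2, 0⟩, ⟨0, -2⟩]⟩

/-- the value of a letter -/
def tab11_val : tab11_Lt → Q2 O11
  | .t => tab11_T | .t' => tab11_T' | .u => tab11_U | .u' => tab11_U' | .y => tab11_Y | .y' => tab11_Y'

/-- the entries of a letter -/
def tab11_lm : tab11_Lt → tab11_Md
  | .t => ((⟨1, 0⟩, ⟨1, 0⟩, ⟨0, 0⟩, ⟨1, 0⟩), ⟨0, 1⟩, ⟨0, 0⟩)
  | .t' => ((⟨1, 0⟩, ⟨-1, 0⟩, ⟨0, 0⟩, ⟨1, 0⟩), ⟨0, -1⟩, ⟨0, 0⟩)
  | .u => ((⟨1, 0⟩, ⟨0, 1⟩, ⟨0, 0⟩, ⟨1, 0⟩), ⟨0, 0⟩, ⟨0, 0⟩)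
  | .u' => ((⟨1, 0⟩, ⟨0, -1⟩, ⟨0, 0⟩, ⟨1, 0⟩), ⟨0, 0⟩, ⟨0, 0⟩)
  | .y => ((⟨1, 0⟩, ⟨0, 0⟩, ⟨0, -1⟩, ⟨1, 0⟩), ⟨2, 0⟩, ⟨0, 0⟩)
  | .y' => ((⟨1, 0⟩, ⟨0, 0⟩, ⟨0, 1⟩, ⟨1, 0⟩), ⟨-2, 0⟩, ⟨0, -2⟩)

/-- the entries of `1` -/
def tab11_one : tab11_Md := ((⟨1, 0⟩, ⟨0, 0⟩, ⟨0, 0⟩, ⟨1, 0⟩), ⟨0, 0⟩, ⟨0, 0⟩)

theorem tab11_md_one : tab11_md 1 = tab11_one := by
  unfold tab11_md
  rw [Q2.one_m, mx_one]
  show ((1, 0, 0, 1), 0, 0) = tab11_one
  decide +kernel

theorem tab11_lm_eq (x : tab11_Lt) : tab11_md (tab11_val x) = tab11_lm x := by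
  cases x <;> decide +kernel

theorem tab11_val_t (x : tab11_Lt) : (tab11_val x).t = 1 := by cases x <;> rfl

/-- the inverse letter -/
def tab11_il : tab11_Lt → tab11_Lt
  | .t => .t' | .t' => .t | .u => .u' | .u' => .u | .y => .y' | .y' => .y

theorem tab11_il_val (x : tab11_Lt) : tab11_val (tab11_il x) = (tab11_val x)⁻¹ := by
  symm
  apply inv_eq_of_mul_eq_one_left
  apply tab11_md_inj
  · rw [Q2.mul_t, tab11_val_t, tab11_val_t, mul_one]
  · rfl
  · rw [tab11_md_mul _ _ (tab11_val_t _), tab11_lm_eq, tab11_lm_eq, tab11_md_one]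
    cases x <;> decide +kernel

/-- the value of a word -/
def tab11_wv : List tab11_Lt → Q2 O11
  | [] => 1
  | x :: l => tab11_val x * tab11_wv l

/-- the entries of a word -/
def tab11_wm : List tab11_Lt → tab11_Md
  | [] => tab11_one
  | x :: l => tab11_mul (tab11_lm x) (tab11_wm l)

theorem tab11_wm_eq (l : List tab11_Lt) : tab11_md (tab11_wv l) = tab11_wm l := by
  induction l with
  | nil => exact tab11_md_one
  | cons x l ih =>
    show tab11_md (tab11_val x * tab11_wv l) = tab11_mul (tab11_lm x) (tab11_wm l)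
    rw [tab11_md_mul _ _ (tab11_val_t x), ih, tab11_lm_eq]

theorem tab11_wv_t (l : List tab11_Lt) : (tab11_wv l).t = 1 := by
  induction l with
  | nil => rfl
  | cons x l ih =>
    show (tab11_val x * tab11_wv l).t = 1
    rw [Q2.mul_t, ih, tab11_val_t, mul_one]

theorem tab11_wv_append (l l' : List tab11_Lt) : tab11_wv (l ++ l') = tab11_wv l * tab11_wv l' := by
  induction l with
  | nil => exact (one_mul _).symm
  | cons x l ih =>
    show tab11_val x * tab11_wv (l ++ l') = tab11_val x * tab11_wv l * tab11_wv l'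
    rw [ih, mul_assoc]

/-- the inverse word -/
def tab11_wi (l : List tab11_Lt) : List tab11_Lt := (l.map tab11_il).reverse

theorem tab11_wv_wi (l : List tab11_Lt) : tab11_wv (tab11_wi l) = (tab11_wv l)⁻¹ := by
  induction l with
  | nil => exact inv_one.symm
  | cons x l ih =>
    have e : tab11_wi (x :: l) = tab11_wi l ++ [tab11_il x] := by
      unfold tab11_wi
      rw [List.map_cons, List.reverse_cons]
    rw [e, tab11_wv_append, ih]
    show _ * (tab11_val (tab11_il x) * 1) = (tab11_val x * tab11_wv l)⁻¹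
    rw [mul_one, tab11_il_val, mul_inv_rev]

/-- the subgroup generated by the three values -/
def tab11_C : Subgroup (Q2 O11) := Subgroup.closure {tab11_T, tab11_U, tab11_Y}

theorem tab11_T_mem : tab11_T ∈ tab11_C := Subgroup.subset_closure (Or.inl rfl)
theorem tab11_U_mem : tab11_U ∈ tab11_C := Subgroup.subset_closure (Or.inr (Or.inl rfl))
theorem tab11_Y_mem : tab11_Y ∈ tab11_C := Subgroup.subset_closure (Or.inr (Or.inr rfl))

theorem tab11_wv_mem (l : List tab11_Lt) : tab11_wv l ∈ tab11_C := by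
  induction l with
  | nil => exact tab11_C.one_mem
  | cons x l ih =>
    refine tab11_C.mul_mem ?_ ih
    cases x with
    | t => exact tab11_T_mem
    | u => exact tab11_U_mem
    | y => exact tab11_Y_mem
    | t' =>
      have := tab11_il_val .t
      rw [show tab11_val .t' = (tab11_val .t)⁻¹ from this]
      exact tab11_C.inv_mem tab11_T_mem
    | u' =>
      have := tab11_il_val .u
      rw [show tab11_val .u' = (tab11_val .u)⁻¹ from this]
      exact tab11_C.inv_mem tab11_U_mem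
    | y' =>
      have := tab11_il_val .y
      rw [show tab11_val .y' = (tab11_val .y)⁻¹ from this]
      exact tab11_C.inv_mem tab11_Y_mem

theorem tab11_C_le (H : Subgroup (Q2 O11)) (h1 : tab11_T ∈ H) (h2 : tab11_U ∈ H) (h3 : tab11_Y ∈ H) :
    tab11_C ≤ H := by
  apply (Subgroup.closure_le H).2
  rintro x (rfl | rfl | rfl)
  · exact h1
  · exact h2
  · exact h3

theorem tab11_C_t {x : Q2 O11} (hx : x ∈ tab11_C) : x.t = 1 := by
  have h : tab11_C ≤ (Q2.tH (R := O11)).ker := tab11_C_le _ rfl rfl rfl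
  exact h hx

/-! ### The table -/

/-- the generators of `SL₂(O11)` and inverses -/
inductive tab11_Gn
  | A | A' | U | U' | B
  deriving DecidableEq

/-- the permutation of `A` -/
def tab11_pA : List (Fin 4) := [0, 2, 3, 1]
/-- its inverse -/
def tab11_qA : List (Fin 4) := [0, 3, 1, 2]
/-- the permutation of `U` -/
def tab11_pU : List (Fin 4) := [0, 1, 2, 3]
/-- its inverse -/
def tab11_qU : List (Fin 4) := [0, 1, 2, 3]
/-- the permutation of `B` -/
def tab11_pB : List (Fin 4) := [1, 0, 3, 2]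

/-- the coefficients of `A` -/
def tab11_kA : List (List tab11_Lt) :=
  [[.t], [], [.t', .y', .t, .y, .u', .y, .t, .y', .t', .y], []]

/-- the coefficients of `U` -/
def tab11_kU : List (List tab11_Lt) :=
  [[.u], [.y], [.y], [.y]]

/-- the coefficients of `B` -/
def tab11_kB : List (List tab11_Lt) := [[], [], [.t'], [.t]]

/-- reading a table -/
def tab11_rp (l : List (Fin 4)) (i : Fin 4) : Fin 4 := l.getD i.val 0
/-- reading a table -/
def tab11_rk (l : List (List tab11_Lt)) (i : Fin 4) : List tab11_Lt := l.getD i.val []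

/-- the permutations -/
def tab11_sg : tab11_Gn → Fin 4 → Fin 4
  | .A => tab11_rp tab11_pA | .A' => tab11_rp tab11_qA | .U => tab11_rp tab11_pU | .U' => tab11_rp tab11_qU
  | .B => tab11_rp tab11_pB

/-- the inverse permutations -/
def tab11_si : tab11_Gn → Fin 4 → Fin 4
  | .A => tab11_rp tab11_qA | .A' => tab11_rp tab11_pA | .U => tab11_rp tab11_qU | .U' => tab11_rp tab11_pU
  | .B => tab11_rp tab11_pB

/-- the coefficients -/
def tab11_cg : tab11_Gn → Fin 4 → List tab11_Lt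
  | .A => tab11_rk tab11_kA
  | .A' => fun i => tab11_wi (tab11_rk tab11_kA (tab11_rp tab11_qA i))
  | .U => tab11_rk tab11_kU
  | .U' => fun i => tab11_wi (tab11_rk tab11_kU (tab11_rp tab11_qU i))
  | .B => tab11_rk tab11_kB

theorem tab11_s1 : ∀ (x : tab11_Gn) (i : Fin 4), tab11_si x (tab11_sg x i) = i := by
  intro x; cases x <;> decide +kernel
theorem tab11_s2 : ∀ (x : tab11_Gn) (i : Fin 4), tab11_sg x (tab11_si x i) = i := by
  intro x; cases x <;> decide +kernel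

/-- the action of a word -/
def tab11_act : List tab11_Gn → Fin 4 → Fin 4 × List tab11_Lt
  | [], i => (i, [])
  | x :: w, i => (tab11_sg x (tab11_act w i).1, tab11_cg x (tab11_act w i).1 ++ (tab11_act w i).2)

/-- the permutation of a generator -/
def tab11_pg (x : tab11_Gn) : Equiv.Perm (Fin 4 × Q2 O11) where
  toFun p := (tab11_sg x p.1, tab11_wv (tab11_cg x p.1) * p.2)
  invFun p := (tab11_si x p.1, (tab11_wv (tab11_cg x (tab11_si x p.1)))⁻¹ * p.2)
  left_inv p := by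
    obtain ⟨i, y⟩ := p
    simp only [tab11_s1, inv_mul_cancel_left]
  right_inv p := by
    obtain ⟨i, y⟩ := p
    simp only [tab11_s2, mul_inv_cancel_left]

theorem tab11_pg_apply (x : tab11_Gn) (i : Fin 4) (y : Q2 O11) :
    tab11_pg x (i, y) = (tab11_sg x i, tab11_wv (tab11_cg x i) * y) := rfl

/-- the permutation of a word -/
def tab11_pw : List tab11_Gn → Equiv.Perm (Fin 4 × Q2 O11)
  | [] => 1
  | x :: w => tab11_pg x * tab11_pw w

theorem tab11_pw_apply (w : List tab11_Gn) (i : Fin 4) (y : Q2 O11) :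
    tab11_pw w (i, y) = ((tab11_act w i).1, tab11_wv (tab11_act w i).2 * y) := by
  induction w with
  | nil => show (i, y) = (i, 1 * y); rw [one_mul]
  | cons x w ih =>
    show tab11_pg x (tab11_pw w (i, y)) =
      (tab11_sg x (tab11_act w i).1, tab11_wv (tab11_cg x (tab11_act w i).1 ++ (tab11_act w i).2) * y)
    rw [ih, tab11_pg_apply, tab11_wv_append, mul_assoc]

/-- two words with the same action -/
def tab11_same (w w' : List tab11_Gn) : Prop :=
  ∀ i, (tab11_act w i).1 = (tab11_act w' i).1 ∧ tab11_wm (tab11_act w i).2 = tab11_wm (tab11_act w' i).2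

instance (w w' : List tab11_Gn) : Decidable (tab11_same w w') := by unfold tab11_same; infer_instance

theorem tab11_pw_eq {w w' : List tab11_Gn} (hw : tab11_same w w') : tab11_pw w = tab11_pw w' := by
  apply Equiv.ext
  rintro ⟨i, y⟩
  rw [tab11_pw_apply, tab11_pw_apply, (hw i).1]
  have h := (hw i).2
  rw [← tab11_wm_eq, ← tab11_wm_eq] at h
  rw [tab11_md_inj (tab11_wv_t _) (tab11_wv_t _) h]

theorem tab11_same1 : tab11_same [.A, .U] [.U, .A] := by decide +kernel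
theorem tab11_same2 : tab11_same [.B, .B] [] := by decide +kernel
theorem tab11_same3 : tab11_same [.A, .B, .A, .B, .A, .B] [] := by decide +kernel
theorem tab11_same4 : tab11_same [.B, .A, .U', .B, .U, .B, .A, .U', .B, .U, .B, .A, .U', .B, .U] [] := by
  decide +kernel
theorem tab11_same9 : tab11_same [.A', .A] [] := by decide +kernel
theorem tab11_same10 : tab11_same [.U', .U] [] := by decide +kernel

theorem tab11_A' : tab11_pg .A' = (tab11_pg .A)⁻¹ := by
  symm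
  apply inv_eq_of_mul_eq_one_left
  have := tab11_pw_eq tab11_same9
  simpa only [tab11_pw, mul_one] using this

theorem tab11_U'' : tab11_pg .U' = (tab11_pg .U)⁻¹ := by
  symm
  apply inv_eq_of_mul_eq_one_left
  have := tab11_pw_eq tab11_same10
  simpa only [tab11_pw, mul_one] using this

theorem tab11_rel : D11.Rel (Equiv.Perm (Fin 4 × Q2 O11)) (tab11_pg .A) (tab11_pg .U) (tab11_pg .B) where
  c1 := tab11_pw_eq tab11_same1
  c2 := tab11_pw_eq tab11_same2
  c3 := by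
    have := tab11_pw_eq tab11_same3
    simp only [tab11_pw, mul_one, ← mul_assoc] at this
    exact this
  c4 := by
    have := tab11_pw_eq tab11_same4
    simp only [tab11_pw, mul_one, ← mul_assoc] at this
    rw [tab11_U''] at this
    exact this

/-! ### The representatives -/

/-- the matrices of the generators -/
def tab11_gm : tab11_Gn → GQ (-3) 1
  | .A => mU 1 | .A' => (mU 1)⁻¹ | .U => mU (wq (-3) 1 ℤ) | .U' => (mU (wq (-3) 1 ℤ))⁻¹
  | .B => mB O11

/-- the matrix of a word -/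
def tab11_gw : List tab11_Gn → GQ (-3) 1
  | [] => 1
  | x :: l => tab11_gm x * tab11_gw l

/-- the entries of the matrices of the generators -/
def tab11_go : tab11_Gn → O11 × O11 × O11 × O11
  | .A => (⟨1, 0⟩, ⟨1, 0⟩, ⟨0, 0⟩, ⟨1, 0⟩)
  | .A' => (⟨1, 0⟩, ⟨-1, 0⟩, ⟨0, 0⟩, ⟨1, 0⟩)
  | .U => (⟨1, 0⟩, ⟨0, 1⟩, ⟨0, 0⟩, ⟨1, 0⟩)
  | .U' => (⟨1, 0⟩, ⟨0, -1⟩, ⟨0, 0⟩, ⟨1, 0⟩)
  | .B => (⟨0, 0⟩, ⟨-1, 0⟩, ⟨1, 0⟩, ⟨0, 0⟩)

theorem tab11_go_eq (x : tab11_Gn) : tab11_o4 (tab11_gm x) = tab11_go x := by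
  have hinv : ∀ x : O11, (mU x)⁻¹ = mU (-x) := by
    intro x
    apply inv_eq_of_mul_eq_one_left
    rw [← G.mU_add, neg_add_cancel, G.mU_zero]
  cases x with
  | A => show tab11_o4 (mU 1) = _; decide +kernel
  | A' => show tab11_o4 (mU 1)⁻¹ = _; rw [hinv]; decide +kernel
  | U => show tab11_o4 (mU (wq (-3) 1 ℤ)) = _; decide +kernel
  | U' => show tab11_o4 (mU (wq (-3) 1 ℤ))⁻¹ = _; rw [hinv]; decide +kernel
  | B => show tab11_o4 (mB O11) = _; decide +kernel

/-- the entries of the matrix of a word -/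
def tab11_ow : List tab11_Gn → O11 × O11 × O11 × O11
  | [] => (⟨1, 0⟩, ⟨0, 0⟩, ⟨0, 0⟩, ⟨1, 0⟩)
  | x :: l => tab11_omul (tab11_go x) (tab11_ow l)

theorem tab11_ow_eq (l : List tab11_Gn) : tab11_o4 (tab11_gw l) = tab11_ow l := by
  induction l with
  | nil =>
    show tab11_o4 (1 : SL2 O11) = _
    rw [mx_one]
    decide +kernel
  | cons x l ih =>
    show tab11_o4 (tab11_gm x * tab11_gw l) = tab11_omul (tab11_go x) (tab11_ow l)
    rw [tab11_o4_mul, ih, tab11_go_eq]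

/-- the words of the representatives -/
def tab11_rw0 : List (List tab11_Gn) := [[], [.B], [.A, .B], [.A', .B]]

/-- the words of the representatives -/
def tab11_rwd (i : Fin 4) : List tab11_Gn := tab11_rw0.getD i.val []

/-- the representatives of the cosets -/
def tab11_rr (i : Fin 4) : GQ (-3) 1 := tab11_gw (tab11_rwd i)

theorem tab11_rr_zero : tab11_rr 0 = 1 := rfl

/-- the verification of an entry of the table -/
def tab11_chk (x : tab11_Gn) (i : Fin 4) : Prop :=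
  tab11_omul (tab11_go x) (tab11_ow (tab11_rwd i)) =
      tab11_omul (tab11_ow (tab11_rwd (tab11_sg x i))) (tab11_wm (tab11_cg x i)).1 ∨
    tab11_omul (tab11_go x) (tab11_ow (tab11_rwd i)) =
      tab11_oneg (tab11_omul (tab11_ow (tab11_rwd (tab11_sg x i))) (tab11_wm (tab11_cg x i)).1)

instance (x : tab11_Gn) (i : Fin 4) : Decidable (tab11_chk x i) := by
  unfold tab11_chk; infer_instance

theorem tab11_chkA : ∀ i, tab11_chk .A i := by decide +kernel
theorem tab11_chkU : ∀ i, tab11_chk .U i := by decide +kernel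
theorem tab11_chkB : ∀ i, tab11_chk .B i := by decide +kernel

theorem tab11_entry {x : tab11_Gn} {i : Fin 4} (h : tab11_chk x i) :
    pj O11 (tab11_gm x * tab11_rr i) = pj O11 (tab11_rr (tab11_sg x i) * (tab11_wv (tab11_cg x i)).m) := by
  have e : (tab11_wm (tab11_cg x i)).1 = tab11_o4 (tab11_wv (tab11_cg x i)).m := by
    rw [← tab11_wm_eq]
    rfl
  unfold tab11_chk at h
  rw [e, ← tab11_go_eq, ← tab11_ow_eq, ← tab11_ow_eq, ← tab11_o4_mul, ← tab11_o4_mul,
    ← tab11_o4_neg] at h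
  rcases h with h | h
  · rw [show tab11_gm x * tab11_rr i = tab11_rr (tab11_sg x i) * (tab11_wv (tab11_cg x i)).m from
      tab11_o4_inj h]
  · rw [show tab11_gm x * tab11_rr i = -(tab11_rr (tab11_sg x i) * (tab11_wv (tab11_cg x i)).m) from
      tab11_o4_inj h, pj_neg]

/-- the value of a pair -/
def tab11_V (p : Fin 4 × Q2 O11) : GQ (-3) 1 ⧸ pm O11 := pj O11 (tab11_rr p.1 * p.2.m)

/-- right multiplication -/
def tab11_rt (z : Q2 O11) (p : Fin 4 × Q2 O11) : Fin 4 × Q2 O11 := (p.1, p.2 * z)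

/-- the subgroup of the elements for which the table is compatible with `V` and `rt` -/
def tab11_TT (f : GQ (-3) 1 →* Equiv.Perm (Fin 4 × Q2 O11)) : Subgroup (GQ (-3) 1) where
  carrier := {g | (∀ p, pj O11 g * tab11_V p = tab11_V (f g p)) ∧
    (∀ z p, f g (tab11_rt z p) = tab11_rt z (f g p)) ∧ ∀ i, (f g (i, 1)).2 ∈ tab11_C}
  one_mem' := ⟨fun p => by rw [map_one, map_one, one_mul]; rfl,
    fun z p => by rw [map_one]; rfl, fun i => by rw [map_one]; exact tab11_C.one_mem⟩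
  mul_mem' := by
    rintro g h ⟨g1, g2, g3⟩ ⟨h1, h2, h3⟩
    refine ⟨fun p => ?_, fun z p => ?_, fun i => ?_⟩
    · rw [map_mul, mul_assoc, h1, g1, map_mul]; rfl
    · rw [map_mul, Equiv.Perm.mul_apply, Equiv.Perm.mul_apply, h2, g2]
    · rw [map_mul, Equiv.Perm.mul_apply]
      obtain ⟨q, hq⟩ : ∃ q, q = f h (i, 1) := ⟨_, rfl⟩
      have e : f h (i, 1) = tab11_rt (f h (i, 1)).2 ((f h (i, 1)).1, 1) := by
        rw [← hq]
        unfold tab11_rt
        rw [one_mul]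
      rw [e, g2]
      exact tab11_C.mul_mem (g3 _) (h3 i)
  inv_mem' := by
    rintro g ⟨g1, g2, g3⟩
    have hi : ∀ p, f g (f g⁻¹ p) = p := by
      intro p
      rw [← Equiv.Perm.mul_apply, ← map_mul, mul_inv_cancel, map_one]; rfl
    refine ⟨fun p => ?_, fun z p => ?_, fun i => ?_⟩
    · have := g1 (f g⁻¹ p)
      rw [hi] at this
      rw [← this, map_inv, inv_mul_cancel_left]
    · apply (f g).injective
      rw [hi, g2, hi]
    · obtain ⟨q, hq⟩ : ∃ q, q = f g⁻¹ (i, 1) := ⟨_, rfl⟩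
      have h1 := hi (i, 1)
      rw [← hq] at h1 ⊢
      have e : q = tab11_rt q.2 (q.1, 1) := by
        unfold tab11_rt
        rw [one_mul]
      rw [e, g2] at h1
      have h2 : (f g (q.1, 1)).2 * q.2 = 1 := congrArg Prod.snd h1
      rw [← inv_eq_of_mul_eq_one_right h2]
      exact tab11_C.inv_mem (g3 _)

/-- the homomorphism given by the table -/
structure tab11_IsT (f : GQ (-3) 1 →* Equiv.Perm (Fin 4 × Q2 O11)) : Prop where
  fA : f (mU 1) = tab11_pg .A
  fU : f (mU (wq (-3) 1 ℤ)) = tab11_pg .U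
  fB : f (mB O11) = tab11_pg .B

theorem tab11_exT : ∃ f, tab11_IsT f := by
  obtain ⟨f, fU, fB⟩ := D11.pres tab11_rel
  refine ⟨f, ?_, ?_, fB⟩
  · rw [fU]
    unfold D11.ee
    rw [QuadraticAlgebra.re_one, QuadraticAlgebra.im_one, zpow_one, zpow_zero, mul_one]
  · rw [fU]
    show tab11_pg .A ^ (0 : ℤ) * tab11_pg .U ^ (1 : ℤ) = _
    rw [zpow_zero, one_mul, zpow_one]

variable {f : GQ (-3) 1 →* Equiv.Perm (Fin 4 × Q2 O11)}

theorem tab11_IsT.gm (hf : tab11_IsT f) (x : tab11_Gn) : f (tab11_gm x) = tab11_pg x := by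
  cases x with
  | A => exact hf.fA
  | A' => show f (mU 1)⁻¹ = _; rw [map_inv, hf.fA, tab11_A']
  | U => exact hf.fU
  | U' => show f (mU (wq (-3) 1 ℤ))⁻¹ = _; rw [map_inv, hf.fU, tab11_U'']
  | B => exact hf.fB

theorem tab11_IsT.gw (hf : tab11_IsT f) (w : List tab11_Gn) : f (tab11_gw w) = tab11_pw w := by
  induction w with
  | nil => exact map_one f
  | cons x w ih =>
    show f (tab11_gm x * tab11_gw w) = tab11_pg x * tab11_pw w
    rw [map_mul, ih, hf.gm]

theorem tab11_gen (hf : tab11_IsT f) (x : tab11_Gn) (hx : ∀ i, tab11_chk x i) :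
    tab11_gm x ∈ tab11_TT f := by
  refine ⟨?_, ?_, ?_⟩
  · rintro ⟨i, y⟩
    rw [hf.gm, tab11_pg_apply]
    show pj O11 (tab11_gm x) * pj O11 (tab11_rr i * y.m) =
      pj O11 (tab11_rr (tab11_sg x i) * ((tab11_wv (tab11_cg x i)).m * y.m))
    rw [← mul_assoc (tab11_rr (tab11_sg x i)),
      map_mul (pj O11) (tab11_rr (tab11_sg x i) * (tab11_wv (tab11_cg x i)).m) y.m, ← tab11_entry (hx i),
      ← map_mul (pj O11) (tab11_gm x) (tab11_rr i * y.m),
      ← map_mul (pj O11) (tab11_gm x * tab11_rr i) y.m, mul_assoc]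
  · rintro z ⟨i, y⟩
    rw [hf.gm]
    show tab11_pg x (i, y * z) = tab11_rt z (tab11_pg x (i, y))
    rw [tab11_pg_apply, tab11_pg_apply]
    show _ = (tab11_sg x i, tab11_wv (tab11_cg x i) * y * z)
    rw [mul_assoc]
  · intro i
    rw [hf.gm, tab11_pg_apply]
    show tab11_wv (tab11_cg x i) * 1 ∈ tab11_C
    rw [mul_one]
    exact tab11_wv_mem _

theorem tab11_IsT.tt (hf : tab11_IsT f) (g : GQ (-3) 1) : g ∈ tab11_TT f := D11.SL_sub (tab11_TT f)
  (tab11_gen hf .A tab11_chkA) (tab11_gen hf .U tab11_chkU) (tab11_gen hf .B tab11_chkB) g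

/-! ### The group `P3 0 hu11` -/

/-- the value modulo the prime ideal -/
def tab11_e4 (z : O11) : ZMod 3 := (z.re : ZMod 3) + (z.im : ZMod 3) * 0

/-- upper unipotent modulo the prime ideal -/
def tab11_up (m : O11 × O11 × O11 × O11) : Prop :=
  tab11_e4 m.1 = 1 ∧ tab11_e4 m.2.2.1 = 0 ∧ tab11_e4 m.2.2.2 = 1

instance (m : O11 × O11 × O11 × O11) : Decidable (tab11_up m) := by unfold tab11_up; infer_instance

theorem tab11_P1 (g : GQ (-3) 1) : g ∈ P3 0 hu11 ↔ tab11_up (tab11_o4 g) := Iff.rfl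

theorem tab11_neg (m : O11 × O11 × O11 × O11) (h1 : tab11_up m) (h2 : tab11_up (tab11_oneg m)) :
    False := by
  have h3 : tab11_e4 (tab11_oneg m).1 = -tab11_e4 m.1 := by
    unfold tab11_e4 tab11_oneg tab11_gneg
    push_cast
    ring
  have h4 := h2.1
  rw [h3, h1.1] at h4
  revert h4
  decide

theorem tab11_rep : ∀ j : Fin 4, tab11_up (tab11_ow (tab11_rwd j)) ∨
    tab11_up (tab11_oneg (tab11_ow (tab11_rwd j))) → j = 0 := by decide +kernel

theorem tab11_tt_P1 : (mU 1) ∈ P3 0 hu11 := by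
  rw [tab11_P1, show tab11_o4 (mU 1) = tab11_go .A from tab11_go_eq .A]
  decide +kernel
theorem tab11_uu_P1 : v11 ∈ P3 0 hu11 := by
  rw [tab11_P1, show tab11_o4 v11 = (tab11_lm .u).1 from congrArg Prod.fst (tab11_lm_eq .u)]
  decide +kernel
theorem tab11_yy_P1 : y11 ∈ P3 0 hu11 := by
  rw [tab11_P1, show tab11_o4 y11 = (tab11_lm .y).1 from congrArg Prod.fst (tab11_lm_eq .y)]
  decide +kernel

theorem tab11_C_P1 {x : Q2 O11} (hx : x ∈ tab11_C) : x.m ∈ P3 0 hu11 := by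
  have h : tab11_C ≤ (P3 0 hu11).comap (Q2.mH (R := O11)) :=
    tab11_C_le _ tab11_tt_P1 tab11_uu_P1 tab11_yy_P1
  exact h hx

/-- the key fact -/
theorem tab11_IsT.key (hf : tab11_IsT f) {g : GQ (-3) 1} (hg : g ∈ P3 0 hu11) :
    (f g (0, 1)).1 = 0 ∧ (f g (0, 1)).2 ∈ tab11_C ∧ (f g (0, 1)).2.m = g := by
  obtain ⟨h1, -, h3⟩ := hf.tt g
  have hC := h3 0
  have h4 := h1 (0, 1)
  have hV : tab11_V (0, 1) = 1 := by
    show pj O11 (tab11_rr 0 * 1) = 1
    rw [tab11_rr_zero, mul_one, map_one]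
  rw [hV, mul_one] at h4
  obtain ⟨j, hj⟩ : ∃ j, j = (f g (0, 1)).1 := ⟨_, rfl⟩
  obtain ⟨c, hc⟩ : ∃ c, c = (f g (0, 1)).2 := ⟨_, rfl⟩
  have h5 : pj O11 g = pj O11 (tab11_rr j * c.m) := by rw [h4, hj, hc]; rfl
  rw [← hj, ← hc]
  rw [← hc] at hC
  have hcm := tab11_C_P1 hC
  have hj0 : j = 0 := by
    apply tab11_rep
    rcases pj_eq h5 with h6 | h6
    · left
      rw [← tab11_ow_eq]
      show tab11_rr j ∈ P3 0 hu11
      rw [← mul_inv_eq_iff_eq_mul.2 h6]
      exact (P3 0 hu11).mul_mem hg ((P3 0 hu11).inv_mem hcm)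
    · right
      rw [← tab11_ow_eq, ← tab11_o4_neg]
      show -tab11_rr j ∈ P3 0 hu11
      have h7 : g = -tab11_rr j * c.m := by rw [h6, neg_mul]
      rw [← mul_inv_eq_iff_eq_mul.2 h7]
      exact (P3 0 hu11).mul_mem hg ((P3 0 hu11).inv_mem hcm)
  refine ⟨hj0, hC, ?_⟩
  rw [hj0, tab11_rr_zero, one_mul] at h5
  rcases pj_eq h5 with h6 | h6
  · exact h6.symm
  · exfalso
    rw [h6, tab11_P1, tab11_o4_neg] at hg
    exact tab11_neg _ ((tab11_P1 _).1 hcm) hg

/-- the homomorphism `Θ` -/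
def tab11_Th (hf : tab11_IsT f) : P3 0 hu11 →* Q2 O11 where
  toFun g := (f g.val (0, 1)).2
  map_one' := by
    show (f 1 (0, 1)).2 = 1
    rw [map_one]
    rfl
  map_mul' g h := by
    show (f (g.val * h.val) (0, 1)).2 = (f g.val (0, 1)).2 * (f h.val (0, 1)).2
    rw [map_mul, Equiv.Perm.mul_apply]
    have e : f h.val (0, 1) = tab11_rt (f h.val (0, 1)).2 (0, 1) := by
      unfold tab11_rt
      rw [one_mul]
      exact Prod.ext (hf.key h.2).1 rfl
    have e2 : f g.val (f h.val (0, 1)) = tab11_rt (f h.val (0, 1)).2 (f g.val (0, 1)) := by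
      conv_lhs => rw [e]
      exact (hf.tt g.val).2.1 _ _
    rw [e2]
    rfl

/-- the first coordinate of `W` -/
theorem tab11_W (x y : Q2 O11) (hx : x.t = 1) (hy : y.t = 1) : Q2.W x y 0 =
    ((x.m.val 0 0 - 1) * (x.m.val 1 1 - 1) - x.m.val 0 1 * x.m.val 1 0) * y.v 0 -
      ((y.m.val 0 0 - 1) * ((x.m.val 1 1 - 1) * x.v 0 - x.m.val 0 1 * x.v 1) +
        y.m.val 0 1 * ((x.m.val 0 0 - 1) * x.v 1 - x.m.val 1 0 * x.v 0)) := by
  unfold Q2.W Q2.X
  rw [hx, hy]
  simp only [Units.val_one, one_smul, Matrix.det_fin_two, Matrix.adjugate_fin_two, Pi.sub_apply,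
    Pi.smul_apply, smul_eq_mul, Matrix.mulVec, dotProduct, Fin.sum_univ_two, Matrix.sub_apply,
    Matrix.one_apply_eq, Matrix.of_apply, Matrix.cons_val', Matrix.cons_val_zero,
    Matrix.cons_val_one, Matrix.cons_val_fin_one]
  rw [Matrix.one_apply_ne (by decide), Matrix.one_apply_ne (by decide)]
  ring

theorem tab11_neg_f (hf : tab11_IsT f) (g : GQ (-3) 1) : f (-g) = f g := by
  rw [← neg_one_mul g, ← G.BB, map_mul, map_mul, hf.fB, tab11_rel.c2, one_mul]

theorem tab11_yy_w : y11 = -tab11_gw [.B, .U, .B] := by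
  apply tab11_o4_inj
  rw [tab11_o4_neg, tab11_ow_eq,
    show tab11_o4 y11 = (tab11_lm .y).1 from congrArg Prod.fst (tab11_lm_eq .y)]
  decide +kernel

theorem tab11_vv_w : v11 = tab11_gw [.U] := by
  apply tab11_o4_inj
  rw [tab11_ow_eq, show tab11_o4 v11 = (tab11_lm .u).1 from congrArg Prod.fst (tab11_lm_eq .u)]
  decide +kernel

theorem tab11_act1 : (tab11_act [.A, .B, .U, .B] 0).1 = 0 ∧
    tab11_wm (tab11_act [.A, .B, .U, .B] 0).2 = tab11_mul (tab11_lm .t) (tab11_lm .y) := by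
  decide +kernel

theorem tab11_act2 : (tab11_act [.U] 0).1 = 0 ∧
    tab11_wm (tab11_act [.U] 0).2 = tab11_lm .u := by
  decide +kernel

theorem tab11_val1 (hf : tab11_IsT f) : (f (mU 1 * y11) (0, 1)).2 = tab11_T * tab11_Y := by
  have e : f (mU 1 * y11) = tab11_pw [.A, .B, .U, .B] := by
    rw [map_mul, tab11_yy_w, tab11_neg_f hf, hf.gw, show f (mU 1) = tab11_pg .A from hf.fA]
    rfl
  rw [e, tab11_pw_apply]
  show tab11_wv (tab11_act [.A, .B, .U, .B] 0).2 * 1 = _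
  rw [mul_one]
  apply tab11_md_inj (tab11_wv_t _)
  · rfl
  · rw [tab11_wm_eq, tab11_act1.2, tab11_md_mul _ _ rfl]
    rw [show tab11_md tab11_T = tab11_lm .t from tab11_lm_eq .t,
      show tab11_md tab11_Y = tab11_lm .y from tab11_lm_eq .y]

theorem tab11_val2 (hf : tab11_IsT f) : (f v11 (0, 1)).2 = tab11_U := by
  have e : f v11 = tab11_pw [.U] := by
    rw [tab11_vv_w, hf.gw]
  rw [e, tab11_pw_apply]
  show tab11_wv (tab11_act [.U] 0).2 * 1 = _
  rw [mul_one]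
  apply tab11_md_inj (tab11_wv_t _)
  · rfl
  · rw [tab11_wm_eq, tab11_act2.2, show tab11_md tab11_U = tab11_lm .u from tab11_lm_eq .u]

theorem p_tab11 : U_tab11 := by
  obtain ⟨f, hf⟩ := tab11_exT
  refine ⟨?_, tab11_Th hf, ?_, ?_, ?_⟩
  · intro H h1 h2 h3 g hg
    obtain ⟨-, hC, hm⟩ := hf.key hg
    rw [← hm]
    have h : tab11_C ≤ H.comap (Q2.mH (R := O11)) := tab11_C_le _ h1 h2 h3
    exact h hC
  · apply MonoidHom.ext
    intro g
    exact (hf.key g.2).2.2
  · apply MonoidHom.ext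
    intro g
    exact tab11_C_t (hf.key g.2).2.1
  · refine ⟨⟨mU 1 * y11, (P3 0 hu11).mul_mem tab11_tt_P1 tab11_yy_P1⟩, ⟨v11, tab11_uu_P1⟩, ?_⟩
    have e : Q2.W (f (mU 1 * y11) (0, 1)).2 (f v11 (0, 1)).2 0 = (⟨9, 0⟩ : O11) := by
      rw [tab11_val1 hf, tab11_val2 hf, tab11_W _ _ rfl rfl]
      decide +kernel
    have e2 : nq (Q2.W (f (mU 1 * y11) (0, 1)).2 (f v11 (0, 1)).2 0) = 81 := by
      rw [e]
      decide
    show 0 < nq (Q2.W (f (mU 1 * y11) (0, 1)).2 (f v11 (0, 1)).2 0) ∧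
      nq (Q2.W (f (mU 1 * y11) (0, 1)).2 (f v11 (0, 1)).2 0) < 1024
    rw [e2]
    constructor <;> norm_num

end Pool.Agent.F8.BG
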