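import Pool.Agent.Lib.MP_305fdd_al.F8.BG.DefsU
import Pool.Agent.Lib.MP_305fdd_al.F8.EG.Leg
import Pool.Agent.Lib.MP_305fdd_al.F8.BG.D2.Arith
import Pool.Agent.Lib.MP_305fdd_al.F8.BG.D11.Arith

/-!
# MP_305fdd_al, Legendre's theorem over the rings of integers of `ℚ(√-2)` and `ℚ(√-11)`: the statements (block L)
-/

set_option autoImplicit false

namespace Pool.Agent.F8.BG

open Pool.Agent.MP_305fdd_al Pool.Agent.Lib.MP_305fdd_al Pool.Agent.F2X Pool.Agent.F8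
open scoped QuadraticAlgebra

/-- [BG L_gen] Legendre's theorem by descent, a variant of `EG.legendre` (`EG/Leg.lean`).

Proof. The proof of `EG.legendre` with two changes. In `step`, when `b` is squarefree and `B ≤ N b`: if `a` is not squarefree reduce `a` (`red` after `sym_LA`, as for `N b < B`); otherwise
`esb` for `(a, b)` and for `(b, a)` gives `r` and `r'`, and the hypothesis gives `Sol a b` or the descent step. -/
def L_gen : Prop := ∀ (A : Type) [CommRing A] [IsDomain A] [IsPrincipalIdealRing A] (ν : EG.Nm A)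
  (B : ℕ), (∀ a b r r' : A, a ≠ 0 → b ≠ 0 → B ≤ ν.N b → ν.N a ≤ ν.N b → EG.Sf a → EG.Sf b →
    b ∣ r ^ 2 - a → a ∣ r' ^ 2 - b →
      EG.Sol a b ∨ ∃ q : A, ν.N ((r - b * q) ^ 2 - a) < ν.N b ^ 2) →
  (∀ a b : A, a ≠ 0 → b ≠ 0 → ν.N a < B → ν.N b < B → EG.Sf a → EG.Sf b → EG.LA a b →
    EG.Sol a b) →
  ∀ a b : A, a ≠ 0 → b ≠ 0 → EG.LA a b → EG.Sol a b

/-- [BG L_pid] principal ideals.

Proof. Division with remainder (`D2.O_div`, `D11.O_div` in `Arith.lean`), see the instance in `D7/E/Ar.lean`. -/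
def L_pid : Prop := IsPrincipalIdealRing (Qf (-2) 0 ℤ) ∧ IsPrincipalIdealRing (Qf (-3) 1 ℤ)

/-- [BG L_leg2] Legendre's theorem over `ℤ[√-2]`. (Uses `L_gen`, `L_pid`; `Qf_domain`.)

As `D7/E/Ar.lean`, `D7/E/Base.lean`. Proof. `L_gen` with `B = 2`. Units (`D2.unit_cases`): `Sol 1 b`: `(1, 0, 1)`; `Sol (-1) (-1)`: `(1, 1, w)` (`w² = -2`).
Division with a small remainder: for `b ≠ 0` and every `r` there is `q` with `4 N(r - b q) ≤ 3 N(b)`; replace `r` by `r - b q` (`b ∣ r² - a` is preserved).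
If `N(b) ≥ 17`: `3 N(u - v) ≤ 4 N(u) + 12 N(v)` with `u = r²`, `v = a`: `N(r² - a) ≤ 3/4 N(b)² + 4 N(b) < N(b)²`. If `2 ≤ N(b) ≤ 16`: for `N(r) ≤ 3/4 N(b)`, `N(a) ≤ N(b)`, `b ∣ r² - a` there is
`q ∈ {0, ±1, ±w, ±1 ± w}` with `N((r - b q)² - a) < N(b)²`, except for `a = -1`, `b = ± w`, `r = ± 1` and for `a = 2`, `b = ± 2`, `r = ± w` (a finite check with `decide +kernel`: `|re| ≤ 4`, `|im| ≤ 2`, about `10000` triples
`(b, r, a)`, `1000` with `b ∣ r² - a`; checked by computer). `2 = -w²` is not squarefree. Solutions `(x, y, z)` of `a x² + b y² = z²`: `(-1, -w)`: `(1 + w, w, 1)`; `(-1, w)`: `(1, w, 1 - w)`. -/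
def L_leg2 : Prop := ∀ a b : Qf (-2) 0 ℤ, a ≠ 0 → b ≠ 0 → EG.LA a b → EG.Sol a b

/-- [BG L_leg11] Legendre's theorem over the ring of integers of `ℚ(√-11)`. (Uses `L_gen`, `L_pid`; `Qf_domain`.)

As `D7/E/Ar.lean`, `D7/E/Base.lean`. Proof. `L_gen` with `B = 2`. Units: `Sol 1 b`: `(1, 0, 1)`; `Sol (-1) (-1)`: `(1 + w, 1, 2 - w)`.
Division with a small remainder: for `b ≠ 0` and every `r` there is `q` with `11 N(r - b q) ≤ 9 N(b)` (the covering radius of the lattice; `hex7` in `D7/E/Ar.lean` is the same statement for `d = 7`); replace `r` by `r - b q`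
(`b ∣ r² - a` is preserved). If `N(b) ≥ 31`: `18 N(u - v) ≤ 22 N(u) + 99 N(v)` with `u = r²`, `v = a`: `N(r² - a) ≤ 9/11 N(b)² + 11/2 N(b) < N(b)²`. If `2 ≤ N(b) ≤ 30`: for `N(r) ≤ 9/11 N(b)`,
`N(a) ≤ N(b)`, `b ∣ r² - a` there is `q` with coordinates in `{-1, 0, 1}` and `N((r - b q)² - a) < N(b)²`, except for `a = -3`, `b = ± 2 w` or `± 2 (1 - w)`, `r = ± 3`
(a finite check with `decide +kernel`: `|re| ≤ 5`, `|im| ≤ 3`, about `53000` triples `(b, r, a)`, `2700` with `b ∣ r² - a`; checked by computer). The exceptions: solutions `(x, y, z)` of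
`a x² + b y² = z²`: `(-3, -2 w)`: `(2 + w, 2 - 2 w, 3 w)`; `(-3, -2 (1 - w))`: `(1 + w, 2 + 2 w, 5 - 5 w)`; for `(-3, 2 w)` the hypothesis `a ∣ r'² - b` is false: `w ↦ 1` is a homomorphism to `ZMod 3` (`1 = -3 + 1`) and
`r'² = 2` is impossible; for `(-3, 2 (1 - w))`: `w ↦ 0`, `r'² = 2`. -/
def L_leg11 : Prop := ∀ a b : Qf (-3) 1 ℤ, a ≠ 0 → b ≠ 0 → EG.LA a b → EG.Sol a b

end Pool.Agent.F8.BG
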