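import Pool.Agent.Lib.MP_305fdd_al.F8.BG.DefsU
import Pool.Agent.Lib.MP_305fdd_al.F8.EG.Leg
import Mathlib.NumberTheory.NumberField.Basic
import Mathlib.LinearAlgebra.Matrix.ProjectiveSpecialLinearGroup

/-!
# MP_305fdd_al, Bianchi groups: the statements of the transfer (block T)

Every piece is the analogue of the piece of the same name in `F8/PIC7` (statements `PIC7/StmT.lean`, proofs `PIC7/P_*.lean`), with `Qf a b R` instead of `E7 R`
(`a = -2, b = -1` in `PIC7`), `evq`, `Qfm`, `cjq`, `sgq`, `nq`, `rdq`, `r3`, `P3` instead of `ev7`, `E7m`, `cj`, `sge`, `nm`, `rd`, `r4`, `P1`. The hypotheses are in the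
structure `UQ a b u hu` (`DefsU.lean`). Every piece may use the statements named in its docstring (Uses ..) as hypotheses.
-/

set_option autoImplicit false

namespace Pool.Agent.F8.BG

open Pool.Agent.MP_305fdd_al Pool.Agent.Lib.MP_305fdd_al Pool.Agent.F2X Pool.Agent.F8
  Pool.Agent.F8.HN
open scoped QuadraticAlgebra

noncomputable section

/-- [BG T_psl] from `SL₂` to `PSL₂`. (Uses `PIC.S_prd`.)

As `PIC7/P_psl.lean` (docstring of `PIC.S_psl`), with `B = SL2 (ZMod 3)` and `r3 u hu` instead of `SL2 (ZMod 7)` and `r7p`; `-1 ≠ 1` modulo `3`. `GQ a b` is finitely generated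
by `UQ.gen`. -/
def T_psl (a b : ℤ) (u : ZMod 3) (hu : u * u = (a : ZMod 3) + (b : ZMod 3) * u) : Prop :=
  UQ a b u hu → ProfinitelyRigid (GQ a b) → ProfinitelyRigid (GQ a b ⧸ AB.pm (Qf a b ℤ))

/-- [BG T_px] matching of property P.

As `PIC7/P_px.lean`: `Ψ₁ : NatBij (P3 u hu) (L3 Φ u hu)`, `Ψ₂` for the other root, from `natBij_comap`. -/
def T_px (a b : ℤ) (u : ZMod 3) (hu : u * u = (a : ZMod 3) + (b : ZMod 3) * u) : Prop :=
  UQ a b u hu → ∀ (Λ : Type) [Group Λ] (Φ : NatBij (GQ a b) Λ) (k : Type) [Field k] [Finite k]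
  (N : ℕ), GdL Φ u hu k N → GdG u hu k N

/-- [BG T_lim] limits for `Qf a b`. (As `PIC7/P_lim.lean`.) -/
def T_lim (a b : ℤ) : Prop := ∀ (R : Type) [CommRing R] (Rk : ℕ → Type) [∀ k, CommRing (Rk k)]
  (π : ∀ k, R →+* Rk k) (p : ∀ k, Rk (k + 1) →+* Rk k), IsLim R Rk π p →
  IsLim (Qf a b R) (fun k => Qf a b (Rk k)) (fun k => Qfm a b (π k)) (fun k => Qfm a b (p k))

/-- [BG T_tb2] the cocycle of the second subgroup.

Proof. `Θ' g = Q2.map (cjq a b ℤ) (Θ ⟨cGq a b g, _⟩)` (`mem_P3_cG`), `cGq_cGq`, `nq_cjq`. (As `PIC7/P_tb2.lean`.) -/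
def T_tb2 (a b : ℤ) (u : ZMod 3) (hu : u * u = (a : ZMod 3) + (b : ZMod 3) * u) : Prop :=
  CocQ (P3 u hu) → CocQ (P3 ((b : ZMod 3) - u) (rt_cj hu))

/-- [BG T_dat] the `p`-adic representation. (Uses `T_tb2`, `T_lim`.)

As `PIC7/P_dat.lean`, for both subgroups (`UQ.coc` and `T_tb2`; prove a lemma for one subgroup `P3 v hv` with a cocycle and apply it twice, for `v = u` and `v = b - u`). Use `k = 10`: a number
between `0` and `1024` is not `0` modulo `p ^ 10`; `z * cjq z = nq z` (`mul_cjq`). `Irr` on `P3 v hv`: `g = mU 1`, `h = [[1, 0], [3, 1]]`, `tr (g h g⁻¹ h⁻¹) - 2 = 9`, of norm `81`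
(both elements are in `P3 v hv`, for every `v`). `ne`: `mU (wq a b ℤ) * mB` has trace `w`. -/
def T_dat (a b : ℤ) (u : ZMod 3) (hu : u * u = (a : ZMod 3) + (b : ZMod 3) * u) : Prop :=
  UQ a b u hu → ∀ (Λ : Type) [Group Λ] (Φ : NatBij (GQ a b) Λ) (p : ℕ) [Fact p.Prime],
  ∃ r : Λ →* SL2 (Qf a b ℤ_[p]), DatQ Φ u hu p r

/-- [BG T_d4] sum and product of the two characters are integers. (Uses `PIC7.S_pf`, `S_gal`, `S_int`.)

As `PIC7/P_d4.lean`. `j₁ = evq (iz p) w`, `j₂ = evq (iz p) (b - w)`, `w ∈ Fl p` a root of `w² = a + b w`; their characters are different by `DatQ.ne` (`(2 w - b)² = b² + 4 a ≠ 0`);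
the sum and the product of `evq w z`, `evq (b - w) z` are `2 re + b im` and `nq z`. -/
def T_d4 (a b : ℤ) (u : ZMod 3) (hu : u * u = (a : ZMod 3) + (b : ZMod 3) * u) : Prop :=
  UQ a b u hu → ∀ (Λ : Type) [Group Λ] [Group.FG Λ] (Φ : NatBij (GQ a b) Λ),
  (∀ (K : Type) [Field K] [CharZero K], ¬ GdL Φ u hu K 3) →
  (∀ (p : ℕ) [Fact p.Prime], ∃ r : Λ →* SL2 (Qf a b ℤ_[p]), DatQ Φ u hu p r) →
  ∀ s₁ s₂ : Λ →* SL2 (AlgebraicClosure ℚ), PtL Φ u hu s₁ → PtL Φ u hu s₂ →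
  (∃ g, tr (s₁ g) ≠ tr (s₂ g)) →
  ∀ l : Λ, ∃ S P : ℤ, tr (s₁ l) + tr (s₂ l) = (S : AlgebraicClosure ℚ) ∧
    tr (s₁ l) * tr (s₂ l) = (P : AlgebraicClosure ℚ) ∧
    ∀ (p : ℕ) [Fact p.Prime] (r : Λ →* SL2 (Qf a b ℤ_[p])), DatQ Φ u hu p r →
      (S : ℤ_[p]) = 2 * (tr (r l)).re + b * (tr (r l)).im ∧ (P : ℤ_[p]) = nq (tr (r l))

/-- [BG T_sq] a local-global principle for squares.

Proof. `D ∣ N` in every `ℤ_p`, so `D ∣ N` (`v_p`; or `N.natAbs` and `padicValNat`; or the denominator of the rational number `N / D` has `p`-adic norm `≤ 1` for all `p`), `N = D N'`, `N' = y²` in every `ℤ_p`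
(cancel `D`). Then `PIC7/P_sq.lean`, `P/sq.lean`. -/
def T_sq : Prop := ∀ D N : ℤ, D ≠ 0 → (∀ (p : ℕ) [Fact p.Prime], ∃ y : ℤ_[p],
  (N : ℤ_[p]) = D * (y * y)) → ∃ m : ℤ, N = D * (m * m)

/-- [BG T_d5] one value.

Proof. `(2 c - S)² = S² - 4 P = D m² = (m (2 w - b))²`, `D = b² + 4 a`, so `2 c - S = e m (2 w - b)`, `e = ± 1`. `S - b m` is even (`S² - b² m² = 4 P + 4 a m²`).
`T = ⟨(S - b e m) / 2, e m⟩`. -/
def T_d5 (a b : ℤ) : Prop := ∀ (K : Type) [Field K] [CharZero K] (w : K)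
  (hw : w * w = (a : K) + (b : K) * w) (c c' : K) (S P m : ℤ), c + c' = S → c * c' = P →
  S * S - 4 * P = (b ^ 2 + 4 * a) * (m * m) →
  ∃ T : Qf a b ℤ, c = evq a b (Int.castRingHom K) w hw T ∧
    c' = evq a b (Int.castRingHom K) w hw (cjq a b ℤ T)

/-- [BG T_d6] comparison with the `p`-adic character. (Uses `PIC7.S_pf`. As `PIC7/P_d6.lean`.) -/
def T_d6 (a b : ℤ) (u : ZMod 3) (hu : u * u = (a : ZMod 3) + (b : ZMod 3) * u) : Prop :=
  UQ a b u hu → ∀ (Λ : Type) [Group Λ] [Group.FG Λ] (Φ : NatBij (GQ a b) Λ),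
  (∀ (K : Type) [Field K] [CharZero K], ¬ GdL Φ u hu K 3) →
  ∀ s₁ s₂ : Λ →* SL2 (AlgebraicClosure ℚ), PtL Φ u hu s₁ → PtL Φ u hu s₂ →
  (∃ g, tr (s₁ g) ≠ tr (s₂ g)) →
  ∀ (w : AlgebraicClosure ℚ) (hw : w * w = (a : AlgebraicClosure ℚ) + (b : AlgebraicClosure ℚ) * w)
    (T : Λ → Qf a b ℤ),
  (∀ g, tr (s₁ g) = evq a b (Int.castRingHom _) w hw (T g) ∧
    tr (s₂ g) = evq a b (Int.castRingHom _) w hw (cjq a b ℤ (T g))) →
  ∀ (p : ℕ) [Fact p.Prime] (r : Λ →* SL2 (Qf a b ℤ_[p])), DatQ Φ u hu p r →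
  (∀ g, tr (r g) = Qfm a b (Int.castRingHom ℤ_[p]) (T g)) ∨
    (∀ g, tr (r g) = Qfm a b (Int.castRingHom ℤ_[p]) (cjq a b ℤ (T g)))

/-- [BG T_out] MAIN RESULT of the transfer. (Uses `PIC7.S_pf`, `PIC7.S_sp`, `T_px`, `T_dat`, `T_d4`, `T_sq`, `T_d5`, `T_d6`.)

As `PIC7/P_out.lean`. `S² - 4 P = (b² + 4 a) im²`. In the last step the root `w` is replaced by `b - w` (and `T` by `cjq T`) if necessary such that `c = false` for `p = p₀`. -/
def T_out (a b : ℤ) (u : ZMod 3) (hu : u * u = (a : ZMod 3) + (b : ZMod 3) * u) : Prop :=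
  UQ a b u hu → ∀ (p₀ : ℕ) (Λ : Type) [Group Λ] [Group.FG Λ] (Φ : NatBij (GQ a b) Λ),
  ∃ (T : Λ → Qf a b ℤ) (s : Λ →* SL2 (AlgebraicClosure ℚ)) (w : AlgebraicClosure ℚ)
    (hw : w * w = (a : AlgebraicClosure ℚ) + (b : AlgebraicClosure ℚ) * w), OutQ Φ p₀ T s w hw

/-- [BG T_sig] the reductions modulo all `m`.

As `PIC7/P_sig.lean`; `sgq f` with `f² = f`: `f = 0` (identity) or `f = 1` (`cjq`) modulo prime powers, Chinese remainders. -/
def T_sig (a b : ℤ) : Prop := ∀ (Λ : Type) [Group Λ] (Φ : NatBij (GQ a b) Λ) (p₀ : ℕ)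
  (T : Λ → Qf a b ℤ) (s : Λ →* SL2 (AlgebraicClosure ℚ)) (w : AlgebraicClosure ℚ)
  (hw : w * w = (a : AlgebraicClosure ℚ) + (b : AlgebraicClosure ℚ) * w),
  OutQ Φ p₀ T s w hw → ∀ (m : ℕ) [NeZero m], ∃ (f : ZMod m) (hf : f * f = f), ∀ l,
    Qfm a b (Int.castRingHom (ZMod m)) (T l) = sgq f hf (tr (Φ.toFun _ (rdq a b m) l))

/-- [BG T_E] from characters to matrices. (Uses `T_sig`.)

As `PIC7/P_E.lean`; `EG.E_gen` with `UQ.leg`, `UQ.pid`, `Qf_domain UQ.neg`; `x` divides `nq x` (`mul_cjq`). `evq .. w` is injective (if `re + im w = 0` then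
`nq = 0`, `nq_eq_zero`). -/
def T_E (a b : ℤ) (u : ZMod 3) (hu : u * u = (a : ZMod 3) + (b : ZMod 3) * u) : Prop :=
  UQ a b u hu → ∀ (Λ : Type) [Group Λ] (Φ : NatBij (GQ a b) Λ) (p₀ : ℕ)
  (T : Λ → Qf a b ℤ) (s : Λ →* SL2 (AlgebraicClosure ℚ)) (w : AlgebraicClosure ℚ)
  (hw : w * w = (a : AlgebraicClosure ℚ) + (b : AlgebraicClosure ℚ) * w),
  OutQ Φ p₀ T s w hw → ∃ ρ : Λ →* GQ a b, ∀ l, tr (ρ l) = T l

/-- [BG T_X1] the congruence kernels. (Uses `PIC.S_gr`, `T_sig`.)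

As `PIC7/P_X1.lean`. -/
def T_X1 (a b : ℤ) : Prop := ∀ (Λ : Type) [Group Λ] (Φ : NatBij (GQ a b) Λ) (p₀ : ℕ)
  (T : Λ → Qf a b ℤ) (s : Λ →* SL2 (AlgebraicClosure ℚ)) (w : AlgebraicClosure ℚ)
  (hw : w * w = (a : AlgebraicClosure ℚ) + (b : AlgebraicClosure ℚ) * w),
  OutQ Φ p₀ T s w hw → ∀ ρ : Λ →* GQ a b, (∀ l, tr (ρ l) = T l) → RhoQ Φ ρ

/-- [BG T_main] THEOREM of the block T: the representation `ρ`. (From `T_out`, `T_E`, `T_X1`.)

For `ℚ(√-2)` used with `p₀ = 3`, for `ℚ(√-11)` with `p₀ = 2`. -/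
def T_main (a b : ℤ) (u : ZMod 3) (hu : u * u = (a : ZMod 3) + (b : ZMod 3) * u) : Prop :=
  UQ a b u hu → ∀ (p₀ : ℕ) [Fact p₀.Prime] (Λ : Type) [Group Λ] [Group.FG Λ]
    (Φ : NatBij (GQ a b) Λ),
  ∃ ρ : Λ →* GQ a b, RhoQ Φ ρ ∧
    (∀ (k : ℕ) (l : Λ), tr (rdq a b (p₀ ^ k) (ρ l)) = tr (Φ.toFun _ (rdq a b (p₀ ^ k)) l)) ∧
    ∀ (p : ℕ) [Fact p.Prime],
      (∀ (k : ℕ) (l : Λ), tr (rdq a b (p ^ k) (ρ l)) = tr (Φ.toFun _ (rdq a b (p ^ k)) l)) ∨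
      ∀ (k : ℕ) (l : Λ), cjq a b (ZMod (p ^ k)) (tr (rdq a b (p ^ k) (ρ l))) =
        tr (Φ.toFun _ (rdq a b (p ^ k)) l)

theorem tr_SLm {R S : Type} [CommRing R] [CommRing S] (f : R →+* S) (g : SL2 R) :
    tr (SLm f g) = f (tr g) := by
  show (SLm f g).val.trace = f g.val.trace
  rw [Matrix.trace_fin_two, Matrix.trace_fin_two, map_add]
  rfl

theorem main_of_T {a b : ℤ} {u : ZMod 3} {hu : u * u = (a : ZMod 3) + (b : ZMod 3) * u}
    (h1 : T_out a b u hu) (h2 : T_E a b u hu) (h3 : T_X1 a b) : T_main a b u hu := by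
  intro H p₀ hp Λ _ _ Φ
  obtain ⟨T, s, w, hw, hO⟩ := h1 H p₀ Λ Φ
  obtain ⟨ρ, hρ⟩ := h2 H Λ Φ p₀ T s w hw hO
  have key : ∀ (m : ℕ) (l : Λ), tr (rdq a b m (ρ l)) = Qfm a b (Int.castRingHom (ZMod m)) (T l) := by
    intro m l
    rw [← hρ]
    exact tr_SLm _ _
  have hcj : ∀ (m : ℕ) (z : Qf a b ℤ), cjq a b (ZMod m) (Qfm a b (Int.castRingHom (ZMod m)) z) =
      Qfm a b (Int.castRingHom (ZMod m)) (cjq a b ℤ z) := by
    intro m z
    rw [cjq_apply, cjq_apply, Qfm_apply, Qfm_apply]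
    apply QuadraticAlgebra.ext
    · show (Int.castRingHom (ZMod m)) z.re + (b : ZMod m) * (Int.castRingHom (ZMod m)) z.im =
        (Int.castRingHom (ZMod m)) (z.re + (b : ℤ) * z.im)
      rw [map_add, map_mul]
      rfl
    · show -(Int.castRingHom (ZMod m)) z.im = (Int.castRingHom (ZMod m)) (-z.im)
      rw [map_neg]
  refine ⟨ρ, h3 Λ Φ p₀ T s w hw hO ρ hρ, fun k l => ?_, fun p hp' => ?_⟩
  · obtain ⟨c, hc, hr⟩ := hO.red p₀
    rw [key, ← hr k l, hc rfl, if_neg Bool.false_ne_true]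
  · obtain ⟨c, hc, hr⟩ := hO.red p
    cases c with
    | false =>
      refine Or.inl fun k l => ?_
      rw [key, ← hr k l, if_neg Bool.false_ne_true]
    | true =>
      refine Or.inr fun k l => ?_
      rw [key, ← hr k l, if_pos rfl, hcj]

/-- [BG T_ok] the ring of integers of `K = ℚ(w)`.

Proof. `evq (Int.castRingHom K) w : Qf a b ℤ →+* K` has its image in the integral elements (`w` is integral) and is injective (`w` is not rational: `(2 w - b)² = b² + 4 a < 0`).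
Onto: `1, w` is a basis of `K` over `ℚ`; let `x = r + s w` be integral, `r, s : ℚ`. Then `S = 2 r + b s` and `P = r² + b r s - a s²` are integers (trace and norm; see `PIC7/P_ok7.lean`),
`S² - 4 P = (b² + 4 a) s²`, `s = m / n` in lowest terms, so `n² (S² - 4 P) = (b² + 4 a) m²` and `n ∣ m` by `UQ.fund`, so `s` is an integer. `2 r` is an integer and `r² + b s r - (a s² + P) = 0`, so `r` is
integral over `ℤ`, so it is an integer. -/
def T_ok (a b : ℤ) : Prop := b ^ 2 + 4 * a < 0 →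
  (∀ S P m n : ℤ, n ≠ 0 → n ^ 2 * (S ^ 2 - 4 * P) = (b ^ 2 + 4 * a) * m ^ 2 → n ∣ m) →
  ∀ (K : Type) [Field K] [NumberField K] (w : K), w * w = (a : K) + (b : K) * w →
  Module.finrank ℚ K = 2 → Nonempty (Qf a b ℤ ≃+* NumberField.RingOfIntegers K)

end

end Pool.Agent.F8.BG
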