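import Pool.Agent.Lib.MP_305fdd_al.F8.BG.StmT
import Pool.Agent.Lib.MP_305fdd_al.F8.BG.D2.Pres
import Pool.Agent.Lib.MP_305fdd_al.F8.BG.D11.Rel

/-!
# MP_305fdd_al, the Bianchi groups of `ℚ(√-2)` and `ℚ(√-11)`: the statements of the blocks U2 and U11

THEOREMS of the blocks: `U_g3_2`, `U_g3_11`: over a field with `2 ≠ 0` there are at most two characters with property P with respect to
`P3 u hu` (`Γ₁` of a prime ideal of norm `3`) and its conjugate. `u = 2` for `ℚ(√-2)` (`w ↦ 2`), `u = 0` for `ℚ(√-11)`.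

The proof. `U_nf` (general): normal form `NFg ρ s p c f`: with `N = [[0, (s + 1) / 2], [(s - 1) / 2, 0]]`, `N² = (s² - 1) / 4 = p² - 1`, the images of
`mU 1` and of the inverse of `mU w` are `p + N`, `c + f N`. The last relation of the presentation gives one more equation (`U_rel2`, `U_rel11`). The
table of the four cosets of `± P3 u hu` (`U_tab2`, `U_tab11`) gives the generators `t = mU 1`, `v`, `y = B⁻¹ v B` of `P3 u hu` and the relations `t v = v t` and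
`y z = z y`, `z = B⁻¹ t³ B = (a word in t, v, y)`. A cocycle which is zero on `t`, `v` has the value `η` on `y` with `D η = 0`, and `det D` is the polynomial
`F2` resp. `F11` in `s, p, c, f` (`U_det2`, `U_det11`). So `p = c = 1` or `F = 0` (`U_coc2`, `U_coc11`), and with the conjugate subgroup `F' = 0`
(`U_cg2`, `U_cg11`); both together give `p = c = 1` (`U_alg2`, `U_alg11`), so the representation is a standard one (`U_std`).
-/

set_option autoImplicit false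

namespace Pool.Agent.F8.BG

open Pool.Agent.MP_305fdd_al Pool.Agent.Lib.MP_305fdd_al Pool.Agent.F2X Pool.Agent.F8
  Pool.Agent.F8.HN
open scoped QuadraticAlgebra

noncomputable section

/-! ## General pieces -/

/-- `mU 1`, `mU w`, `mB` generate `SL₂(ℤ[w])` -/
def GenQ (a b : ℤ) : Prop :=
  ∀ H : Subgroup (GQ a b), mU 1 ∈ H → mU (wq a b ℤ) ∈ H → mB _ ∈ H → ∀ g, g ∈ H

/-- The normal form of a representation of `SL₂(ℤ[w])`. -/
structure NFg {a b : ℤ} {K : Type} [Field K] (ρ : GQ a b →* SL2 K) (s p c f : K) : Prop where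
  hs : s ≠ 0
  e1 : 4 * p ^ 2 = s ^ 2 + 3
  e2 : 4 * c ^ 2 = 4 + f ^ 2 * (s ^ 2 - 1)
  /-- `[[0, -1], [1, 0]]` -/
  B : (ρ (mB _)).val = !![0, -1; 1, 0]
  /-- `[[p, (s + 1) / 2], [(s - 1) / 2, p]]` -/
  T : (ρ (mU 1)).val = !![p, (s + 1) / 2; (s - 1) / 2, p]
  /-- the inverse of the image of `mU w` -/
  U : (ρ (mU (wq a b ℤ))⁻¹).val = !![c, f * ((s + 1) / 2); f * ((s - 1) / 2), c]

/-- [BG U_nf] the normal form of a representation which is irreducible.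

As `PIC7/P_nf.lean` without the last relation (`c4`). Proof. Write `B, T, U` for the images of `mB`, `mU 1`, `mU w`, `E = ρ (-1)`. In `SL₂(ℤ[w])`: `mB² = -1`, `(mU 1 * mB)³ = -1`, `mU 1`, `mU w` commute.
`E * E = 1`, `2 ≠ 0`, so `E = 1` or `E = -1` (`2 E = tr E`). If `E = 1` then `B² = 1`, so `B = ± 1`, and `T`, `U` commute: `ρ` is abelian (`GenQ`),
contradiction to `Irr`. So `E = -1`, `B² = -1`, `tr B = 0`. `X = T B`, `X³ = -1`, `X² = x X - 1` (`x = tr X`): `(x² - 1) X = x - 1`, so `x = 1` or `X` is scalar, then `X = -1`. If `X = -1` then `T = B` commutes with `U`: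
abelian, contradiction. So `tr (T B) = 1`. `T` is not scalar (`tr B = 0`). Let `2 p = tr T`, `s² = 4 p² - 3` (`K` is algebraically closed), `c₀ = (s - 1) / 2`, so `c₀² + c₀ + 1 = p²` and
`det (T - p - c₀ B) = 1 + c₀ + c₀² - p² = 0`: there is `v ≠ 0` with `T v = p v + c₀ B v`; from `T B = 1 + 2 p B - B T` (`X + X⁻¹ = 1`) `T B v = (1 + c₀) v + p B v`. If `B v = l v`, then `v` is a common eigenvector
of `T` and `B`, and of `U` (`U` commutes with `T`, which is not scalar, so `U` is a linear combination of `1`, `T`): all `ρ g` are triangular in a basis with `v` and `tr ρ [g, h] = 2`, contradiction to `Irr`. So `v, B v` is a basis;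
scale `v` such that `det (v, B v) = 1`: in this basis `B` and `T` are as in `NFg`. `U⁻¹` commutes with `T`, not scalar: `U⁻¹ = a' + f T` (from the entries), `c = a' + f p`. If `s = 0` then `T = p - B / 2`, all commute, contradiction.
`e2` is `det U⁻¹ = 1`. -/
def U_nf (a b : ℤ) : Prop := GenQ a b → ∀ (K : Type) [Field K] [IsAlgClosed K], (2 : K) ≠ 0 →
  ∀ ρ : GQ a b →* SL2 K, Irr ρ →
  ∃ (C : SL2 K) (s p c f : K), NFg ((MulAut.conj C).toMonoidHom.comp ρ) s p c f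

/-- [BG U_std] the standard representations.

As `PIC7/P_std.lean`. Proof. `s² = 1` by `e1`. `x = -f`: `x² = a + b x`. `s = 1`: `T = [[1, 1], [0, 1]]`, `U⁻¹ = [[1, f], [0, 1]]`: `ρ = SLm (evq .. x)` on the generators, so everywhere
(`GenQ` for the equaliser). `s = -1`: `T = [[1, 0], [-1, 1]]`, `U⁻¹ = [[1, 0], [-f, 1]]`; conjugation with `B` maps `[[x, y], [z, t]]` to `[[t, -z], [-y, x]]`, so
`B ρ B⁻¹ = SLm (evq .. x)`. -/
def U_std (a b : ℤ) : Prop := GenQ a b → ∀ (K : Type) [Field K], (2 : K) ≠ 0 →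
  ∀ (ρ : GQ a b →* SL2 K) (s f : K), NFg ρ s 1 1 f → f * f = (a : K) - (b : K) * f →
  ∃ (x : K) (hx : x * x = (a : K) + (b : K) * x), ∀ g,
    tr (ρ g) = evq a b (Int.castRingHom K) x hx (tr g)

/-! ## `ℚ(√-2)` -/

theorem hu2 : (2 : ZMod 3) * 2 = ((-2 : ℤ) : ZMod 3) + ((0 : ℤ) : ZMod 3) * 2 := by decide

/-- `v = [[1, 1 + w], [0, 1]]` -/
def v2 : GQ (-2) 0 := mU ⟨1, 1⟩

/-- `y = [[1, 0], [-(1 + w), 1]] = B⁻¹ v B` -/
def y2 : GQ (-2) 0 := AB.mx 1 0 ⟨-1, -1⟩ 1 (by decide)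

/-- [BG U_tab2] The subgroup `P3 2 hu2` is generated by `mU 1`, `v2`, `y2` and has a non-trivial cocycle. (Uses nothing; `D2.pres`.)

Adapt `PIC7/P_tab.lean` (739 lines; the structure can be kept line by line). `D2.Rel Q al up be`: `c1` `al up = up al`, `c2` `be be = 1`, `c3` `(al be)³ = 1`,
`c4` `be up⁻¹ be up be up⁻¹ be up = 1`. Four cosets of `± P3`, `x r_i = ± r_j h`. Words: leftmost letter applied last, in `A = mU 1`, `U = mU w`, `B = mB`, `A' = A⁻¹`; the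
representatives are `1, B, A B, A' B`. Tables (`j` for `i = 0..3`, then the words `h` in `t, v, y`, capital = inverse):
A: `0 2 3 1`; `t, 1, TYTvYTy, 1`.
U: `0 3 1 2`; `Tv, y, y, tytYVyt`.
B: `1 0 3 2`; `1, 1, T, t`.
(The signs are `+` except for B: `+ - + -`.) Values in `Q2 (Qf (-2) 0 ℤ)`: `t ↦ (1, mU 1, (w, 0) - 2 (1, 0)) = (1, mU 1, (-2 + w, 0))`, `v ↦ (1, v2, 0)`, `y ↦ (1, y2, (2, 0))`. (Checked by computer: the relators of the
table are trivial for these values.) `-1` is not in `P3` (`1 ≠ -1` modulo `3`). The multiplication of pairs of integers is `(x, x') (y, y') = (x y - 2 x' y', x y' + x' y)`.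
Last claim: `g = t y`, `h = v`: `Q2.W (Θ (t y)) (Θ v) 0 = -(1 + w)² w`, of norm `18` (up to the sign; see the lemma `tab_W`). -/
def U_tab2 : Prop :=
  (∀ H : Subgroup (GQ (-2) 0), mU 1 ∈ H → v2 ∈ H → y2 ∈ H → P3 2 hu2 ≤ H) ∧ CocQ (P3 2 hu2)

/-- [BG U_rel2] the last relation.

Proof. `X = mB * (mU w)⁻¹ * mB * mU w`, `X² = -1` in `SL₂(ℤ[w])` (`decide`), and `ρ (-1) = ρ (mB)² = -1`. So `tr (ρ X) = 0` (`X² = x X - 1`). `U⁻¹ = c + f N`, `U = c - f N`
(`N = [[0, (s + 1) / 2], [(s - 1) / 2, 0]]`), `tr (B U⁻¹ B U) = -(2 c² + f² (s² + 1) / 2)`, so `4 c² + f² (s² + 1) = 0`. With `e2`: `f² s² = -2` and `4 c² + f² = 2`. -/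
def U_rel2 : Prop := ∀ (K : Type) [Field K], (2 : K) ≠ 0 → ∀ (ρ : GQ (-2) 0 →* SL2 K)
  (s p c f : K), NFg ρ s p c f → f ^ 2 * s ^ 2 = -2 ∧ 4 * c ^ 2 + f ^ 2 = 2

/-- [BG U_det2] the determinant.

As `PIC7/P_det.lean`: a computation with explicit matrices (`x = (s + 1) / 2`, `y = (s - 1) / 2` are the entries; `x - y = 1`, `4 x y = s² - 1`); certificates for
`linear_combination` can be produced by a computer algebra program with the relations. (Checked by computer at random points over a finite field.) -/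
def U_det2 : Prop := ∀ (K : Type) [Field K], (2 : K) ≠ 0 → ∀ s p c f : K, s ≠ 0 →
  4 * p ^ 2 = s ^ 2 + 3 → f ^ 2 * s ^ 2 = -2 → 4 * c ^ 2 + f ^ 2 = 2 →
  ∀ T V B Y : SL2 K,
  T.val = !![p, (s + 1) / 2; (s - 1) / 2, p] →
  V.val = !![c, f * ((s + 1) / 2); f * ((s - 1) / 2), c] →
  B.val = !![0, -1; 1, 0] → Y = B⁻¹ * (V⁻¹ * T) * B →
  (1 - (T * Y * V * Y * T).val - (1 - Y.val) * (T.val + (T * Y * V).val)).det =
    8 - 3 * f - 4 * p - 4 * p * c + 4 * p * f + s ^ 2 * f - 2 * s ^ 2 * f * c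

/-- [BG U_coc2] the representations with a cocycle. (Uses `U_tab2`, `U_rel2`, `U_det2`.)

As `PIC7/P_coc.lean` (the relation is the same: with `t = mU 1`, `u = mU w`, `y = y2`: `y (t y u⁻¹ y t) = (t y u⁻¹ y t) y`, by `decide`). Proof. `T, U, Y` the images of `t, u, y`, `V = U⁻¹`, `y2 = mB⁻¹ * v2 * mB`,
`v2 = u t`. Suppose not (`p = 1` and `c = 1`). Let `Θ : P3 →* Q2 K` be as in `Ex1` (the translation parts `ζ g = (Θ g).v` satisfy `ζ (g h) = ζ g + ρ g ζ h`). `det (T - 1) = 2 - 2 p`, and if `p = 1` then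
`det (ρ v2 - 1) = 2 - tr (ρ v2) = 2 - 2 (p c - f (p² - 1)) = 2 - 2 c`, so one of `T - 1`, `ρ v2 - 1` is invertible; subtracting a coboundary (this does not change `Q2.W`: conjugate `Θ` with a translation) we
get `ζ t = 0` and `ζ v2 = 0` (`coc_fix`). Note that `u ∉ P3`, but `t y u⁻¹ y t = t y v2⁻¹ t y t`: use the latter word in `P3`. Let `η = ζ y`. `ζ (t y v2⁻¹ t y t) = (T + T Y U⁻¹) η` (`v2⁻¹ t = u⁻¹`), so the relation gives
`η + Y (T + T Y U⁻¹) η = (T + T Y U⁻¹) η + Y₂ η`, `Y₂ = T Y U⁻¹ Y T`: `D η = 0` with `D` of `U_det2`. If `det D ≠ 0` then `η = 0`, `ζ` is zero on the generators, so on `P3`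
(`U_tab2`, first part), so all `W` are zero, contradiction to `NC`. -/
def U_coc2 : Prop := ∀ (K : Type) [Field K], (2 : K) ≠ 0 → ∀ (ρ : GQ (-2) 0 →* SL2 K)
  (s p c f : K), NFg ρ s p c f → PIC.Pt (P3 2 hu2) ρ → (p = 1 ∧ c = 1) ∨
    8 - 3 * f - 4 * p - 4 * p * c + 4 * p * f + s ^ 2 * f - 2 * s ^ 2 * f * c = 0

/-- [BG U_cg2] the conjugate representation.

Proof. `cGq` maps `mB`, `mU 1`, `(mU w)⁻¹` to `mB`, `mU 1`, `mU w`; `U = (c + f N)⁻¹ = c - f N`. -/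
def U_cg2 : Prop := ∀ (K : Type) [Field K], (2 : K) ≠ 0 → ∀ (ρ : GQ (-2) 0 →* SL2 K)
  (s p c f : K), NFg ρ s p c f → NFg (ρ.comp (cGq (-2) 0)) s p c (-f)

/-- [BG U_alg2] the equations.

Proof. The sum of the last two equations: `p (1 + c) = 2`. The difference divided by `2 f` (`f ≠ 0`): `4 p + s² - 3 - 2 s² c = 0`; times `p` and with `p c = 2 - p`, `s² = 4 p² - 3`: `6 (p - 1)² (p + 1) = 0`. From
`4 c² s² = 2 s² + 2` (multiply `4 c² + f² = 2` by `s²`), times `p²`: `(p - 1)² (p² - 6 p - 6) = 0`. Suppose `p ≠ 1`. If `3 ≠ 0` then `p = -1` and `1 = 0`. If `3 = 0` then `p² = 0`, contradiction to `p (1 + c) = 2`. So `p = 1`, `c = 1`. -/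
def U_alg2 : Prop := ∀ (K : Type) [Field K], (2 : K) ≠ 0 → ∀ s p c f : K, s ≠ 0 →
  4 * p ^ 2 = s ^ 2 + 3 → f ^ 2 * s ^ 2 = -2 → 4 * c ^ 2 + f ^ 2 = 2 →
  8 - 3 * f - 4 * p - 4 * p * c + 4 * p * f + s ^ 2 * f - 2 * s ^ 2 * f * c = 0 →
  8 + 3 * f - 4 * p - 4 * p * c - 4 * p * f - s ^ 2 * f + 2 * s ^ 2 * f * c = 0 →
  p = 1 ∧ c = 1

/-- [BG U_cgP] property P for the conjugate subgroup.

Proof. As `PIC7/P_cg.lean`: `cGq` restricts to an isomorphism of `P3 u hu` to `P3 (b - u) _` (`mem_P3_cG`, `cGq_cGq`). -/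
def U_cgP (a b : ℤ) (u : ZMod 3) (hu : u * u = (a : ZMod 3) + (b : ZMod 3) * u) : Prop :=
  ∀ (K : Type) [CommRing K] (ρ : GQ a b →* SL2 K), PIC.Pt (P3 ((b : ZMod 3) - u) (rt_cj hu)) ρ →
    PIC.Pt (P3 u hu) (ρ.comp (cGq a b))

/-- [BG U_g3_2] at most two characters. (Uses `U_nf`, `U_std`, `U_rel2`, `U_coc2`, `U_cg2`, `U_alg2`, `U_cgP`, `PIC7.S_pf`.)

As `PIC7/P_g3.lean`. Proof. By `PIC7.S_pf` we may replace `k` by its algebraic closure `K`. `CLAIM`: if `ρ` has `PIC7.Pt2` (both subgroups), then there is `x`, `x² = -2`, with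
`tr (ρ g) = evq .. x (tr g)` for all `g`. `Irr` of the restriction to `P3` implies `Irr`; `U_nf` gives `NFg ρ₁ s p c f`, `ρ₁` a conjugate of `ρ`, with the same property P (`PIC7.S_pf`, third part). `U_coc2` for `ρ₁` and for
`ρ₁.comp cGq` (`U_cgP`, `U_cg2`): `p = 1 ∧ c = 1`, or both polynomials are zero, and then `U_alg2`. `s² = 1` (`e1`), so `f² = -2` (`U_rel2`), `U_std` for `ρ₁`. Two of the three `x_i` are equal (`x_i = x_0` or `x_i = - x_0`), then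
the two characters are equal. -/
def U_g3_2 : Prop := ∀ (k : Type) [Field k], (2 : k) ≠ 0 → ¬ GdG (a := -2) (b := 0) 2 hu2 k 3

/-! ## `ℚ(√-11)` -/

theorem hu11 : (0 : ZMod 3) * 0 = ((-3 : ℤ) : ZMod 3) + ((1 : ℤ) : ZMod 3) * 0 := by decide

/-- `v = [[1, w], [0, 1]]` -/
def v11 : GQ (-3) 1 := mU (wq (-3) 1 ℤ)

/-- `y = [[1, 0], [-w, 1]] = B⁻¹ v B` -/
def y11 : GQ (-3) 1 := AB.mx 1 0 ⟨0, -1⟩ 1 (by decide)

/-- [BG U_tab11] The subgroup `P3 0 hu11` is generated by `mU 1`, `v11`, `y11` and has a non-trivial cocycle. (Uses nothing; `D11.pres'`.)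

Adapt `PIC7/P_tab.lean` (739 lines; the structure can be kept line by line). `D11.Rel Q al up be`: `c1` `al up = up al`, `c2` `be be = 1`, `c3` `(al be)³ = 1`,
`c4` `(be al up⁻¹ be up)³ = 1`. Four cosets of `± P3`, `x r_i = ± r_j h`. Words: leftmost letter applied last, in `A = mU 1`, `U = mU w`, `B = mB`, `A' = A⁻¹`; the
representatives are `1, B, A B, A' B`. Tables (`j` for `i = 0..3`, then the words `h` in `t, v, y`, capital = inverse):
A: `0 2 3 1`; `t, 1, TYtyVytYTy, 1`.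
U: `0 1 2 3`; `v, y, y, y`.
B: `1 0 3 2`; `1, 1, T, t`.
(The signs are `+` except for B: `+ - + -`.) Values in `Q2 (Qf (-3) 1 ℤ)`: `t ↦ (1, mU 1, (w, 0))`, `v ↦ (1, v11, 0)`, `y ↦ (1, y11, (2, 0))`. (Checked by computer: the relators of the
table are trivial for these values.) `-1` is not in `P3` (`1 ≠ -1` modulo `3`). The multiplication of pairs of integers is `(x, x') (y, y') = (x y - 3 x' y', x y' + x' y + x' y')`.
Last claim: `g = t y`, `h = v`: `Q2.W (Θ (t y)) (Θ v) 0 = -w² (w + 2)`, of norm `81` (up to the sign; see the lemma `tab_W`). -/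
def U_tab11 : Prop :=
  (∀ H : Subgroup (GQ (-3) 1), mU 1 ∈ H → v11 ∈ H → y11 ∈ H → P3 0 hu11 ≤ H) ∧ CocQ (P3 0 hu11)

/-- [BG U_rel11] the last relation.

Proof. `X = mB * mU 1 * (mU w)⁻¹ * mB * mU w`, `X³ = -1` in `SL₂(ℤ[w])` (`decide`), and `ρ (-1) = ρ (mB)² = -1`. For the image `X` in `SL₂(K)`: `X² = x X - 1`, `(x² - 1) X = x - 1`, so `x = 1` or `X` is scalar, then `X = -1`. If `X = -1` then
`T U⁻¹ = B U⁻¹ B⁻¹`: `(p + N) (c + f N) = c + f B N B⁻¹`, `B N B⁻¹ = [[0, -y], [-x, 0]]`, `x = (s + 1) / 2`, `y = (s - 1) / 2`: the off-diagonal entries give `(c + p f) x = - f y`, `(c + p f) y = - f x`, so (sum, difference; `s ≠ 0`)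
`c + p f = - f`, `c + p f = f`, so `f = 0`, `c = 0`, contradiction to `e2`. So `tr X = 1`, and this is the equation. -/
def U_rel11 : Prop := ∀ (K : Type) [Field K], (2 : K) ≠ 0 → ∀ (ρ : GQ (-3) 1 →* SL2 K)
  (s p c f : K), NFg ρ s p c f → s ^ 2 * f * (c + f * p) = -(1 + 2 * p)

/-- [BG U_det11] the determinant.

As `PIC7/P_det.lean`: a computation with explicit matrices; certificates for `linear_combination` can be produced by a computer algebra program with the relations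
(`hz` is a consequence of them). One can also use that `Z` and `Y` commute (`hz` and ... see `U_coc11`; it can be checked directly): then
`D = 1 + Z (Y⁻¹ T - Y⁻¹ - T) - (1 - Y) T⁻¹ Y⁻¹ (-1 + T + T Y V)`. (Checked by computer at random points over a finite field.) -/
def U_det11 : Prop := ∀ (K : Type) [Field K], (2 : K) ≠ 0 → ∀ s p c f : K, s ≠ 0 →
  4 * p ^ 2 = s ^ 2 + 3 → 4 * c ^ 2 = 4 + f ^ 2 * (s ^ 2 - 1) →
  s ^ 2 * f * (c + f * p) = -(1 + 2 * p) →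
  ∀ T V B Y Z : SL2 K,
  T.val = !![p, (s + 1) / 2; (s - 1) / 2, p] →
  V.val = !![c, f * ((s + 1) / 2); f * ((s - 1) / 2), c] →
  B.val = !![0, -1; 1, 0] → Y = B⁻¹ * V⁻¹ * B → Z = B⁻¹ * (T * T * T) * B →
  Z = T⁻¹ * Y⁻¹ * T * Y * V * Y * T * Y⁻¹ * T⁻¹ * Y → Z * Y = Y * Z →
  (1 - Z.val - (1 - Y.val) * (-(T⁻¹ * Y⁻¹).val + (T⁻¹ * Y⁻¹ * T).val +
    (T⁻¹ * Y⁻¹ * T * Y * V).val - (Z * Y⁻¹ * T).val + (Z * Y⁻¹).val)).det =
    24 - 24 * c - 16 * p - 12 * f ^ 2 + 20 * p * c - 8 * p * f + 8 * p ^ 2 * c + 4 * p ^ 2 * f +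
      16 * p ^ 2 * f ^ 2 + 8 * p ^ 3 * f

/-- [BG U_coc11] the representations with a cocycle. (Uses `U_tab11`, `U_rel11`, `U_det11`.)

As `PIC7/P_coc.lean`. Proof. `t = mU 1`, `v = v11 = mU w`, `y = y11 = mB⁻¹ * v * mB`, `z = mB⁻¹ * t³ * mB`; in `SL₂(ℤ[w])` (`decide`): `z = t⁻¹ y⁻¹ t y v⁻¹ y t y⁻¹ t⁻¹ y`, `z y = y z`. `T, Y, Z` the images of `t, y, z`, `V = ρ (v⁻¹)`. Suppose not (`p = 1` and `c = 1`). Let
`Θ : P3 →* Q2 K` be as in `Ex1` (the translation parts `ζ g = (Θ g).v` satisfy `ζ (g h) = ζ g + ρ g ζ h`). `det (T - 1) = 2 - 2 p`, `det (V - 1) = 2 - 2 c`, so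
one of `T - 1`, `V - 1` is invertible; subtracting a coboundary (this does not change `Q2.W`: conjugate `Θ` with a translation) we
get `ζ t = 0` and `ζ v = 0` (`coc_fix`). Let `η = ζ y`. `ζ z = E η` with `E = - T⁻¹ Y⁻¹ + T⁻¹ Y⁻¹ T + T⁻¹ Y⁻¹ T Y V - Z Y⁻¹ T + Z Y⁻¹` (the last two terms are the images of `t⁻¹ y⁻¹ t y v⁻¹ y t y⁻¹` and `t⁻¹ y⁻¹ t y v⁻¹ y t y⁻¹ t⁻¹`), so
`η + Y E η = E η + Z η`: `D η = 0` with `D` of `U_det11`. If `det D ≠ 0` then `η = 0`, `ζ` is zero on the generators, so on `P3`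
(`U_tab11`, first part), so all `W` are zero, contradiction to `NC`. -/
def U_coc11 : Prop := ∀ (K : Type) [Field K], (2 : K) ≠ 0 → ∀ (ρ : GQ (-3) 1 →* SL2 K)
  (s p c f : K), NFg ρ s p c f → PIC.Pt (P3 0 hu11) ρ → (p = 1 ∧ c = 1) ∨
    24 - 24 * c - 16 * p - 12 * f ^ 2 + 20 * p * c - 8 * p * f + 8 * p ^ 2 * c + 4 * p ^ 2 * f +
      16 * p ^ 2 * f ^ 2 + 8 * p ^ 3 * f = 0

/-- [BG U_cg11] the conjugate representation.

Proof. `cGq` maps `mB`, `mU 1`, `(mU w)⁻¹` to `mB`, `mU 1`, `mU (w - 1) = (mU 1)⁻¹ * mU w`; `(p - N) (c - f N) = (p c + f (p² - 1)) - (c + p f) N` (`N² = p² - 1`). -/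
def U_cg11 : Prop := ∀ (K : Type) [Field K], (2 : K) ≠ 0 → ∀ (ρ : GQ (-3) 1 →* SL2 K)
  (s p c f : K), NFg ρ s p c f →
  NFg (ρ.comp (cGq (-3) 1)) s p (p * c + f * (p ^ 2 - 1)) (-(c + p * f))

/-- [BG U_alg11] the equations.

Proof. Let `m = c + (p - 1) f`, `n = c + (p + 1) f`, `z = s² = 4 p² - 3`. Then `z m² = 2 p - 1`, `z n² = -(6 p + 5)` (from `e2`: `c² = 1 + f² (p² - 1)`, and the third equation). The sum and the difference of the last two equations are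
`4 (9 - 10 p + (6 p² + p - 6) m)` and `4 n (- z m - 2 p² + 9 p - 6)` modulo the first three. Case `n = 0`: `6 p = -5`, `2 m = 13`, `m² = 12` (`36 z = -8`), so `121 = 0`, `11 = 0`, `p = 1`, `m = 1`. Case `z m = - 2 p² + 9 p - 6`: `z` times the first and
`(z m)² = z (2 p - 1)` give `3 (p - 1)² (2 p - 1) (2 p + 3) = 0` and `(p - 1)² (4 p² - 36 p + 33) = 0`. Suppose `p ≠ 1`. `2 p = 1` gives `16 = 0`; `2 p = -3` gives `96 = 0`, so `3 = 0`, `p = 0`, `z = 0`, contradiction; if `3 = 0` then `p² = 0`, `z = 0`, contradiction.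
So `p = 1`, `z = 1`, `m = 1`, `c = 1`. -/
def U_alg11 : Prop := ∀ (K : Type) [Field K], (2 : K) ≠ 0 → ∀ s p c f c' f' : K, s ≠ 0 →
  4 * p ^ 2 = s ^ 2 + 3 → 4 * c ^ 2 = 4 + f ^ 2 * (s ^ 2 - 1) →
  s ^ 2 * f * (c + f * p) = -(1 + 2 * p) → c' = p * c + f * (p ^ 2 - 1) → f' = -(c + p * f) →
  24 - 24 * c - 16 * p - 12 * f ^ 2 + 20 * p * c - 8 * p * f + 8 * p ^ 2 * c + 4 * p ^ 2 * f +
    16 * p ^ 2 * f ^ 2 + 8 * p ^ 3 * f = 0 →
  24 - 24 * c' - 16 * p - 12 * f' ^ 2 + 20 * p * c' - 8 * p * f' + 8 * p ^ 2 * c' + 4 * p ^ 2 * f' +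
    16 * p ^ 2 * f' ^ 2 + 8 * p ^ 3 * f' = 0 →
  p = 1 ∧ c = 1

/-- [BG U_g3_11] at most two characters. (Uses `U_nf`, `U_std`, `U_rel11`, `U_coc11`, `U_cg11`, `U_alg11`, `U_cgP`, `PIC7.S_pf`.)

As `U_g3_2`. `U_coc11` for `ρ₁` and for `ρ₁.comp cGq` with `(c', f') = (p c + f (p² - 1), -(c + p f))`: if `p = 1` and `c' = 1` then `c = 1`. With `p = c = 1`, `s² = 1`: `f (1 + f) = -3` (`U_rel11`), so
`f² = -3 - f`, `U_std`. Two roots of `x² = -3 + x` are equal or `x' = 1 - x`. -/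
def U_g3_11 : Prop := ∀ (k : Type) [Field k], (2 : k) ≠ 0 → ¬ GdG (a := -3) (b := 1) 0 hu11 k 3

end

end Pool.Agent.F8.BG
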