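import Pool.Agent.Lib.MP_305fdd_al.F8.BG.Word

/-!
# MP_305fdd_al, Bianchi groups: coset tables

A table `t : Tb n ι` gives for every `i : Fin n` a pair `(j, h)`, `h` a word; it acts on `Fin n × GR α` by `(i, m) ↦ (j, h m)`.
-/

set_option autoImplicit false

namespace Pool.Agent.F8.BG

/-- a table -/
abbrev Tb (n : ℕ) (ι : Type) : Type := Fin n → Fin n × Wd ι

namespace Tb

variable {n : ℕ} {ι : Type}

/-- the trivial table -/
def one : Tb n ι := fun i => (i, ([], 0))

/-- the action -/
def act (α : MulAut (FreeGroup ι)) (t : Tb n ι) (x : Fin n × GR α) : Fin n × GR α :=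
  ((t x.1).1, Wd.ev α (t x.1).2 * x.2)

theorem act_one (α : MulAut (FreeGroup ι)) (x : Fin n × GR α) : act α one x = x := by
  unfold act one
  simp only [Wd.ev_one, one_mul]

variable [DecidableEq ι]

/-- one step: apply the table `t` to `(i, h)` -/
def step (W V : ι → List (ι × Bool)) (t : Tb n ι) (x : Fin n × Wd ι) : Fin n × Wd ι :=
  match t x.1 with
  | (j, h) => (j, Wd.mul W V h x.2)

/-- the product of tables (the leftmost table is applied last) -/
def mul (W V : ι → List (ι × Bool)) (s t : Tb n ι) : Tb n ι := fun i => step W V s (t i)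

/-- the product of a list of tables (the leftmost table is applied last) -/
def prod (W V : ι → List (ι × Bool)) (l : List (Tb n ι)) : Tb n ι :=
  fun i => l.foldr (step W V) (i, ([], 0))

variable (W V : ι → List (ι × Bool)) (h1 : ∀ i, FreeGroup.reduce (sbw W (V i)) = [(i, true)])
    (h2 : ∀ i, FreeGroup.reduce (sbw V (W i)) = [(i, true)])

theorem act_mul (s t : Tb n ι) (x : Fin n × GR (autw W V h1 h2)) :
    act _ (mul W V s t) x = act _ s (act _ t x) := by
  show ((s (t x.1).1).1, Wd.ev _ (Wd.mul W V (s (t x.1).1).2 (t x.1).2) * x.2) =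
    ((s (t x.1).1).1, Wd.ev _ (s (t x.1).1).2 * (Wd.ev _ (t x.1).2 * x.2))
  rw [Wd.ev_mul, mul_assoc]

theorem prod_nil : prod W V ([] : List (Tb n ι)) = one := rfl

theorem prod_cons (t : Tb n ι) (l : List (Tb n ι)) :
    prod W V (t :: l) = mul W V t (prod W V l) := rfl

/-- the permutation given by a table and its inverse -/
def perm (t t' : Tb n ι) (e1 : prod W V [t, t'] = one) (e2 : prod W V [t', t] = one) :
    Equiv.Perm (Fin n × GR (autw W V h1 h2)) where
  toFun := act _ t
  invFun := act _ t'
  left_inv x := by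
    have h := congrArg (fun s => act (autw W V h1 h2) s x) e2
    simp only [prod_cons, prod_nil, act_mul, act_one] at h
    exact h
  right_inv x := by
    have h := congrArg (fun s => act (autw W V h1 h2) s x) e1
    simp only [prod_cons, prod_nil, act_mul, act_one] at h
    exact h

end Tb

end Pool.Agent.F8.BG
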