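import Pool.Agent.Lib.MP_305fdd_al.F8.BG.Defs

/-!
# MP_305fdd_al, Bianchi groups: computing with words in `F ⋊ ℤ`

Words are lists `L : List (ι × Bool)`. `sbw W L` substitutes the words `W i` for the letters; `autw` is the automorphism given by words; `Wd` is the type
of the pairs `(L, n)`, which stand for `mk L * t ^ n`, with the multiplication `Wd.mul`.
-/

set_option autoImplicit false

namespace Pool.Agent.F8.BG

variable {ι : Type}

/-- substitution of words -/
def sbw (W : ι → List (ι × Bool)) (L : List (ι × Bool)) : List (ι × Bool) :=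
  L.flatMap fun p => if p.2 then W p.1 else FreeGroup.invRev (W p.1)

theorem mk_sbw (W : ι → List (ι × Bool)) (L : List (ι × Bool)) :
    FreeGroup.mk (sbw W L) = FreeGroup.lift (fun i => FreeGroup.mk (W i)) (FreeGroup.mk L) := by
  induction L with
  | nil => simp [sbw]; rfl
  | cons p L ih =>
    have h1 : sbw W (p :: L) = (if p.2 then W p.1 else FreeGroup.invRev (W p.1)) ++ sbw W L := by
      simp [sbw]
    have h2 : FreeGroup.mk (p :: L) = FreeGroup.mk [p] * FreeGroup.mk L := by
      rw [FreeGroup.mul_mk]; rfl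
    rw [h1, ← FreeGroup.mul_mk, ih, h2, map_mul]
    congr 1
    obtain ⟨i, b⟩ := p
    cases b
    · have h3 : FreeGroup.mk [(i, false)] = (FreeGroup.of i)⁻¹ := rfl
      rw [h3, map_inv, FreeGroup.lift_apply_of]
      show FreeGroup.mk (FreeGroup.invRev (W i)) = _
      rw [← FreeGroup.inv_mk]
    · have h3 : FreeGroup.mk [(i, true)] = FreeGroup.of i := rfl
      rw [h3, FreeGroup.lift_apply_of]
      rfl

variable [DecidableEq ι]

theorem mk_of_reduce {L : List (ι × Bool)} {L' : List (ι × Bool)} (h : FreeGroup.reduce L = L') :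
    FreeGroup.mk L = FreeGroup.mk L' := by
  rw [← h]; exact FreeGroup.reduce.self.symm

/-- the automorphism given by words -/
def autw (W V : ι → List (ι × Bool)) (h1 : ∀ i, FreeGroup.reduce (sbw W (V i)) = [(i, true)])
    (h2 : ∀ i, FreeGroup.reduce (sbw V (W i)) = [(i, true)]) : MulAut (FreeGroup ι) :=
  MonoidHom.toMulEquiv (FreeGroup.lift fun i => FreeGroup.mk (W i))
    (FreeGroup.lift fun i => FreeGroup.mk (V i))
    (by
      apply FreeGroup.ext_hom
      intro i
      rw [MonoidHom.comp_apply, FreeGroup.lift_apply_of, ← mk_sbw, mk_of_reduce (h2 i)]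
      rfl)
    (by
      apply FreeGroup.ext_hom
      intro i
      rw [MonoidHom.comp_apply, FreeGroup.lift_apply_of, ← mk_sbw, mk_of_reduce (h1 i)]
      rfl)

section autw

variable (W V : ι → List (ι × Bool)) (h1 : ∀ i, FreeGroup.reduce (sbw W (V i)) = [(i, true)])
    (h2 : ∀ i, FreeGroup.reduce (sbw V (W i)) = [(i, true)])

theorem autw_mk (L : List (ι × Bool)) :
    autw W V h1 h2 (FreeGroup.mk L) = FreeGroup.mk (FreeGroup.reduce (sbw W L)) := by
  rw [FreeGroup.reduce.self, mk_sbw]; rfl

theorem autw_inv_mk (L : List (ι × Bool)) :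
    (autw W V h1 h2)⁻¹ (FreeGroup.mk L) = FreeGroup.mk (FreeGroup.reduce (sbw V L)) := by
  rw [FreeGroup.reduce.self, mk_sbw]; rfl

theorem autw_of (i : ι) : autw W V h1 h2 (FreeGroup.of i) = FreeGroup.mk (W i) := by
  show FreeGroup.lift (fun i => FreeGroup.mk (W i)) (FreeGroup.of i) = _
  rw [FreeGroup.lift_apply_of]

/-- the word of `(α ^ n) L` -/
def apw (W V : ι → List (ι × Bool)) (n : ℤ) (L : List (ι × Bool)) : List (ι × Bool) :=
  match n with
  | Int.ofNat k => (fun L => FreeGroup.reduce (sbw W L))^[k] L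
  | Int.negSucc k => (fun L => FreeGroup.reduce (sbw V L))^[k + 1] L

theorem mk_apw (n : ℤ) (L : List (ι × Bool)) :
    FreeGroup.mk (apw W V n L) = ((autw W V h1 h2) ^ n) (FreeGroup.mk L) := by
  cases n with
  | ofNat k =>
    show FreeGroup.mk ((fun L => FreeGroup.reduce (sbw W L))^[k] L) = _
    rw [Int.ofNat_eq_natCast, zpow_natCast]
    induction k generalizing L with
    | zero => rfl
    | succ k ih =>
      rw [Function.iterate_succ_apply, ih, pow_succ, MulAut.mul_apply, autw_mk]
  | negSucc k =>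
    show FreeGroup.mk ((fun L => FreeGroup.reduce (sbw V L))^[k + 1] L) = _
    rw [zpow_negSucc, ← inv_pow]
    generalize k + 1 = m
    induction m generalizing L with
    | zero => rfl
    | succ k ih =>
      rw [Function.iterate_succ_apply, ih, pow_succ, MulAut.mul_apply, autw_inv_mk]

end autw

/-- the pair `(L, n)` stands for `mk L * t ^ n` -/
abbrev Wd (ι : Type) : Type := List (ι × Bool) × ℤ

namespace Wd

/-- the product of words -/
def mul (W V : ι → List (ι × Bool)) (x y : Wd ι) : Wd ι :=
  (FreeGroup.reduce (x.1 ++ apw W V x.2 y.1), x.2 + y.2)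

/-- the inverse of a word -/
def inv (W V : ι → List (ι × Bool)) (x : Wd ι) : Wd ι :=
  (apw W V (-x.2) (FreeGroup.invRev x.1), -x.2)

/-- the product of a list -/
def prod (W V : ι → List (ι × Bool)) (l : List (Wd ι)) : Wd ι :=
  l.foldr (mul W V) ([], 0)

variable (W V : ι → List (ι × Bool)) (h1 : ∀ i, FreeGroup.reduce (sbw W (V i)) = [(i, true)])
    (h2 : ∀ i, FreeGroup.reduce (sbw V (W i)) = [(i, true)])

omit [DecidableEq ι] in
/-- the element -/
def ev {ι : Type} (α : MulAut (FreeGroup ι)) (x : Wd ι) : GR α :=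
  iR α (FreeGroup.mk x.1) * tR α ^ x.2

theorem ev_mul (x y : Wd ι) : ev (autw W V h1 h2) (mul W V x y) =
    ev (autw W V h1 h2) x * ev (autw W V h1 h2) y := by
  unfold ev mul
  simp only
  rw [FreeGroup.reduce.self, ← FreeGroup.mul_mk, map_mul, mk_apw W V h1 h2, ← tR_zpow_conj, zpow_add]
  group

omit [DecidableEq ι] in
theorem ev_one (α : MulAut (FreeGroup ι)) : ev α ([], 0) = 1 := by
  unfold ev
  rw [show FreeGroup.mk ([] : List (ι × Bool)) = 1 from rfl, map_one, zpow_zero, one_mul]

theorem ev_inv (x : Wd ι) : ev (autw W V h1 h2) (inv W V x) =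
    (ev (autw W V h1 h2) x)⁻¹ := by
  unfold ev inv
  simp only
  rw [mk_apw W V h1 h2, ← tR_zpow_conj, ← FreeGroup.inv_mk, map_inv]
  group

theorem ev_prod (l : List (Wd ι)) : ev (autw W V h1 h2) (prod W V l) =
    (l.map (ev (autw W V h1 h2))).prod := by
  induction l with
  | nil => exact ev_one _
  | cons x l ih =>
    rw [List.map_cons, List.prod_cons, ← ih, ← ev_mul]; rfl

end Wd

end Pool.Agent.F8.BG
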